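import Mathlib

set_option autoImplicit false

/-!
Compact operators on a Banach space that are symmetric for a continuous positive definite form.
-/

namespace Pool.Agent.H24Z.NP

open Filter Topology

variable {X : Type*} [NormedAddCommGroup X] [NormedSpace ℝ X]

lemma cs (Q : X →L[ℝ] X →L[ℝ] ℝ) (hs : ∀ x y, Q x y = Q y x) (hp : ∀ x, 0 ≤ Q x x) (x y : X) :
    Q x y ^ 2 ≤ Q x x * Q y y := by
  have h : ∀ t : ℝ, 0 ≤ Q x x * (t * t) + (2 * Q x y) * t + Q y y := by
    intro t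
    have := hp (t • x + y)
    simp only [map_add, map_smul, ContinuousLinearMap.add_apply, ContinuousLinearMap.smul_apply,
      smul_eq_mul] at this
    rw [hs y x] at this
    nlinarith
  have := discrim_le_zero h
  unfold discrim at this
  nlinarith

lemma lax (B : X →L[ℝ] X →L[ℝ] ℝ) (hs : ∀ x y, B x y = B y x) (hp : ∀ x, 0 ≤ B x x)
    (R : X →L[ℝ] X) (hR : ∀ x y, B (R x) y = B x (R y)) (x : X) :
    B (R x) (R x) ≤ ‖R‖ ^ 2 * B x x := by
  set a : ℕ → ℝ := fun n => B ((R ^ n) x) ((R ^ n) x) with ha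
  have h0 : a 0 = B x x := by simp [ha]
  have h1 : a 1 = B (R x) (R x) := by simp [ha]
  have hpow : ∀ n, (R ^ (n + 1)) x = R ((R ^ n) x) := fun n => by
    rw [pow_succ']; rfl
  have hlc : ∀ n, a (n + 1) ^ 2 ≤ a n * a (n + 2) := by
    intro n
    have : a (n + 1) = B ((R ^ n) x) ((R ^ (n + 2)) x) := by
      simp only [ha]
      rw [hpow (n + 1), ← hR, ← hpow n]
    rw [this]
    exact cs B hs hp _ _
  have hup : ∀ n, a n ≤ ‖B‖ * ‖x‖ ^ 2 * (‖R‖ ^ 2) ^ n := by
    intro n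
    have h2 : ‖(R ^ n) x‖ ≤ ‖R‖ ^ n * ‖x‖ := by
      rcases Nat.eq_zero_or_pos n with rfl | hn
      · simp
      · exact ((R ^ n).le_opNorm x).trans (by gcongr; exact norm_pow_le' R hn)
    calc a n ≤ ‖B ((R ^ n) x) ((R ^ n) x)‖ := le_abs_self _
      _ ≤ ‖B‖ * ‖(R ^ n) x‖ * ‖(R ^ n) x‖ := B.le_opNorm₂ _ _
      _ ≤ ‖B‖ * (‖R‖ ^ n * ‖x‖) * (‖R‖ ^ n * ‖x‖) := by gcongr
      _ = _ := by ring
  rw [← h0, ← h1]
  by_contra hcon
  push Not at hcon
  have ha0 : 0 < a 0 := by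
    have h00 : 0 ≤ a 0 := hp _
    rcases h00.lt_or_eq with h | h
    · exact h
    · have := hlc 0
      rw [← h] at this hcon
      simp only [zero_add, zero_mul, mul_zero] at this hcon
      nlinarith
  set q := a 1 / a 0 with hq
  have hq1 : ‖R‖ ^ 2 < q := by rwa [hq, lt_div_iff₀ ha0]
  have hq0 : 0 < q := lt_of_le_of_lt (by positivity) hq1
  have hind : ∀ n, 0 < a n ∧ q * a n ≤ a (n + 1) := by
    intro n
    induction n with
    | zero => exact ⟨ha0, by rw [hq, div_mul_cancel₀ _ ha0.ne']⟩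
    | succ n ih =>
      have hpos : 0 < a (n + 1) := lt_of_lt_of_le (mul_pos hq0 ih.1) ih.2
      refine ⟨hpos, ?_⟩
      have h3 := hlc n
      have h4 : a n * (q * a (n + 1)) ≤ a n * a (n + 2) := by nlinarith [ih.2]
      exact le_of_mul_le_mul_left h4 ih.1
  have hlow : ∀ n, q ^ n * a 0 ≤ a n := by
    intro n
    induction n with
    | zero => simp
    | succ n ih =>
      calc q ^ (n + 1) * a 0 = q * (q ^ n * a 0) := by ring
        _ ≤ q * a n := by gcongr
        _ ≤ _ := (hind n).2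
  have ht : Tendsto (fun n : ℕ => ‖B‖ * ‖x‖ ^ 2 * (‖R‖ ^ 2 / q) ^ n) atTop (𝓝 (‖B‖ * ‖x‖ ^ 2 * 0)) :=
    (tendsto_pow_atTop_nhds_zero_of_lt_one (by positivity)
      ((div_lt_one hq0).mpr hq1)).const_mul _
  have : a 0 ≤ ‖B‖ * ‖x‖ ^ 2 * 0 := by
    apply ge_of_tendsto' ht
    intro n
    rw [div_pow, ← mul_div_assoc, le_div_iff₀ (by positivity)]
    linarith [hlow n, hup n]
  linarith

variable [CompleteSpace X]

lemma rayleigh (B : X →L[ℝ] X →L[ℝ] ℝ) (hs : ∀ x y, B x y = B y x) (hp : ∀ x, 0 ≤ B x x)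
    (T : X →L[ℝ] X) (hT : ∀ x y, B (T x) y = B x (T y)) (hc : IsCompactOperator T) :
    ∃ m : ℝ, (∀ x, B (T x) x ≤ m * B x x) ∧
      (m ≤ 0 ∨ Module.End.HasEigenvalue (T : Module.End ℝ X) m) := by
  set U : Set ℝ := {s | 0 ≤ s ∧ ∀ x, B (T x) x ≤ s * B x x} with hU
  have hne : U.Nonempty := by
    refine ⟨‖T‖, norm_nonneg _, fun x => ?_⟩
    have h1 := cs B hs hp (T x) x
    have h2 := lax B hs hp T hT x
    have h3 : B (T x) x ^ 2 ≤ (‖T‖ * B x x) ^ 2 := by
      have := hp x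
      nlinarith
    exact (le_abs_self _).trans (abs_le_of_sq_le_sq' h3 (mul_nonneg (norm_nonneg _) (hp x)) |>
      fun h => abs_le.mpr h)
  have hbd : BddBelow U := ⟨0, fun s hs => hs.1⟩
  have hcl : IsClosed U := by
    have : U = {s | 0 ≤ s} ∩ ⋂ x, {s | B (T x) x ≤ s * B x x} := by
      ext s; simp [hU]
    rw [this]
    exact (isClosed_le continuous_const continuous_id).inter
      (isClosed_iInter fun x => isClosed_le continuous_const (by fun_prop))
  have hm := hcl.csInf_mem hne hbd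
  set m := sInf U with hmdef
  refine ⟨m, hm.2, ?_⟩
  by_contra hcon
  push Not at hcon
  obtain ⟨hm0, hev⟩ := hcon
  have hres := (hc.hasEigenvalue_or_mem_resolventSet hm0.ne').resolve_left hev
  rw [spectrum.mem_resolventSet_iff] at hres
  obtain ⟨u, hu⟩ := hres
  set S : X →L[ℝ] X := algebraMap ℝ (X →L[ℝ] X) m - T with hS
  have hSx : ∀ x, S x = m • x - T x := fun x => by simp [hS, Algebra.algebraMap_eq_smul_one]
  set R : X →L[ℝ] X := ↑u⁻¹ with hR
  have hRS : ∀ x, R (S x) = x := fun x => by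
    have : R * S = 1 := by rw [← hu, hR]; exact u.inv_mul
    exact congrArg (fun f : X →L[ℝ] X => f x) this
  have hSR : ∀ x, S (R x) = x := fun x => by
    have : S * R = 1 := by rw [← hu, hR]; exact u.mul_inv
    exact congrArg (fun f : X →L[ℝ] X => f x) this
  have hSs : ∀ x y, B (S x) y = B x (S y) := fun x y => by
    simp only [hSx, map_sub, map_smul, ContinuousLinearMap.sub_apply,
      ContinuousLinearMap.smul_apply, hT]
  have hRs : ∀ x y, B (R x) y = B x (R y) := fun x y => by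
    conv_lhs => rw [← hSR y, ← hSs, hSR]
  have hSp : ∀ x, 0 ≤ B (S x) x := fun x => by
    simp only [hSx, map_sub, map_smul, ContinuousLinearMap.sub_apply,
      ContinuousLinearMap.smul_apply, smul_eq_mul]
    linarith [hm.2 x]
  -- `B x x ≤ c * B (S x) x`
  have key : ∀ x, B x x ≤ ‖R‖ * B (S x) x := by
    intro x
    have h1 := cs (B.comp S) (fun x y => by
      simp only [ContinuousLinearMap.comp_apply]; rw [hSs, hs]) hSp x (R x)
    simp only [ContinuousLinearMap.comp_apply] at h1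
    rw [hSs x (R x), hSR] at h1
    have h2 := cs B hs hp x (R x)
    have h3 := lax B hs hp R hRs x
    have h4 : B x (R x) ^ 2 ≤ (‖R‖ * B x x) ^ 2 := by
      have := hp x
      nlinarith
    have h5 : B x (R x) ≤ ‖R‖ * B x x :=
      (abs_le_of_sq_le_sq' h4 (mul_nonneg (norm_nonneg _) (hp x))).2
    rcases (hp x).lt_or_eq with h | h
    · have h6 : B x x * B x x ≤ B x x * (‖R‖ * B (S x) x) := by
        have := hSp x
        nlinarith
      exact le_of_mul_le_mul_left h6 h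
    · rw [← h]; exact mul_nonneg (norm_nonneg _) (hSp x)
  set e := min m (1 / (‖R‖ + 1)) with he
  have he0 : 0 < e := lt_min hm0 (by positivity)
  have hmem : m - e ∈ U := by
    refine ⟨by linarith [min_le_left m (1 / (‖R‖ + 1))], fun x => ?_⟩
    have h1 := key x
    have h2 : e * (‖R‖ + 1) ≤ 1 := by
      rw [← le_div_iff₀ (by positivity)]; exact min_le_right _ _
    have h3 := hSp x
    have h4 : e * B x x ≤ B (S x) x := by
      have := mul_le_mul_of_nonneg_left h1 he0.le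
      nlinarith
    simp only [hSx, map_sub, map_smul, ContinuousLinearMap.sub_apply,
      ContinuousLinearMap.smul_apply, smul_eq_mul] at h4
    linarith
  have := csInf_le hbd hmem
  linarith

/-- The abstract form of the sum rule argument, when `1 / 2` is not an eigenvalue. -/
lemma core (B : X →L[ℝ] X →L[ℝ] ℝ) (hs : ∀ x y, B x y = B y x) (hp : ∀ x, 0 ≤ B x x)
    (hd : ∀ x, B x x = 0 → x = 0)
    (T : X →L[ℝ] X) (hT : ∀ x y, B (T x) y = B x (T y)) (hc : IsCompactOperator T)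
    (hhalf : ∀ x, T x = (1 / 2 : ℝ) • x → x = 0)
    (n : Fin 3 → X) (l : Fin 3 → X → ℝ) (hl : ∀ j x, l j ((1 / 2 : ℝ) • x - T x) = B x (n j))
    (V : ℝ) (hV : 0 < V) (h1 : ∑ j, l j (n j) = 3 * V) (h2 : ∑ j, B (n j) (n j) = V) :
    (∃ t : ℝ, t ≠ 1 / 2 ∧ 1 / 6 ≤ t ∧ ∃ x, x ≠ 0 ∧ T x = t • x) ∧
    ((∀ t : ℝ, ∀ x, x ≠ 0 → T x = t • x → t ≠ 1 / 2 → t ≤ 1 / 6) →
      ∀ j, T (n j) = (1 / 6 : ℝ) • n j) := by
  have hev : ∀ t : ℝ, Module.End.HasEigenvalue (T : Module.End ℝ X) t →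
      t ≠ 1 / 2 ∧ ∃ x, x ≠ 0 ∧ T x = t • x := by
    intro t ht
    obtain ⟨x, hx⟩ := ht.exists_hasEigenvector
    have h := hx.apply_eq_smul
    refine ⟨?_, x, hx.2, h⟩
    rintro rfl
    exact hx.2 (hhalf x h)
  obtain ⟨m, hm, hm'⟩ := rayleigh B hs hp T hT hc
  have hres := (hc.hasEigenvalue_or_mem_resolventSet (μ := (1 / 2 : ℝ)) (by norm_num)).resolve_left
    (fun h => (hev _ h).1 rfl)
  rw [spectrum.mem_resolventSet_iff, ContinuousLinearMap.isUnit_iff_bijective] at hres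
  have hsurj : ∀ y, ∃ x, (1 / 2 : ℝ) • x - T x = y := fun y => by
    obtain ⟨x, hx⟩ := hres.2 y
    exact ⟨x, by simpa [Algebra.algebraMap_eq_smul_one] using hx⟩
  choose φ hφ using fun j => hsurj (n j)
  have hb : ∀ j, B (φ j) (n j) = l j (n j) := fun j => by rw [← hl, hφ]
  have hA : ∀ j, (1 / 2 - m) * B (φ j) (φ j) ≤ B (φ j) (n j) := fun j => by
    rw [← hφ j]
    simp only [map_sub, map_smul, smul_eq_mul]
    have := hm (φ j)
    rw [hT] at this
    linarith
  -- expansion of the square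
  have hsq : ∀ (a : ℝ) j, B (n j - a • φ j) (n j - a • φ j) =
      B (n j) (n j) - 2 * a * B (φ j) (n j) + a ^ 2 * B (φ j) (φ j) := fun a j => by
    simp only [map_sub, map_smul, ContinuousLinearMap.sub_apply, ContinuousLinearMap.smul_apply,
      smul_eq_mul]
    rw [hs (n j) (φ j)]
    ring
  have hle : ∀ a : ℝ, 0 ≤ a → a ≤ 1 / 2 - m → ∀ j, B (n j - a • φ j) (n j - a • φ j) ≤
      B (n j) (n j) - a * l j (n j) := fun a ha ha' j => by
    rw [hsq, ← hb]
    have h3 := hA j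
    have h4 := hp (φ j)
    have h5 : a * B (φ j) (φ j) ≤ B (φ j) (n j) := by nlinarith
    nlinarith
  have hsum : ∀ a : ℝ, 0 ≤ a → a ≤ 1 / 2 - m →
      ∑ j, B (n j - a • φ j) (n j - a • φ j) ≤ V - a * (3 * V) := fun a ha ha' => by
    rw [← h1, ← h2, Finset.mul_sum, ← Finset.sum_sub_distrib]
    exact Finset.sum_le_sum fun j _ => hle a ha ha' j
  have hm6 : 1 / 6 ≤ m := by
    by_contra h
    push Not at h
    have h3 := hsum (1 / 2 - m) (by linarith) le_rfl
    have h4 : 0 ≤ ∑ j, B (n j - (1 / 2 - m) • φ j) (n j - (1 / 2 - m) • φ j) :=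
      Finset.sum_nonneg fun j _ => hp _
    nlinarith
  have hme := hev m (hm'.resolve_left (by linarith))
  refine ⟨⟨m, hme.1, hm6, hme.2⟩, fun h j => ?_⟩
  obtain ⟨x, hx, hx'⟩ := hme.2
  have hm7 := h m x hx hx' hme.1
  have h3 := hsum (1 / 3) (by norm_num) (by linarith)
  have h4 : ∑ j, B (n j - (1 / 3 : ℝ) • φ j) (n j - (1 / 3 : ℝ) • φ j) = 0 :=
    le_antisymm (by linarith) (Finset.sum_nonneg fun j _ => hp _)
  have h5 := hd _ ((Finset.sum_eq_zero_iff_of_nonneg fun j _ => hp _).mp h4 j (Finset.mem_univ _))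
  have h6 : n j = (1 / 3 : ℝ) • φ j := sub_eq_zero.mp h5
  have h7 := hφ j
  have h8 : T (φ j) = (1 / 2 : ℝ) • φ j - n j := by rw [← h7]; abel
  rw [h6, map_smul, h8, h6]
  module

/-- The abstract form of the sum rule argument. -/
theorem abstract_main (B : X →L[ℝ] X →L[ℝ] ℝ) (hs : ∀ x y, B x y = B y x) (hp : ∀ x, 0 ≤ B x x)
    (hd : ∀ x, B x x = 0 → x = 0)
    (T : X →L[ℝ] X) (hT : ∀ x y, B (T x) y = B x (T y)) (hc : IsCompactOperator T)
    (n : Fin 3 → X) (l : Fin 3 → X → ℝ) (hl0 : ∀ j, l j 0 = 0)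
    (hl : ∀ j x, l j ((1 / 2 : ℝ) • x - T x) = B x (n j))
    (V : ℝ) (hV : 0 < V) (h1 : ∑ j, l j (n j) = 3 * V) (h2 : ∑ j, B (n j) (n j) = V) :
    (∃ t : ℝ, t ≠ 1 / 2 ∧ 1 / 6 ≤ t ∧ ∃ x, x ≠ 0 ∧ T x = t • x) ∧
    ((∀ t : ℝ, ∀ x, x ≠ 0 → T x = t • x → t ≠ 1 / 2 → t ≤ 1 / 6) →
      ∀ j, T (n j) = (1 / 6 : ℝ) • n j) := by
  let Y : Submodule ℝ X :=
    { carrier := {x | ∀ e, T e = (1 / 2 : ℝ) • e → B e x = 0}
      add_mem' := fun {a b} ha hb e he => by rw [map_add, ha e he, hb e he, add_zero]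
      zero_mem' := fun e _ => by simp
      smul_mem' := fun c a ha e he => by rw [map_smul, ha e he, smul_zero] }
  have hYcl : IsClosed (Y : Set X) := by
    have : (Y : Set X) = ⋂ e, ⋂ (_ : T e = (1 / 2 : ℝ) • e), {x | B e x = 0} := by
      ext x; simp only [Set.mem_iInter]; rfl
    rw [this]
    exact isClosed_iInter fun e => isClosed_iInter fun _ =>
      isClosed_eq (B e).continuous continuous_const
  have : CompleteSpace Y := hYcl.completeSpace_coe
  have hTY : ∀ x ∈ Y, T x ∈ Y := fun x hx e he => by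
    rw [← hT, he, map_smul, ContinuousLinearMap.smul_apply, hx e he, smul_zero]
  have hnY : ∀ j, n j ∈ Y := fun j e he => by rw [← hl, he, sub_self, hl0]
  let T' : Y →L[ℝ] Y := (T.comp Y.subtypeL).codRestrict Y (fun x => hTY x x.2)
  let B' : Y →L[ℝ] Y →L[ℝ] ℝ := B.bilinearComp Y.subtypeL Y.subtypeL
  have hc' : IsCompactOperator T' := (hc.comp_clm Y.subtypeL).codRestrict (fun x => hTY x x.2) hYcl
  have := core B' (fun x y => hs x y) (fun x => hp x) (fun x hx => Subtype.ext (hd x hx)) T'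
    (fun x y => hT x y) hc'
    (fun x hx => Subtype.ext (hd _ (x.2 x (congrArg Subtype.val hx))))
    (fun j => ⟨n j, hnY j⟩) (fun j x => l j x) (fun j x => hl j x) V hV h1 h2
  obtain ⟨⟨t, ht1, ht2, x, hx, hx'⟩, h3⟩ := this
  refine ⟨⟨t, ht1, ht2, x, fun h => hx (Subtype.ext h), congrArg Subtype.val hx'⟩, fun h j => ?_⟩
  exact congrArg Subtype.val (h3 (fun t x hx hx' =>
    h t x (fun h0 => hx (Subtype.ext h0)) (congrArg Subtype.val hx')) j)

end Pool.Agent.H24Z.NP
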