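import Mathlib

set_option autoImplicit false

/-!
Definitions for the potential theory of a smooth bounded domain of three dimensional space.
-/

namespace Pool.Agent.H24Z.NP

open MeasureTheory Filter Topology Set

abbrev E3 := EuclideanSpace ℝ (Fin 3)

/-- `g` is a defining function of a bounded domain with `C²` boundary. -/
structure Dom (g : E3 → ℝ) : Prop where
  sm : ContDiff ℝ 2 g
  ne : ∀ x, g x = 0 → gradient g x ≠ 0
  out : ∃ R : ℝ, ∀ x, R ≤ ‖x‖ → 0 < g x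

/-- the outward unit normal -/
noncomputable def nu (g : E3 → ℝ) (x : E3) : E3 := ‖gradient g x‖⁻¹ • gradient g x

/-- What the analysis needs of a domain `Ω` with boundary `M`, surface measure `μ`, normal `ν`. -/
structure Data (Ω M : Set E3) (μ : Measure M) (ν : M → E3) : Prop where
  op : IsOpen Ω
  bd : Bornology.IsBounded Ω
  cp : IsCompact M
  dis : ∀ y : M, (y : E3) ∉ Ω
  fin : IsFiniteMeasure μ
  pos : μ.IsOpenPosMeasure
  cont : Continuous ν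
  unit : ∀ x, ‖ν x‖ = 1
  curv : ∃ C : ℝ, ∀ x y : M, |inner ℝ ((x : E3) - y) (ν x)| ≤ C * ‖(x : E3) - y‖ ^ 2
  grow : ∃ C : ℝ, ∀ (x : E3) (r : ℝ), 0 < r →
    μ {y : M | ‖x - y‖ < r} ≤ ENNReal.ofReal (C * r ^ 2)
  div : ∀ φ : E3 → ℝ, ContDiff ℝ 1 φ → ∀ e : E3,
    ∫ w in Ω, fderiv ℝ φ w e = ∫ y : M, φ y * inner ℝ e (ν y) ∂μ
  halfIn : ∀ (z : M) (v : E3), inner ℝ v (ν z) < 0 → ∀ᶠ ε : ℝ in 𝓝[>] 0, (z : E3) + ε • v ∈ Ω
  halfOut : ∀ (z : M) (v : E3), 0 < inner ℝ v (ν z) → ∀ᶠ ε : ℝ in 𝓝[>] 0, (z : E3) + ε • v ∉ Ω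
  collar : ∀ p : M, ∃ (e : E3) (δ : ℝ), 0 < δ ∧ Metric.ball ((p : E3) - e) δ ⊆ Ω ∧
    ∀ y : M, ‖(y : E3) - p‖ < δ → ∀ t : ℝ, 0 < t → t ≤ 1 → (y : E3) - t • e ∈ Ω

/-- the regularised distance -/
noncomputable def sr (ε : ℝ) (w : E3) : ℝ := Real.sqrt (‖w‖ ^ 2 + ε ^ 2)

/-- minus the Laplacian of `1 / sr ε` -/
noncomputable def rho (ε : ℝ) (w : E3) : ℝ := 3 * ε ^ 2 / sr ε w ^ 5

/-- the double layer kernel `⟨y - z, ν y⟩ / |y - z|³` -/
noncomputable def kk {M : Set E3} (ν : M → E3) (y : M) (z : E3) : ℝ :=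
  inner ℝ ((y : E3) - z) (ν y) / ‖(y : E3) - z‖ ^ 3

/-- the single layer potential of the `j`-th component of the normal -/
noncomputable def UU {M : Set E3} (μ : Measure M) (ν : M → E3) (j : Fin 3) (w : E3) : ℝ :=
  ∫ y : M, ν y j / ‖w - y‖ ∂μ

end Pool.Agent.H24Z.NP
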