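import Pool.Agent.H24Z.NP.GeomS

set_option autoImplicit false

/-! Local comparison of the surface measure with the area of projections. -/

namespace Pool.Agent.H24Z.NP

open MeasureTheory Filter Topology Set Module
open scoped ENNReal NNReal

/-- two dimensional Hausdorff measure, Euclidean normalisation -/
noncomputable abbrev m2 : Measure E3 := μHE[2]

lemma m2_image_le (A : Set E3) (T : E3 → E3) (c : ℝ) (hc : 0 ≤ c)
    (h : ∀ y ∈ A, ∀ y' ∈ A, ‖T y - T y'‖ ≤ c * ‖y - y'‖) :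
    m2 (T '' A) ≤ ENNReal.ofReal (c ^ 2) * m2 A := by
  have hL : LipschitzOnWith c.toNNReal T A := by
    apply LipschitzOnWith.of_dist_le_mul
    intro y hy y' hy'
    rw [dist_eq_norm, dist_eq_norm, Real.coe_toNNReal _ hc]
    exact h y hy y' hy'
  have h1 := hL.hausdorffMeasure_image_le (d := ((2 : ℕ) : ℝ)) (by norm_num)
  simp only [m2, Measure.euclideanHausdorffMeasure_def, Measure.smul_apply]
  rw [ENNReal.smul_def, ENNReal.smul_def, smul_eq_mul, smul_eq_mul, mul_left_comm]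
  gcongr
  refine h1.trans (le_of_eq ?_)
  congr 1
  rw [ENNReal.rpow_natCast, ENNReal.ofReal_pow hc]
  rfl

lemma m2_le_image (A : Set E3) (T : E3 → E3) (c : ℝ) (hc : 0 ≤ c)
    (h : ∀ y ∈ A, ∀ y' ∈ A, ‖y - y'‖ ≤ c * ‖T y - T y'‖) :
    m2 A ≤ ENNReal.ofReal (c ^ 2) * m2 (T '' A) := by
  have hinj : InjOn T A := fun y hy y' hy' hT => by
    have := h y hy y' hy'
    rw [hT, sub_self, norm_zero, mul_zero] at this
    exact sub_eq_zero.mp (norm_le_zero_iff.mp this)
  have h1 := m2_image_le (T '' A) (Function.invFunOn T A) c hc (by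
    rintro _ ⟨y, hy, rfl⟩ _ ⟨y', hy', rfl⟩
    rw [hinj.leftInvOn_invFunOn hy, hinj.leftInvOn_invFunOn hy']
    exact h y hy y' hy')
  rwa [hinj.leftInvOn_invFunOn.image_image] at h1

lemma finrank_perp {e : E3} (he : ‖e‖ = 1) : finrank ℝ (ℝ ∙ e)ᗮ = 2 := by
  have hne : e ≠ 0 := by rintro rfl; simp at he
  have h1 := (ℝ ∙ e).finrank_add_finrank_orthogonal
  rw [finrank_span_singleton hne, finrank_euclideanSpace_fin] at h1
  omega

/-- orthogonal projection along the unit vector `e` -/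
noncomputable def pr (e : E3) : E3 →L[ℝ] E3 :=
  ContinuousLinearMap.id ℝ E3 - (innerSL ℝ e).smulRight e

lemma pr_apply (e w : E3) : pr e w = w - inner ℝ e w • e := by simp [pr]

lemma pr_mem {e : E3} (he : ‖e‖ = 1) (w : E3) : pr e w ∈ (ℝ ∙ e)ᗮ := by
  rw [Submodule.mem_orthogonal_singleton_iff_inner_right, pr_apply, inner_sub_right,
    inner_smul_right, real_inner_self_eq_norm_sq, he]
  ring

lemma pr_of_mem {e w : E3} (hw : w ∈ (ℝ ∙ e)ᗮ) : pr e w = w := by
  rw [Submodule.mem_orthogonal_singleton_iff_inner_right] at hw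
  rw [pr_apply, hw]; simp

lemma inner_pr {e : E3} (he : ‖e‖ = 1) (v w : E3) :
    inner ℝ (pr e v) (pr e w) = inner ℝ v w - inner ℝ e v * inner ℝ e w := by
  simp only [pr_apply, inner_sub_left, inner_sub_right, inner_smul_left, inner_smul_right,
    real_inner_self_eq_norm_sq, he, conj_trivial]
  rw [real_inner_comm v e]
  ring

lemma norm_pr_le {e : E3} (he : ‖e‖ = 1) (w : E3) : ‖pr e w‖ ≤ ‖w‖ := by
  have h := inner_pr he w w
  rw [real_inner_self_eq_norm_sq, real_inner_self_eq_norm_sq] at h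
  exact abs_le_of_sq_le_sq' (by nlinarith [mul_self_nonneg (inner ℝ e w)]) (norm_nonneg _) |>.2

lemma m2_val {e : E3} (he : ‖e‖ = 1) (B : Set (ℝ ∙ e)ᗮ) : m2 (Subtype.val '' B) = volume B := by
  rw [isometry_subtype_coe.euclideanHausdorffMeasure_image,
    ← InnerProductSpace.euclideanHausdorffMeasure_eq_volume, finrank_perp he]

lemma m2_pr_plane {e n : E3} (he : ‖e‖ = 1) (hn : ‖n‖ = 1) (B : Set E3)
    (hB : B ⊆ (ℝ ∙ n)ᗮ) : m2 (pr e '' B) = ENNReal.ofReal |inner ℝ e n| * m2 B := by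
  set U : Submodule ℝ E3 := (ℝ ∙ n)ᗮ with hU
  have hr : finrank ℝ U = 2 := finrank_perp hn
  set f : U →ₗ[ℝ] E3 := (pr e : E3 →ₗ[ℝ] E3).comp U.subtype with hf
  have hB' : B = Subtype.val '' (Subtype.val ⁻¹' B : Set U) := by
    ext x
    exact ⟨fun hx => ⟨⟨x, hB hx⟩, hx, rfl⟩, fun ⟨y, hy, hxy⟩ => hxy ▸ hy⟩
  have h1 := f.euclideanHausdorffMeasure_image (Subtype.val ⁻¹' B : Set U)
  rw [hr] at h1
  have h2 : f '' (Subtype.val ⁻¹' B : Set U) = pr e '' B := by
    conv_rhs => rw [hB', image_image]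
    rfl
  rw [h2] at h1
  rw [m2, h1]
  congr 1
  · congr 1
    let b : OrthonormalBasis (Fin 2) ℝ U := (stdOrthonormalBasis ℝ U).reindex (finCongr hr)
    have h3 := f.normDet_sq_eq_det_gram b
    have hb : ∀ i j, inner ℝ (f (b i)) (f (b j)) =
        (if i = j then 1 else 0) - inner ℝ e (b i : E3) * inner ℝ e (b j : E3) := by
      intro i j
      have := inner_pr he (b i : E3) (b j : E3)
      rw [← orthonormal_iff_ite.mp b.orthonormal i j]
      exact this
    have h4 : ‖pr n e‖ ^ 2 = inner ℝ e (b 0 : E3) ^ 2 + inner ℝ e (b 1 : E3) ^ 2 := by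
      have h5 := b.sum_sq_norm_inner_right (⟨pr n e, pr_mem hn e⟩ : U)
      have h6 : ∀ i, inner ℝ (b i) (⟨pr n e, pr_mem hn e⟩ : U) = inner ℝ e (b i : E3) := by
        intro i
        have h7 : inner ℝ n (b i : E3) = 0 :=
          Submodule.mem_orthogonal_singleton_iff_inner_right.mp (b i).2
        change inner ℝ (b i : E3) (pr n e) = _
        rw [pr_apply, inner_sub_right, inner_smul_right, real_inner_comm n, h7, real_inner_comm]
        ring
      simp only [h6, Fin.sum_univ_two, Real.norm_eq_abs, sq_abs] at h5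
      exact h5.symm
    have h8 := inner_pr hn e e
    rw [real_inner_self_eq_norm_sq, real_inner_self_eq_norm_sq, he, h4, real_inner_comm e n] at h8
    rw [Matrix.det_fin_two] at h3
    simp only [Matrix.gram_apply, hb] at h3
    simp only [RCLike.ofReal_real_eq_id, id, if_true, zero_ne_one, one_ne_zero, if_false] at h3
    have h9 : f.normDet ^ 2 = |inner ℝ e n| ^ 2 := by
      rw [sq_abs, h3]; nlinarith
    exact (pow_left_inj₀ f.normDet_nonneg (abs_nonneg _) two_ne_zero).mp h9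
  · conv_rhs => rw [hB']
    exact (isometry_subtype_coe.euclideanHausdorffMeasure_image _).symm

variable {g : E3 → ℝ}

lemma inner_nu (g : E3 → ℝ) (p v : E3) :
    inner ℝ v (nu g p) = ‖gradient g p‖⁻¹ * fderiv ℝ g p v := by
  rw [nu, inner_smul_right, real_inner_comm, gradient, InnerProductSpace.toDual_symm_apply]

lemma Dom.norm_nu (h : Dom g) {p : E3} (hp : g p = 0) : ‖nu g p‖ = 1 := by
  rw [nu, norm_smul, norm_inv, norm_norm, inv_mul_cancel₀ (norm_ne_zero_iff.mpr (h.ne p hp))]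

lemma Dom.flat (h : Dom g) {p : E3} (hp : g p = 0) {η : ℝ} (hη : 0 < η) :
    ∃ δ : ℝ, 0 < δ ∧ ∀ y ∈ Metric.ball p δ, ∀ y' ∈ Metric.ball p δ, g y = 0 → g y' = 0 →
      |inner ℝ (y - y') (nu g p)| ≤ η * ‖y - y'‖ := by
  have hN : 0 < ‖gradient g p‖ := norm_pos_iff.mpr (h.ne p hp)
  have h1 : HasStrictFDerivAt g (fderiv ℝ g p) p :=
    h.sm.contDiffAt.hasStrictFDerivAt (by norm_num)
  have h2 := h1.isLittleO.def (c := η * ‖gradient g p‖) (by positivity)
  rw [nhds_prod_eq] at h2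
  obtain ⟨s, hs, hs'⟩ := (Filter.eventually_prod_self_iff (r := fun y y' =>
    ‖g y - g y' - fderiv ℝ g p (y - y')‖ ≤ η * ‖gradient g p‖ * ‖y - y'‖)).mp h2
  obtain ⟨δ, hδ, hδ'⟩ := Metric.mem_nhds_iff.mp hs
  refine ⟨δ, hδ, fun y hy y' hy' h0 h0' => ?_⟩
  have h3 := hs' y (hδ' hy) y' (hδ' hy')
  simp only [h0, h0', sub_self, zero_sub, norm_neg, Real.norm_eq_abs] at h3
  rw [inner_nu, abs_mul, abs_of_pos (inv_pos.mpr hN), inv_mul_le_iff₀ hN]
  linarith

/-- local comparison of the surface measure and the area of the projection along `e` -/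
lemma Dom.compare (h : Dom g) {p : E3} (hp : g p = 0) {e : E3} (he : ‖e‖ = 1)
    (ha : 0 < inner ℝ e (nu g p)) {c : ℝ} (hc : 1 < c) :
    ∃ δ : ℝ, 0 < δ ∧ ∀ A : Set E3, A ⊆ Metric.ball p δ ∩ {y | g y = 0} →
      m2 (pr e '' A) ≤ ENNReal.ofReal (c ^ 2) * (ENNReal.ofReal (inner ℝ e (nu g p)) * m2 A) ∧
      ENNReal.ofReal (inner ℝ e (nu g p)) * m2 A ≤ ENNReal.ofReal (c ^ 2) * m2 (pr e '' A) := by
  set n := nu g p with hn
  set a := inner ℝ e n with haa
  have hn1 : ‖n‖ = 1 := h.norm_nu hp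
  have hc0 : 0 < c := by linarith
  obtain ⟨δ, hδ, hfl⟩ := h.flat hp (η := a * (1 - c⁻¹))
    (mul_pos ha (by linarith [inv_lt_one_of_one_lt₀ hc]))
  refine ⟨δ, hδ, fun A hA => ?_⟩
  set T : E3 → E3 := fun y => y - (inner ℝ y n / a) • e with hT
  have hTp : T '' A ⊆ (ℝ ∙ n)ᗮ := by
    rintro _ ⟨y, -, rfl⟩
    change _ ∈ (ℝ ∙ n)ᗮ
    rw [Submodule.mem_orthogonal_singleton_iff_inner_left, hT]
    simp only [inner_sub_left, inner_smul_left, conj_trivial, ← haa]
    field_simp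
    ring
  have hpr : pr e '' (T '' A) = pr e '' A := by
    rw [image_image]
    congr 1
    ext1 y
    simp only [hT, map_sub, map_smul]
    rw [pr_apply e e, real_inner_self_eq_norm_sq, he]
    simp
  have hd : ∀ y ∈ A, ∀ y' ∈ A, ‖(T y - T y') - (y - y')‖ ≤ (1 - c⁻¹) * ‖y - y'‖ := by
    intro y hy y' hy'
    have h1 := hfl y (hA hy).1 y' (hA hy').1 (hA hy).2 (hA hy').2
    have h2 : (T y - T y') - (y - y') = (-(inner ℝ (y - y') n / a)) • e := by
      simp only [hT, inner_sub_left]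
      module
    rw [h2, norm_smul, he, mul_one, norm_neg, Real.norm_eq_abs, abs_div, abs_of_pos ha,
      div_le_iff₀ ha]
    linarith
  have hcc : 2 - c⁻¹ ≤ c := by
    have : c * c⁻¹ = 1 := mul_inv_cancel₀ hc0.ne'
    nlinarith [sq_nonneg (c - 1), inv_pos.mpr hc0]
  have h1 : m2 (T '' A) ≤ ENNReal.ofReal (c ^ 2) * m2 A := by
    apply m2_image_le _ _ _ hc0.le
    intro y hy y' hy'
    have h2 := hd y hy y' hy'
    have h3 := norm_le_insert' (T y - T y') (y - y')
    nlinarith [norm_nonneg (y - y')]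
  have h2 : m2 A ≤ ENNReal.ofReal (c ^ 2) * m2 (T '' A) := by
    apply m2_le_image _ _ _ hc0.le
    intro y hy y' hy'
    have h2 := hd y hy y' hy'
    have h3 := norm_le_insert (T y - T y') (y - y')
    rw [← inv_mul_le_iff₀ hc0]
    linarith
  have h3 := m2_pr_plane he hn1 _ hTp
  rw [hpr, ← haa, abs_of_pos ha] at h3
  rw [h3]
  constructor
  · rw [mul_left_comm]; gcongr
  · rw [mul_left_comm]; gcongr

end Pool.Agent.H24Z.NP
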