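import Pool.Agent.H24Z.NP.DivA

set_option autoImplicit false

/-! The local form of the divergence theorem. -/

namespace Pool.Agent.H24Z.NP

open MeasureTheory Filter Topology Set Module
open scoped ENNReal NNReal

lemma le_of_local {X : Type*} [TopologicalSpace X] [SecondCountableTopology X] [MeasurableSpace X]
    [BorelSpace X] (α γ : Measure X) (c : ℝ≥0∞)
    (h : ∀ p : X, ∃ U : Set X, IsOpen U ∧ p ∈ U ∧
      ∀ A, MeasurableSet A → A ⊆ U → α A ≤ c * γ A) (A : Set X) (hA : MeasurableSet A) :
    α A ≤ c * γ A := by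
  choose U hUo hUp hU using h
  obtain ⟨s, hs, hs'⟩ := TopologicalSpace.countable_cover_nhds fun p => (hUo p).mem_nhds (hUp p)
  rcases s.eq_empty_or_nonempty with rfl | hne
  · have : A = ∅ := by
      apply eq_empty_of_subset_empty
      intro x _
      have : x ∈ ⋃ p ∈ (∅ : Set X), U p := hs' ▸ mem_univ x
      simp at this
    simp [this]
  obtain ⟨f, rfl⟩ := hs.exists_eq_range hne
  rw [biUnion_range] at hs'
  set D : ℕ → Set X := fun n => A ∩ disjointed (fun n => U (f n)) n with hD
  have hDm : ∀ n, MeasurableSet (D n) := fun n =>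
    hA.inter (MeasurableSet.disjointed (fun n => (hUo (f n)).measurableSet) n)
  have hDd : Pairwise (Function.onFun Disjoint D) := fun i j hij =>
    (disjoint_disjointed (fun n => U (f n)) hij).mono inter_subset_right inter_subset_right
  have hDu : ⋃ n, D n = A := by
    rw [hD, ← inter_iUnion, iUnion_disjointed, hs', inter_univ]
  rw [← hDu, measure_iUnion hDd hDm, measure_iUnion hDd hDm, ← ENNReal.tsum_mul_left]
  exact ENNReal.tsum_le_tsum fun n => hU (f n) _ (hDm n)
    (inter_subset_right.trans (disjointed_subset _ n))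

lemma le_of_forall_cube {x y : ℝ≥0∞} (h : ∀ c : ℝ, 1 < c → x ≤ ENNReal.ofReal (c ^ 3) * y) :
    x ≤ y := by
  rcases eq_or_ne y ⊤ with rfl | hy
  · exact le_top
  have h1 : Tendsto (fun c : ℝ => ENNReal.ofReal (c ^ 3) * y) (𝓝[>] 1)
      (𝓝 (ENNReal.ofReal (1 ^ 3) * y)) := by
    apply ENNReal.Tendsto.mul_const _ (Or.inr hy)
    exact ((ENNReal.continuous_ofReal.comp (continuous_pow 3)).tendsto 1).mono_left nhdsWithin_le_nhds
  simp only [one_pow, ENNReal.ofReal_one, one_mul] at h1
  exact ge_of_tendsto h1 (eventually_mem_nhdsWithin.mono fun c hc => h c hc)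

lemma eq_withDensity_of_local {X : Type*} [TopologicalSpace X] [SecondCountableTopology X]
    [MeasurableSpace X] [BorelSpace X] (α β : Measure X) (ρ : X → ℝ) (hρ : Continuous ρ)
    (hpos : ∀ p, 0 < ρ p)
    (h : ∀ c : ℝ, 1 < c → ∀ p : X, ∃ U : Set X, IsOpen U ∧ p ∈ U ∧
      ∀ A, MeasurableSet A → A ⊆ U →
        α A ≤ ENNReal.ofReal (c ^ 2) * (ENNReal.ofReal (ρ p) * β A) ∧
        ENNReal.ofReal (ρ p) * β A ≤ ENNReal.ofReal (c ^ 2) * α A) :
    α = β.withDensity (fun x => ENNReal.ofReal (ρ x)) := by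
  have key : ∀ c : ℝ, 1 < c → ∀ p : X, ∃ U : Set X, IsOpen U ∧ p ∈ U ∧
      ∀ A, MeasurableSet A → A ⊆ U →
        α A ≤ ENNReal.ofReal (c ^ 3) * β.withDensity (fun x => ENNReal.ofReal (ρ x)) A ∧
        β.withDensity (fun x => ENNReal.ofReal (ρ x)) A ≤ ENNReal.ofReal (c ^ 3) * α A := by
    intro c hc p
    have hc0 : 0 < c := by linarith
    obtain ⟨U, hUo, hUp, hU⟩ := h c hc p
    refine ⟨U ∩ ({x | ρ x < c * ρ p} ∩ {x | ρ p < c * ρ x}),
      hUo.inter ((isOpen_lt hρ continuous_const).inter
        (isOpen_lt continuous_const (continuous_const.mul hρ))),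
      ⟨hUp, by simp only [mem_ofPred_eq]; nlinarith [hpos p],
        by simp only [mem_ofPred_eq]; nlinarith [hpos p]⟩, fun A hA hAU => ?_⟩
    obtain ⟨h1, h2⟩ := hU A hA (hAU.trans inter_subset_left)
    have e3 : ENNReal.ofReal (c ^ 3) = ENNReal.ofReal (c ^ 2) * ENNReal.ofReal c := by
      rw [← ENNReal.ofReal_mul (by positivity)]; congr 1
    rw [withDensity_apply _ hA]
    have h3 : ENNReal.ofReal (ρ p) * β A ≤ ENNReal.ofReal c * ∫⁻ x in A, ENNReal.ofReal (ρ x) ∂β := by
      rw [← setLIntegral_const, ← lintegral_const_mul' _ _ ENNReal.ofReal_ne_top]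
      apply setLIntegral_mono' hA
      intro x hx
      rw [← ENNReal.ofReal_mul hc0.le]
      exact ENNReal.ofReal_le_ofReal (hAU hx).2.2.le
    have h4 : ∫⁻ x in A, ENNReal.ofReal (ρ x) ∂β ≤ ENNReal.ofReal c * (ENNReal.ofReal (ρ p) * β A) := by
      rw [← mul_assoc, ← setLIntegral_const]
      apply setLIntegral_mono' hA
      intro x hx
      rw [← ENNReal.ofReal_mul hc0.le]
      exact ENNReal.ofReal_le_ofReal (hAU hx).2.1.le
    constructor
    · rw [e3, mul_assoc]
      exact h1.trans (by gcongr)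
    · rw [e3, mul_comm (ENNReal.ofReal (c ^ 2)), mul_assoc]
      exact h4.trans (by gcongr)
  ext A hA
  apply le_antisymm
  · refine le_of_forall_cube fun c hc => le_of_local _ _ _ (fun p => ?_) A hA
    obtain ⟨U, h1, h2, h3⟩ := key c hc p
    exact ⟨U, h1, h2, fun A hA hAU => (h3 A hA hAU).1⟩
  · refine le_of_forall_cube fun c hc => le_of_local _ _ _ (fun p => ?_) A hA
    obtain ⟨U, h1, h2, h3⟩ := key c hc p
    exact ⟨U, h1, h2, fun A hA hAU => (h3 A hA hAU).2⟩

/-- integration along the lines parallel to a unit vector -/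
lemma integral_lines {e : E3} (he : ‖e‖ = 1) (F : E3 → ℝ) (hF : Integrable F) :
    ∫ w, F w = ∫ u : (ℝ ∙ e)ᗮ, ∫ s : ℝ, F (s • e + u) := by
  have h1 := ((ℝ ∙ e).measurePreserving_measurableEquivProd (0 : E3)).symm
  rw [InnerProductSpace.euclideanHausdorffMeasure_eq_volume] at h1
  have h2 : MeasurePreserving (Prod.map (LinearIsometryEquiv.toSpanUnitSingleton e he) id)
      ((volume : Measure ℝ).prod (volume : Measure (ℝ ∙ e)ᗮ))
      ((volume : Measure (ℝ ∙ e)).prod (volume : Measure (ℝ ∙ e)ᗮ)) :=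
    (LinearIsometryEquiv.toSpanUnitSingleton e he).measurePreserving.prod (MeasurePreserving.id _)
  have h3 := h1.comp h2
  have h4 : MeasurableEmbedding (((ℝ ∙ e).measurableEquivProd (0 : E3)).symm ∘
      Prod.map (LinearIsometryEquiv.toSpanUnitSingleton e he) id) :=
    (MeasurableEquiv.measurableEmbedding _).comp
      ((LinearIsometryEquiv.toSpanUnitSingleton e he).toHomeomorph.measurableEmbedding.prodMap
        MeasurableEmbedding.id)
  rw [← h3.integral_comp h4]
  refine (integral_prod_symm _ ((h3.integrable_comp_emb h4).mpr hF)).trans ?_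
  simp

variable {g : E3 → ℝ}

lemma hasDerivAt_line {f : E3 → ℝ} (hf : Differentiable ℝ f) (e u : E3) (s : ℝ) :
    HasDerivAt (fun s : ℝ => f (s • e + u)) (fderiv ℝ f (s • e + u) e) s := by
  have h1 : HasDerivAt (fun s : ℝ => s • e + u) e s := by
    simpa using ((hasDerivAt_id s).smul_const e).add_const u
  exact (hf _).hasFDerivAt.comp_hasDerivAt s h1

lemma line_mono (hg : Differentiable ℝ g) {W : Set E3} (hW : Convex ℝ W) (e u : E3)
    (hpos : ∀ w ∈ W, 0 < fderiv ℝ g w e) :
    StrictMonoOn (fun s : ℝ => g (s • e + u)) {s | s • e + u ∈ W} := by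
  have hc : Convex ℝ {s : ℝ | s • e + u ∈ W} := by
    intro s hs t ht a b ha hb hab
    have := hW hs ht ha hb hab
    simp only [mem_ofPred_eq] at this ⊢
    convert this using 1
    have hb' : b = 1 - a := by linarith
    rw [hb']
    simp only [smul_eq_mul]
    module
  apply strictMonoOn_of_deriv_pos hc
  · exact fun s _ => (hasDerivAt_line hg e u s).continuousAt.continuousWithinAt
  · intro s hs
    rw [(hasDerivAt_line hg e u s).deriv]
    have hs' : s ∈ {s : ℝ | s • e + u ∈ W} := interior_subset hs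
    exact hpos _ hs'

lemma line_integral (hg : Differentiable ℝ g) {W : Set E3} (hW : Convex ℝ W) {e : E3}
    (he : ‖e‖ = 1) (hpos : ∀ w ∈ W, 0 < fderiv ℝ g w e) {φ : E3 → ℝ} (hφ : ContDiff ℝ 1 φ)
    (hc : HasCompactSupport φ) (hs : tsupport φ ⊆ W) (u : E3) :
    (∀ s₀ : ℝ, s₀ • e + u ∈ W → g (s₀ • e + u) = 0 →
      ∫ s : ℝ, {x | g x < 0}.indicator (fun w => fderiv ℝ φ w e) (s • e + u) = φ (s₀ • e + u)) ∧
    ((∀ s₀ : ℝ, s₀ • e + u ∈ W → g (s₀ • e + u) ≠ 0) →
      ∫ s : ℝ, {x | g x < 0}.indicator (fun w => fderiv ℝ φ w e) (s • e + u) = 0) := by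
  have hne : e ≠ 0 := by rintro rfl; simp at he
  have hd := hasDerivAt_line (hφ.differentiable one_ne_zero) e u
  have hemb : Topology.IsClosedEmbedding (fun s : ℝ => s • e + u) :=
    (Homeomorph.addRight u).isClosedEmbedding.comp (isClosedEmbedding_smul_left hne)
  have hcs : HasCompactSupport (fun s : ℝ => φ (s • e + u)) := hc.comp_isClosedEmbedding hemb
  have hC1 : ContDiff ℝ 1 (fun s : ℝ => φ (s • e + u)) :=
    hφ.comp ((contDiff_id.smul contDiff_const).add contDiff_const)
  have hder : deriv (fun s : ℝ => φ (s • e + u)) = fun s => fderiv ℝ φ (s • e + u) e :=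
    funext fun s => (hd s).deriv
  have hz : ∀ w, w ∉ W → fderiv ℝ φ w e = 0 := fun w hw => by
    have : fderiv ℝ φ w = 0 := by
      by_contra h0
      exact hw (hs (support_fderiv_subset ℝ (f := φ) h0))
    simp [this]
  have hm := line_mono hg hW e u hpos
  constructor
  · intro s₀ h1 h2
    rw [← hcs.integral_Iic_deriv_eq hC1 s₀, integral_Iic_eq_integral_Iio,
      ← integral_indicator measurableSet_Iio, hder]
    congr 1
    ext1 s
    by_cases hw : s • e + u ∈ W
    · have := hm.lt_iff_lt hw h1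
      simp only [h2] at this
      simp only [indicator, mem_ofPred_eq, mem_Iio, this]
    · simp [indicator, hz _ hw]
  · intro h0
    have hall : ∫ s : ℝ, fderiv ℝ φ (s • e + u) e = 0 := by
      apply integral_eq_zero_of_hasDerivAt_of_integrable hd
      · rw [← hder]
        exact (hC1.continuous_deriv le_rfl).integrable_of_hasCompactSupport hcs.deriv
      · exact hC1.continuous.integrable_of_hasCompactSupport hcs
    by_cases hex : ∃ s₁ : ℝ, s₁ • e + u ∈ W ∧ g (s₁ • e + u) < 0
    · obtain ⟨s₁, h1, h2⟩ := hex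
      refine Eq.trans ?_ hall
      congr 1
      ext1 s
      by_cases hw : s • e + u ∈ W
      · have : g (s • e + u) < 0 := by
          by_contra hcon
          push Not at hcon
          have hcv : IsPreconnected {s : ℝ | s • e + u ∈ W} := by
            have : {s : ℝ | s • e + u ∈ W} =
                (AffineMap.lineMap u (e + u) : ℝ →ᵃ[ℝ] E3) ⁻¹' W := by
              ext s; simp [AffineMap.lineMap_apply]
            rw [this]
            exact (hW.affine_preimage _).isPreconnected
          obtain ⟨t, ht, ht'⟩ := hcv.intermediate_value h1 hw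
            (f := fun s : ℝ => g (s • e + u))
            (fun s _ => (hasDerivAt_line hg e u s).continuousAt.continuousWithinAt) ⟨h2.le, hcon⟩
          exact h0 t ht ht'
        simp [indicator, this]
      · simp [indicator, hz _ hw]
    · push Not at hex
      rw [← integral_zero ℝ ℝ]
      congr 1
      ext1 s
      by_cases hw : s • e + u ∈ W
      · simp [indicator, hex s hw]
      · simp [indicator, hz _ hw]

theorem Dom.div_local (h : Dom g) {W : Set E3} (hWo : IsOpen W) (hW : Convex ℝ W) {e : E3}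
    (he : ‖e‖ = 1) (hpos : ∀ w ∈ W, 0 < fderiv ℝ g w e) {φ : E3 → ℝ} (hφ : ContDiff ℝ 1 φ)
    (hc : HasCompactSupport φ) (hs : tsupport φ ⊆ W) :
    ∫ w in {x | g x < 0}, fderiv ℝ φ w e =
      ∫ y in {x | g x = 0}, φ y * inner ℝ e (nu g y) ∂m2 := by
  have hg : Differentiable ℝ g := h.sm.differentiable (by norm_num)
  have hgc : Continuous g := h.sm.continuous
  have hΩ : MeasurableSet {x | g x < 0} := (isOpen_lt hgc continuous_const).measurableSet
  have hM : MeasurableSet {x | g x = 0} := (isClosed_eq hgc continuous_const).measurableSet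
  set K : Set E3 := {x | g x = 0} ∩ W with hK
  have hKm : MeasurableSet K := hM.inter hWo.measurableSet
  set P : Submodule ℝ E3 := (ℝ ∙ e)ᗮ with hP
  set F : E3 → P := fun y => ⟨pr e y, pr_mem he y⟩ with hF
  have hFc : Continuous F := (pr e).continuous.subtype_mk _
  have hdec : ∀ y : E3, inner ℝ e y • e + (F y : E3) = y := fun y => by
    simp [hF, pr_apply]
  have hinj : InjOn F K := by
    intro y hy y' hy' hyy
    have hm := line_mono hg hW e (F y : E3) hpos
    have h1 : inner ℝ e y • e + (F y : E3) ∈ W := by rw [hdec]; exact hy.2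
    have h2 : inner ℝ e y' • e + (F y : E3) ∈ W := by rw [hyy, hdec]; exact hy'.2
    have h3 := hm.injOn h1 h2 (by
      change g (inner ℝ e y • e + (F y : E3)) = g (inner ℝ e y' • e + (F y : E3))
      rw [hdec]
      conv_rhs => rw [hyy, hdec]
      exact hy.1.trans hy'.1.symm)
    rw [← hdec y, ← hdec y', h3, hyy]
  have hemb : MeasurableEmbedding (K.domRestrict F) :=
    hFc.continuousOn.measurableEmbedding hKm hinj
  set f : K → P := K.domRestrict F with hf
  have hρpos : ∀ y : K, 0 < inner ℝ e (nu g y) := fun y => by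
    rw [inner_nu]
    exact mul_pos (inv_pos.mpr (norm_pos_iff.mpr (h.ne _ y.2.1))) (hpos _ y.2.2)
  have hρc : Continuous fun y : K => inner ℝ e (nu g y) :=
    continuous_const.inner (continuousOn_iff_continuous_domRestrict.mp
      (h.nu_contOn.mono inter_subset_left))
  have hden : Measure.comap f volume = (Measure.comap Subtype.val m2 : Measure K).withDensity
      (fun y => ENNReal.ofReal (inner ℝ e (nu g y))) := by
    apply eq_withDensity_of_local _ _ _ hρc hρpos
    intro c hc1 p
    obtain ⟨δ, hδ, hcmp⟩ := h.compare p.2.1 he (hρpos p) hc1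
    refine ⟨Subtype.val ⁻¹' Metric.ball (p : E3) δ,
      Metric.isOpen_ball.preimage continuous_subtype_val, Metric.mem_ball_self hδ,
      fun A hA hAU => ?_⟩
    have h1 := hcmp (Subtype.val '' A) (by
      rintro _ ⟨y, hy, rfl⟩
      exact ⟨hAU hy, y.2.1⟩)
    rw [hemb.comap_apply, (MeasurableEmbedding.subtype_coe hKm).comap_apply, ← m2_val he,
      image_image]
    rw [image_image] at h1
    exact h1
  have hint : Integrable (fun w => fderiv ℝ φ w e) :=
    ((hφ.continuous_fderiv one_ne_zero).clm_apply continuous_const).integrable_of_hasCompactSupport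
      (hc.fderiv_apply (𝕜 := ℝ) e)
  rw [← integral_indicator hΩ, integral_lines he _ (hint.indicator hΩ)]
  set G : P → ℝ := fun u =>
    ∫ s : ℝ, {x | g x < 0}.indicator (fun w => fderiv ℝ φ w e) (s • e + (u : E3)) with hG
  have hG1 : ∀ y : K, G (f y) = φ y := fun y => by
    have := (line_integral hg hW he hpos hφ hc hs (F y : E3)).1 (inner ℝ e (y : E3))
      (by rw [hdec]; exact y.2.2) (by rw [hdec]; exact y.2.1)
    rw [hdec] at this
    exact this
  have hG2 : ∀ u, u ∉ range f → G u = 0 := fun u hu => by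
    apply (line_integral hg hW he hpos hφ hc hs (u : E3)).2
    intro s h1 h2
    apply hu
    refine ⟨⟨s • e + u, h2, h1⟩, Subtype.ext ?_⟩
    change pr e (s • e + u) = u
    rw [map_add, map_smul, pr_of_mem u.2, pr_apply, real_inner_self_eq_norm_sq, he]
    simp
  rw [← setIntegral_eq_integral_of_forall_compl_eq_zero hG2, ← hemb.map_comap, hemb.integral_map]
  simp only [hG1]
  rw [hden, integral_withDensity_eq_integral_toReal_smul hρc.measurable.ennreal_ofReal
    (Eventually.of_forall fun _ => ENNReal.ofReal_lt_top)]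
  have h5 : ∫ y in {x | g x = 0}, φ y * inner ℝ e (nu g y) ∂m2 =
      ∫ y in K, φ y * inner ℝ e (nu g y) ∂m2 := by
    apply setIntegral_eq_of_subset_of_forall_sdiff_eq_zero hM inter_subset_left
    intro y hy
    have : φ y = 0 := image_eq_zero_of_notMem_tsupport fun hy' => hy.2 ⟨hy.1, hs hy'⟩
    simp [this]
  rw [h5, ← integral_subtype_comap hKm]
  congr 1
  ext1 y
  rw [ENNReal.toReal_ofReal (hρpos y).le, smul_eq_mul, mul_comm]

end Pool.Agent.H24Z.NP
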