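import Pool.Agent.H24Z.NP.DivB

set_option autoImplicit false

/-! The divergence theorem on a smooth bounded domain, growth of the surface measure. -/

namespace Pool.Agent.H24Z.NP

open MeasureTheory Filter Topology Set Module
open scoped ENNReal NNReal Manifold

variable {g : E3 → ℝ}

lemma m2_disc {e : E3} (he : ‖e‖ = 1) (x : E3) (hx : x ∈ (ℝ ∙ e)ᗮ) (r : ℝ) :
    m2 (Metric.ball x r ∩ (ℝ ∙ e)ᗮ) = volume (Metric.ball (⟨x, hx⟩ : (ℝ ∙ e)ᗮ) r) := by
  rw [← m2_val he]
  congr 1
  ext y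
  constructor
  · rintro ⟨h1, h2⟩
    exact ⟨⟨y, h2⟩, h1, rfl⟩
  · rintro ⟨z, hz, rfl⟩
    exact ⟨hz, z.2⟩

lemma Dom.grow_local (h : Dom g) {p : E3} (hp : g p = 0) : ∃ δ C : ℝ, 0 < δ ∧ 0 ≤ C ∧
    ∀ (x : E3) (r : ℝ), 0 < r →
      m2 ({y | g y = 0} ∩ Metric.ball p δ ∩ Metric.ball x r) ≤ ENNReal.ofReal (C * r ^ 2) := by
  have hn := h.norm_nu hp
  set n := nu g p with hnn
  have h1 : inner ℝ n n = (1 : ℝ) := by rw [real_inner_self_eq_norm_sq, hn]; norm_num
  obtain ⟨δ, hδ, hc⟩ := h.compare hp hn (by rw [h1]; norm_num) (c := 2) (by norm_num)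
  have hfin : volume (Metric.ball (0 : (ℝ ∙ n)ᗮ) 1) ≠ ⊤ := measure_ball_lt_top.ne
  refine ⟨δ, 4 * (volume (Metric.ball (0 : (ℝ ∙ n)ᗮ) 1)).toReal, hδ, by positivity,
    fun x r hr => ?_⟩
  have h2 := (hc ({y | g y = 0} ∩ Metric.ball p δ ∩ Metric.ball x r)
    (fun y hy => ⟨hy.1.2, hy.1.1⟩)).2
  rw [← hnn, h1, ENNReal.ofReal_one, one_mul] at h2
  refine h2.trans ?_
  have h3 : pr n '' ({y | g y = 0} ∩ Metric.ball p δ ∩ Metric.ball x r) ⊆
      Metric.ball (pr n x) r ∩ (ℝ ∙ n)ᗮ := by
    rintro _ ⟨y, hy, rfl⟩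
    refine ⟨?_, pr_mem hn y⟩
    rw [Metric.mem_ball, dist_eq_norm, ← map_sub]
    exact (norm_pr_le hn _).trans_lt (by simpa [dist_eq_norm] using hy.2)
  have h4 := measure_mono (μ := m2) h3
  rw [m2_disc hn _ (pr_mem hn x), Measure.addHaar_ball_of_pos _ _ hr, finrank_perp hn] at h4
  refine (mul_le_mul_right h4 _).trans (le_of_eq ?_)
  rw [← ENNReal.ofReal_toReal hfin, ← ENNReal.ofReal_mul (by positivity),
    ← ENNReal.ofReal_mul (by positivity), ENNReal.toReal_ofReal ENNReal.toReal_nonneg]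
  congr 1
  ring

theorem Dom.grow (h : Dom g) : ∃ C : ℝ, ∀ (x : E3) (r : ℝ), 0 < r →
    m2 ({y | g y = 0} ∩ Metric.ball x r) ≤ ENNReal.ofReal (C * r ^ 2) := by
  choose! δ C hδ hC hb using fun p (hp : p ∈ {y | g y = 0}) => h.grow_local hp
  obtain ⟨t, ht, hcov⟩ := h.isCompact.elim_nhds_subcover (fun p => Metric.ball p (δ p))
    (fun p hp => Metric.ball_mem_nhds p (hδ p hp))
  refine ⟨∑ p ∈ t, C p, fun x r hr => ?_⟩
  have h1 : {y | g y = 0} ∩ Metric.ball x r ⊆
      ⋃ p ∈ t, {y | g y = 0} ∩ Metric.ball p (δ p) ∩ Metric.ball x r := by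
    intro y hy
    obtain ⟨p, hp, hy'⟩ := mem_iUnion₂.mp (hcov hy.1)
    exact mem_iUnion₂.mpr ⟨p, hp, ⟨hy.1, hy'⟩, hy.2⟩
  refine (measure_mono h1).trans ((measure_biUnion_finset_le _ _).trans ?_)
  rw [Finset.sum_mul, ENNReal.ofReal_sum_of_nonneg
    (fun p hp => mul_nonneg (hC p (ht p hp)) (by positivity))]
  exact Finset.sum_le_sum fun p hp => hb p (ht p hp) x r hr

theorem Dom.m2_lt_top (h : Dom g) : m2 {y | g y = 0} < ⊤ := by
  obtain ⟨C, hC⟩ := h.grow
  obtain ⟨r, hr, hr'⟩ := h.isCompact.isBounded.subset_ball_lt 0 (0 : E3)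
  have := hC 0 r hr
  rw [inter_eq_left.mpr hr'] at this
  exact this.trans_lt ENNReal.ofReal_lt_top

theorem Dom.m2_pos (h : Dom g) {p : E3} (hp : g p = 0) {r : ℝ} (hr : 0 < r) :
    0 < m2 ({y | g y = 0} ∩ Metric.ball p r) := by
  have hn := h.norm_nu hp
  have hgc : Continuous g := h.sm.continuous
  set n := nu g p with hnn
  have h1 : inner ℝ n n = (1 : ℝ) := by rw [real_inner_self_eq_norm_sq, hn]; norm_num
  have h2 := h.halfIn p hp (-n) (by rw [inner_neg_left, h1]; norm_num)
  have h3 := h.halfOut p hp n (by rw [h1]; norm_num)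
  have h4 : ∀ᶠ ε : ℝ in 𝓝[>] 0, ε ∈ Ioo 0 (r / 2) := Ioo_mem_nhdsGT (by linarith)
  obtain ⟨τ, h5, h6, h7⟩ := (h2.and (h3.and h4)).exists
  have h8 : ∀ᶠ v in 𝓝 (0 : E3), g (p + v + τ • -n) < 0 :=
    (by fun_prop : Continuous fun v : E3 => g (p + v + τ • -n)).continuousAt.eventually_lt
      continuousAt_const (by simpa using h5)
  have h9 : ∀ᶠ v in 𝓝 (0 : E3), 0 < g (p + v + τ • n) :=
    continuousAt_const.eventually_lt
      (by fun_prop : Continuous fun v : E3 => g (p + v + τ • n)).continuousAt (by simpa using h6)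
  obtain ⟨η, hη, hη'⟩ := Metric.eventually_nhds_iff.mp
    (h8.and (h9.and (Metric.ball_mem_nhds (0 : E3) (by linarith : 0 < r / 2))))
  have hsub : Metric.ball (pr n p) η ∩ (ℝ ∙ n)ᗮ ⊆ pr n '' ({y | g y = 0} ∩ Metric.ball p r) := by
    rintro u ⟨hu1, hu2⟩
    obtain ⟨a1, a2, a3⟩ := hη' (y := u - pr n p) (by simpa [dist_eq_norm] using hu1)
    obtain ⟨t, ht, ht'⟩ := intermediate_value_Icc (a := -τ) (b := τ) (by linarith [h7.1])
      (f := fun t : ℝ => g (p + (u - pr n p) + t • n)) (by fun_prop)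
      (show (0 : ℝ) ∈ Icc _ _ from ⟨by simpa using a1.le, a2.le⟩)
    refine ⟨p + (u - pr n p) + t • n, ⟨ht', ?_⟩, ?_⟩
    · rw [Metric.mem_ball, dist_eq_norm, add_assoc, add_sub_cancel_left]
      have b1 : ‖u - pr n p‖ < r / 2 := by simpa using a3
      have b2 : ‖t • n‖ < r / 2 := by
        rw [norm_smul, hn, mul_one, Real.norm_eq_abs]
        exact (abs_le.mpr ht).trans_lt h7.2
      linarith [norm_add_le (u - pr n p) (t • n)]
    · rw [map_add, map_add, map_sub, map_smul, pr_of_mem hu2, pr_of_mem (pr_mem hn p),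
        pr_apply n n, h1]
      simp
  have h10 := m2_image_le ({y | g y = 0} ∩ Metric.ball p r) (pr n) 1 zero_le_one
    (fun y _ y' _ => by rw [← map_sub, one_mul]; exact norm_pr_le hn _)
  have h11 := measure_mono (μ := m2) hsub
  rw [m2_disc hn _ (pr_mem hn p)] at h11
  simp only [one_pow, ENNReal.ofReal_one, one_mul] at h10
  exact ((Metric.measure_ball_pos _ _ hη).trans_le h11).trans_le h10

lemma Dom.bdd (h : Dom g) : Bornology.IsBounded {x | g x ≤ 0} := by
  obtain ⟨R, hR⟩ := h.out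
  refine (Metric.isBounded_ball (x := (0 : E3)) (r := R)).subset fun x hx => ?_
  by_contra h1
  have := hR x (by simpa using h1)
  exact absurd hx (not_le.mpr this)

lemma Dom.isCompact_le (h : Dom g) : IsCompact {x | g x ≤ 0} :=
  Metric.isCompact_of_isClosed_isBounded (isClosed_le h.sm.continuous continuous_const) h.bdd

lemma Dom.int_vol (h : Dom g) {f : E3 → ℝ} (hf : Continuous f) : IntegrableOn f {x | g x < 0} :=
  (hf.continuousOn.integrableOn_compact h.isCompact_le).mono_set
    fun x (hx : g x < 0) => (hx.le : g x ≤ 0)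

lemma Dom.int_surf (h : Dom g) {f : E3 → ℝ} (hf : ContinuousOn f {x | g x = 0}) :
    IntegrableOn f {x | g x = 0} m2 := by
  obtain ⟨C, hC⟩ := h.isCompact.exists_bound_of_continuousOn hf
  have hM : MeasurableSet {x | g x = 0} := h.isCompact.measurableSet
  have : IsFiniteMeasure (m2.restrict {x | g x = 0}) := ⟨by simpa using h.m2_lt_top⟩
  exact Integrable.of_bound (hf.aestronglyMeasurable hM) C (ae_restrict_of_forall_mem hM hC)

lemma Dom.div_nhds (h : Dom g) (e p : E3) (hp : g p ≤ 0) : ∃ r : ℝ, 0 < r ∧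
    ∀ φ : E3 → ℝ, ContDiff ℝ 1 φ → tsupport φ ⊆ Metric.ball p r →
      ∫ w in {x | g x < 0}, fderiv ℝ φ w e =
        ∫ y in {x | g x = 0}, φ y * inner ℝ e (nu g y) ∂m2 := by
  have hgc : Continuous g := h.sm.continuous
  have hcs : ∀ (φ : E3 → ℝ) (r : ℝ), tsupport φ ⊆ Metric.ball p r → HasCompactSupport φ :=
    fun φ r hs => Metric.isCompact_of_isClosed_isBounded (isClosed_tsupport φ)
      (Metric.isBounded_ball.subset hs)
  rcases hp.lt_or_eq with hp | hp
  · obtain ⟨r, hr, hr'⟩ := Metric.isOpen_iff.mp (isOpen_lt hgc continuous_const) p hp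
    refine ⟨r, hr, fun φ hφ hs => ?_⟩
    have hc := hcs φ r hs
    have hint : Integrable (fun w => fderiv ℝ φ w e) :=
      ((hφ.continuous_fderiv one_ne_zero).clm_apply
        continuous_const).integrable_of_hasCompactSupport (hc.fderiv_apply (𝕜 := ℝ) e)
    rw [setIntegral_eq_integral_of_forall_compl_eq_zero, setIntegral_eq_zero_of_forall_eq_zero]
    · have := integral_mul_fderiv_eq_neg_fderiv_mul_of_integrable (μ := (volume : Measure E3))
        (f := fun _ => (1 : ℝ)) (g := φ) (v := e) (by simp) (by simpa using hint)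
        (by simpa using hφ.continuous.integrable_of_hasCompactSupport hc)
        (by fun_prop) (by have := hφ.differentiable one_ne_zero; fun_prop)
      simpa using this
    · intro y hy
      have : φ y = 0 := image_eq_zero_of_notMem_tsupport fun hy' => by
        have h1 : g y < 0 := hr' (hs hy')
        exact h1.ne hy
      simp [this]
    · intro w hw
      have : fderiv ℝ φ w = 0 := by
        by_contra h0
        exact hw (hr' (hs (support_fderiv_subset ℝ (f := φ) h0)))
      simp [this]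
  · have hn := h.norm_nu hp
    set n := nu g p with hnn
    have h1 : inner ℝ n n = (1 : ℝ) := by rw [real_inner_self_eq_norm_sq, hn]; norm_num
    have hN : 0 < ‖gradient g p‖ := norm_pos_iff.mpr (h.ne p hp)
    set K := ‖e‖ + 1 with hK
    set v := e + K • n with hv
    have hvn : 0 < inner ℝ v n := by
      rw [hv, inner_add_left, inner_smul_left, h1]
      have := abs_real_inner_le_norm e n
      rw [hn] at this
      simp only [conj_trivial]
      linarith [neg_abs_le (inner ℝ e n)]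
    have hv0 : v ≠ 0 := by rintro h0; simp [h0] at hvn
    have hv1 : 0 < ‖v‖ := norm_pos_iff.mpr hv0
    set e₁ := ‖v‖⁻¹ • v with he₁
    have he1 : ‖e₁‖ = 1 := by rw [he₁, norm_smul, norm_inv, norm_norm, inv_mul_cancel₀ hv1.ne']
    have hd : ∀ u, 0 < inner ℝ u n → ∀ᶠ w in 𝓝 p, 0 < fderiv ℝ g w u := fun u hu => by
      rw [hnn, inner_nu] at hu
      exact continuousAt_const.eventually_lt
        ((h.sm.continuous_fderiv (by norm_num)).clm_apply continuous_const).continuousAt
        ((mul_pos_iff_of_pos_left (inv_pos.mpr hN)).mp hu)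
    obtain ⟨r, hr, hr'⟩ := Metric.eventually_nhds_iff_ball.mp ((hd e₁ (by
      rw [he₁, inner_smul_left]; exact mul_pos (inv_pos.mpr hv1) hvn)).and
      (hd n (by rw [h1]; norm_num)))
    refine ⟨r, hr, fun φ hφ hs => ?_⟩
    have a1 := h.div_local Metric.isOpen_ball (convex_ball p r) he1 (fun w hw => (hr' w hw).1) hφ
      (hcs φ r hs) hs
    have a2 := h.div_local Metric.isOpen_ball (convex_ball p r) hn (fun w hw => (hr' w hw).2) hφ
      (hcs φ r hs) hs
    have he : e = ‖v‖ • e₁ - K • n := by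
      rw [he₁, smul_smul, mul_inv_cancel₀ hv1.ne', one_smul, hv]; abel
    have i1 : ∀ u, IntegrableOn (fun w => fderiv ℝ φ w u) {x | g x < 0} := fun u =>
      h.int_vol ((hφ.continuous_fderiv one_ne_zero).clm_apply continuous_const)
    have i2 : ∀ u, IntegrableOn (fun y => φ y * inner ℝ u (nu g y)) {x | g x = 0} m2 := fun u =>
      h.int_surf (hφ.continuous.continuousOn.mul (continuousOn_const.inner h.nu_contOn))
    have b1 : ∫ w in {x | g x < 0}, fderiv ℝ φ w e =
        ‖v‖ * (∫ w in {x | g x < 0}, fderiv ℝ φ w e₁) -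
          K * ∫ w in {x | g x < 0}, fderiv ℝ φ w n := by
      rw [← integral_const_mul, ← integral_const_mul,
        ← integral_sub ((i1 _).const_mul _) ((i1 _).const_mul _)]
      congr 1
      ext1 w
      conv_lhs => rw [he]
      simp only [map_sub, map_smul, smul_eq_mul]
    have b2 : ∫ y in {x | g x = 0}, φ y * inner ℝ e (nu g y) ∂m2 =
        ‖v‖ * (∫ y in {x | g x = 0}, φ y * inner ℝ e₁ (nu g y) ∂m2) -
          K * ∫ y in {x | g x = 0}, φ y * inner ℝ n (nu g y) ∂m2 := by
      rw [← integral_const_mul, ← integral_const_mul,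
        ← integral_sub ((i2 _).const_mul _) ((i2 _).const_mul _)]
      congr 1
      ext1 w
      conv_lhs => rw [he]
      simp only [inner_sub_left, inner_smul_left, conj_trivial]
      ring
    rw [b1, b2, a1, a2]

/-- The divergence theorem. -/
theorem Dom.div (h : Dom g) (φ : E3 → ℝ) (hφ : ContDiff ℝ 1 φ) (e : E3) :
    ∫ w in {x | g x < 0}, fderiv ℝ φ w e =
      ∫ y in {x | g x = 0}, φ y * inner ℝ e (nu g y) ∂m2 := by
  have hgc : Continuous g := h.sm.continuous
  choose! r hr hdiv using fun p (hp : p ∈ {x | g x ≤ 0}) => h.div_nhds e p hp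
  obtain ⟨t, ht, hcov⟩ := h.isCompact_le.elim_nhds_subcover (fun p => Metric.ball p (r p))
    (fun p hp => Metric.ball_mem_nhds p (hr p hp))
  obtain ⟨ρ, hρ⟩ := SmoothPartitionOfUnity.exists_isSubordinate 𝓘(ℝ, E3) h.isCompact_le.isClosed
    (fun i : t => Metric.ball (i : E3) (r i)) (fun _ => Metric.isOpen_ball)
    (by rwa [← Finset.set_biUnion_coe, biUnion_eq_iUnion] at hcov)
  have hsum : ∀ x, g x ≤ 0 → ∑ i : t, ρ i x * φ x = φ x := fun x hx => by
    have := ρ.sum_eq_one (x := x) hx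
    rw [finsum_eq_sum_of_fintype] at this
    rw [← Finset.sum_mul, this, one_mul]
  have hC : ∀ i : t, ContDiff ℝ 1 (fun x => ρ i x * φ x) := fun i =>
    ((ρ i).contMDiff.contDiff.of_le (by norm_cast)).mul hφ
  have h1 : ∀ i : t, ∫ w in {x | g x < 0}, fderiv ℝ (fun x => ρ i x * φ x) w e =
      ∫ y in {x | g x = 0}, ρ i y * φ y * inner ℝ e (nu g y) ∂m2 := fun i =>
    hdiv i (ht i i.2) _ (hC i) ((tsupport_mul_subset_left).trans (hρ i))
  have h2 := Finset.sum_congr (rfl : (Finset.univ : Finset t) = _) fun i _ => h1 i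
  rw [← integral_finsetSum _ fun i _ =>
      h.int_vol (((hC i).continuous_fderiv one_ne_zero).clm_apply continuous_const),
    ← integral_finsetSum _ fun i _ =>
      h.int_surf (f := fun y => ρ i y * φ y * inner ℝ e (nu g y))
        ((hC i).continuous.continuousOn.mul (continuousOn_const.inner h.nu_contOn))]
    at h2
  refine Eq.trans ?_ (h2.trans ?_)
  · apply setIntegral_congr_fun (isOpen_lt hgc continuous_const).measurableSet
    intro w hw
    have h3 : φ =ᶠ[𝓝 w] fun x => ∑ i : t, ρ i x * φ x :=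
      Filter.mem_of_superset ((isOpen_lt hgc continuous_const).mem_nhds hw)
        fun x hx => (hsum x (le_of_lt hx)).symm
    simp only
    rw [h3.fderiv_eq, fderiv_fun_sum fun i _ => (hC i).differentiable one_ne_zero w]
    simp
  · apply setIntegral_congr_fun h.isCompact.measurableSet
    intro y hy
    simp only
    rw [← Finset.sum_mul, hsum y (le_of_eq hy)]

/-- the surface measure on the level set -/
noncomputable def sig (g : E3 → ℝ) : Measure {x | g x = 0} := Measure.comap Subtype.val m2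

theorem Dom.data (h : Dom g) :
    Data {x | g x < 0} {x | g x = 0} (sig g) (fun y => nu g y) := by
  have hgc : Continuous g := h.sm.continuous
  have hM : MeasurableSet {x | g x = 0} := h.isCompact.measurableSet
  have happ : ∀ s, sig g s = m2 (Subtype.val '' s) :=
    (MeasurableEmbedding.subtype_coe hM).comap_apply _
  refine
    { op := isOpen_lt hgc continuous_const
      bd := h.bdd.subset fun x (hx : g x < 0) => (hx.le : g x ≤ 0)
      cp := h.isCompact
      dis := fun y hy => (ne_of_lt hy) y.2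
      fin := ⟨by rw [happ]; simpa using h.m2_lt_top⟩
      pos := ⟨fun U hU ⟨p, hp⟩ => ?_⟩
      cont := continuousOn_iff_continuous_domRestrict.mp h.nu_contOn
      unit := fun x => h.norm_nu x.2
      curv := h.curv.imp fun C hC x y => hC x y x.2 y.2
      grow := h.grow.imp fun C hC x r hr => ?_
      div := fun φ hφ e => ?_
      halfIn := fun z v hv => h.halfIn z z.2 v hv
      halfOut := fun z v hv => (h.halfOut z z.2 v hv).mono fun ε hε h0 => lt_asymm hε h0
      collar := fun p => ?_ }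
  · obtain ⟨r, hr, hr'⟩ := Metric.isOpen_iff.mp hU p hp
    rw [happ]
    refine ((h.m2_pos p.2 hr).trans_le (measure_mono ?_)).ne'
    rintro y ⟨h1, h2⟩
    exact ⟨⟨y, h1⟩, hr' h2, rfl⟩
  · rw [happ]
    refine (measure_mono ?_).trans (hC x r hr)
    rintro _ ⟨y, hy, rfl⟩
    exact ⟨y.2, by rw [Metric.mem_ball, dist_comm, dist_eq_norm]; exact hy⟩
  · rw [h.div φ hφ e, sig, integral_subtype_comap hM (fun y => φ y * inner ℝ e (nu g y))]
  · obtain ⟨e, δ, h1, h2, h3⟩ := h.collar p p.2
    exact ⟨e, δ, h1, h2, fun y hy => h3 y y.2 hy⟩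

end Pool.Agent.H24Z.NP
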