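import Pool.Agent.H24Z.NP.GreenB

set_option autoImplicit false

/-! The eigenvalues on a round sphere. -/

namespace Pool.Agent.H24Z.NP

open MeasureTheory Filter Topology Set Real

variable {Ω M : Set E3} {μ : Measure M} {ν : M → E3}

theorem sphere_ode (f f' : ℝ → ℝ) (k : ℝ) (hk : k < 1) (hk0 : k ≠ 0)
    (hd : ∀ q ∈ Ioo (-1 : ℝ) 1, HasDerivAt f (f' q) q)
    (he : ∀ q ∈ Ioo (-1 : ℝ) 1, q * f' q = k * f q) :
    ∀ q ∈ Ioo (0 : ℝ) 1, f q = 0 := by
  have h00 : (0 : ℝ) ∈ Ioo (-1 : ℝ) 1 := ⟨by norm_num, by norm_num⟩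
  have hf0 : f 0 = 0 := by
    have := he 0 h00
    simp only [zero_mul] at this
    rcases mul_eq_zero.mp this.symm with h | h
    · exact absurd h hk0
    · exact h
  set g : ℝ → ℝ := fun q => f q * q ^ (-k) with hg
  have hgd : ∀ q ∈ Ioo (0 : ℝ) 1, HasDerivAt g 0 q := by
    intro q hq
    have hq' : q ∈ Ioo (-1 : ℝ) 1 := ⟨by linarith [hq.1], hq.2⟩
    have h1 : HasDerivAt (fun q : ℝ => q ^ (-k)) (-k * q ^ (-k - 1)) q :=
      Real.hasDerivAt_rpow_const (Or.inl hq.1.ne')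
    have h2 := (hd q hq').mul h1
    refine HasDerivAt.congr_deriv h2 ?_
    have h3 : q ^ (-k) = q * q ^ (-k - 1) := by
      rw [Real.rpow_sub_one hq.1.ne']
      field_simp [hq.1.ne']
    rw [h3]
    have := he q hq'
    linear_combination (q ^ (-k - 1)) * this
  have hconst : ∀ a ∈ Ioo (0 : ℝ) 1, ∀ b ∈ Ioo (0 : ℝ) 1, g a = g b := by
    intro a ha b hb
    apply IsOpen.is_const_of_deriv_eq_zero isOpen_Ioo isPreconnected_Ioo
      (fun q hq => (hgd q hq).differentiableAt.differentiableWithinAt)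
      (fun q hq => (hgd q hq).deriv) ha hb
  have hlim : Tendsto g (𝓝[>] 0) (𝓝 0) := by
    have h1 : Tendsto (fun q : ℝ => q⁻¹ * f q) (𝓝[>] 0) (𝓝 (f' 0)) := by
      have := (hd 0 h00).tendsto_slope_zero_right
      simpa [hf0] using this
    have h2 : Tendsto (fun q : ℝ => q ^ (1 - k)) (𝓝[>] 0) (𝓝 0) := by
      have hc : ContinuousAt (fun q : ℝ => q ^ (1 - k)) 0 :=
        Real.continuousAt_rpow_const 0 (1 - k) (Or.inr (by linarith))
      have := hc.tendsto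
      rw [Real.zero_rpow (by linarith : (1 - k) ≠ 0)] at this
      exact this.mono_left nhdsWithin_le_nhds
    have h3 := h1.mul h2
    rw [mul_zero] at h3
    refine h3.congr' ?_
    filter_upwards [self_mem_nhdsWithin] with q hq
    have hq0 : (0 : ℝ) < q := hq
    have : q ^ (1 - k) = q * q ^ (-k) := by
      rw [sub_eq_add_neg, Real.rpow_add hq0, Real.rpow_one]
    simp only [hg, this]
    field_simp
  intro q hq
  have h4 : Tendsto g (𝓝[>] 0) (𝓝 (g q)) := by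
    refine tendsto_const_nhds.congr' ?_
    filter_upwards [Ioo_mem_nhdsGT (show (0 : ℝ) < 1 by norm_num)] with a ha
    exact hconst q hq a ha
  have h5 : g q = 0 := tendsto_nhds_unique h4 hlim
  simp only [hg] at h5
  rcases mul_eq_zero.mp h5 with h | h
  · exact h
  · exact absurd h (Real.rpow_pos_of_pos hq.1 _).ne'

theorem sphere_inner (c x y : E3) :
    inner ℝ (y - x) (y - c) = (‖y - x‖ ^ 2 + ‖y - c‖ ^ 2 - ‖x - c‖ ^ 2) / 2 := by
  have h : x - c = (y - c) - (y - x) := by abel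
  rw [h, norm_sub_sq_real (y - c) (y - x), real_inner_comm]
  ring

theorem sphere_kk (c : E3) (r : ℝ) (hr : 0 < r)
    (hM : ∀ y : M, ‖(y : E3) - c‖ = r) (hν : ∀ y : M, ν y = r⁻¹ • ((y : E3) - c))
    (y : M) (x : E3) :
    kk ν y x = (2 * r)⁻¹ * (‖(y : E3) - x‖⁻¹ + (r ^ 2 - ‖x - c‖ ^ 2) / ‖(y : E3) - x‖ ^ 3) := by
  unfold kk
  rw [hν, inner_smul_right, sphere_inner, hM]
  by_cases h : ‖(y : E3) - x‖ = 0
  · simp [h]
  · field_simp
    ring

theorem sphere_kk_bdry (c : E3) (r : ℝ) (hr : 0 < r)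
    (hM : ∀ y : M, ‖(y : E3) - c‖ = r) (hν : ∀ y : M, ν y = r⁻¹ • ((y : E3) - c))
    (y x : M) :
    kk ν y x = (2 * r)⁻¹ * ‖(y : E3) - x‖⁻¹ := by
  rw [sphere_kk c r hr hM hν, hM]
  simp

theorem sphere_low (c : E3) (r : ℝ) (hM : ∀ y : M, ‖(y : E3) - c‖ = r) (y : M) (x : E3) :
    r - ‖x - c‖ ≤ ‖(y : E3) - x‖ := by
  have h : (y : E3) - c = ((y : E3) - x) + (x - c) := by abel
  have := norm_add_le ((y : E3) - x) (x - c)
  rw [← h, hM] at this
  linarith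

theorem sphere_cont_inv (c : E3) (r : ℝ) (hM : ∀ y : M, ‖(y : E3) - c‖ = r) {x : E3}
    (hx : ‖x - c‖ < r) : Continuous (fun y : M => ‖(y : E3) - x‖⁻¹) := by
  refine Continuous.inv₀ (by fun_prop) ?_
  intro y
  have := sphere_low c r hM y x
  linarith

theorem sphere_inv_le (c : E3) (r : ℝ) (hM : ∀ y : M, ‖(y : E3) - c‖ = r) {x : E3}
    (hx : ‖x - c‖ < r) (y : M) : ‖(y : E3) - x‖⁻¹ ≤ (r - ‖x - c‖)⁻¹ := by
  have := sphere_low c r hM y x
  exact inv_anti₀ (by linarith) this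

theorem Data.sphere_ws (D : Data Ω M μ ν) (x : E3) :
    Integrable (fun y : M => ‖(y : E3) - x‖⁻¹) μ := by
  simpa only [norm_sub_rev] using D.ws_int x

/-- the Poisson kernel reproduces the Newton kernel -/
theorem Data.sphere_poisson (D : Data Ω M μ ν) (c : E3) (r : ℝ) (hr : 0 < r)
    (hM : ∀ y : M, ‖(y : E3) - c‖ = r) (hν : ∀ y : M, ν y = r⁻¹ • ((y : E3) - c))
    (hΩ : Metric.ball c r ⊆ Ω) {x : E3} (hx : ‖x - c‖ < r) (z : M) :
    ∫ y : M, ‖(y : E3) - z‖⁻¹ * ((r ^ 2 - ‖x - c‖ ^ 2) * ‖(y : E3) - x‖⁻¹ ^ 3) ∂μ =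
      4 * π * r * ‖x - z‖⁻¹ := by
  have hxΩ : x ∈ Ω := hΩ (by simpa [Metric.mem_ball, dist_eq_norm] using hx)
  have h := D.green_sym_int hxΩ z
  have hc := sphere_cont_inv c r hM hx
  have i1 : Integrable (fun y : M => ‖(y : E3) - z‖⁻¹ * ‖(y : E3) - x‖⁻¹) μ := by
    refine (D.sphere_ws z).mul_bdd (c := (r - ‖x - c‖)⁻¹) hc.aestronglyMeasurable ?_
    filter_upwards with y
    rw [Real.norm_of_nonneg (by positivity)]
    exact sphere_inv_le c r hM hx y
  have i2 : Integrable (fun y : M => ‖(y : E3) - z‖⁻¹ *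
      ((r ^ 2 - ‖x - c‖ ^ 2) * ‖(y : E3) - x‖⁻¹ ^ 3)) μ := by
    refine (D.sphere_ws z).mul_bdd (c := |r ^ 2 - ‖x - c‖ ^ 2| * (r - ‖x - c‖)⁻¹ ^ 3)
      (Continuous.aestronglyMeasurable (by fun_prop)) ?_
    filter_upwards with y
    rw [norm_mul, Real.norm_eq_abs, Real.norm_of_nonneg (by positivity)]
    have := sphere_inv_le c r hM hx y
    gcongr
  have e1 : ∫ y : M, ‖(y : E3) - z‖⁻¹ * kk ν y x ∂μ =
      (2 * r)⁻¹ * ((∫ y : M, ‖(y : E3) - z‖⁻¹ * ‖(y : E3) - x‖⁻¹ ∂μ) +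
        ∫ y : M, ‖(y : E3) - z‖⁻¹ * ((r ^ 2 - ‖x - c‖ ^ 2) * ‖(y : E3) - x‖⁻¹ ^ 3) ∂μ) := by
    rw [← integral_add i1 i2, ← integral_const_mul]
    congr 1
    ext y
    rw [sphere_kk c r hr hM hν, div_eq_mul_inv, ← inv_pow]
    ring
  have e2 : ∫ y : M, ‖(y : E3) - x‖⁻¹ * kk ν y z ∂μ =
      (2 * r)⁻¹ * (∫ y : M, ‖(y : E3) - z‖⁻¹ * ‖(y : E3) - x‖⁻¹ ∂μ) := by
    rw [← integral_const_mul]
    congr 1
    ext y
    rw [sphere_kk_bdry c r hr hM hν]
    ring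
  rw [e1, e2] at h
  generalize (∫ y : M, ‖(y : E3) - z‖⁻¹ * ‖(y : E3) - x‖⁻¹ ∂μ) = A at h
  generalize (∫ y : M, ‖(y : E3) - z‖⁻¹ *
    ((r ^ 2 - ‖x - c‖ ^ 2) * ‖(y : E3) - x‖⁻¹ ^ 3) ∂μ) = B at h ⊢
  generalize ‖x - z‖⁻¹ = w at h ⊢
  field_simp at h
  linarith

theorem Data.sphere_prod (D : Data Ω M μ ν) (φ : M → ℝ) (hφ : Integrable φ μ) :
    Integrable (fun p : M × M => ‖(p.1 : E3) - p.2‖⁻¹ * φ p.2) (μ.prod μ) := by
  have := D.fin
  obtain ⟨C, hC⟩ := D.ws_bound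
  have hm : AEStronglyMeasurable (fun p : M × M => ‖(p.1 : E3) - p.2‖⁻¹ * φ p.2) (μ.prod μ) :=
    D.ws_prod.aestronglyMeasurable.mul hφ.aestronglyMeasurable.comp_snd
  rw [integrable_prod_iff' hm]
  constructor
  · filter_upwards with z
    exact (D.sphere_ws z).mul_const (φ z)
  · refine Integrable.mono' (hφ.norm.const_mul C) hm.norm.prod_swap.integral_prod_right' ?_
    filter_upwards with z
    rw [Real.norm_of_nonneg (integral_nonneg fun _ => norm_nonneg _)]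
    have : ∀ y : M, ‖‖(y : E3) - z‖⁻¹ * φ z‖ = ‖(z : E3) - y‖⁻¹ * ‖φ z‖ := by
      intro y
      rw [norm_mul, Real.norm_of_nonneg (by positivity), norm_sub_rev]
    simp only [this]
    rw [integral_mul_const]
    exact mul_le_mul_of_nonneg_right (hC z) (norm_nonneg _)

/-- the interior identity for the single layer potential of an eigenfunction -/
theorem Data.sphere_int (D : Data Ω M μ ν) (c : E3) (r : ℝ) (hr : 0 < r)
    (hM : ∀ y : M, ‖(y : E3) - c‖ = r) (hν : ∀ y : M, ν y = r⁻¹ • ((y : E3) - c))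
    (hΩ : Metric.ball c r ⊆ Ω) (φ : M → ℝ) (hφ : Integrable φ μ) (t : ℝ)
    (h : ∀ᵐ x : M ∂μ, ∫ y : M, ‖(x : E3) - y‖⁻¹ * φ y ∂μ = 8 * π * r * t * φ x)
    {x : E3} (hx : ‖x - c‖ < r) :
    ∫ z : M, ‖x - z‖⁻¹ * φ z ∂μ =
      2 * t * ∫ y : M, ((r ^ 2 - ‖x - c‖ ^ 2) * ‖(y : E3) - x‖⁻¹ ^ 3) * φ y ∂μ := by
  have := D.fin
  have hc := sphere_cont_inv c r hM hx
  set P : M → ℝ := fun y => (r ^ 2 - ‖x - c‖ ^ 2) * ‖(y : E3) - x‖⁻¹ ^ 3 with hP
  have hPc : Continuous P := by simp only [hP]; fun_prop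
  have hI : Integrable (fun p : M × M => P p.1 * (‖(p.1 : E3) - p.2‖⁻¹ * φ p.2)) (μ.prod μ) := by
    refine (D.sphere_prod φ hφ).bdd_mul (c := |r ^ 2 - ‖x - c‖ ^ 2| * (r - ‖x - c‖)⁻¹ ^ 3)
      (hPc.comp continuous_fst).aestronglyMeasurable ?_
    filter_upwards with p
    simp only [hP]
    rw [norm_mul, Real.norm_eq_abs, Real.norm_of_nonneg (by positivity)]
    have := sphere_inv_le c r hM hx p.1
    gcongr
  have hF := integral_integral_swap (μ := μ) (ν := μ)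
    (f := fun y z : M => P y * (‖(y : E3) - z‖⁻¹ * φ z)) hI
  have l1 : ∫ y : M, ∫ z : M, P y * (‖(y : E3) - z‖⁻¹ * φ z) ∂μ ∂μ =
      8 * π * r * t * ∫ y : M, P y * φ y ∂μ := by
    rw [← integral_const_mul]
    refine integral_congr_ae ?_
    filter_upwards [h] with y hy
    rw [integral_const_mul, hy]
    ring
  have l2 : ∫ z : M, ∫ y : M, P y * (‖(y : E3) - z‖⁻¹ * φ z) ∂μ ∂μ =
      4 * π * r * ∫ z : M, ‖x - z‖⁻¹ * φ z ∂μ := by
    rw [← integral_const_mul]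
    congr 1
    ext z
    have := D.sphere_poisson c r hr hM hν hΩ hx z
    rw [← mul_assoc, ← this, ← integral_mul_const]
    congr 1
    ext y
    simp only [hP]
    ring
  rw [l1, l2] at hF
  have hπ := Real.pi_pos
  have : 4 * π * r * ∫ z : M, ‖x - z‖⁻¹ * φ z ∂μ =
      4 * π * r * (2 * t * ∫ y : M, P y * φ y ∂μ) := by
    rw [← hF]; ring
  exact mul_left_cancel₀ (by positivity) this

theorem sphere_hasDerivAt (a v : E3) (q : ℝ) (h : a + q • v ≠ 0) :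
    HasDerivAt (fun q : ℝ => ‖a + q • v‖⁻¹)
      (-(inner ℝ (a + q • v) v * ‖a + q • v‖⁻¹ ^ 3)) q := by
  have h1 : HasDerivAt (fun q : ℝ => a + q • v) v q := by
    simpa using ((hasDerivAt_id q).smul_const v).const_add a
  have h2 := h1.norm_sq
  have hn : 0 < ‖a + q • v‖ := norm_pos_iff.mpr h
  have h3 := h2.sqrt (by positivity)
  have h4 := h3.inv (by rw [Real.sqrt_sq hn.le]; exact hn.ne')
  have e : (fun q : ℝ => ‖a + q • v‖⁻¹) = (fun q : ℝ => √(‖a + q • v‖ ^ 2))⁻¹ := by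
    ext q
    simp
  rw [e]
  refine HasDerivAt.congr_deriv h4 ?_
  simp only [Real.sqrt_sq (norm_nonneg _)]
  field_simp

theorem Data.sphere_deriv (D : Data Ω M μ ν) (c : E3) (r : ℝ) (hr : 0 < r)
    (hM : ∀ y : M, ‖(y : E3) - c‖ = r) (φ : M → ℝ) (hφ : Integrable φ μ) (v : E3)
    (hv : ‖v‖ = r) (q : ℝ) (hq : q ∈ Ioo (-1 : ℝ) 1) :
    HasDerivAt (fun q : ℝ => ∫ z : M, ‖c + q • v - z‖⁻¹ * φ z ∂μ)
      (∫ z : M, -(inner ℝ (c + q • v - z) v * ‖c + q • v - z‖⁻¹ ^ 3) * φ z ∂μ) q := by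
  have hq1 : |q| < 1 := abs_lt.mpr hq
  set ρ : ℝ := (1 + |q|) / 2 with hρ
  have hρ1 : ρ < 1 := by simp only [hρ]; linarith
  have hρq : |q| < ρ := by simp only [hρ]; linarith
  have hs : {s : ℝ | |s| < ρ} ∈ 𝓝 q :=
    (isOpen_lt continuous_abs continuous_const).mem_nhds hρq
  have hin : ∀ s : ℝ, |s| < ρ → ‖c + s • v - c‖ ≤ ρ * r := by
    intro s hs
    rw [add_sub_cancel_left, norm_smul, hv, Real.norm_eq_abs]
    gcongr
  have hin' : ∀ s : ℝ, |s| < ρ → ‖c + s • v - c‖ < r := by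
    intro s hs
    have := hin s hs
    nlinarith
  have hδ : 0 < r - ρ * r := by nlinarith
  have hlow : ∀ s : ℝ, |s| < ρ → ∀ z : M, r - ρ * r ≤ ‖c + s • v - z‖ := by
    intro s hs z
    have := sphere_low c r hM z (c + s • v)
    rw [norm_sub_rev (z : E3)] at this
    linarith [hin s hs]
  have hcont : ∀ s : ℝ, |s| < ρ → Continuous (fun z : M => ‖c + s • v - z‖⁻¹) := by
    intro s hs
    simpa only [norm_sub_rev] using sphere_cont_inv c r hM (hin' s hs)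
  have key := hasDerivAt_integral_of_dominated_loc_of_deriv_le (μ := μ) (x₀ := q)
    (F := fun (s : ℝ) (z : M) => ‖c + s • v - z‖⁻¹ * φ z)
    (F' := fun (s : ℝ) (z : M) => -(inner ℝ (c + s • v - z) v * ‖c + s • v - z‖⁻¹ ^ 3) * φ z)
    (bound := fun z : M => (r * (r - ρ * r)⁻¹ ^ 2) * ‖φ z‖) hs ?_ ?_ ?_ ?_ ?_ ?_
  · exact key.2
  · filter_upwards [hs] with s hs
    exact (hcont s hs).aestronglyMeasurable.mul hφ.aestronglyMeasurable
  · refine hφ.bdd_mul (c := (r - ρ * r)⁻¹) (hcont q hρq).aestronglyMeasurable ?_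
    filter_upwards with z
    rw [Real.norm_of_nonneg (by positivity)]
    exact inv_anti₀ hδ (hlow q hρq z)
  · refine AEStronglyMeasurable.mul (Continuous.aestronglyMeasurable ?_) hφ.aestronglyMeasurable
    have := hcont q hρq
    fun_prop
  · filter_upwards with z s hs
    have hs' : |s| < ρ := hs
    rw [norm_mul, norm_neg, norm_mul]
    refine mul_le_mul_of_nonneg_right ?_ (norm_nonneg _)
    have hl := hlow s hs' z
    have hp : 0 < ‖c + s • v - z‖ := lt_of_lt_of_le hδ hl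
    have h1 : ‖inner ℝ (c + s • v - z) v‖ ≤ ‖c + s • v - z‖ * r := by
      rw [← hv]; exact norm_inner_le_norm _ _
    have h2 : ‖c + s • v - z‖⁻¹ ≤ (r - ρ * r)⁻¹ := inv_anti₀ hδ hl
    rw [Real.norm_of_nonneg (by positivity : 0 ≤ ‖c + s • v - z‖⁻¹ ^ 3)]
    calc ‖inner ℝ (c + s • v - z) v‖ * ‖c + s • v - z‖⁻¹ ^ 3
        ≤ (‖c + s • v - z‖ * r) * ‖c + s • v - z‖⁻¹ ^ 3 := by gcongr
      _ = r * ‖c + s • v - z‖⁻¹ ^ 2 := by field_simp
      _ ≤ r * (r - ρ * r)⁻¹ ^ 2 := by gcongr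
  · exact hφ.norm.const_mul _
  · filter_upwards with z s hs
    have hs' : |s| < ρ := hs
    have hp : 0 < ‖c + s • v - z‖ := lt_of_lt_of_le hδ (hlow s hs' z)
    have e : ∀ s : ℝ, c + s • v - z = (c - z) + s • v := by intro s; abel
    simp only [e] at hp ⊢
    exact (sphere_hasDerivAt (c - z) v s (norm_pos_iff.mp hp)).mul_const (φ z)

theorem sphere_radial (c : E3) (r : ℝ) (x y : E3) (hx : ‖x - c‖ = r) (hy : ‖y - c‖ = r) (q : ℝ) :
    ‖c + q • (x - c) - y‖ ^ 2 = q * ‖x - y‖ ^ 2 + r ^ 2 * (1 - q) ^ 2 := by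
  have e1 : c + q • (x - c) - y = q • (x - c) - (y - c) := by abel
  have e2 : x - y = (x - c) - (y - c) := by abel
  rw [e1, e2, norm_sub_sq_real (q • (x - c)), norm_sub_sq_real (x - c), norm_smul, inner_smul_left, hx, hy, mul_pow,
    Real.norm_eq_abs, sq_abs]
  simp only [conj_trivial]
  ring

theorem Data.sphere_limit (D : Data Ω M μ ν) (c : E3) (r : ℝ) (hr : 0 < r)
    (hM : ∀ y : M, ‖(y : E3) - c‖ = r) (φ : M → ℝ) (hφ : Integrable φ μ) (x : M)
    (hx : Integrable (fun y : M => ‖(x : E3) - y‖⁻¹ * φ y) μ) :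
    Tendsto (fun q : ℝ => ∫ z : M, ‖c + q • ((x : E3) - c) - z‖⁻¹ * φ z ∂μ) (𝓝[<] 1)
      (𝓝 (∫ z : M, ‖(x : E3) - z‖⁻¹ * φ z ∂μ)) := by
  have hI : Ioo (1 / 4 : ℝ) 1 ∈ 𝓝[<] (1 : ℝ) := Ioo_mem_nhdsLT (by norm_num)
  refine tendsto_integral_filter_of_dominated_convergence
    (fun z : M => 2 * ‖‖(x : E3) - z‖⁻¹ * φ z‖) ?_ ?_ (hx.norm.const_mul 2) ?_
  · filter_upwards with q
    exact (D.ws_int _).aestronglyMeasurable.mul hφ.aestronglyMeasurable
  · filter_upwards [hI] with q hq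
    filter_upwards [D.ae_ne x] with z hz
    have hp : 0 < ‖(x : E3) - z‖ := norm_pos_iff.mpr (sub_ne_zero.mpr hz.symm)
    have h1 := sphere_radial c r x z (hM x) (hM z) q
    have h2 : ‖(x : E3) - z‖ / 2 ≤ ‖c + q • ((x : E3) - c) - z‖ := by
      refine abs_le_of_sq_le_sq' ?_ (norm_nonneg _) |>.2
      rw [h1]
      have := hq.1
      nlinarith [sq_nonneg (r * (1 - q)), sq_nonneg ‖(x : E3) - z‖]
    have h3 : ‖c + q • ((x : E3) - c) - z‖⁻¹ ≤ 2 * ‖(x : E3) - z‖⁻¹ := by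
      have := inv_anti₀ (by positivity) h2
      rwa [inv_div, div_eq_mul_inv] at this
    rw [norm_mul, norm_mul, Real.norm_of_nonneg (by positivity),
      Real.norm_of_nonneg (by positivity : 0 ≤ ‖(x : E3) - z‖⁻¹), ← mul_assoc]
    gcongr
  · filter_upwards [D.ae_ne x] with z hz
    have hp : 0 < ‖(x : E3) - z‖ := norm_pos_iff.mpr (sub_ne_zero.mpr hz.symm)
    have hc : ContinuousAt (fun q : ℝ => ‖c + q • ((x : E3) - c) - z‖⁻¹ * φ z) 1 := by
      refine ContinuousAt.mul (ContinuousAt.inv₀ (by fun_prop) ?_) continuousAt_const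
      simpa using hp.ne'
    have := hc.tendsto
    simp only [one_smul, add_sub_cancel] at this
    exact this.mono_left nhdsWithin_le_nhds

theorem Data.sphere_eig (D : Data Ω M μ ν) (c : E3) (r : ℝ) (hr : 0 < r)
    (hM : ∀ y : M, ‖(y : E3) - c‖ = r) (hν : ∀ y : M, ν y = r⁻¹ • ((y : E3) - c))
    (hΩ : Metric.ball c r ⊆ Ω) (φ : M → ℝ) (hφ : Integrable φ μ) (t : ℝ) (ht : 1 / 6 < t)
    (ht' : t ≠ 1 / 2)
    (h : ∀ᵐ x : M ∂μ, 1 / (4 * π) * ∫ y : M, kk ν x y * φ y ∂μ = t * φ x) :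
    φ =ᵐ[μ] 0 := by
  have := D.fin
  have hπ := Real.pi_pos
  have ht0 : 0 < t := by linarith
  have h' : ∀ᵐ x : M ∂μ, ∫ y : M, ‖(x : E3) - y‖⁻¹ * φ y ∂μ = 8 * π * r * t * φ x := by
    filter_upwards [h] with x hx
    simp only [sphere_kk_bdry c r hr hM hν, mul_assoc] at hx
    rw [integral_const_mul] at hx
    generalize (∫ y : M, ‖(x : E3) - y‖⁻¹ * φ y ∂μ) = A at hx ⊢
    field_simp at hx
    linarith
  have hzero : ∀ x : M, ∀ q ∈ Ioo (0 : ℝ) 1,
      ∫ z : M, ‖c + q • ((x : E3) - c) - z‖⁻¹ * φ z ∂μ = 0 := by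
    intro x
    set v : E3 := (x : E3) - c with hv
    have hvr : ‖v‖ = r := hM x
    refine sphere_ode _ (fun q => ∫ z : M,
      -(inner ℝ (c + q • v - z) v * ‖c + q • v - z‖⁻¹ ^ 3) * φ z ∂μ) ((1 - 2 * t) / (4 * t))
      ?_ ?_ (fun q hq => D.sphere_deriv c r hr hM φ hφ v hvr q hq) ?_
    · rw [div_lt_one (by positivity)]; linarith
    · refine div_ne_zero ?_ (by positivity)
      intro h0
      apply ht'
      linarith
    · intro q hq
      have hq1 : |q| < 1 := abs_lt.mpr hq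
      have hn : ‖c + q • v - c‖ < r := by
        rw [add_sub_cancel_left, norm_smul, hvr, Real.norm_eq_abs]
        nlinarith
      have key := D.sphere_int c r hr hM hν hΩ φ hφ t h' hn
      have hc := sphere_cont_inv c r hM hn
      have hc' : Continuous (fun z : M => ‖c + q • v - z‖⁻¹) := by
        simpa only [norm_sub_rev] using hc
      have i1 : Integrable (fun z : M => ‖c + q • v - z‖⁻¹ * φ z) μ := by
        refine hφ.bdd_mul (c := (r - ‖c + q • v - c‖)⁻¹) hc'.aestronglyMeasurable ?_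
        filter_upwards with z
        rw [Real.norm_of_nonneg (by positivity), norm_sub_rev]
        exact sphere_inv_le c r hM hn z
      have i2 : Integrable (fun y : M =>
          ((r ^ 2 - ‖c + q • v - c‖ ^ 2) * ‖(y : E3) - (c + q • v)‖⁻¹ ^ 3) * φ y) μ := by
        refine hφ.bdd_mul (c := |r ^ 2 - ‖c + q • v - c‖ ^ 2| * (r - ‖c + q • v - c‖)⁻¹ ^ 3)
          (Continuous.aestronglyMeasurable (by fun_prop)) ?_
        filter_upwards with y
        rw [norm_mul, Real.norm_eq_abs, Real.norm_of_nonneg (by positivity)]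
        have := sphere_inv_le c r hM hn y
        gcongr
      have e : 2 * (q * ∫ z : M,
          -(inner ℝ (c + q • v - z) v * ‖c + q • v - z‖⁻¹ ^ 3) * φ z ∂μ) =
          (∫ y : M, ((r ^ 2 - ‖c + q • v - c‖ ^ 2) * ‖(y : E3) - (c + q • v)‖⁻¹ ^ 3) * φ y ∂μ) -
            ∫ z : M, ‖c + q • v - z‖⁻¹ * φ z ∂μ := by
        rw [← integral_sub i2 i1, ← integral_const_mul, ← integral_const_mul]
        congr 1
        ext z
        have hp : 0 < ‖c + q • v - z‖ := by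
          have := sphere_low c r hM z (c + q • v)
          rw [norm_sub_rev (z : E3)] at this
          linarith
        have e1 : (z : E3) - c = q • v - (c + q • v - z) := by abel
        have e2 : r ^ 2 = ‖q • v‖ ^ 2 - 2 * (q * inner ℝ (c + q • v - z) v) +
            ‖c + q • v - z‖ ^ 2 := by
          rw [← hM z, e1, norm_sub_sq_real, inner_smul_left, real_inner_comm]
          simp
        rw [add_sub_cancel_left, norm_sub_rev (z : E3), e2]
        field_simp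
        ring
      beta_reduce
      rw [key] at e ⊢
      generalize (∫ y : M, ((r ^ 2 - ‖c + q • v - c‖ ^ 2) *
        ‖(y : E3) - (c + q • v)‖⁻¹ ^ 3) * φ y ∂μ) = A at e ⊢
      generalize (∫ z : M,
          -(inner ℝ (c + q • v - z) v * ‖c + q • v - z‖⁻¹ ^ 3) * φ z ∂μ) = B at e ⊢
      field_simp
      linear_combination 2 * e
  have hint := (D.sphere_prod φ hφ).prod_right_ae
  filter_upwards [h', hint] with x hx hxi
  have hl := D.sphere_limit c r hr hM φ hφ x hxi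
  have hl0 : Tendsto (fun q : ℝ => ∫ z : M, ‖c + q • ((x : E3) - c) - z‖⁻¹ * φ z ∂μ) (𝓝[<] 1)
      (𝓝 0) := by
    refine tendsto_const_nhds.congr' ?_
    filter_upwards [Ioo_mem_nhdsLT (show (0 : ℝ) < 1 by norm_num)] with q hq
    exact (hzero x q hq).symm
  have h0 := tendsto_nhds_unique hl hl0
  rw [hx] at h0
  have hne : 8 * π * r * t ≠ 0 := by positivity
  exact (mul_eq_zero.mp h0).resolve_left hne

end Pool.Agent.H24Z.NP
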