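import Pool.Agent.H24Z.NP.Main
import Pool.Agent.H24Z.NP.Sphere
import Pool.Agent.H24Z.NP.DivC

set_option autoImplicit false

/-! The normalisation of the surface measure and the final statement. -/

namespace Pool.Agent.H24Z.NP

open MeasureTheory Filter Topology Set Real

lemma dom_unit : Dom fun x : E3 => ‖x‖ ^ 2 - 1 := by
  refine ⟨(contDiff_norm_sq ℝ).sub contDiff_const, fun x hx h0 => ?_, 2, fun x hx => by nlinarith⟩
  have h1 : HasFDerivAt (fun x : E3 => ‖x‖ ^ 2 - 1) (2 • innerSL ℝ x) x :=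
    (hasStrictFDerivAt_norm_sq x).hasFDerivAt.sub_const 1
  have h2 : fderiv ℝ (fun x : E3 => ‖x‖ ^ 2 - 1) x x = 0 := by
    rw [← InnerProductSpace.toDual_symm_apply (𝕜 := ℝ)]
    change inner ℝ (gradient (fun x : E3 => ‖x‖ ^ 2 - 1) x) x = 0
    rw [h0, inner_zero_left]
  rw [h1.fderiv] at h2
  simp only [smul_apply, innerSL_apply_apply, real_inner_self_eq_norm_sq] at h2
  simp only [nsmul_eq_mul, Nat.cast_ofNat] at h2
  linarith

lemma m2_sphere : m2 (Metric.sphere (0 : E3) 1) = ENNReal.ofReal (4 * π) := by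
  have h := dom_unit
  set g : E3 → ℝ := fun x => ‖x‖ ^ 2 - 1 with hg
  have hM : {x | g x = 0} = Metric.sphere (0 : E3) 1 := by
    ext x
    simp only [hg, mem_ofPred_eq, mem_sphere_iff_norm, sub_zero, sub_eq_zero]
    exact pow_eq_one_iff_of_nonneg (norm_nonneg x) two_ne_zero
  obtain ⟨h1, h2⟩ := h.nu_sphere 0 1 one_pos hM
  have D := h.data
  have := D.fin
  have hcp : CompactSpace {x | g x = 0} := isCompact_iff_compactSpace.mp D.cp
  have hν := D.cont
  have h3 := Finset.sum_congr (rfl : (Finset.univ : Finset (Fin 3)) = _) fun j _ => D.green_pos j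
  rw [← integral_finsetSum _ fun j _ =>
    Continuous.integrable_of_hasCompactSupport (f := fun y : {x | g x = 0} => (y : E3) j * nu g y j)
      (Continuous.mul (by fun_prop) ((EuclideanSpace.proj j : E3 →L[ℝ] ℝ).continuous.comp hν))
      (HasCompactSupport.of_compactSpace _)]
    at h3
  have h4 : ∀ y : {x | g x = 0}, ∑ j : Fin 3, (y : E3) j * nu g y j = 1 := fun y => by
    have h5 : ‖(y : E3)‖ ^ 2 = 1 := sub_eq_zero.mp y.2
    rw [EuclideanSpace.real_norm_sq_eq] at h5
    rw [h1 y y.2]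
    simpa [sq] using h5
  simp_rw [h4] at h3
  rw [h2, integral_const, Measure.real, Measure.real, EuclideanSpace.volume_ball_fin_three] at h3
  have h6 : sig g univ = m2 (Metric.sphere (0 : E3) 1) := by
    rw [sig, (MeasurableEmbedding.subtype_coe h.isCompact.measurableSet).comap_apply, ← hM]
    simp
  rw [← h6, ← ENNReal.ofReal_toReal (measure_ne_top (sig g) univ)]
  congr 1
  simp only [smul_eq_mul, mul_one, ENNReal.ofReal_one, one_pow, one_mul, Finset.sum_const,
    Finset.card_univ, Fintype.card_fin, nsmul_eq_mul, Nat.cast_ofNat] at h3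
  rw [h3, ENNReal.toReal_ofReal (by positivity)]
  ring

lemma sigma_eq (s : Set E3) :
    (ENNReal.ofReal (4 * π) / Measure.hausdorffMeasure 2 (Metric.sphere (0 : E3) 1)) •
      (Measure.hausdorffMeasure 2 : Measure E3).restrict s = m2.restrict s := by
  have h := m2_sphere
  have h0 := Measure.addHaarScalarFactor_volume_hausdorffMeasure_ne_zero 2
  have hd : m2 = Measure.addHaarScalarFactor (volume : Measure (EuclideanSpace ℝ (Fin 2)))
      (Measure.hausdorffMeasure ((2 : ℕ) : ℝ)) • (Measure.hausdorffMeasure 2 : Measure E3) := by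
    rw [m2, Measure.euclideanHausdorffMeasure_def]
    rfl
  generalize Measure.addHaarScalarFactor (volume : Measure (EuclideanSpace ℝ (Fin 2)))
      (Measure.hausdorffMeasure ((2 : ℕ) : ℝ)) = c at h0 hd
  rw [hd] at h ⊢
  rw [Measure.restrict_smul, ← h, Measure.smul_apply, ENNReal.smul_def, smul_eq_mul]
  rw [Measure.smul_apply, ENNReal.smul_def, smul_eq_mul] at h
  have h1 : Measure.hausdorffMeasure 2 (Metric.sphere (0 : E3) 1) ≠ 0 := by
    intro h2
    rw [h2, mul_zero] at h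
    exact (ENNReal.ofReal_pos.mpr (by positivity)).ne h
  have h2 : Measure.hausdorffMeasure 2 (Metric.sphere (0 : E3) 1) ≠ ⊤ := by
    intro h2
    rw [h2, ENNReal.mul_top (by simpa using h0)] at h
    exact ENNReal.ofReal_ne_top h.symm
  rw [ENNReal.mul_div_cancel_right h1 h2]
  rfl

theorem final (g : E3 → ℝ) (h : Dom g) (hne : Set.Nonempty {x | g x = 0})
    [PreconnectedSpace {x | g x = 0}] (P : ℝ → Prop)
    (hP : ∀ t : ℝ, P t ↔ ∃ φ : E3 → ℝ,
      MemLp φ 2 (m2.restrict {x | g x = 0}) ∧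
        ¬ Filter.EventuallyEq (ae (m2.restrict {x | g x = 0})) φ 0 ∧
        ∀ᵐ x ∂(m2.restrict {x | g x = 0}), (1 / (4 * π)) *
          (∫ y, inner ℝ (x - y) (gradient g x) /
            (‖gradient g x‖ * ‖x - y‖ ^ 3) * φ y ∂(m2.restrict {x | g x = 0})) = t * φ x) :
    (∃ t : ℝ, P t ∧ t ≠ 1 / 2 ∧ 1 / 6 ≤ t) ∧
      ((∀ t : ℝ, P t → t ≠ 1 / 2 → t ≤ 1 / 6) ↔
        ∃ c : E3, ∃ r : ℝ, 0 < r ∧ {x | g x = 0} = Metric.sphere c r) := by
  have D := h.data
  have := D.fin
  have := D.pos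
  have hcp : CompactSpace {x | g x = 0} := isCompact_iff_compactSpace.mp D.cp
  have hM : MeasurableSet {x | g x = 0} := h.isCompact.measurableSet
  have hemb := MeasurableEmbedding.subtype_coe hM
  have hmap : m2.restrict {x | g x = 0} = (sig g).map Subtype.val :=
    (map_comap_subtype_coe hM m2).symm
  have hker : ∀ (x : {x | g x = 0}) (y : E3),
      inner ℝ ((x : E3) - y) (gradient g x) / (‖gradient g x‖ * ‖(x : E3) - y‖ ^ 3) =
        kk (fun y : {x | g x = 0} => nu g y) x y := fun x y => by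
    rw [kk, nu, inner_smul_right, ← div_div, div_eq_inv_mul _ ‖gradient g x‖]
  simp only [hmap, hemb.memLp_map_measure_iff, Filter.EventuallyEq, hemb.ae_map_iff,
    hemb.integral_map, hker] at hP
  have hP1 : ∀ (t : ℝ) (φ : C({x | g x = 0}, ℝ)), φ ≠ 0 →
      (∀ x, 1 / (4 * π) * ∫ y : {x | g x = 0}, kk (fun y : {x | g x = 0} => nu g y) x y * φ y
        ∂sig g = t * φ x) → P t := by
    intro t φ hφ hφ'
    have he : ∀ y : {x | g x = 0}, Function.extend Subtype.val φ 0 (y : E3) = φ y :=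
      fun y => Subtype.val_injective.extend_apply _ _ _
    refine (hP t).mpr ⟨Function.extend Subtype.val φ 0, ?_, ?_, ?_⟩
    · rw [Function.extend_comp Subtype.val_injective]
      exact MemLp.of_bound φ.continuous.aestronglyMeasurable ‖φ‖
        (Eventually.of_forall φ.norm_coe_le_norm)
    · simp only [he]
      intro h0
      exact hφ (ContinuousMap.coe_injective
        ((φ.continuous.ae_eq_iff_eq (sig g) continuous_zero).mp h0))
    · simp only [he]
      exact Eventually.of_forall hφ'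
  obtain ⟨⟨t, ht1, ht2, φ, hφ, hφ'⟩, h2⟩ := D.main hne
  refine ⟨⟨t, hP1 t φ hφ hφ', ht1, ht2⟩, fun h3 => ?_, ?_⟩
  · obtain ⟨c, hc⟩ := h2 fun t φ hφ hφ' => h3 t (hP1 t φ hφ hφ')
    exact ⟨c, h.sphere_of_radial hne (isPreconnected_iff_preconnectedSpace.mpr inferInstance) c
      fun y hy => hc ⟨y, hy⟩⟩
  · rintro ⟨c, r, hr, hs⟩ t ht ht'
    by_contra h6
    obtain ⟨h4, h5⟩ := h.nu_sphere c r hr hs
    obtain ⟨φ, hφ1, hφ2, hφ3⟩ := (hP t).mp ht
    exact hφ2 (D.sphere_eig c r hr (fun y => mem_sphere_iff_norm.mp (hs ▸ y.2))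
      (fun y => h4 y y.2) h5.ge (φ ∘ Subtype.val) (hφ1.integrable one_le_two) t (not_le.mp h6) ht'
      hφ3)

end Pool.Agent.H24Z.NP
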