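import Pool.Agent.H24Z.NP.Defs

set_option autoImplicit false

/-! Elementary geometry of the level set of a defining function. -/

namespace Pool.Agent.H24Z.NP

open MeasureTheory Filter Topology Set

variable {g : E3 → ℝ}

theorem GeomS_diff (h : Dom g) : Differentiable ℝ g := h.sm.differentiable (by norm_num)

theorem GeomS_cfd (h : Dom g) : Continuous (fderiv ℝ g) := h.sm.continuous_fderiv (by norm_num)

theorem GeomS_cgrad (h : Dom g) : Continuous (gradient g) :=
  (InnerProductSpace.toDual ℝ E3).symm.continuous.comp (GeomS_cfd h)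

theorem GeomS_norm (x : E3) : ‖gradient g x‖ = ‖fderiv ℝ g x‖ :=
  (InnerProductSpace.toDual ℝ E3).symm.norm_map _

theorem GeomS_pos (h : Dom g) {x : E3} (hx : g x = 0) : 0 < ‖gradient g x‖ :=
  norm_pos_iff.2 (h.ne x hx)

theorem GeomS_unit (h : Dom g) {x : E3} (hx : g x = 0) : ‖nu g x‖ = 1 := by
  rw [nu, norm_smul, norm_inv, norm_norm, inv_mul_cancel₀ (GeomS_pos h hx).ne']

theorem GeomS_fderiv (h : Dom g) {x : E3} (hx : g x = 0) (v : E3) :
    fderiv ℝ g x v = ‖gradient g x‖ * inner ℝ v (nu g x) := by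
  rw [nu, inner_smul_right, real_inner_comm, inner_gradient_left, ← mul_assoc,
    mul_inv_cancel₀ (GeomS_pos h hx).ne', one_mul]

theorem GeomS_loc (h : Dom g) {p : E3} (hp : g p = 0) : ∃ R a : ℝ, 0 < R ∧ 0 < a ∧
    (∀ (w : E3) (s t : ℝ), s ≤ t → w + s • nu g p ∈ Metric.ball p R →
      w + t • nu g p ∈ Metric.ball p R →
      a * (t - s) ≤ g (w + t • nu g p) - g (w + s • nu g p)) ∧
    (∀ x ∈ Metric.ball p R, ∀ y ∈ Metric.ball p R, |g y - g x| ≤ 3 * a * ‖y - x‖) := by
  have hm := GeomS_pos h hp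
  set m := ‖gradient g p‖ with hmdef
  obtain ⟨R, hR, hb⟩ := Metric.continuousAt_iff.1 (GeomS_cfd h).continuousAt (m / 2)
    (by positivity : 0 < m / 2)
  have key : ∀ x ∈ Metric.ball p R, ∀ y ∈ Metric.ball p R,
      |g y - g x - m * inner ℝ (y - x) (nu g p)| ≤ m / 2 * ‖y - x‖ := by
    intro x hx y hy
    have := (convex_ball p R).norm_image_sub_le_of_norm_fderiv_le' (f := g) (φ := fderiv ℝ g p)
      (C := m / 2) (fun w _ => GeomS_diff h w)
      (fun w hw => by rw [← dist_eq_norm]; exact (hb hw).le) hx hy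
    rwa [GeomS_fderiv h hp, Real.norm_eq_abs] at this
  refine ⟨R, m / 2, hR, by positivity, ?_, ?_⟩
  · intro w s t hst h1 h2
    have h3 := key _ h1 _ h2
    have e : w + t • nu g p - (w + s • nu g p) = (t - s) • nu g p := by
      rw [sub_smul]; abel
    rw [e, inner_smul_left, real_inner_self_eq_norm_sq, norm_smul, GeomS_unit h hp,
      Real.norm_eq_abs, abs_of_nonneg (sub_nonneg.2 hst)] at h3
    simp only [conj_trivial] at h3
    have h4 := (abs_le.1 h3).1
    nlinarith
  · intro x hx y hy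
    have h3 := abs_le.1 (key x hx y hy)
    have h4 := abs_real_inner_le_norm (y - x) (nu g p)
    rw [GeomS_unit h hp, mul_one] at h4
    have h5 := abs_le.1 h4
    rw [abs_le]
    constructor <;> nlinarith [h3.1, h3.2, h5.1, h5.2]

theorem GeomS_ball {p n w : E3} (hn : ‖n‖ = 1) {ρ η R t : ℝ} (hw : w ∈ Metric.ball p ρ)
    (ht : |t| ≤ η) (hR : ρ + η ≤ R) : w + t • n ∈ Metric.ball p R := by
  rw [Metric.mem_ball, dist_eq_norm] at hw ⊢
  have e : w + t • n - p = (w - p) + t • n := by abel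
  have h1 := norm_add_le (w - p) (t • n)
  rw [norm_smul, hn, Real.norm_eq_abs] at h1
  rw [e]
  linarith

/-- the level set is locally a Lipschitz graph along the normal -/
theorem GeomS_graph (h : Dom g) {p : E3} (hp : g p = 0) {η0 : ℝ} (hη0 : 0 < η0) :
    ∃ ρ η : ℝ, 0 < ρ ∧ 0 < η ∧ η ≤ η0 ∧
    (∀ w ∈ Metric.ball p ρ, ∃ t : ℝ, |t| ≤ η ∧ g (w + t • nu g p) = 0) ∧
    (∀ w ∈ Metric.ball p ρ, ∀ w' ∈ Metric.ball p ρ, ∀ t t' : ℝ, |t| ≤ η → |t'| ≤ η →
      g (w + t • nu g p) = 0 → g (w' + t' • nu g p) = 0 → |t - t'| ≤ 3 * ‖w - w'‖) := by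
  obtain ⟨R, a, hR, ha, h1, h2⟩ := GeomS_loc h hp
  have hn := GeomS_unit h hp
  set n := nu g p
  set η := min η0 (R / 2) with hη
  have e1 : η ≤ η0 := min_le_left _ _
  have e2 : η ≤ R / 2 := min_le_right _ _
  have e3 : 0 < η := lt_min hη0 (by positivity)
  have hb : ∀ w ∈ Metric.ball p (η / 3), ∀ t : ℝ, |t| ≤ η → w + t • n ∈ Metric.ball p R :=
    fun w hw t ht => GeomS_ball hn hw ht (by linarith)
  refine ⟨η / 3, η, by positivity, e3, e1, ?_, ?_⟩
  · intro w hw
    have b0 := hb w hw 0 (by simp [e3.le])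
    have b1 := hb w hw η (by rw [abs_of_pos e3])
    have b2 := hb w hw (-η) (by rw [abs_neg, abs_of_pos e3])
    have c1 := h1 w 0 η e3.le b0 b1
    have c2 := h1 w (-η) 0 (by linarith) b2 b0
    have c3 := h2 p (Metric.mem_ball_self hR) _ b0
    simp only [zero_smul, add_zero] at c1 c2 c3
    rw [hp, sub_zero] at c3
    rw [Metric.mem_ball, dist_eq_norm] at hw
    have c4 := abs_le.1 c3
    have c5 : 3 * a * ‖w - p‖ ≤ a * η := by nlinarith
    have hcont : ContinuousOn (fun t : ℝ => g (w + t • n)) (Icc (-η) η) :=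
      ((GeomS_diff h).continuous.comp (by fun_prop)).continuousOn
    obtain ⟨t, ht, ht0⟩ := intermediate_value_Icc (by linarith : -η ≤ η) hcont
      (show (0 : ℝ) ∈ Icc (g (w + (-η) • n)) (g (w + η • n)) from ⟨by nlinarith, by nlinarith⟩)
    exact ⟨t, abs_le.2 ht, ht0⟩
  · intro w hw w' hw' t t' ht ht' z1 z2
    have c3 := h2 _ (hb w hw t' ht') _ (hb w' hw' t' ht')
    have e : w' + t' • n - (w + t' • n) = w' - w := by abel
    rw [e, z2, zero_sub, abs_neg, norm_sub_rev] at c3
    have c4 := abs_le.1 c3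
    rcases le_total t t' with h3 | h3
    · have c1 := h1 w t t' h3 (hb w hw t ht) (hb w hw t' ht')
      rw [z1, sub_zero] at c1
      rw [abs_sub_comm, abs_of_nonneg (sub_nonneg.2 h3)]
      nlinarith
    · have c1 := h1 w t' t h3 (hb w hw t' ht') (hb w hw t ht)
      rw [z1, zero_sub] at c1
      rw [abs_of_nonneg (sub_nonneg.2 h3)]
      nlinarith

theorem GeomS_const {f : ℝ → ℝ} {K : ℝ}
    (hf : ∀ s ∈ Icc (0 : ℝ) 1, ∀ s' ∈ Icc (0 : ℝ) 1, |f s' - f s| ≤ K * |s' - s| ^ 2) :
    f 1 = f 0 := by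
  have hd : ∀ s ∈ Icc (0 : ℝ) 1, HasDerivWithinAt f 0 (Icc 0 1) s := by
    intro s hs
    rw [hasDerivWithinAt_iff_isLittleO, Asymptotics.isLittleO_iff]
    intro c hc
    have h1 : ∀ᶠ s' in 𝓝[Icc (0 : ℝ) 1] s, |s' - s| < c / (|K| + 1) := by
      apply nhdsWithin_le_nhds
      have := Metric.ball_mem_nhds s (show 0 < c / (|K| + 1) by positivity)
      filter_upwards [this] with s' h
      rwa [Metric.mem_ball, Real.dist_eq] at h
    filter_upwards [h1, self_mem_nhdsWithin] with s' h2 h3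
    rw [smul_zero, sub_zero, Real.norm_eq_abs, Real.norm_eq_abs]
    have h4 := hf s hs s' h3
    rw [lt_div_iff₀ (by positivity)] at h2
    have h5 := le_abs_self K
    have h6 := abs_nonneg (s' - s)
    have h7 : K * |s' - s| ≤ c := by nlinarith
    nlinarith
  have := (convex_Icc (0 : ℝ) 1).norm_image_sub_le_of_norm_hasDerivWithin_le (C := 0) hd
    (fun _ _ => by simp) (left_mem_Icc.2 zero_le_one) (right_mem_Icc.2 zero_le_one)
  rw [zero_mul, norm_le_zero_iff, sub_eq_zero] at this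
  exact this

theorem Dom.isCompact (h : Dom g) : IsCompact {x | g x = 0} := by
  obtain ⟨R, hR⟩ := h.out
  refine (isCompact_closedBall (0 : E3) R).of_isClosed_subset
    (isClosed_eq (GeomS_diff h).continuous continuous_const) ?_
  intro x hx
  rw [mem_closedBall_zero_iff]
  by_contra hcon
  have := hR x (le_of_lt (not_le.1 hcon))
  rw [show g x = 0 from hx] at this
  exact lt_irrefl _ this

theorem Dom.nu_contOn (h : Dom g) : ContinuousOn (nu g) {x | g x = 0} :=
  (((GeomS_cgrad h).norm.continuousOn).inv₀ (fun _ hx => (GeomS_pos h hx).ne')).smul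
    (GeomS_cgrad h).continuousOn

theorem Dom.curv (h : Dom g) : ∃ C : ℝ, ∀ x y, g x = 0 → g y = 0 →
    |inner ℝ (x - y) (nu g x)| ≤ C * ‖x - y‖ ^ 2 := by
  rcases Set.eq_empty_or_nonempty {x | g x = 0} with he | hne
  · exact ⟨0, fun x _ hx => absurd (show x ∈ {x | g x = 0} from hx) (by rw [he]; simp)⟩
  obtain ⟨x0, hx0, hmin⟩ := h.isCompact.exists_isMinOn hne (GeomS_cgrad h).norm.continuousOn
  have hm := GeomS_pos h hx0
  obtain ⟨R, hR⟩ := h.isCompact.isBounded.subset_closedBall (0 : E3)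
  have h1 : ContDiff ℝ 1 (fderiv ℝ g) := h.sm.fderiv_right (by norm_num)
  obtain ⟨K, hK⟩ := (isCompact_closedBall (0 : E3) R).exists_bound_of_continuousOn
    (h1.continuous_fderiv (by norm_num)).continuousOn
  have hK0 : 0 ≤ K := (norm_nonneg _).trans (hK x0 (hR hx0))
  refine ⟨K / ‖gradient g x0‖, fun x y hx hy => ?_⟩
  have hconv : Convex ℝ (Metric.closedBall (0 : E3) R ∩ Metric.closedBall x ‖x - y‖) :=
    (convex_closedBall _ _).inter (convex_closedBall _ _)
  have h2 := hconv.norm_image_sub_le_of_norm_fderiv_le' (f := g) (φ := fderiv ℝ g x)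
    (C := K * ‖x - y‖) (fun w _ => GeomS_diff h w)
    (fun w hw => by
      have h3 := (convex_closedBall (0 : E3) R).norm_image_sub_le_of_norm_fderiv_le
        (f := fderiv ℝ g) (fun w _ => h1.differentiable (by norm_num) w) hK (hR hx) hw.1
      have h4 := hw.2
      rw [Metric.mem_closedBall, dist_eq_norm] at h4
      exact h3.trans (mul_le_mul_of_nonneg_left h4 hK0))
    (show y ∈ _ from ⟨hR hy, by rw [Metric.mem_closedBall, dist_eq_norm, norm_sub_rev]⟩)
    (show x ∈ _ from ⟨hR hx, Metric.mem_closedBall_self (norm_nonneg _)⟩)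
  rw [hx, hy, sub_zero, zero_sub, norm_neg, GeomS_fderiv h hx, Real.norm_eq_abs, abs_mul,
    abs_of_pos (GeomS_pos h hx)] at h2
  have h5 : ‖gradient g x0‖ ≤ ‖gradient g x‖ := hmin hx
  rw [div_mul_eq_mul_div, le_div_iff₀ hm]
  have h6 := abs_nonneg (inner ℝ (x - y) (nu g x))
  nlinarith

theorem GeomS_deriv (h : Dom g) (z v : E3) :
    HasDerivAt (fun ε : ℝ => g (z + ε • v)) (fderiv ℝ g z v) 0 := by
  have h1 : HasDerivAt (fun ε : ℝ => z + ε • v) v 0 := by
    simpa using ((hasDerivAt_id (0 : ℝ)).smul_const v).const_add z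
  have h2 : HasFDerivAt g (fderiv ℝ g z) (z + (0 : ℝ) • v) := by
    simpa using (GeomS_diff h z).hasFDerivAt
  exact h2.comp_hasDerivAt 0 h1

theorem Dom.halfIn (h : Dom g) (z : E3) (hz : g z = 0) (v : E3) (hv : inner ℝ v (nu g z) < 0) :
    ∀ᶠ ε : ℝ in 𝓝[>] 0, g (z + ε • v) < 0 := by
  have h1 := (GeomS_deriv h z v).tendsto_slope_zero_right
  have h2 : fderiv ℝ g z v < 0 := by
    rw [GeomS_fderiv h hz]
    exact mul_neg_of_pos_of_neg (GeomS_pos h hz) hv
  filter_upwards [h1.eventually (gt_mem_nhds h2), self_mem_nhdsWithin] with ε h3 h4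
  simp only [zero_add, zero_smul, add_zero, hz, sub_zero, smul_eq_mul] at h3
  have h5 : (0 : ℝ) < ε⁻¹ := inv_pos.2 h4
  by_contra hcon
  exact absurd h3 (not_lt.2 (mul_nonneg h5.le (not_lt.1 hcon)))

theorem Dom.halfOut (h : Dom g) (z : E3) (hz : g z = 0) (v : E3) (hv : 0 < inner ℝ v (nu g z)) :
    ∀ᶠ ε : ℝ in 𝓝[>] 0, 0 < g (z + ε • v) := by
  have h1 := (GeomS_deriv h z v).tendsto_slope_zero_right
  have h2 : 0 < fderiv ℝ g z v := by
    rw [GeomS_fderiv h hz]
    exact mul_pos (GeomS_pos h hz) hv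
  filter_upwards [h1.eventually (lt_mem_nhds h2), self_mem_nhdsWithin] with ε h3 h4
  simp only [zero_add, zero_smul, add_zero, hz, sub_zero, smul_eq_mul] at h3
  have h5 : (0 : ℝ) < ε⁻¹ := inv_pos.2 h4
  exact (mul_pos_iff_of_pos_left h5).1 h3

theorem Dom.collar (h : Dom g) (p : E3) (hp : g p = 0) : ∃ (e : E3) (δ : ℝ), 0 < δ ∧
    Metric.ball (p - e) δ ⊆ {x | g x < 0} ∧
    ∀ y, g y = 0 → ‖y - p‖ < δ → ∀ t : ℝ, 0 < t → t ≤ 1 → g (y - t • e) < 0 := by
  obtain ⟨R, a, hR, ha, h1, _⟩ := GeomS_loc h hp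
  have hn := GeomS_unit h hp
  set n := nu g p
  have key : ∀ y, g y = 0 → ‖y - p‖ < R / 4 → ∀ t : ℝ, 0 < t → t ≤ 1 →
      g (y - t • ((R / 4) • n)) < 0 := by
    intro y hy hyp t ht ht1
    have hb : y ∈ Metric.ball p (R / 4) := by rwa [Metric.mem_ball, dist_eq_norm]
    have hpos : 0 < t * (R / 4) := by positivity
    have h2 := h1 y (-(t * (R / 4))) 0 (by linarith)
      (GeomS_ball hn hb (η := R / 4) (by rw [abs_neg, abs_of_pos hpos]; nlinarith) (by linarith))
      (GeomS_ball hn hb (η := R / 4) (by simp; linarith) (by linarith))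
    rw [zero_smul, add_zero, hy] at h2
    rw [smul_smul, sub_eq_add_neg, ← neg_smul]
    nlinarith
  have h3 := key p hp (by simp; linarith) 1 one_pos le_rfl
  rw [one_smul] at h3
  obtain ⟨δ, hδ, hb⟩ := Metric.isOpen_iff.1
    (isOpen_lt (GeomS_diff h).continuous continuous_const) _
    (show p - (R / 4) • n ∈ {x | g x < 0} from h3)
  refine ⟨(R / 4) • n, min δ (R / 4), lt_min hδ (by positivity),
    (Metric.ball_subset_ball (min_le_left _ _)).trans hb, fun y hy hyp => ?_⟩
  exact key y hy (hyp.trans_le (min_le_right _ _))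

/-- a connected level surface with radial normal is a round sphere -/
theorem Dom.sphere_of_radial (h : Dom g) (hne : {x | g x = 0}.Nonempty)
    (hc : IsPreconnected {x | g x = 0}) (c : E3)
    (hr : ∀ y, g y = 0 → ∀ i j : Fin 3, (y - c) i * nu g y j = (y - c) j * nu g y i) :
    ∃ r : ℝ, 0 < r ∧ {x | g x = 0} = Metric.sphere c r := by
  have hrad : ∀ y, g y = 0 → y - c = inner ℝ (y - c) (nu g y) • nu g y := by
    intro y hy
    have h1 : inner ℝ (nu g y) (nu g y) = 1 := by
      rw [real_inner_self_eq_norm_sq, GeomS_unit h hy]; norm_num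
    ext i
    have a0 := hr y hy i 0
    have a1 := hr y hy i 1
    have a2 := hr y hy i 2
    simp only [PiLp.inner_apply, Fin.sum_univ_three, RCLike.inner_apply, conj_trivial] at h1
    simp only [PiLp.smul_apply, smul_eq_mul, PiLp.inner_apply, Fin.sum_univ_three,
      RCLike.inner_apply, conj_trivial]
    linear_combination (-(y - c) i) * h1 + nu g y 0 * a0 + nu g y 1 * a1 + nu g y 2 * a2
  obtain ⟨C, hC⟩ := h.curv
  obtain ⟨R0, hR0⟩ := h.isCompact.isBounded.subset_closedBall c
  have hq : ∀ x y, g x = 0 → g y = 0 →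
      |‖y - c‖ ^ 2 - ‖x - c‖ ^ 2| ≤ (2 * (|R0| * |C|) + 1) * ‖x - y‖ ^ 2 := by
    intro x y hx hy
    have e : y - c = (x - c) - (x - y) := by abel
    have h1 : ‖y - c‖ ^ 2 - ‖x - c‖ ^ 2 = ‖x - y‖ ^ 2 - 2 * inner ℝ (x - c) (x - y) := by
      rw [e, norm_sub_sq_real]; ring
    have h2 : |inner ℝ (x - c) (x - y)| ≤ |R0| * |C| * ‖x - y‖ ^ 2 := by
      rw [hrad x hx, inner_smul_left, conj_trivial, abs_mul, real_inner_comm (x - y), mul_assoc]
      have h3 := abs_real_inner_le_norm (x - c) (nu g x)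
      rw [GeomS_unit h hx, mul_one] at h3
      have h4 : ‖x - c‖ ≤ R0 := by
        have := hR0 (show x ∈ {x | g x = 0} from hx)
        rwa [Metric.mem_closedBall, dist_eq_norm] at this
      exact mul_le_mul (h3.trans (h4.trans (le_abs_self _)))
        ((hC x y hx hy).trans (mul_le_mul_of_nonneg_right (le_abs_self C) (by positivity)))
        (abs_nonneg _) (abs_nonneg _)
    have h5 := abs_le.1 h2
    have h6 : 0 ≤ ‖x - y‖ ^ 2 := by positivity
    rw [h1, abs_le]
    constructor <;> nlinarith [h5.1, h5.2]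
  have hloc : ∀ p, g p = 0 → ∃ ρ > 0, ∀ y ∈ Metric.ball p ρ, g y = 0 →
      ‖y - c‖ ^ 2 = ‖p - c‖ ^ 2 := by
    intro p hp
    obtain ⟨ρ, η, hρ, hη, _, h1, h2⟩ := GeomS_graph h hp one_pos
    refine ⟨ρ, hρ, fun y hy hy0 => ?_⟩
    have hn := GeomS_unit h hp
    set n := nu g p
    have hw : ∀ s ∈ Icc (0 : ℝ) 1, p + s • (y - p) ∈ Metric.ball p ρ := fun s hs =>
      (convex_ball p ρ).add_smul_sub_mem (Metric.mem_ball_self hρ) hy hs
    choose! t ht1 ht2 using fun s hs => h1 _ (hw s hs)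
    have z0 : (0 : ℝ) ∈ Icc (0 : ℝ) 1 := left_mem_Icc.2 zero_le_one
    have z1 : (1 : ℝ) ∈ Icc (0 : ℝ) 1 := right_mem_Icc.2 zero_le_one
    have t0 : t 0 = 0 := by
      have := h2 _ (hw 0 z0) _ (hw 0 z0) (t 0) 0 (ht1 0 z0) (by simp [hη.le]) (ht2 0 z0)
        (by simpa using hp)
      simpa using this
    have t1 : t 1 = 0 := by
      have := h2 _ (hw 1 z1) _ (hw 1 z1) (t 1) 0 (ht1 1 z1) (by simp [hη.le]) (ht2 1 z1)
        (by simpa using hy0)
      simpa using this
    have h3 := GeomS_const (f := fun s => ‖p + s • (y - p) + t s • n - c‖ ^ 2)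
      (K := (2 * (|R0| * |C|) + 1) * (4 * ‖y - p‖) ^ 2) (by
        intro s hs s' hs'
        refine (hq _ _ (ht2 s hs) (ht2 s' hs')).trans ?_
        have h4 := h2 _ (hw s hs) _ (hw s' hs') _ _ (ht1 s hs) (ht1 s' hs') (ht2 s hs) (ht2 s' hs')
        have e1 : p + s • (y - p) - (p + s' • (y - p)) = (s - s') • (y - p) := by
          rw [sub_smul]; abel
        have e2 : p + s • (y - p) + t s • n - (p + s' • (y - p) + t s' • n) =
            (s - s') • (y - p) + (t s - t s') • n := by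
          rw [sub_smul, sub_smul]; abel
        rw [e1, norm_smul, Real.norm_eq_abs, abs_sub_comm s s'] at h4
        have h5 := norm_add_le ((s - s') • (y - p)) ((t s - t s') • n)
        rw [norm_smul, norm_smul, hn, Real.norm_eq_abs, Real.norm_eq_abs, abs_sub_comm s s'] at h5
        rw [e2, mul_assoc, ← mul_pow]
        refine mul_le_mul_of_nonneg_left (pow_le_pow_left₀ (norm_nonneg _) ?_ 2) (by positivity)
        nlinarith)
    simpa [t0, t1] using h3
  obtain ⟨p0, hp0⟩ := hne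
  have hall : ∀ y, g y = 0 → ‖y - c‖ = ‖p0 - c‖ := by
    intro y hy
    have := hc.induction₂' (fun a b => ‖b - c‖ ^ 2 = ‖a - c‖ ^ 2) (fun x hx => by
      obtain ⟨ρ, hρ, h1⟩ := hloc x hx
      filter_upwards [nhdsWithin_le_nhds (Metric.ball_mem_nhds x hρ), self_mem_nhdsWithin]
        with b h2 h3
      exact ⟨h1 b h2 h3, (h1 b h2 h3).symm⟩) (fun _ _ _ _ _ _ h1 h2 => h2.trans h1) hp0
      (show y ∈ {x | g x = 0} from hy)
    exact (pow_left_inj₀ (norm_nonneg _) (norm_nonneg _) two_ne_zero).1 this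
  set r := ‖p0 - c‖ with hrdef
  have hrk : 1 < Module.rank ℝ E3 := by
    rw [← Module.finrank_eq_rank, finrank_euclideanSpace_fin]; norm_num
  have hrpos : 0 < r := by
    by_contra hcon
    have hr0 : r = 0 := le_antisymm (not_lt.1 hcon) (norm_nonneg _)
    obtain ⟨ρ, η, hρ, _, _, h1, _⟩ := GeomS_graph h hp0 one_pos
    have hpc : p0 = c := sub_eq_zero.1 (norm_eq_zero.1 hr0)
    obtain ⟨v, hv0, hv⟩ : ∃ v : E3, v ≠ 0 ∧ inner ℝ (nu g p0) v = 0 := by
      have h2 : (ℝ ∙ nu g p0)ᗮ ≠ ⊥ := by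
        intro h3
        have h4 := Submodule.finrank_add_finrank_orthogonal (ℝ ∙ nu g p0)
        have h5 := finrank_span_le_card (R := ℝ) ({nu g p0} : Set E3)
        rw [h3, finrank_bot, finrank_euclideanSpace_fin] at h4
        simp at h5
        omega
      obtain ⟨v, h3, h4⟩ := Submodule.exists_mem_ne_zero_of_ne_bot h2
      exact ⟨v, h4, Submodule.mem_orthogonal_singleton_iff_inner_right.1 h3⟩
    have hvn : 0 < ‖v‖ := norm_pos_iff.2 hv0
    obtain ⟨t, _, ht⟩ := h1 (p0 + (ρ / 2 / ‖v‖) • v) (by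
      rw [Metric.mem_ball, dist_eq_norm, add_sub_cancel_left, norm_smul, Real.norm_eq_abs,
        abs_of_pos (by positivity), div_mul_cancel₀ _ hvn.ne']
      linarith)
    have h6 := hall _ ht
    rw [hr0, norm_eq_zero, ← hpc] at h6
    have h7 := congrArg (fun z => inner ℝ z v) h6
    have e : p0 + (ρ / 2 / ‖v‖) • v + t • nu g p0 - p0 = (ρ / 2 / ‖v‖) • v + t • nu g p0 := by abel
    simp only [e, inner_add_left, inner_smul_left, hv, conj_trivial, mul_zero, add_zero,
      inner_zero_left, real_inner_self_eq_norm_sq] at h7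
    have : 0 < ρ / 2 / ‖v‖ * ‖v‖ ^ 2 := by positivity
    linarith
  refine ⟨r, hrpos, Set.Subset.antisymm (fun y hy => ?_) (fun y hy => ?_)⟩
  · rw [mem_sphere_iff_norm]; exact hall y hy
  · refine (isPreconnected_sphere hrk c r).induction₂' (fun a b => g a = 0 → g b = 0)
      (fun x hx => ?_) (fun _ _ _ _ _ _ h1 h2 h3 => h2 (h1 h3)) (x := p0)
      (by rw [mem_sphere_iff_norm]) hy hp0
    by_cases hx0 : g x = 0
    · obtain ⟨ρ, η, hρ, _, hη, h1, _⟩ := GeomS_graph h hx0 (half_pos hrpos)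
      have hn := GeomS_unit h hx0
      have hl : |inner ℝ (x - c) (nu g x)| = r := by
        have := congrArg norm (hrad x hx0)
        rw [norm_smul, hn, mul_one, Real.norm_eq_abs, hall x hx0] at this
        exact this.symm
      filter_upwards [nhdsWithin_le_nhds (Metric.ball_mem_nhds x (lt_min hρ (half_pos hrpos))),
        self_mem_nhdsWithin] with b h2 h3
      refine ⟨fun _ => ?_, fun _ => hx0⟩
      obtain ⟨t, ht1, ht2⟩ := h1 b (Metric.ball_subset_ball (min_le_left _ _) h2)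
      have h4 := hall _ ht2
      rw [mem_sphere_iff_norm] at h3
      have e : b + t • nu g x - c = (b - c) + t • nu g x := by abel
      have h5 := norm_add_sq_real (b - c) (t • nu g x)
      rw [← e, h4, h3, norm_smul, hn, mul_one, inner_smul_right, Real.norm_eq_abs, sq_abs] at h5
      have h6 : |inner ℝ (b - x) (nu g x)| < r / 2 := by
        have h7 := abs_real_inner_le_norm (b - x) (nu g x)
        rw [hn, mul_one] at h7
        rw [Metric.mem_ball, dist_eq_norm] at h2
        exact h7.trans_lt (h2.trans_le (min_le_right _ _))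
      have e2 : inner ℝ (b - c) (nu g x) = inner ℝ (b - x) (nu g x) + inner ℝ (x - c) (nu g x) := by
        rw [← inner_add_left]; congr 1; abel
      have h8 : t * (2 * inner ℝ (b - c) (nu g x) + t) = 0 := by linarith
      rcases mul_eq_zero.1 h8 with h9 | h9
      · simpa [h9] using ht2
      · exfalso
        have a1 := abs_le.1 ht1
        have a2 := abs_lt.1 h6
        rcases (abs_eq hrpos.le).1 hl with a3 | a3 <;> linarith [a1.1, a1.2, a2.1, a2.2]
    · have h1 : ∀ᶠ b in 𝓝 x, g b ≠ 0 := (GeomS_diff h).continuous.continuousAt.eventually_ne hx0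
      filter_upwards [nhdsWithin_le_nhds h1] with b h2
      exact ⟨fun h3 => absurd h3 hx0, fun h3 => absurd h3 h2⟩

theorem Dom.nu_sphere (h : Dom g) (c : E3) (r : ℝ) (hr : 0 < r)
    (hM : {x | g x = 0} = Metric.sphere c r) :
    (∀ y, g y = 0 → nu g y = r⁻¹ • (y - c)) ∧ {x | g x < 0} = Metric.ball c r := by
  have hcont := (GeomS_diff h).continuous
  have hz : ∀ x, g x = 0 ↔ ‖x - c‖ = r := by
    intro x
    rw [← mem_sphere_iff_norm, ← hM]; rfl
  have hout : ∀ x, r < ‖x - c‖ → 0 < g x := by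
    intro x hx
    obtain ⟨R, hR⟩ := h.out
    have hxc : 0 < ‖x - c‖ := hr.trans hx
    by_contra hcon
    set T := (|R| + ‖x‖) / ‖x - c‖ with hT
    have hT0 : 0 ≤ T := by positivity
    have h1 : 0 < g (x + T • (x - c)) := by
      apply hR
      have h2 := norm_sub_le (x + T • (x - c)) x
      rw [add_sub_cancel_left, norm_smul, Real.norm_eq_abs, abs_of_nonneg hT0, hT,
        div_mul_cancel₀ _ hxc.ne'] at h2
      linarith [le_abs_self R]
    have hc2 : ContinuousOn (fun t : ℝ => g (x + t • (x - c))) (Icc 0 T) :=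
      (hcont.comp (by fun_prop)).continuousOn
    obtain ⟨t, ht, ht0⟩ := intermediate_value_Icc hT0 hc2
      (show (0 : ℝ) ∈ Icc (g (x + (0 : ℝ) • (x - c))) (g (x + T • (x - c))) from
        ⟨by simpa using not_lt.1 hcon, h1.le⟩)
    have h3 := (hz _).1 ht0
    have e : x + t • (x - c) - c = (1 + t) • (x - c) := by rw [add_smul, one_smul]; abel
    rw [e, norm_smul, Real.norm_eq_abs, abs_of_nonneg (by linarith [ht.1])] at h3
    nlinarith [ht.1]
  have hin : ∀ x, ‖x - c‖ < r → g x < 0 := by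
    intro x hx
    by_contra hcon
    have hne : ∀ y ∈ Metric.ball c r, g y ≠ 0 := by
      intro y hy h1
      rw [Metric.mem_ball, dist_eq_norm, (hz y).1 h1] at hy
      exact lt_irrefl _ hy
    have hxb : x ∈ Metric.ball c r := by rwa [Metric.mem_ball, dist_eq_norm]
    have hge : ∀ y, 0 ≤ g y := by
      intro y
      rcases lt_trichotomy ‖y - c‖ r with h1 | h1 | h1
      · by_contra h2
        have hyb : y ∈ Metric.ball c r := by rwa [Metric.mem_ball, dist_eq_norm]
        obtain ⟨w, hw, hw0⟩ := (convex_ball c r).isPreconnected.intermediate_value hyb hxb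
          hcont.continuousOn (show (0 : ℝ) ∈ Icc (g y) (g x) from
            ⟨(not_le.1 h2).le, not_lt.1 hcon⟩)
        exact hne w hw hw0
      · rw [(hz y).2 h1]
      · exact (hout y h1).le
    obtain ⟨y, hy⟩ : (Metric.sphere c r).Nonempty := NormedSpace.sphere_nonempty.2 hr.le
    have hy0 : g y = 0 := (hz y).2 (mem_sphere_iff_norm.1 hy)
    have h3 : IsLocalMin g y := Filter.Eventually.of_forall (fun w => by rw [hy0]; exact hge w)
    have h4 := GeomS_pos h hy0
    rw [GeomS_norm, h3.fderiv_eq_zero, norm_zero] at h4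
    exact lt_irrefl _ h4
  refine ⟨fun y hy => ?_, ?_⟩
  · have hu := (hz y).1 hy
    have hn := GeomS_unit h hy
    set u := y - c with hudef
    set n := nu g y
    have key : ∀ v : E3, inner ℝ u v < 0 → inner ℝ v n ≤ 0 := by
      intro v hv
      by_contra hcon
      have h1 := h.halfOut y hy v (not_le.1 hcon)
      have h2 : ∀ᶠ ε : ℝ in 𝓝[>] 0, ε ∈ Ioo (0 : ℝ) (-inner ℝ u v / (‖v‖ ^ 2 + 1)) :=
        Ioo_mem_nhdsGT (div_pos (by linarith) (by positivity))
      obtain ⟨ε, h3, h4, h5⟩ := (h1.and h2).exists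
      rw [lt_div_iff₀ (by positivity)] at h5
      have h6 : ‖y + ε • v - c‖ < r := by
        have e : y + ε • v - c = u + ε • v := by rw [hudef]; abel
        have h7 := norm_add_sq_real u (ε • v)
        rw [hu, inner_smul_right, norm_smul, Real.norm_eq_abs, mul_pow, sq_abs] at h7
        rw [e]
        apply lt_of_pow_lt_pow_left₀ 2 hr.le
        nlinarith
      exact lt_irrefl _ ((hin _ h6).trans h3)
    have huu : inner ℝ u u = r ^ 2 := by rw [real_inner_self_eq_norm_sq, hu]
    have hnn : inner ℝ n n = 1 := by rw [real_inner_self_eq_norm_sq, hn]; norm_num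
    set l := inner ℝ u n with hl
    have hl0 : 0 ≤ l := by
      have := key (-u) (by rw [inner_neg_right, huu]; nlinarith)
      rw [inner_neg_left] at this
      linarith
    have hr2 : 0 < r ^ 2 := by positivity
    have h1 : r ^ 2 - l ^ 2 ≤ 0 := by
      apply le_of_forall_pos_le_add
      intro s hs
      have h2 := key ((r ^ 2) • n - (l + s / (l + 1)) • u) (by
        rw [inner_sub_right, inner_smul_right, inner_smul_right, huu, ← hl]
        have : 0 < s / (l + 1) := by positivity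
        nlinarith)
      rw [inner_sub_left, inner_smul_left, inner_smul_left, hnn, ← hl] at h2
      simp only [conj_trivial] at h2
      have h3 : s / (l + 1) * l ≤ s := by
        rw [div_mul_eq_mul_div, div_le_iff₀ (by positivity)]
        nlinarith
      nlinarith
    have h2 : r ≤ l := by nlinarith
    have h3 := norm_sub_sq_real u (r • n)
    rw [hu, inner_smul_right, ← hl, norm_smul, hn, Real.norm_eq_abs, mul_one, sq_abs] at h3
    have h4 : ‖u - r • n‖ ^ 2 ≤ 0 := by nlinarith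
    have h5 : u = r • n := sub_eq_zero.1 (norm_eq_zero.1 (pow_eq_zero_iff two_ne_zero |>.1
      (le_antisymm h4 (by positivity))))
    rw [h5, smul_smul, inv_mul_cancel₀ hr.ne', one_smul]
  · ext x
    rw [Metric.mem_ball, dist_eq_norm]
    refine ⟨fun hx => ?_, hin x⟩
    have hx' : g x < 0 := hx
    rcases lt_trichotomy ‖x - c‖ r with h1 | h1 | h1
    · exact h1
    · rw [(hz x).2 h1] at hx'; exact absurd hx' (lt_irrefl _)
    · exact absurd (hout x h1) (not_lt.2 hx'.le)

end Pool.Agent.H24Z.NP
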