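import Pool.Agent.H24Z.NP.Weak

set_option autoImplicit false

/-! The regularised Green identity and the limits of the volume terms. -/

namespace Pool.Agent.H24Z.NP

open MeasureTheory Filter Topology Set Real

variable {Ω M : Set E3} {μ : Measure M} {ν : M → E3}

theorem sr_pos {ε : ℝ} (hε : 0 < ε) (w : E3) : 0 < sr ε w :=
  Real.sqrt_pos.mpr (by positivity)

theorem norm_le_sr (ε : ℝ) (w : E3) : ‖w‖ ≤ sr ε w :=
  Real.le_sqrt_of_sq_le (by nlinarith [sq_nonneg ε])

theorem GreenA_sr_sq (ε : ℝ) (w : E3) : sr ε w ^ 2 = ‖w‖ ^ 2 + ε ^ 2 :=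
  Real.sq_sqrt (by positivity)

theorem contDiff_inv_sr {ε : ℝ} (hε : 0 < ε) (z : E3) :
    ContDiff ℝ 2 (fun w : E3 => (sr ε (w - z))⁻¹) := by
  refine ContDiff.inv ?_ (fun w => (sr_pos hε _).ne')
  unfold sr
  refine ContDiff.sqrt ?_ (fun w => by positivity)
  exact ((contDiff_norm_sq ℝ).comp (contDiff_id.sub contDiff_const)).add contDiff_const

theorem hasFDerivAt_inv_sr {ε : ℝ} (hε : 0 < ε) (z w : E3) :
    HasFDerivAt (fun w : E3 => (sr ε (w - z))⁻¹)
      ((-(sr ε (w - z) ^ 3)⁻¹) • innerSL ℝ (w - z)) w := by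
  have h1 : HasFDerivAt (fun w : E3 => w - z) (ContinuousLinearMap.id ℝ E3) w :=
    (hasFDerivAt_id w).sub_const z
  have h2 := (h1.norm_sq.add_const (ε ^ 2)).sqrt (by positivity)
  have hs := sr_pos hε (w - z)
  have h3 := (hasDerivAt_inv hs.ne').comp_hasFDerivAt (f := fun w : E3 => sr ε (w - z)) w h2
  refine HasFDerivAt.congr_fderiv h3 ?_
  ext v
  have e : √(‖w - z‖ ^ 2 + ε ^ 2) = sr ε (w - z) := rfl
  simp only [e, smul_apply, smul_eq_mul, ContinuousLinearMap.comp_apply,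
    ContinuousLinearMap.id_apply, nsmul_eq_mul, Nat.cast_ofNat]
  field_simp

theorem GreenA_cont_sr (ε : ℝ) : Continuous (sr ε) := by
  unfold sr; fun_prop

theorem GreenA_cont_rho {ε : ℝ} (hε : 0 < ε) : Continuous (rho ε) := by
  unfold rho
  exact continuous_const.div ((GreenA_cont_sr ε).pow 5) (fun w => (pow_pos (sr_pos hε w) 5).ne')

theorem GreenA_rho_pos {ε : ℝ} (hε : 0 < ε) (w : E3) : 0 < rho ε w := by
  have := sr_pos hε w
  unfold rho; positivity

theorem GreenA_sr_smul {ε : ℝ} (hε : 0 < ε) (v : E3) : sr ε (ε • v) = ε * sr 1 v := by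
  unfold sr
  rw [norm_smul, Real.norm_of_nonneg hε.le,
    show (ε * ‖v‖) ^ 2 + ε ^ 2 = ε ^ 2 * (‖v‖ ^ 2 + 1 ^ 2) by ring,
    Real.sqrt_mul (by positivity), Real.sqrt_sq hε.le]

theorem GreenA_rho_smul {ε : ℝ} (hε : 0 < ε) (v : E3) :
    rho ε (ε • v) = (ε ^ 3)⁻¹ * rho 1 v := by
  have := sr_pos one_pos v
  unfold rho
  rw [GreenA_sr_smul hε]
  field_simp

theorem GreenA_one_le (v : E3) : 1 ≤ sr 1 v :=
  Real.le_sqrt_of_sq_le (by nlinarith [sq_nonneg ‖v‖])

theorem GreenA_int4 : Integrable (fun v : E3 => sr 1 v * rho 1 v) := by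
  have h := (integrable_rpow_neg_one_add_norm_sq (E := E3) (μ := volume) (r := 4)
    (by simp; norm_num)).const_mul 3
  refine h.congr (Eventually.of_forall fun v => ?_)
  have hs := sr_pos one_pos v
  have h2 := GreenA_sr_sq 1 v
  simp only [rho]
  rw [show (-(4 : ℝ) / 2) = -(2 : ℝ) by norm_num, Real.rpow_neg (by positivity), Real.rpow_two,
    show (1 : ℝ) + ‖v‖ ^ 2 = sr 1 v ^ 2 by rw [h2]; ring]
  field_simp

theorem GreenA_int1 : Integrable (rho 1) := by
  refine GreenA_int4.mono' (GreenA_cont_rho one_pos).aestronglyMeasurable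
    (Eventually.of_forall fun v => ?_)
  have h1 := GreenA_rho_pos one_pos v
  rw [Real.norm_of_nonneg h1.le]
  nlinarith [GreenA_one_le v]

theorem integrable_rho {ε : ℝ} (hε : 0 < ε) : Integrable (rho ε) := by
  rw [← integrable_comp_smul_iff volume (rho ε) hε.ne']
  simp only [GreenA_rho_smul hε]
  exact GreenA_int1.const_mul _

theorem GreenA_radial :
    ∫ y in Ioi (0 : ℝ), y ^ 2 * (3 * 1 ^ 2 / √(y ^ 2 + 1 ^ 2) ^ 5) = 1 := by
  have hpos : ∀ y : ℝ, 0 < √(y ^ 2 + 1 ^ 2) := fun y => Real.sqrt_pos.mpr (by positivity)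
  have hd : ∀ y ∈ Ici (0 : ℝ), HasDerivAt (fun y : ℝ => (y / √(y ^ 2 + 1 ^ 2)) ^ 3)
      (y ^ 2 * (3 * 1 ^ 2 / √(y ^ 2 + 1 ^ 2) ^ 5)) y := by
    intro y _
    have h1 : HasDerivAt (fun y : ℝ => y ^ 2 + 1 ^ 2) (2 * y) y := by
      simpa using (hasDerivAt_pow 2 y).add_const ((1 : ℝ) ^ 2)
    have h2 := h1.sqrt (by positivity)
    have h3 := ((hasDerivAt_id y).div h2 (hpos y).ne').pow 3
    refine HasDerivAt.congr_deriv h3 ?_
    have hs := hpos y
    have hq : √(y ^ 2 + 1 ^ 2) ^ 2 = y ^ 2 + 1 ^ 2 := Real.sq_sqrt (by positivity)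
    simp only [id, Pi.div_apply, show 3 - 1 = 2 from rfl]
    generalize √(y ^ 2 + 1 ^ 2) = s at *
    have : s ^ 2 - y ^ 2 = 1 := by linarith
    field_simp
    rw [this]
    push_cast
    ring
  have hl : Tendsto (fun y : ℝ => (y / √(y ^ 2 + 1 ^ 2)) ^ 3) atTop (𝓝 1) := by
    have h1 : Tendsto (fun y : ℝ => (√(1 + (y⁻¹) ^ 2))⁻¹ ^ 3) atTop (𝓝 ((√(1 + 0 ^ 2))⁻¹ ^ 3)) :=
      ((((tendsto_inv_atTop_zero.pow 2).const_add 1).sqrt).inv₀ (by simp)).pow 3
    simp only [ne_eq, OfNat.ofNat_ne_zero, not_false_eq_true, zero_pow, add_zero, Real.sqrt_one,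
      inv_one, one_pow] at h1
    refine h1.congr' ?_
    filter_upwards [eventually_gt_atTop 0] with y hy
    have e : √(y ^ 2 + 1 ^ 2) = y * √(1 + (y⁻¹) ^ 2) := by
      rw [show y ^ 2 + 1 ^ 2 = y ^ 2 * (1 + (y⁻¹) ^ 2) by field_simp,
        Real.sqrt_mul (by positivity), Real.sqrt_sq hy.le]
    rw [e]
    congr 1
    field_simp
  rw [integral_Ioi_of_hasDerivAt_of_nonneg' hd (fun y _ => by have := hpos y; positivity) hl]
  simp

theorem GreenA_integral1 : ∫ w, rho 1 w = 4 * π := by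
  have h := integral_fun_norm_addHaar (volume : Measure E3)
    (fun y : ℝ => 3 * 1 ^ 2 / √(y ^ 2 + 1 ^ 2) ^ 5)
  have h1 : (volume : Measure E3).real (Metric.ball 0 1) = π * 4 / 3 := by
    rw [Measure.real, EuclideanSpace.volume_ball_fin_three]
    simp only [ENNReal.ofReal_one, one_pow, one_mul]
    exact ENNReal.toReal_ofReal (by positivity)
  rw [h1] at h
  simp only [finrank_euclideanSpace, Fintype.card_fin, smul_eq_mul, nsmul_eq_mul] at h
  rw [show 3 - 1 = 2 from rfl, GreenA_radial] at h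
  refine Eq.trans h ?_
  push_cast; ring

theorem GreenA_subst {ε : ℝ} (hε : 0 < ε) (G : E3 → ℝ) (z : E3) :
    ∫ w, G w * rho ε (w - z) = ∫ v, G (z + ε • v) * rho 1 v := by
  rw [← integral_add_left_eq_self (fun w => G w * rho ε (w - z)) z]
  have h := Measure.integral_comp_smul (volume : Measure E3)
    (fun u => G (z + u) * rho ε (z + u - z)) ε
  simp only [add_sub_cancel_left, GreenA_rho_smul hε, finrank_euclideanSpace, Fintype.card_fin,
    smul_eq_mul] at h ⊢
  rw [abs_of_pos (by positivity)] at h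
  have h2 : ∫ v, G (z + ε • v) * ((ε ^ 3)⁻¹ * rho 1 v) =
      (ε ^ 3)⁻¹ * ∫ v, G (z + ε • v) * rho 1 v := by
    rw [← integral_const_mul]
    congr 1; funext v; ring
  rw [h2] at h
  exact (mul_left_cancel₀ (by positivity) h).symm

theorem integral_rho {ε : ℝ} (hε : 0 < ε) : ∫ w, rho ε w = 4 * π := by
  have := GreenA_subst hε (fun _ => 1) 0
  simp only [one_mul, sub_zero] at this
  rw [this, GreenA_integral1]

theorem GreenA_intOn (D : Data Ω M μ ν) {f : E3 → ℝ} (hf : Continuous f) : IntegrableOn f Ω :=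
  (hf.continuousOn.integrableOn_compact D.bd.isCompact_closure).mono_set subset_closure

/-- the divergence theorem for the field `a(w) (w - z) / sr ε (w - z) ^ 3` -/
theorem Data.green_one (D : Data Ω M μ ν) {ε : ℝ} (hε : 0 < ε) (a : E3 → ℝ)
    (ha : ContDiff ℝ 1 a) (z : E3) :
    (∫ w in Ω, fderiv ℝ a w (w - z) / sr ε (w - z) ^ 3) + ∫ w in Ω, a w * rho ε (w - z) =
      ∫ y : M, a y * (inner ℝ ((y : E3) - z) (ν y) / sr ε ((y : E3) - z) ^ 3) ∂μ := by
  have := D.fin
  have : CompactSpace M := isCompact_iff_compactSpace.mp D.cp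
  let b := EuclideanSpace.basisFun (Fin 3) ℝ
  let φ : Fin 3 → E3 → ℝ := fun i w =>
    a w * (inner ℝ (b i) (w - z) * ((sr ε (w - z))⁻¹) ^ 3)
  have hinv : ContDiff ℝ 1 (fun w : E3 => (sr ε (w - z))⁻¹) :=
    (contDiff_inv_sr hε z).of_le (by norm_num)
  have hφ : ∀ i, ContDiff ℝ 1 (φ i) := fun i =>
    ha.mul ((contDiff_const.inner ℝ (contDiff_id.sub contDiff_const)).mul (hinv.pow 3))
  have hder : ∀ i w, fderiv ℝ (φ i) w (b i) =
      fderiv ℝ a w (b i) * inner ℝ (b i) (w - z) / sr ε (w - z) ^ 3 +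
        a w * (1 / sr ε (w - z) ^ 3 -
          3 * (inner ℝ (w - z) (b i) * inner ℝ (b i) (w - z)) / sr ε (w - z) ^ 5) := by
    intro i w
    have h1 : HasFDerivAt a (fderiv ℝ a w) w :=
      (ha.differentiable one_ne_zero w).hasFDerivAt
    have h2 : HasFDerivAt (fun w : E3 => inner ℝ (b i) (w - z)) (innerSL ℝ (b i)) w := by
      have := (innerSL ℝ (b i)).hasFDerivAt.comp w ((hasFDerivAt_id w).sub_const z)
      simpa [Function.comp_def] using this
    have h3 := (hasFDerivAt_inv_sr hε z w).pow 3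
    have h4 := (h1.mul (h2.mul h3)).fderiv
    have e : φ i = a * ((fun w : E3 => inner ℝ (b i) (w - z)) *
        (fun w : E3 => (sr ε (w - z))⁻¹ ^ 3)) := by
      funext w; simp [φ]
    rw [e, h4]
    have hs := sr_pos hε (w - z)
    have hb : inner ℝ (b i) (b i) = (1 : ℝ) := by
      rw [real_inner_self_eq_norm_sq, b.orthonormal.1 i]; norm_num
    simp only [add_apply, smul_apply, smul_eq_mul,
      innerSL_apply_apply, Pi.mul_apply, hb, nsmul_eq_mul, Nat.cast_ofNat,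
      show 3 - 1 = 2 from rfl]
    field_simp
    ring
  have hsum : ∀ w, ∑ i, fderiv ℝ (φ i) w (b i) =
      fderiv ℝ a w (w - z) / sr ε (w - z) ^ 3 + a w * rho ε (w - z) := by
    intro w
    have hs := sr_pos hε (w - z)
    have h1 : ∑ i, fderiv ℝ a w (b i) * inner ℝ (b i) (w - z) = fderiv ℝ a w (w - z) := by
      conv_rhs => rw [← b.sum_repr' (w - z)]
      simp only [map_sum, map_smul, smul_eq_mul]
      exact Finset.sum_congr rfl fun i _ => mul_comm _ _
    have h2 := b.sum_inner_mul_inner (w - z) (w - z)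
    rw [real_inner_self_eq_norm_sq] at h2
    have h3 := GreenA_sr_sq ε (w - z)
    simp only [hder, Fin.sum_univ_three] at h1 h2 ⊢
    rw [← h1]
    unfold rho
    have h4 : ε ^ 2 = sr ε (w - z) ^ 2 - ‖w - z‖ ^ 2 := by linarith
    rw [h4, ← h2]
    field_simp
    ring
  have hc1 : Continuous fun w => fderiv ℝ a w (w - z) / sr ε (w - z) ^ 3 :=
    ((ha.continuous_fderiv one_ne_zero).clm_apply (continuous_id.sub continuous_const)).div
      (((GreenA_cont_sr ε).comp (continuous_id.sub continuous_const)).pow 3)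
      (fun w => (pow_pos (sr_pos hε _) 3).ne')
  have hc2 : Continuous fun w => a w * rho ε (w - z) :=
    ha.continuous.mul ((GreenA_cont_rho hε).comp (continuous_id.sub continuous_const))
  rw [← integral_add (GreenA_intOn D hc1) (GreenA_intOn D hc2)]
  simp only [← hsum]
  rw [integral_finsetSum _ fun i _ => GreenA_intOn D
    (((hφ i).continuous_fderiv one_ne_zero).clm_apply continuous_const)]
  simp only [fun i => D.div (φ i) (hφ i) (b i)]
  rw [← integral_finsetSum]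
  · congr 1
    funext y
    rw [← b.sum_inner_mul_inner ((y : E3) - z) (ν y)]
    simp only [φ, Fin.sum_univ_three, real_inner_comm (b _) ((y : E3) - z)]
    have hs := sr_pos hε ((y : E3) - z)
    field_simp
  · intro i _
    have : Continuous fun y : M => φ i y * inner ℝ (b i) (ν y) :=
      ((hφ i).continuous.comp continuous_subtype_val).mul (continuous_const.inner D.cont)
    exact this.integrable_of_hasCompactSupport (HasCompactSupport.of_compactSpace _)

theorem GreenA_lim (hΩ : MeasurableSet Ω) (a : ℝ → E3 → ℝ) (z : E3) (K L : ℝ)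
    (hc : ∀ ε, 0 < ε → Continuous (a ε))
    (hb : ∀ ε, 0 < ε → ∀ v, z + ε • v ∈ Ω → |a ε (z + ε • v)| ≤ K * sr 1 v) (hK : 0 ≤ K)
    (hl : ∀ v, Tendsto (fun ε => a ε (z + ε • v)) (𝓝[>] 0) (𝓝 L))
    (S : Set E3) (hS : MeasurableSet S)
    (hS2 : ∀ᵐ v, (v ∈ S → ∀ᶠ ε : ℝ in 𝓝[>] 0, z + ε • v ∈ Ω) ∧
      (v ∉ S → ∀ᶠ ε : ℝ in 𝓝[>] 0, z + ε • v ∉ Ω)) :
    Tendsto (fun ε : ℝ => ∫ w in Ω, a ε w * rho ε (w - z)) (𝓝[>] 0)
      (𝓝 ((∫ v in S, rho 1 v) * L)) := by
  have h1 : Tendsto (fun ε : ℝ => ∫ v, Ω.indicator (a ε) (z + ε • v) * rho 1 v) (𝓝[>] 0)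
      (𝓝 (∫ v, S.indicator (fun v => rho 1 v * L) v)) := by
    refine tendsto_integral_filter_of_dominated_convergence
      (fun v => K * (sr 1 v * rho 1 v)) ?_ ?_ (GreenA_int4.const_mul K) ?_
    · filter_upwards [self_mem_nhdsWithin] with ε hε
      refine Measurable.aestronglyMeasurable (Measurable.mul ?_ (GreenA_cont_rho one_pos).measurable)
      exact ((hc ε hε).measurable.indicator hΩ).comp (by fun_prop)
    · filter_upwards [self_mem_nhdsWithin] with ε hε
      refine Eventually.of_forall fun v => ?_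
      have h2 := GreenA_rho_pos one_pos v
      have h3 := sr_pos one_pos v
      rw [norm_mul, Real.norm_of_nonneg h2.le, ← mul_assoc]
      refine mul_le_mul_of_nonneg_right ?_ h2.le
      by_cases h : z + ε • v ∈ Ω
      · rw [indicator_of_mem h]; exact hb ε hε v h
      · rw [indicator_of_notMem h, norm_zero]; positivity
    · filter_upwards [hS2] with v hv
      by_cases h : v ∈ S
      · rw [indicator_of_mem h, mul_comm]
        refine ((hl v).mul_const _).congr' ?_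
        filter_upwards [hv.1 h] with ε hε
        rw [indicator_of_mem hε]
      · rw [indicator_of_notMem h]
        refine tendsto_const_nhds.congr' ?_
        filter_upwards [hv.2 h] with ε hε
        rw [indicator_of_notMem hε, zero_mul]
  rw [integral_indicator hS, integral_mul_const] at h1
  refine h1.congr' ?_
  filter_upwards [self_mem_nhdsWithin] with ε hε
  rw [← GreenA_subst hε, ← integral_indicator hΩ]
  congr 1
  funext w
  by_cases h : w ∈ Ω
  · simp only [indicator_of_mem h]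
  · simp only [indicator_of_notMem h, zero_mul]

theorem GreenA_null {n : E3} (hn : n ≠ 0) : ∀ᵐ v : E3, inner ℝ v n ≠ 0 := by
  have h : (ℝ ∙ n)ᗮ ≠ ⊤ := by
    intro h
    have : n ∈ (ℝ ∙ n)ᗮ := h ▸ Submodule.mem_top
    rw [Submodule.mem_orthogonal_singleton_iff_inner_left] at this
    exact hn (inner_self_eq_zero.mp this)
  have h2 := Measure.addHaar_submodule (volume : Measure E3) _ h
  rw [ae_iff]
  convert h2 using 2
  ext v
  simp [Submodule.mem_orthogonal_singleton_iff_inner_left]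

theorem GreenA_half {n : E3} (hn : n ≠ 0) :
    ∫ v in {v : E3 | inner ℝ v n < 0}, rho 1 v = 2 * π := by
  have hm : MeasurableSet {v : E3 | inner ℝ v n < 0} :=
    (isOpen_lt (by fun_prop) continuous_const).measurableSet
  have h1 := integral_add_compl hm GreenA_int1
  have h2 : ∫ v in {v : E3 | inner ℝ v n < 0}ᶜ, rho 1 v =
      ∫ v in {v : E3 | inner ℝ v n < 0}, rho 1 v := by
    rw [← integral_indicator hm, ← integral_indicator hm.compl, ← integral_neg_eq_self]
    refine integral_congr_ae ?_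
    filter_upwards [GreenA_null hn] with v hv
    have e : rho 1 (-v) = rho 1 v := by simp [rho, sr]
    by_cases h : inner ℝ v n < 0
    · rw [indicator_of_mem (show v ∈ {v : E3 | inner ℝ v n < 0} from h), indicator_of_mem, e]
      simp only [mem_compl_iff, mem_ofPred_eq, inner_neg_left]
      linarith
    · rw [indicator_of_notMem (show v ∉ {v : E3 | inner ℝ v n < 0} from h), indicator_of_notMem]
      simp only [mem_compl_iff, mem_ofPred_eq, inner_neg_left, not_not]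
      have := lt_of_le_of_ne (not_lt.mp h) hv.symm
      linarith
  rw [h2, GreenA_integral1] at h1
  linarith

theorem GreenA_path (z v : E3) : Tendsto (fun ε : ℝ => z + ε • v) (𝓝[>] 0) (𝓝 z) := by
  have : Continuous fun ε : ℝ => z + ε • v := by fun_prop
  have h := this.tendsto 0
  simp only [zero_smul, add_zero] at h
  exact h.mono_left nhdsWithin_le_nhds

theorem GreenA_lim_bdry (D : Data Ω M μ ν) (a : ℝ → E3 → ℝ) (z : M) (K L : ℝ)
    (hc : ∀ ε, 0 < ε → Continuous (a ε))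
    (hb : ∀ ε, 0 < ε → ∀ v, (z : E3) + ε • v ∈ Ω → |a ε (z + ε • v)| ≤ K * sr 1 v) (hK : 0 ≤ K)
    (hl : ∀ v, Tendsto (fun ε => a ε (z + ε • v)) (𝓝[>] 0) (𝓝 L)) :
    Tendsto (fun ε : ℝ => ∫ w in Ω, a ε w * rho ε (w - z)) (𝓝[>] 0) (𝓝 (2 * π * L)) := by
  have hn : ν z ≠ 0 := fun h => by simpa [h] using D.unit z
  rw [← GreenA_half hn]
  refine GreenA_lim D.op.measurableSet a z K L hc hb hK hl _
    (isOpen_lt (by fun_prop) continuous_const).measurableSet ?_
  filter_upwards [GreenA_null hn] with v hv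
  exact ⟨fun h => D.halfIn z v h,
    fun h => D.halfOut z v (lt_of_le_of_ne (not_lt.mp h) hv.symm)⟩

theorem GreenA_lim_int (D : Data Ω M μ ν) (a : ℝ → E3 → ℝ) {z : E3} (hz : z ∈ Ω) (K L : ℝ)
    (hc : ∀ ε, 0 < ε → Continuous (a ε))
    (hb : ∀ ε, 0 < ε → ∀ v, z + ε • v ∈ Ω → |a ε (z + ε • v)| ≤ K * sr 1 v) (hK : 0 ≤ K)
    (hl : ∀ v, Tendsto (fun ε => a ε (z + ε • v)) (𝓝[>] 0) (𝓝 L)) :
    Tendsto (fun ε : ℝ => ∫ w in Ω, a ε w * rho ε (w - z)) (𝓝[>] 0) (𝓝 (4 * π * L)) := by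
  have := GreenA_lim D.op.measurableSet a z K L hc hb hK hl univ MeasurableSet.univ
    (Eventually.of_forall fun v => ⟨fun _ => (GreenA_path z v).eventually (D.op.mem_nhds hz),
      fun h => absurd (mem_univ v) h⟩)
  rwa [Measure.restrict_univ, GreenA_integral1] at this

theorem GreenA_bdd (D : Data Ω M μ ν) {a : E3 → ℝ} (ha : Continuous a) :
    ∃ K : ℝ, 0 ≤ K ∧ ∀ w ∈ Ω, ∀ v, |a w| ≤ K * sr 1 v := by
  obtain ⟨C, hC⟩ := D.bd.isCompact_closure.exists_bound_of_continuousOn ha.continuousOn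
  refine ⟨|C|, abs_nonneg _, fun w hw v => ?_⟩
  have h1 := hC w (subset_closure hw)
  rw [Real.norm_eq_abs] at h1
  nlinarith [GreenA_one_le v, le_abs_self C, abs_nonneg C]

/-- approximate identity at a boundary point, continuous factor -/
theorem Data.lim_cont_bdry (D : Data Ω M μ ν) (a : E3 → ℝ) (ha : Continuous a) (z : M) :
    Tendsto (fun ε : ℝ => ∫ w in Ω, a w * rho ε (w - z)) (𝓝[>] 0) (𝓝 (2 * π * a z)) := by
  obtain ⟨K, hK, hb⟩ := GreenA_bdd D ha
  exact GreenA_lim_bdry D (fun _ => a) z K _ (fun _ _ => ha) (fun ε _ v h => hb _ h v) hK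
    (fun v => (ha.tendsto _).comp (GreenA_path z v))

/-- approximate identity at an interior point, continuous factor -/
theorem Data.lim_cont_int (D : Data Ω M μ ν) (a : E3 → ℝ) (ha : Continuous a) {z : E3}
    (hz : z ∈ Ω) :
    Tendsto (fun ε : ℝ => ∫ w in Ω, a w * rho ε (w - z)) (𝓝[>] 0) (𝓝 (4 * π * a z)) := by
  obtain ⟨K, hK, hb⟩ := GreenA_bdd D ha
  exact GreenA_lim_int D (fun _ => a) hz K _ (fun _ _ => ha) (fun ε _ v h => hb _ h v) hK
    (fun v => (ha.tendsto _).comp (GreenA_path z v))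

theorem GreenA_sing {ε : ℝ} (hε : 0 < ε) {x z : E3} (hx : x ≠ z) (v : E3) :
    |(sr ε (z + ε • v - x))⁻¹| ≤ ‖x - z‖⁻¹ * sr 1 v := by
  have h1 := sr_pos hε (z + ε • v - x)
  have h2 := sr_pos one_pos v
  have h3 : 0 < ‖x - z‖ := norm_pos_iff.mpr (sub_ne_zero.mpr hx)
  have h4 : ‖x - z‖ ≤ ε * ‖v‖ + ‖z + ε • v - x‖ := by
    have e : x - z = ε • v - (z + ε • v - x) := by abel
    rw [e]
    refine (norm_sub_le _ _).trans (le_of_eq ?_)
    rw [norm_smul, Real.norm_of_nonneg hε.le]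
  have h5 : ‖x - z‖ ≤ sr 1 v * sr ε (z + ε • v - x) := by
    refine h4.trans (abs_le_of_sq_le_sq' ?_ (by positivity)).2
    rw [mul_pow, GreenA_sr_sq, GreenA_sr_sq]
    nlinarith [sq_nonneg (‖v‖ * ‖z + ε • v - x‖ - ε)]
  rw [abs_of_pos (inv_pos.mpr h1), inv_mul_eq_div, le_div_iff₀ h3, inv_mul_eq_div,
    div_le_iff₀ h1]
  exact h5

theorem GreenA_sing_lim {x z : E3} (hx : x ≠ z) (v : E3) :
    Tendsto (fun ε : ℝ => (sr ε (z + ε • v - x))⁻¹) (𝓝[>] 0) (𝓝 ‖x - z‖⁻¹) := by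
  have h3 : 0 < ‖x - z‖ := norm_pos_iff.mpr (sub_ne_zero.mpr hx)
  refine Tendsto.inv₀ ?_ h3.ne'
  have : Continuous fun ε : ℝ => sr ε (z + ε • v - x) := by unfold sr; fun_prop
  have h := this.tendsto 0
  have e : sr 0 (z + (0 : ℝ) • v - x) = ‖x - z‖ := by
    simp [sr, norm_sub_rev]
  rw [e] at h
  exact h.mono_left nhdsWithin_le_nhds

/-- approximate identity at a boundary point, singular factor -/
theorem Data.lim_sing_bdry (D : Data Ω M μ ν) (z : M) {x : E3} (hx : x ≠ z) :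
    Tendsto (fun ε : ℝ => ∫ w in Ω, (sr ε (w - x))⁻¹ * rho ε (w - z)) (𝓝[>] 0)
      (𝓝 (2 * π * ‖x - z‖⁻¹)) :=
  GreenA_lim_bdry D (fun ε w => (sr ε (w - x))⁻¹) z ‖x - z‖⁻¹ _
    (fun _ hε => (contDiff_inv_sr hε x).continuous) (fun _ hε v _ => GreenA_sing hε hx v)
    (by positivity) (GreenA_sing_lim hx)

/-- approximate identity at an interior point, singular factor -/
theorem Data.lim_sing_int (D : Data Ω M μ ν) {z : E3} (hz : z ∈ Ω) {x : E3} (hx : x ≠ z) :
    Tendsto (fun ε : ℝ => ∫ w in Ω, (sr ε (w - x))⁻¹ * rho ε (w - z)) (𝓝[>] 0)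
      (𝓝 (4 * π * ‖x - z‖⁻¹)) :=
  GreenA_lim_int D (fun ε w => (sr ε (w - x))⁻¹) hz ‖x - z‖⁻¹ _
    (fun _ hε => (contDiff_inv_sr hε x).continuous) (fun _ hε v _ => GreenA_sing hε hx v)
    (by positivity) (GreenA_sing_lim hx)

theorem sing_bound (Ω : Set E3) : ∃ C : ℝ, ∀ ε : ℝ, 0 < ε → ∀ x z : E3, x ≠ z →
    |∫ w in Ω, (sr ε (w - x))⁻¹ * rho ε (w - z)| ≤ C * ‖x - z‖⁻¹ := by
  refine ⟨∫ v : E3, sr 1 v * rho 1 v, fun ε hε x z hx => ?_⟩
  have hpos : ∀ w, 0 ≤ (sr ε (w - x))⁻¹ * rho ε (w - z) := fun w =>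
    (mul_pos (inv_pos.mpr (sr_pos hε _)) (GreenA_rho_pos hε _)).le
  have hint : Integrable fun w => (sr ε (w - x))⁻¹ * rho ε (w - z) := by
    refine Integrable.bdd_mul (c := ε⁻¹) ((integrable_rho hε).comp_sub_right z)
      (contDiff_inv_sr hε x).continuous.aestronglyMeasurable (Eventually.of_forall fun w => ?_)
    rw [Real.norm_of_nonneg (inv_pos.mpr (sr_pos hε _)).le]
    exact inv_anti₀ hε (Real.le_sqrt_of_sq_le (by nlinarith [sq_nonneg ‖w - x‖]))
  rw [abs_of_nonneg (integral_nonneg hpos)]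
  refine (setIntegral_le_integral hint (Eventually.of_forall hpos)).trans ?_
  rw [GreenA_subst hε (fun w => (sr ε (w - x))⁻¹) z, mul_comm, ← integral_const_mul]
  refine integral_mono_of_nonneg (Eventually.of_forall fun v =>
    (mul_pos (inv_pos.mpr (sr_pos hε _)) (GreenA_rho_pos one_pos _)).le)
    (GreenA_int4.const_mul _) (Eventually.of_forall fun v => ?_)
  have h1 := (le_abs_self _).trans (GreenA_sing hε hx v)
  have h2 := GreenA_rho_pos one_pos v
  simp only
  rw [← mul_assoc]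
  exact mul_le_mul_of_nonneg_right h1 h2.le

end Pool.Agent.H24Z.NP
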