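import Pool.Agent.H24Z.NP.GreenA

set_option autoImplicit false

/-! Boundary identities of potential theory. -/

namespace Pool.Agent.H24Z.NP

open MeasureTheory Filter Topology Set Real

variable {Ω M : Set E3} {μ : Measure M} {ν : M → E3}

theorem GreenB_sr_cont : Continuous (fun p : ℝ × E3 => sr p.1 p.2) := by
  unfold sr
  fun_prop

theorem GreenB_sr_cont' (ε : ℝ) : Continuous (sr ε) := by
  unfold sr
  fun_prop

theorem GreenB_sr_tendsto (w : E3) : Tendsto (fun ε : ℝ => sr ε w) (𝓝[>] 0) (𝓝 ‖w‖) := by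
  have h : Continuous (fun ε : ℝ => sr ε w) := by
    unfold sr
    fun_prop
  have h0 : sr 0 w = ‖w‖ := by
    simp [sr]
  have := h.tendsto 0
  rw [h0] at this
  exact this.mono_left nhdsWithin_le_nhds

theorem GreenB_le_sr {ε : ℝ} (hε : 0 < ε) (w : E3) : ε ≤ sr ε w := by
  unfold sr
  apply Real.le_sqrt_of_sq_le
  nlinarith [sq_nonneg ‖w‖]

theorem GreenB_sr_neg (ε : ℝ) (a b : E3) : sr ε (a - b) = sr ε (b - a) := by
  unfold sr
  rw [norm_sub_rev]

theorem GreenB_inv_sr_le {ε : ℝ} {w : E3} (hw : w ≠ 0) : (sr ε w)⁻¹ ≤ ‖w‖⁻¹ :=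
  inv_anti₀ (norm_pos_iff.2 hw) (norm_le_sr ε w)

theorem GreenB_curv (D : Data Ω M μ ν) : ∃ C : ℝ, 0 ≤ C ∧ ∀ (ε : ℝ) (y z : M), (y : E3) ≠ z →
    |inner ℝ ((y : E3) - z) (ν y) / sr ε ((y : E3) - z) ^ 3| ≤ C * ‖(y : E3) - z‖⁻¹ := by
  obtain ⟨C, hC⟩ := D.curv
  refine ⟨|C|, abs_nonneg C, fun ε y z hyz => ?_⟩
  have hn : 0 < ‖(y : E3) - z‖ := norm_pos_iff.2 (sub_ne_zero.2 hyz)
  have hs : ‖(y : E3) - z‖ ≤ sr ε ((y : E3) - z) := norm_le_sr _ _
  have hs0 : 0 < sr ε ((y : E3) - z) := hn.trans_le hs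
  rw [abs_div, abs_of_pos (pow_pos hs0 3)]
  have h1 : |inner ℝ ((y : E3) - z) (ν y)| ≤ |C| * ‖(y : E3) - z‖ ^ 2 :=
    (hC y z).trans (mul_le_mul_of_nonneg_right (le_abs_self C) (by positivity))
  calc |inner ℝ ((y : E3) - z) (ν y)| / sr ε ((y : E3) - z) ^ 3
      ≤ (|C| * ‖(y : E3) - z‖ ^ 2) / ‖(y : E3) - z‖ ^ 3 := by
        apply div_le_div₀ (by positivity) h1 (by positivity)
        exact pow_le_pow_left₀ hn.le hs 3
    _ = |C| * ‖(y : E3) - z‖⁻¹ := by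
        field_simp

theorem GreenB_two {x y z : E3} (hxz : x ≠ z) (hyx : y ≠ x) (hyz : y ≠ z) :
    ‖y - x‖⁻¹ * ‖y - z‖⁻¹ ≤ ‖x - z‖⁻¹ * (‖x - y‖⁻¹ + ‖z - y‖⁻¹) := by
  have h1 : 0 < ‖y - x‖ := norm_pos_iff.2 (sub_ne_zero.2 hyx)
  have h2 : 0 < ‖y - z‖ := norm_pos_iff.2 (sub_ne_zero.2 hyz)
  have h3 : 0 < ‖x - z‖ := norm_pos_iff.2 (sub_ne_zero.2 hxz)
  have h4 : ‖x - z‖ ≤ ‖y - x‖ + ‖y - z‖ := by
    calc ‖x - z‖ = ‖(y - z) - (y - x)‖ := by congr 1; abel
      _ ≤ ‖y - z‖ + ‖y - x‖ := norm_sub_le _ _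
      _ = _ := add_comm _ _
  rw [norm_sub_rev x y, norm_sub_rev z y]
  have : ‖x - z‖⁻¹ * (‖y - x‖⁻¹ + ‖y - z‖⁻¹) =
      ‖y - x‖⁻¹ * ‖y - z‖⁻¹ * ((‖y - x‖ + ‖y - z‖) / ‖x - z‖) := by
    field_simp
    ring
  rw [this]
  apply le_mul_of_one_le_right (by positivity)
  rw [le_div_iff₀ h3]
  linarith

theorem GreenB_cont_ker (D : Data Ω M μ ν) {ε : ℝ} (hε : 0 < ε) (z : E3) :
    Continuous (fun y : M => inner ℝ ((y : E3) - z) (ν y) / sr ε ((y : E3) - z) ^ 3) := by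
  have h1 := D.cont
  have h2 : Continuous (fun y : M => sr ε ((y : E3) - z)) :=
    (GreenB_sr_cont' ε).comp (by fun_prop)
  refine Continuous.div (by fun_prop) (h2.pow 3) (fun y => (pow_pos (sr_pos hε _) 3).ne')

theorem GreenB_cont_inv {ε : ℝ} (hε : 0 < ε) (z : E3) :
    Continuous (fun y : M => (sr ε ((y : E3) - z))⁻¹) := by
  have h2 : Continuous (fun y : M => sr ε ((y : E3) - z)) :=
    (GreenB_sr_cont' ε).comp (by fun_prop)
  exact h2.inv₀ (fun y => (sr_pos hε _).ne')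

theorem GreenB_ker_tendsto (y : M) (z : E3) (h : (y : E3) ≠ z) :
    Tendsto (fun ε : ℝ => inner ℝ ((y : E3) - z) (ν y) / sr ε ((y : E3) - z) ^ 3) (𝓝[>] 0)
      (𝓝 (kk ν y z)) := by
  have hn : 0 < ‖(y : E3) - z‖ := norm_pos_iff.2 (sub_ne_zero.2 h)
  exact tendsto_const_nhds.div ((GreenB_sr_tendsto _).pow 3) (pow_pos hn 3).ne'

theorem GreenB_inv_tendsto (y z : E3) (h : y ≠ z) :
    Tendsto (fun ε : ℝ => (sr ε (y - z))⁻¹) (𝓝[>] 0) (𝓝 ‖y - z‖⁻¹) :=
  (GreenB_sr_tendsto _).inv₀ (norm_pos_iff.2 (sub_ne_zero.2 h)).ne'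

theorem GreenB_dom (D : Data Ω M μ ν) : ∃ C : ℝ, 0 ≤ C ∧ ∀ ε : ℝ, 0 < ε → ∀ (z : M) (x : E3),
    x ≠ z → ∀ᵐ y : M ∂μ, ‖(sr ε ((y : E3) - x))⁻¹ *
        (inner ℝ ((y : E3) - z) (ν y) / sr ε ((y : E3) - z) ^ 3)‖ ≤
      C * ‖x - z‖⁻¹ * (‖x - y‖⁻¹ + ‖(z : E3) - y‖⁻¹) := by
  obtain ⟨C, hC0, hC⟩ := GreenB_curv D
  refine ⟨C, hC0, fun ε hε z x hx => ?_⟩
  filter_upwards [D.ae_ne x, D.ae_ne z] with y hyx hyz
  rw [Real.norm_eq_abs, abs_mul, abs_of_pos (inv_pos.2 (sr_pos hε _))]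
  calc (sr ε ((y : E3) - x))⁻¹ * |inner ℝ ((y : E3) - z) (ν y) / sr ε ((y : E3) - z) ^ 3|
      ≤ ‖(y : E3) - x‖⁻¹ * (C * ‖(y : E3) - z‖⁻¹) :=
        mul_le_mul (GreenB_inv_sr_le (sub_ne_zero.2 hyx)) (hC ε y z hyz) (abs_nonneg _)
          (by positivity)
    _ = C * (‖(y : E3) - x‖⁻¹ * ‖(y : E3) - z‖⁻¹) := by ring
    _ ≤ C * (‖x - z‖⁻¹ * (‖x - y‖⁻¹ + ‖(z : E3) - y‖⁻¹)) :=
        mul_le_mul_of_nonneg_left (GreenB_two hx hyx hyz) hC0
    _ = _ := by ring

/-- limit of the boundary term with a singular factor, with a dominating bound -/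
theorem Data.lim_surf (D : Data Ω M μ ν) (z : M) {x : E3} (hx : x ≠ z) :
    Tendsto (fun ε : ℝ => ∫ y : M, (sr ε ((y : E3) - x))⁻¹ *
        (inner ℝ ((y : E3) - z) (ν y) / sr ε ((y : E3) - z) ^ 3) ∂μ) (𝓝[>] 0)
      (𝓝 (∫ y : M, ‖(y : E3) - x‖⁻¹ * kk ν y z ∂μ)) := by
  obtain ⟨C, -, hC⟩ := GreenB_dom D
  refine tendsto_integral_filter_of_dominated_convergence
    (fun y : M => C * ‖x - z‖⁻¹ * (‖x - y‖⁻¹ + ‖(z : E3) - y‖⁻¹)) ?_ ?_ ?_ ?_
  · filter_upwards [self_mem_nhdsWithin] with ε hε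
    exact ((GreenB_cont_inv hε x).mul (GreenB_cont_ker D hε z)).aestronglyMeasurable
  · filter_upwards [self_mem_nhdsWithin] with ε hε
    exact hC ε hε z x hx
  · exact ((D.ws_int x).add (D.ws_int z)).const_mul _
  · filter_upwards [D.ae_ne x, D.ae_ne z] with y hyx hyz
    exact (GreenB_inv_tendsto _ _ hyx).mul (GreenB_ker_tendsto y z hyz)

theorem Data.surf_bound (D : Data Ω M μ ν) : ∃ C : ℝ, ∀ ε : ℝ, 0 < ε → ∀ (z : M) (x : E3), x ≠ z →
    |∫ y : M, (sr ε ((y : E3) - x))⁻¹ *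
        (inner ℝ ((y : E3) - z) (ν y) / sr ε ((y : E3) - z) ^ 3) ∂μ| ≤ C * ‖x - z‖⁻¹ := by
  obtain ⟨C, hC0, hC⟩ := GreenB_dom D
  obtain ⟨B, hB⟩ := D.ws_bound
  refine ⟨C * (B + B), fun ε hε z x hx => ?_⟩
  rw [← Real.norm_eq_abs]
  refine (norm_integral_le_of_norm_le (((D.ws_int x).add (D.ws_int z)).const_mul (C * ‖x - z‖⁻¹))
    (hC ε hε z x hx)).trans ?_
  rw [integral_const_mul]
  have := integral_add (D.ws_int x) (D.ws_int z)
  simp only [Pi.add_apply]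
  rw [this]
  calc C * ‖x - z‖⁻¹ * (∫ y : M, ‖x - y‖⁻¹ ∂μ + ∫ y : M, ‖(z : E3) - y‖⁻¹ ∂μ)
      ≤ C * ‖x - z‖⁻¹ * (B + B) :=
        mul_le_mul_of_nonneg_left (add_le_add (hB x) (hB z)) (by positivity)
    _ = _ := by ring

theorem GreenB_sym_eps (D : Data Ω M μ ν) {ε : ℝ} (hε : 0 < ε) (x z : E3) :
    (∫ w in Ω, (sr ε (w - x))⁻¹ * rho ε (w - z)) - ∫ w in Ω, (sr ε (w - z))⁻¹ * rho ε (w - x) =
      (∫ y : M, (sr ε ((y : E3) - x))⁻¹ *
        (inner ℝ ((y : E3) - z) (ν y) / sr ε ((y : E3) - z) ^ 3) ∂μ) -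
      ∫ y : M, (sr ε ((y : E3) - z))⁻¹ *
        (inner ℝ ((y : E3) - x) (ν y) / sr ε ((y : E3) - x) ^ 3) ∂μ := by
  have h1 := D.green_one hε (fun w => (sr ε (w - x))⁻¹)
    ((contDiff_inv_sr hε x).of_le (by norm_num)) z
  have h2 := D.green_one hε (fun w => (sr ε (w - z))⁻¹)
    ((contDiff_inv_sr hε z).of_le (by norm_num)) x
  have h3 : (∫ w in Ω, fderiv ℝ (fun w => (sr ε (w - x))⁻¹) w (w - z) / sr ε (w - z) ^ 3) =
      ∫ w in Ω, fderiv ℝ (fun w => (sr ε (w - z))⁻¹) w (w - x) / sr ε (w - x) ^ 3 := by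
    congr 1
    funext w
    rw [(hasFDerivAt_inv_sr hε x w).fderiv, (hasFDerivAt_inv_sr hε z w).fderiv]
    simp only [ContinuousLinearMap.smul_apply, innerSL_apply_apply, smul_eq_mul]
    rw [real_inner_comm (w - x) (w - z)]
    ring
  linarith

/-- the kernel form of the symmetrisation identity -/
theorem Data.green_sym (D : Data Ω M μ ν) (x z : M) (h : x ≠ z) :
    ∫ y : M, ‖(y : E3) - x‖⁻¹ * kk ν y z ∂μ = ∫ y : M, ‖(y : E3) - z‖⁻¹ * kk ν y x ∂μ := by
  have hxz : (x : E3) ≠ z := fun e => h (Subtype.ext e)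
  have h1 := (D.lim_sing_bdry z hxz).sub (D.lim_sing_bdry x hxz.symm)
  have h2 := (D.lim_surf z hxz).sub (D.lim_surf x hxz.symm)
  have h3 := tendsto_nhds_unique_of_eventuallyEq h1 h2 (by
    filter_upwards [self_mem_nhdsWithin] with ε hε
    exact GreenB_sym_eps D hε x z)
  rw [norm_sub_rev (z : E3) x] at h3
  linarith

theorem GreenB_lim_surf_int (D : Data Ω M μ ν) {x : E3} (hx : x ∈ Ω) (z : E3) :
    Tendsto (fun ε : ℝ => ∫ y : M, (sr ε ((y : E3) - z))⁻¹ *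
        (inner ℝ ((y : E3) - x) (ν y) / sr ε ((y : E3) - x) ^ 3) ∂μ) (𝓝[>] 0)
      (𝓝 (∫ y : M, ‖(y : E3) - z‖⁻¹ * kk ν y x ∂μ)) := by
  obtain ⟨δ, hδ, hb⟩ := Metric.isOpen_iff.1 D.op x hx
  have hd : ∀ y : M, δ ≤ ‖(y : E3) - x‖ := by
    intro y
    by_contra hlt
    exact D.dis y (hb (by rw [mem_ball_iff_norm]; exact not_le.1 hlt))
  refine tendsto_integral_filter_of_dominated_convergence
    (fun y : M => (δ ^ 2)⁻¹ * ‖z - y‖⁻¹) ?_ ?_ ?_ ?_
  · filter_upwards [self_mem_nhdsWithin] with ε hε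
    exact ((GreenB_cont_inv hε z).mul (GreenB_cont_ker D hε x)).aestronglyMeasurable
  · filter_upwards [self_mem_nhdsWithin] with ε hε
    filter_upwards [D.ae_ne z] with y hyz
    have hn : 0 < ‖(y : E3) - x‖ := hδ.trans_le (hd y)
    have hs : ‖(y : E3) - x‖ ≤ sr ε ((y : E3) - x) := norm_le_sr _ _
    have hs0 : 0 < sr ε ((y : E3) - x) := hn.trans_le hs
    rw [Real.norm_eq_abs, abs_mul, abs_of_pos (inv_pos.2 (sr_pos hε _)), mul_comm,
      norm_sub_rev z y]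
    refine mul_le_mul ?_ (GreenB_inv_sr_le (sub_ne_zero.2 hyz)) (inv_pos.2 (sr_pos hε _)).le
      (by positivity)
    rw [abs_div, abs_of_pos (pow_pos hs0 3)]
    have h1 : |inner ℝ ((y : E3) - x) (ν y)| ≤ ‖(y : E3) - x‖ := by
      have := abs_real_inner_le_norm ((y : E3) - x) (ν y)
      rwa [D.unit y, mul_one] at this
    calc |inner ℝ ((y : E3) - x) (ν y)| / sr ε ((y : E3) - x) ^ 3
        ≤ ‖(y : E3) - x‖ / ‖(y : E3) - x‖ ^ 3 :=
          div_le_div₀ hn.le h1 (by positivity) (pow_le_pow_left₀ hn.le hs 3)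
      _ = (‖(y : E3) - x‖ ^ 2)⁻¹ := by field_simp
      _ ≤ (δ ^ 2)⁻¹ := inv_anti₀ (by positivity) (pow_le_pow_left₀ hδ.le (hd y) 2)
  · exact (D.ws_int z).const_mul _
  · filter_upwards [D.ae_ne x, D.ae_ne z] with y hyx hyz
    exact (GreenB_inv_tendsto _ _ hyz).mul (GreenB_ker_tendsto y x hyx)

theorem Data.green_sym_int (D : Data Ω M μ ν) {x : E3} (hx : x ∈ Ω) (z : M) :
    ∫ y : M, ‖(y : E3) - z‖⁻¹ * kk ν y x ∂μ - ∫ y : M, ‖(y : E3) - x‖⁻¹ * kk ν y z ∂μ =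
      2 * π * ‖x - z‖⁻¹ := by
  have hxz : x ≠ (z : E3) := fun e => D.dis z (e ▸ hx)
  have h1 := (D.lim_sing_bdry z hxz).sub (D.lim_sing_int hx hxz.symm)
  have h2 := (D.lim_surf z hxz).sub (GreenB_lim_surf_int D hx z)
  have h3 := tendsto_nhds_unique_of_eventuallyEq h1 h2 (by
    filter_upwards [self_mem_nhdsWithin] with ε hε
    exact GreenB_sym_eps D hε x z)
  rw [norm_sub_rev (z : E3) x] at h3
  linarith

theorem GreenB_bdd (D : Data Ω M μ ν) (f : M → ℝ) (hf : Continuous f) :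
    ∃ B : ℝ, 0 ≤ B ∧ ∀ y, |f y| ≤ B := by
  have : CompactSpace M := isCompact_iff_compactSpace.1 D.cp
  obtain ⟨B, hB⟩ := (isCompact_range (continuous_abs.comp hf)).bddAbove
  exact ⟨|B|, abs_nonneg B, fun y => (hB ⟨y, rfl⟩).trans (le_abs_self B)⟩

theorem GreenB_integrable (D : Data Ω M μ ν) (f : M → ℝ) (hf : Continuous f) :
    Integrable f μ := by
  have := D.fin
  obtain ⟨B, -, hB⟩ := GreenB_bdd D f hf
  exact Integrable.of_bound hf.aestronglyMeasurable B (Eventually.of_forall hB)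

theorem GreenB_int_single (D : Data Ω M μ ν) (f : M → ℝ) (hf : Continuous f) (x : E3) :
    Integrable (fun y : M => ‖x - y‖⁻¹ * f y) μ := by
  obtain ⟨B, -, hB⟩ := GreenB_bdd D f hf
  exact (D.ws_int x).mul_bdd hf.aestronglyMeasurable (Eventually.of_forall hB)

theorem GreenB_lim_single (D : Data Ω M μ ν) (f : M → ℝ) (hf : Continuous f) (x : E3) :
    Tendsto (fun ε : ℝ => ∫ y : M, (sr ε ((y : E3) - x))⁻¹ * f y ∂μ) (𝓝[>] 0)
      (𝓝 (∫ y : M, ‖x - y‖⁻¹ * f y ∂μ)) := by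
  obtain ⟨B, hB0, hB⟩ := GreenB_bdd D f hf
  refine tendsto_integral_filter_of_dominated_convergence
    (fun y : M => ‖x - y‖⁻¹ * B) ?_ ?_ ?_ ?_
  · filter_upwards [self_mem_nhdsWithin] with ε hε
    exact ((GreenB_cont_inv hε x).mul hf).aestronglyMeasurable
  · filter_upwards [self_mem_nhdsWithin] with ε hε
    filter_upwards [D.ae_ne x] with y hyx
    rw [Real.norm_eq_abs, abs_mul, abs_of_pos (inv_pos.2 (sr_pos hε _)), norm_sub_rev x y]
    exact mul_le_mul (GreenB_inv_sr_le (sub_ne_zero.2 hyx)) (hB y) (abs_nonneg _) (by positivity)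
  · exact (D.ws_int x).mul_const _
  · filter_upwards [D.ae_ne x] with y hyx
    rw [norm_sub_rev x y]
    exact (GreenB_inv_tendsto _ _ hyx).mul tendsto_const_nhds

theorem GreenB_cont_nu (D : Data Ω M μ ν) (j : Fin 3) : Continuous (fun y : M => ν y j) := by
  have := D.cont
  fun_prop

theorem GreenB_UU (j : Fin 3) (x : E3) : UU μ ν j x = ∫ y : M, ‖x - y‖⁻¹ * ν y j ∂μ := by
  unfold UU
  congr 1
  funext y
  rw [div_eq_mul_inv, mul_comm]

theorem GreenB_div_inv (D : Data Ω M μ ν) {ε : ℝ} (hε : 0 < ε) (z e : E3) :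
    ∫ w in Ω, inner ℝ (z - w) e / sr ε (z - w) ^ 3 =
      ∫ y : M, (sr ε ((y : E3) - z))⁻¹ * inner ℝ e (ν y) ∂μ := by
  rw [← D.div (fun w => (sr ε (w - z))⁻¹) ((contDiff_inv_sr hε z).of_le (by norm_num)) e]
  congr 1
  funext w
  rw [(hasFDerivAt_inv_sr hε z w).fderiv]
  simp only [ContinuousLinearMap.smul_apply, innerSL_apply_apply, smul_eq_mul]
  rw [GreenB_sr_neg ε z w, ← neg_sub w z, inner_neg_left]
  ring

theorem GreenB_fderiv_coord (j : Fin 3) (w v : E3) : fderiv ℝ (fun w : E3 => w j) w v = v j := by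
  have : HasFDerivAt (fun w : E3 => w j) (EuclideanSpace.proj j : E3 →L[ℝ] ℝ) w :=
    (EuclideanSpace.proj j : E3 →L[ℝ] ℝ).hasFDerivAt
  rw [this.fderiv]
  rfl

theorem GreenB_contDiff_coord (j : Fin 3) : ContDiff ℝ 1 (fun w : E3 => w j) :=
  (EuclideanSpace.proj j : E3 →L[ℝ] ℝ).contDiff

theorem GreenB_inner_single_left (j : Fin 3) (v : E3) :
    inner ℝ (EuclideanSpace.single j (1 : ℝ) : E3) v = v j := by
  simp [EuclideanSpace.inner_single_left]

theorem GreenB_inner_single_right (j : Fin 3) (v : E3) :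
    inner ℝ v (EuclideanSpace.single j (1 : ℝ) : E3) = v j := by
  rw [real_inner_comm, GreenB_inner_single_left]

theorem Data.green_lin (D : Data Ω M μ ν) (j : Fin 3) (z : M) :
    ∫ y : M, (y : E3) j * kk ν y z ∂μ = 2 * π * (z : E3) j - UU μ ν j z := by
  have hc : Continuous (fun y : M => (y : E3) j) := by fun_prop
  have h1 := (D.lim_cont_bdry (fun w => w j) (by fun_prop) z).sub
    (GreenB_lim_single D (fun y => ν y j) (GreenB_cont_nu D j) z)
  have h2 : Tendsto (fun ε : ℝ => ∫ y : M, (y : E3) j *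
      (inner ℝ ((y : E3) - z) (ν y) / sr ε ((y : E3) - z) ^ 3) ∂μ) (𝓝[>] 0)
      (𝓝 (∫ y : M, (y : E3) j * kk ν y z ∂μ)) := by
    obtain ⟨C, hC0, hC⟩ := GreenB_curv D
    obtain ⟨B, hB0, hB⟩ := GreenB_bdd D _ hc
    refine tendsto_integral_filter_of_dominated_convergence
      (fun y : M => B * (C * ‖(z : E3) - y‖⁻¹)) ?_ ?_ ?_ ?_
    · filter_upwards [self_mem_nhdsWithin] with ε hε
      exact (hc.mul (GreenB_cont_ker D hε z)).aestronglyMeasurable
    · filter_upwards [self_mem_nhdsWithin] with ε hε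
      filter_upwards [D.ae_ne z] with y hyz
      rw [Real.norm_eq_abs, abs_mul, norm_sub_rev (z : E3) y]
      exact mul_le_mul (hB y) (hC ε y z hyz) (abs_nonneg _) hB0
    · exact ((D.ws_int z).const_mul _).const_mul _
    · filter_upwards [D.ae_ne z] with y hyz
      exact tendsto_const_nhds.mul (GreenB_ker_tendsto y z hyz)
  have h3 := tendsto_nhds_unique_of_eventuallyEq h1 h2 (by
    filter_upwards [self_mem_nhdsWithin] with ε hε
    have e1 := D.green_one hε (fun w => w j) (GreenB_contDiff_coord j) z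
    have e2 := GreenB_div_inv D hε z (EuclideanSpace.single j 1)
    simp only [GreenB_inner_single_left, GreenB_inner_single_right] at e2
    simp only [GreenB_fderiv_coord] at e1
    have e3 : (∫ w in Ω, (w - (z : E3)) j / sr ε (w - z) ^ 3) =
        -∫ w in Ω, ((z : E3) - w) j / sr ε (z - w) ^ 3 := by
      rw [← integral_neg]
      congr 1
      funext w
      rw [GreenB_sr_neg ε (z : E3) w]
      simp only [PiLp.sub_apply]
      ring
    linarith)
  rw [GreenB_UU]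
  exact h3.symm

theorem GreenB_vol_fin (D : Data Ω M μ ν) : IsFiniteMeasure (volume.restrict Ω) :=
  isFiniteMeasure_restrict.2 D.bd.measure_lt_top.ne

theorem GreenB_vol_eps (D : Data Ω M μ ν) {ε : ℝ} (hε : 0 < ε) :
    (∫ x : M, ∫ y : M, (sr ε ((y : E3) - x))⁻¹ * inner ℝ (ν x) (ν y) ∂μ ∂μ =
      ∫ w in Ω, ∫ v in Ω, rho ε (v - w)) ∧
    AEStronglyMeasurable (fun w => ∫ v in Ω, rho ε (v - w)) (volume.restrict Ω) := by
  have := D.fin
  have := GreenB_vol_fin D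
  have hν := D.cont
  have hcont : Continuous (fun p : M × E3 =>
      inner ℝ ((p.1 : E3) - p.2) (ν p.1) / sr ε ((p.1 : E3) - p.2) ^ 3) := by
    have h2 : Continuous (fun p : M × E3 => sr ε ((p.1 : E3) - p.2)) :=
      (GreenB_sr_cont' ε).comp (by fun_prop)
    exact Continuous.div (by fun_prop) (h2.pow 3) (fun y => (pow_pos (sr_pos hε _) 3).ne')
  have hint : Integrable (fun p : M × E3 =>
      inner ℝ ((p.1 : E3) - p.2) (ν p.1) / sr ε ((p.1 : E3) - p.2) ^ 3)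
      (μ.prod (volume.restrict Ω)) := by
    refine Integrable.of_bound hcont.aestronglyMeasurable (ε ^ 2)⁻¹ (Eventually.of_forall ?_)
    rintro ⟨y, w⟩
    have hs : ‖(y : E3) - w‖ ≤ sr ε ((y : E3) - w) := norm_le_sr _ _
    have hs0 : 0 < sr ε ((y : E3) - w) := sr_pos hε _
    simp only
    rw [Real.norm_eq_abs, abs_div, abs_of_pos (pow_pos hs0 3)]
    have h1 : |inner ℝ ((y : E3) - w) (ν y)| ≤ ‖(y : E3) - w‖ := by
      have := abs_real_inner_le_norm ((y : E3) - w) (ν y)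
      rwa [D.unit y, mul_one] at this
    calc |inner ℝ ((y : E3) - w) (ν y)| / sr ε ((y : E3) - w) ^ 3
        ≤ sr ε ((y : E3) - w) / sr ε ((y : E3) - w) ^ 3 :=
          div_le_div_of_nonneg_right (h1.trans hs) (by positivity)
      _ = (sr ε ((y : E3) - w) ^ 2)⁻¹ := by field_simp
      _ ≤ (ε ^ 2)⁻¹ := inv_anti₀ (by positivity) (pow_le_pow_left₀ hε.le (GreenB_le_sr hε _) 2)
  have hw : ∀ w : E3, ∫ y : M, inner ℝ ((y : E3) - w) (ν y) / sr ε ((y : E3) - w) ^ 3 ∂μ =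
      ∫ v in Ω, rho ε (v - w) := by
    intro w
    have := D.green_one hε (fun _ => 1) contDiff_const w
    simpa using this.symm
  constructor
  · simp_rw [← GreenB_div_inv D hε, ← hw]
    exact integral_integral_swap hint
  · simp_rw [← hw]
    exact hint.integral_prod_right.aestronglyMeasurable

theorem GreenB_rho_nonneg {ε : ℝ} (hε : 0 < ε) (w : E3) : 0 ≤ rho ε w := by
  unfold rho
  have := sr_pos hε w
  positivity

theorem Data.green_vol (D : Data Ω M μ ν) :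
    ∑ j : Fin 3, ∫ x : M, ν x j * UU μ ν j x ∂μ = 4 * π * volume.real Ω := by
  have := D.fin
  have := GreenB_vol_fin D
  have hν := D.cont
  have h1 : Tendsto (fun ε : ℝ => ∫ w in Ω, ∫ v in Ω, rho ε (v - w)) (𝓝[>] 0)
      (𝓝 (∫ _ in Ω, 4 * π)) := by
    refine tendsto_integral_filter_of_dominated_convergence (fun _ => 4 * π) ?_ ?_ ?_ ?_
    · filter_upwards [self_mem_nhdsWithin] with ε hε
      exact (GreenB_vol_eps D hε).2
    · filter_upwards [self_mem_nhdsWithin] with ε hε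
      refine Eventually.of_forall fun w => ?_
      rw [Real.norm_eq_abs, abs_of_nonneg (integral_nonneg fun v => GreenB_rho_nonneg hε _)]
      calc ∫ v in Ω, rho ε (v - w) ≤ ∫ v, rho ε (v - w) :=
            setIntegral_le_integral ((integrable_rho hε).comp_sub_right w)
              (Eventually.of_forall fun v => GreenB_rho_nonneg hε _)
        _ = 4 * π := by rw [integral_sub_right_eq_self, integral_rho hε]
    · exact integrable_const _
    · filter_upwards [ae_restrict_mem D.op.measurableSet] with w hw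
      simpa using D.lim_cont_int (fun _ => 1) continuous_const hw
  have h2 : Tendsto (fun ε : ℝ => ∫ x : M, ∫ y : M,
      (sr ε ((y : E3) - x))⁻¹ * inner ℝ (ν x) (ν y) ∂μ ∂μ) (𝓝[>] 0)
      (𝓝 (∫ x : M, ∫ y : M, ‖(x : E3) - y‖⁻¹ * inner ℝ (ν x) (ν y) ∂μ ∂μ)) := by
    obtain ⟨B, hB⟩ := D.ws_bound
    refine tendsto_integral_filter_of_dominated_convergence (fun _ => B) ?_ ?_ ?_ ?_
    · filter_upwards [self_mem_nhdsWithin] with ε hε
      have hc : Continuous (fun p : M × M =>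
          (sr ε ((p.2 : E3) - p.1))⁻¹ * inner ℝ (ν p.1) (ν p.2)) := by
        have h2 : Continuous (fun p : M × M => sr ε ((p.2 : E3) - p.1)) :=
          (GreenB_sr_cont' ε).comp (by fun_prop)
        exact (h2.inv₀ (fun y => (sr_pos hε _).ne')).mul (by fun_prop)
      exact (hc.stronglyMeasurable.integral_prod_right' (ν := μ)).aestronglyMeasurable
    · filter_upwards [self_mem_nhdsWithin] with ε hε
      refine Eventually.of_forall fun x => ?_
      refine (norm_integral_le_of_norm_le (D.ws_int x) ?_).trans (hB x)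
      filter_upwards [D.ae_ne x] with y hyx
      rw [Real.norm_eq_abs, abs_mul, abs_of_pos (inv_pos.2 (sr_pos hε _)), norm_sub_rev (x : E3) y]
      have h1 : |inner ℝ (ν x) (ν y)| ≤ 1 := by
        have := abs_real_inner_le_norm (ν x) (ν y)
        rwa [D.unit y, D.unit x, mul_one] at this
      calc (sr ε ((y : E3) - x))⁻¹ * |inner ℝ (ν x) (ν y)| ≤ ‖(y : E3) - x‖⁻¹ * 1 :=
            mul_le_mul (GreenB_inv_sr_le (sub_ne_zero.2 hyx)) h1 (abs_nonneg _) (by positivity)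
        _ = _ := mul_one _
    · exact integrable_const _
    · refine Eventually.of_forall fun x => ?_
      exact GreenB_lim_single D (fun y => inner ℝ (ν x) (ν y)) (by fun_prop) x
  have h3 := tendsto_nhds_unique_of_eventuallyEq h2 h1 (by
    filter_upwards [self_mem_nhdsWithin] with ε hε
    exact (GreenB_vol_eps D hε).1)
  have h4 : ∀ j : Fin 3, Integrable (fun x : M => ν x j * UU μ ν j x) μ := fun j =>
    GreenB_integrable D _ ((GreenB_cont_nu D j).mul ((D.UU_cont j).comp continuous_subtype_val))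
  rw [← integral_finsetSum _ (fun j _ => h4 j)]
  have h5 : ∀ x : M, ∑ j : Fin 3, ν x j * UU μ ν j x =
      ∫ y : M, ‖(x : E3) - y‖⁻¹ * inner ℝ (ν x) (ν y) ∂μ := by
    intro x
    simp_rw [GreenB_UU, ← integral_const_mul]
    rw [← integral_finsetSum _ (fun j _ =>
      (GreenB_int_single D _ (GreenB_cont_nu D j) x).const_mul _)]
    congr 1
    funext y
    rw [PiLp.inner_apply, Finset.mul_sum]
    refine Finset.sum_congr rfl fun j _ => ?_
    simp only [RCLike.inner_apply, conj_trivial]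
    ring
  simp_rw [h5]
  rw [h3]
  simp [mul_comm]

theorem Data.green_pos (D : Data Ω M μ ν) (j : Fin 3) :
    ∫ y : M, (y : E3) j * ν y j ∂μ = volume.real Ω := by
  have := D.div (fun w => w j) (GreenB_contDiff_coord j) (EuclideanSpace.single j 1)
  simp only [GreenB_fderiv_coord, GreenB_inner_single_left] at this
  rw [← this]
  simp

theorem GreenB_curl_fderiv {ε : ℝ} (hε : 0 < ε) (x w : E3) (i j : Fin 3) :
    fderiv ℝ (fun w : E3 => (sr ε (w - x))⁻¹ * (w - x) i) w (EuclideanSpace.single j 1) =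
      (sr ε (w - x))⁻¹ * (if i = j then 1 else 0) -
        (w - x) i * (w - x) j / sr ε (w - x) ^ 3 := by
  have h1 : HasFDerivAt (fun w : E3 => (w - x) i) (EuclideanSpace.proj i : E3 →L[ℝ] ℝ) w := by
    have := ((EuclideanSpace.proj i : E3 →L[ℝ] ℝ).hasFDerivAt (x := w)).sub_const (x i)
    simpa using this
  have h2 := (hasFDerivAt_inv_sr hε x w).mul h1
  have h3 := h2.fderiv
  have h4 : (fun w : E3 => (sr ε (w - x))⁻¹ * (w - x) i) =
      (fun w : E3 => (sr ε (w - x))⁻¹) * fun w : E3 => (w - x) i := rfl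
  rw [h4, h3]
  simp only [ContinuousLinearMap.add_apply, ContinuousLinearMap.smul_apply, innerSL_apply_apply,
    smul_eq_mul, GreenB_inner_single_right]
  have h5 : (EuclideanSpace.proj i : E3 →L[ℝ] ℝ) (EuclideanSpace.single j 1) =
      if i = j then 1 else 0 := by
    simp
  rw [h5]
  ring

theorem Data.green_curl (D : Data Ω M μ ν) (i j : Fin 3) (x : E3) :
    ∫ y : M, ‖x - y‖⁻¹ * (((y : E3) - x) i * ν y j - ((y : E3) - x) j * ν y i) ∂μ = 0 := by
  have hc : ∀ i j : Fin 3, Continuous (fun y : M => ((y : E3) - x) i * ν y j) := fun i j =>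
    Continuous.mul (by fun_prop) (GreenB_cont_nu D j)
  have h1 := GreenB_lim_single D _ ((hc i j).sub (hc j i)) x
  refine tendsto_nhds_unique_of_eventuallyEq h1 tendsto_const_nhds ?_
  filter_upwards [self_mem_nhdsWithin] with ε hε
  have hd : ∀ i : Fin 3, ContDiff ℝ 1 (fun w : E3 => (sr ε (w - x))⁻¹ * (w - x) i) := fun i =>
    ((contDiff_inv_sr hε x).of_le (by norm_num)).mul
      ((GreenB_contDiff_coord i).comp (contDiff_id.sub contDiff_const))
  have e1 := D.div _ (hd i) (EuclideanSpace.single j 1)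
  have e2 := D.div _ (hd j) (EuclideanSpace.single i 1)
  simp only [GreenB_curl_fderiv hε, GreenB_inner_single_left] at e1 e2
  have e3 : (∫ w in Ω, (sr ε (w - x))⁻¹ * (if i = j then 1 else 0) -
        (w - x) i * (w - x) j / sr ε (w - x) ^ 3) =
      ∫ w in Ω, (sr ε (w - x))⁻¹ * (if j = i then 1 else 0) -
        (w - x) j * (w - x) i / sr ε (w - x) ^ 3 := by
    congr 1
    funext w
    rw [mul_comm ((w - x) j)]
    simp only [eq_comm]
  have hi : ∀ i j : Fin 3, Integrable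
      (fun y : M => (sr ε ((y : E3) - x))⁻¹ * ((y : E3) - x) i * ν y j) μ := fun i j => by
    simp_rw [mul_assoc]
    exact GreenB_integrable D _ ((GreenB_cont_inv hε x).mul (hc i j))
  have e4 := integral_sub (hi i j) (hi j i)
  have e5 : ∀ y : M, (sr ε ((y : E3) - x))⁻¹ *
      (((y : E3) - x) i * ν y j - ((y : E3) - x) j * ν y i) =
      (sr ε ((y : E3) - x))⁻¹ * ((y : E3) - x) i * ν y j -
        (sr ε ((y : E3) - x))⁻¹ * ((y : E3) - x) j * ν y i := fun y => by ring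
  simp only [Pi.sub_apply]
  simp_rw [e5]
  rw [e4, ← e1, ← e2, e3, sub_self]

theorem Data.vol_pos (D : Data Ω M μ ν) (hM : M.Nonempty) : 0 < volume.real Ω := by
  obtain ⟨p, hp⟩ := hM
  obtain ⟨e, δ, hδ, hb, -⟩ := D.collar ⟨p, hp⟩
  have hne : Ω.Nonempty := ⟨_, hb (Metric.mem_ball_self hδ)⟩
  exact ENNReal.toReal_pos (D.op.measure_pos volume hne).ne' D.bd.measure_lt_top.ne

end Pool.Agent.H24Z.NP
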