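import Pool.Agent.H24Z.NP.GreenB

set_option autoImplicit false

/-! If the components of the normal are eigenfunctions for `1 / 6`, the Newton potential of the
domain has constant isotropic Hessian inside. -/

namespace Pool.Agent.H24Z.NP

open MeasureTheory Filter Topology Set Real

variable {Ω M : Set E3} {μ : Measure M} {ν : M → E3}

/-- Fubini for the inner product of two parametric integrals of bounded functions -/
lemma Rigid_sep {W X E : Type*} [MeasurableSpace W] [MeasurableSpace X]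
    [NormedAddCommGroup E] [InnerProductSpace ℝ E] [CompleteSpace E]
    (m : Measure W) (μ : Measure X) [IsFiniteMeasure m] [IsFiniteMeasure μ]
    (f g : W → X → E) (hf : StronglyMeasurable (Function.uncurry f))
    (hg : StronglyMeasurable (Function.uncurry g)) (C : ℝ)
    (hfb : ∀ w x, ‖f w x‖ ≤ C) (hgb : ∀ w x, ‖g w x‖ ≤ C) :
    Integrable (fun p : X × X => ∫ w, inner ℝ (f w p.1) (g w p.2) ∂m) (μ.prod μ) ∧
    Integrable (fun w => inner ℝ (∫ x, f w x ∂μ) (∫ x, g w x ∂μ)) m ∧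
    ∫ w, inner ℝ (∫ x, f w x ∂μ) (∫ x, g w x ∂μ) ∂m =
      ∫ p : X × X, ∫ w, inner ℝ (f w p.1) (g w p.2) ∂m ∂(μ.prod μ) := by
  have H : Integrable (fun q : W × (X × X) => inner ℝ (f q.1 q.2.1) (g q.1 q.2.2))
      (m.prod (μ.prod μ)) := by
    refine Integrable.of_bound ?_ (C * C) (ae_of_all _ fun q => ?_)
    · have h1 : StronglyMeasurable (fun q : W × (X × X) => f q.1 q.2.1) :=
        hf.comp_measurable (g := fun q : W × (X × X) => (q.1, q.2.1)) (by fun_prop)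
      have h2 : StronglyMeasurable (fun q : W × (X × X) => g q.1 q.2.2) :=
        hg.comp_measurable (g := fun q : W × (X × X) => (q.1, q.2.2)) (by fun_prop)
      exact (h1.inner h2).aestronglyMeasurable
    · exact (norm_inner_le_norm _ _).trans
        (mul_le_mul (hfb _ _) (hgb _ _) (norm_nonneg _) ((norm_nonneg _).trans (hfb q.1 q.2.1)))
  have hp : ∀ w, inner ℝ (∫ x, f w x ∂μ) (∫ x, g w x ∂μ) =
      ∫ p : X × X, inner ℝ (f w p.1) (g w p.2) ∂(μ.prod μ) := by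
    intro w
    have h1 : Integrable (f w) μ :=
      Integrable.of_bound (hf.of_uncurry_left).aestronglyMeasurable C (ae_of_all _ (hfb w))
    have h2 : Integrable (g w) μ :=
      Integrable.of_bound (hg.of_uncurry_left).aestronglyMeasurable C (ae_of_all _ (hgb w))
    exact (integral_prod_bilin (innerSL ℝ : E →L[ℝ] E →L[ℝ] ℝ) h1 h2).symm
  refine ⟨H.integral_prod_right, ?_, ?_⟩
  · simp_rw [hp]
    exact H.integral_prod_left
  · simp_rw [hp]
    exact integral_integral_swap (f := fun w (p : X × X) => inner ℝ (f w p.1) (g w p.2)) H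

/-- minus the gradient of the regularised Newton kernel -/
noncomputable def Rigid_K (ε : ℝ) (v : E3) : E3 := (sr ε v ^ 3)⁻¹ • v

lemma Rigid_sr_cont : Continuous (fun p : ℝ × E3 => sr p.1 p.2) := by
  unfold sr; fun_prop

lemma Rigid_sr_cont' (ε : ℝ) : Continuous (sr ε) := by
  unfold sr; fun_prop

lemma Rigid_sr_nonneg (ε : ℝ) (v : E3) : 0 ≤ sr ε v := Real.sqrt_nonneg _

lemma Rigid_le_sr (ε : ℝ) (v : E3) : ε ≤ sr ε v := by
  unfold sr
  exact Real.le_sqrt_of_sq_le (by nlinarith [sq_nonneg ‖v‖])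

lemma Rigid_sr_zero (v : E3) : sr 0 v = ‖v‖ := by
  simp [sr]

lemma Rigid_sr_neg (ε : ℝ) (v : E3) : sr ε (-v) = sr ε v := by
  simp [sr]

lemma Rigid_sr_sub (ε : ℝ) (v w : E3) : sr ε (v - w) = sr ε (w - v) := by
  rw [← Rigid_sr_neg, neg_sub]

lemma Rigid_K_le {ε r : ℝ} (hr : 0 < r) (v : E3) (h : r ≤ sr ε v) :
    ‖Rigid_K ε v‖ ≤ (r ^ 2)⁻¹ := by
  have hs : 0 < sr ε v := hr.trans_le h
  have h1 := norm_le_sr ε v
  rw [Rigid_K, norm_smul, norm_inv, norm_pow, Real.norm_of_nonneg hs.le]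
  calc (sr ε v ^ 3)⁻¹ * ‖v‖ ≤ (sr ε v ^ 3)⁻¹ * sr ε v := by gcongr
    _ = (sr ε v ^ 2)⁻¹ := by field_simp
    _ ≤ (r ^ 2)⁻¹ := by gcongr

lemma Rigid_K_meas (ε : ℝ) : Measurable (Rigid_K ε) := by
  unfold Rigid_K
  exact ((Rigid_sr_cont' ε).measurable.pow_const 3).inv.smul measurable_id

lemma Rigid_K_contAt {ε : ℝ} {v : E3} (h : v ≠ 0) :
    ContinuousAt (fun p : ℝ × E3 => Rigid_K p.1 p.2) (ε, v) := by
  have h1 : sr ε v ≠ 0 := ((norm_pos_iff.mpr h).trans_le (norm_le_sr ε v)).ne'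
  have h2 : ContinuousAt (fun p : ℝ × E3 => sr p.1 p.2 ^ 3) (ε, v) :=
    (Rigid_sr_cont.pow 3).continuousAt
  have h3 : ContinuousAt (fun p : ℝ × E3 => (sr p.1 p.2 ^ 3)⁻¹) (ε, v) :=
    ContinuousAt.inv₀ h2 (pow_ne_zero 3 h1)
  have h4 : ContinuousAt (fun p : ℝ × E3 => p.2) (ε, v) := continuousAt_snd
  exact ContinuousAt.smul h3 h4

lemma Data.Rigid_nu_le (D : Data Ω M μ ν) (y : M) (j : Fin 3) : |ν y j| ≤ 1 := by
  have := PiLp.norm_apply_le (ν y) j
  rwa [D.unit, Real.norm_eq_abs] at this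

lemma Data.Rigid_nu_cont (D : Data Ω M μ ν) (j : Fin 3) : Continuous (fun y => ν y j) := by
  have := D.cont
  fun_prop

lemma Data.Rigid_vol (D : Data Ω M μ ν) : IsFiniteMeasure (volume.restrict Ω) :=
  isFiniteMeasure_restrict.mpr D.bd.measure_lt_top.ne

/-- minus the gradient of the regularised single layer potential -/
noncomputable def Rigid_G {M : Set E3} (μ : Measure M) (ν : M → E3) (ε : ℝ) (j : Fin 3)
    (w : E3) : E3 :=
  ∫ y : M, ν y j • Rigid_K ε (w - y) ∂μ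

lemma Data.Rigid_meas (D : Data Ω M μ ν) (ε : ℝ) (j : Fin 3) :
    StronglyMeasurable (Function.uncurry fun (w : E3) (y : M) => ν y j • Rigid_K ε (w - y)) := by
  have h1 : Measurable (fun p : E3 × M => ν p.2 j) :=
    (D.Rigid_nu_cont j).measurable.comp measurable_snd
  have h2 : Measurable (fun p : E3 × M => p.1 - (p.2 : E3)) :=
    (continuous_fst.sub (continuous_subtype_val.comp continuous_snd)).measurable
  have h3 : Measurable (fun p : E3 × M => Rigid_K ε (p.1 - (p.2 : E3))) :=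
    (Rigid_K_meas ε).comp h2
  exact (h1.smul h3).stronglyMeasurable

lemma Data.Rigid_bd (D : Data Ω M μ ν) {ε r : ℝ} (hr : 0 < r) (j : Fin 3) (w : E3) (y : M)
    (h : r ≤ sr ε (w - y)) : ‖ν y j • Rigid_K ε (w - y)‖ ≤ (r ^ 2)⁻¹ := by
  rw [norm_smul, Real.norm_eq_abs]
  calc _ ≤ 1 * (r ^ 2)⁻¹ :=
        mul_le_mul (D.Rigid_nu_le y j) (Rigid_K_le hr _ h) (norm_nonneg _) zero_le_one
    _ = _ := one_mul _

/-- the limit of the volume term -/
lemma Data.Rigid_A (D : Data Ω M μ ν) (j : Fin 3)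
    (hm : ∀ ε : ℝ, 0 < ε → AEStronglyMeasurable (fun p : M × M => ν p.1 j * ν p.2 j *
      ∫ w in Ω, (sr ε (w - p.1))⁻¹ * rho ε (w - p.2)) (μ.prod μ)) :
    Tendsto (fun ε : ℝ => ∫ p : M × M, ν p.1 j * ν p.2 j *
      (∫ w in Ω, (sr ε (w - p.1))⁻¹ * rho ε (w - p.2)) ∂(μ.prod μ)) (𝓝[>] 0)
      (𝓝 (2 * π * ∫ x : M, ν x j * UU μ ν j x ∂μ)) := by
  have := D.fin
  obtain ⟨C, hC⟩ := sing_bound Ω
  have hne : ∀ᵐ p : M × M ∂(μ.prod μ), (p.2 : E3) ≠ p.1 := by
    rw [Measure.ae_prod_iff_ae_ae]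
    · exact ae_of_all _ fun x => D.ae_ne x
    · exact (isClosed_eq (by fun_prop) (by fun_prop)).isOpen_compl.measurableSet
  have hνν : ∀ p : M × M, |ν p.1 j * ν p.2 j| ≤ 1 := fun p => by
    rw [abs_mul]
    exact mul_le_one₀ (D.Rigid_nu_le _ _) (abs_nonneg _) (D.Rigid_nu_le _ _)
  have hc := D.Rigid_nu_cont j
  have h1 := tendsto_integral_filter_of_dominated_convergence (μ := μ.prod μ) (l := 𝓝[>] (0 : ℝ))
    (F := fun (ε : ℝ) (p : M × M) => ν p.1 j * ν p.2 j *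
      ∫ w in Ω, (sr ε (w - p.1))⁻¹ * rho ε (w - p.2))
    (f := fun p : M × M => ν p.1 j * ν p.2 j * (2 * π * ‖(p.1 : E3) - p.2‖⁻¹))
    (fun p : M × M => C * ‖(p.1 : E3) - p.2‖⁻¹)
    (eventually_mem_nhdsWithin.mono fun ε hε => hm ε hε)
    (eventually_mem_nhdsWithin.mono fun ε hε => hne.mono fun p hp => by
      rw [Real.norm_eq_abs, abs_mul]
      have h2 := hC ε hε p.1 p.2 hp.symm
      calc _ ≤ 1 * (C * ‖(p.1 : E3) - p.2‖⁻¹) :=
            mul_le_mul (hνν p) h2 (abs_nonneg _) zero_le_one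
        _ = _ := one_mul _)
    (D.ws_prod.const_mul C)
    (hne.mono fun p hp => (D.lim_sing_bdry p.2 hp.symm).const_mul _)
  have h2 : Integrable (fun p : M × M => ν p.1 j * ν p.2 j * (2 * π * ‖(p.1 : E3) - p.2‖⁻¹))
      (μ.prod μ) :=
    (D.ws_prod.const_mul (2 * π)).bdd_mul (c := 1)
      ((hc.comp continuous_fst).mul (hc.comp continuous_snd)).aestronglyMeasurable
      (ae_of_all _ fun p => hνν p)
  rw [integral_prod _ h2] at h1
  convert h1 using 2
  rw [← integral_const_mul]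
  congr 1
  ext x
  rw [UU, ← integral_const_mul, ← integral_const_mul]
  congr 1
  ext y
  simp only [div_eq_mul_inv]
  ring

lemma Rigid_tendsto_sr (v : E3) : Tendsto (fun ε : ℝ => sr ε v) (𝓝[>] 0) (𝓝 ‖v‖) := by
  have h : Continuous (fun ε : ℝ => sr ε v) := by unfold sr; fun_prop
  have := h.tendsto 0
  rw [Rigid_sr_zero] at this
  exact this.mono_left nhdsWithin_le_nhds

lemma Rigid_inv_sr_le (ε : ℝ) {v : E3} (hv : v ≠ 0) : (sr ε v)⁻¹ ≤ ‖v‖⁻¹ :=
  inv_anti₀ (norm_pos_iff.mpr hv) (norm_le_sr ε v)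

lemma Data.Rigid_m1 (D : Data Ω M μ ν) (ε : ℝ) (j : Fin 3) :
    Measurable (Function.uncurry fun (y x : M) => ν x j * (sr ε ((y : E3) - x))⁻¹) := by
  have h1 : Measurable (fun p : M × M => ν p.2 j) :=
    (D.Rigid_nu_cont j).measurable.comp measurable_snd
  have h2 : Continuous (fun p : M × M => (p.1 : E3) - (p.2 : E3)) := by fun_prop
  have h3 : Measurable (fun p : M × M => sr ε ((p.1 : E3) - (p.2 : E3))) :=
    ((Rigid_sr_cont' ε).comp h2).measurable
  exact h1.mul h3.inv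

lemma Data.Rigid_m2 (D : Data Ω M μ ν) (ε : ℝ) (j : Fin 3) :
    Measurable (Function.uncurry fun (y z : M) =>
      ν z j * (inner ℝ ((y : E3) - z) (ν y) / sr ε ((y : E3) - z) ^ 3)) := by
  have h1 : Measurable (fun p : M × M => ν p.2 j) :=
    (D.Rigid_nu_cont j).measurable.comp measurable_snd
  have h2 : Continuous (fun p : M × M => (p.1 : E3) - (p.2 : E3)) := by fun_prop
  have h3 : Measurable (fun p : M × M => sr ε ((p.1 : E3) - (p.2 : E3))) :=
    ((Rigid_sr_cont' ε).comp h2).measurable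
  have h4 : Measurable (fun p : M × M => inner ℝ ((p.1 : E3) - (p.2 : E3)) (ν p.1)) :=
    (h2.inner (D.cont.comp continuous_fst)).measurable
  exact h1.mul (h4.div (h3.pow_const 3))

/-- the limit of the surface term -/
lemma Data.Rigid_B (D : Data Ω M μ ν)
    (h : ∀ (j : Fin 3) (x : M), 1 / (4 * π) * ∫ y : M, kk ν x y * ν y j ∂μ = 1 / 6 * ν x j)
    (j : Fin 3) :
    Tendsto (fun ε : ℝ => ∫ y : M, (∫ x : M, ν x j * (sr ε ((y : E3) - x))⁻¹ ∂μ) *
      (∫ z : M, ν z j * (inner ℝ ((y : E3) - z) (ν y) / sr ε ((y : E3) - z) ^ 3) ∂μ) ∂μ)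
      (𝓝[>] 0) (𝓝 (2 * π / 3 * ∫ x : M, ν x j * UU μ ν j x ∂μ)) := by
  have := D.fin
  obtain ⟨C, hC⟩ := D.ws_bound
  obtain ⟨K, hK⟩ := D.curv
  have b1 : ∀ (ε : ℝ) (y : M), ∀ᵐ x : M ∂μ,
      ‖ν x j * (sr ε ((y : E3) - x))⁻¹‖ ≤ ‖(y : E3) - x‖⁻¹ := fun ε y =>
    (D.ae_ne y).mono fun x hx => by
      rw [Real.norm_eq_abs, abs_mul, abs_of_nonneg (inv_nonneg.mpr (Rigid_sr_nonneg _ _))]
      calc _ ≤ 1 * ‖(y : E3) - x‖⁻¹ :=
            mul_le_mul (D.Rigid_nu_le _ _) (Rigid_inv_sr_le ε (sub_ne_zero.mpr hx.symm))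
              (inv_nonneg.mpr (Rigid_sr_nonneg _ _)) zero_le_one
        _ = _ := one_mul _
  have b2 : ∀ (ε : ℝ) (y : M), ∀ᵐ z : M ∂μ,
      ‖ν z j * (inner ℝ ((y : E3) - z) (ν y) / sr ε ((y : E3) - z) ^ 3)‖ ≤
        |K| * ‖(y : E3) - z‖⁻¹ := fun ε y =>
    (D.ae_ne y).mono fun z hz => by
      have h0 : 0 < ‖(y : E3) - z‖ := norm_pos_iff.mpr (sub_ne_zero.mpr hz.symm)
      have h1 := norm_le_sr ε ((y : E3) - z)
      have h2 : |inner ℝ ((y : E3) - z) (ν y)| ≤ |K| * ‖(y : E3) - z‖ ^ 2 :=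
        (hK y z).trans (by gcongr; exact le_abs_self K)
      rw [Real.norm_eq_abs, abs_mul, abs_div, abs_of_nonneg (pow_nonneg (Rigid_sr_nonneg _ _) 3)]
      calc _ ≤ 1 * (|K| * ‖(y : E3) - z‖ ^ 2 / ‖(y : E3) - z‖ ^ 3) := by
            refine mul_le_mul (D.Rigid_nu_le _ _) ?_
              (div_nonneg (abs_nonneg _) (pow_nonneg (Rigid_sr_nonneg _ _) 3)) zero_le_one
            gcongr
        _ = _ := by field_simp
  have l1 : ∀ y : M, Tendsto (fun ε : ℝ => ∫ x : M, ν x j * (sr ε ((y : E3) - x))⁻¹ ∂μ) (𝓝[>] 0)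
      (𝓝 (UU μ ν j y)) := fun y => by
    refine tendsto_integral_filter_of_dominated_convergence (fun x : M => ‖(y : E3) - x‖⁻¹)
      (Eventually.of_forall fun ε => (D.Rigid_m1 ε j).of_uncurry_left.aestronglyMeasurable)
      (Eventually.of_forall fun ε => b1 ε y) (D.ws_int y) ((D.ae_ne y).mono fun x hx => ?_)
    rw [div_eq_mul_inv]
    exact ((Rigid_tendsto_sr _).inv₀ (norm_ne_zero_iff.mpr (sub_ne_zero.mpr hx.symm))).const_mul _
  have l2 : ∀ y : M, Tendsto (fun ε : ℝ =>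
      ∫ z : M, ν z j * (inner ℝ ((y : E3) - z) (ν y) / sr ε ((y : E3) - z) ^ 3) ∂μ) (𝓝[>] 0)
      (𝓝 (2 * π / 3 * ν y j)) := fun y => by
    have h3 : 2 * π / 3 * ν y j = ∫ z : M, kk ν y z * ν z j ∂μ := by
      have h4 := h j y
      have := Real.pi_pos
      field_simp at h4
      linarith
    rw [h3]
    refine tendsto_integral_filter_of_dominated_convergence (fun x : M => |K| * ‖(y : E3) - x‖⁻¹)
      (Eventually.of_forall fun ε => (D.Rigid_m2 ε j).of_uncurry_left.aestronglyMeasurable)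
      (Eventually.of_forall fun ε => b2 ε y) ((D.ws_int y).const_mul _)
      ((D.ae_ne y).mono fun x hx => ?_)
    rw [mul_comm (kk ν y x), kk]
    exact (tendsto_const_nhds.div ((Rigid_tendsto_sr _).pow 3)
      (pow_ne_zero 3 (norm_ne_zero_iff.mpr (sub_ne_zero.mpr hx.symm)))).const_mul _
  have h1 := tendsto_integral_filter_of_dominated_convergence (μ := μ) (l := 𝓝[>] (0 : ℝ))
    (F := fun (ε : ℝ) (y : M) => (∫ x : M, ν x j * (sr ε ((y : E3) - x))⁻¹ ∂μ) *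
      (∫ z : M, ν z j * (inner ℝ ((y : E3) - z) (ν y) / sr ε ((y : E3) - z) ^ 3) ∂μ))
    (f := fun y : M => UU μ ν j y * (2 * π / 3 * ν y j)) (fun _ => C * (|K| * C))
    (Eventually.of_forall fun ε =>
      ((D.Rigid_m1 ε j).stronglyMeasurable.integral_prod_right.mul
        (D.Rigid_m2 ε j).stronglyMeasurable.integral_prod_right).aestronglyMeasurable)
    (Eventually.of_forall fun ε => ae_of_all _ fun y => by
      rw [norm_mul]
      have e1 := (norm_integral_le_of_norm_le (D.ws_int y) (b1 ε y)).trans (hC y)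
      have e2 := norm_integral_le_of_norm_le ((D.ws_int y).const_mul |K|) (b2 ε y)
      rw [integral_const_mul] at e2
      have e3 := e2.trans (mul_le_mul_of_nonneg_left (hC y) (abs_nonneg K))
      exact mul_le_mul e1 e3 (norm_nonneg _) ((norm_nonneg _).trans e1))
    (integrable_const _) (ae_of_all _ fun y => (l1 y).mul (l2 y))
  convert h1 using 2
  rw [← integral_const_mul]
  congr 1
  ext y
  ring

lemma Data.Rigid_green (D : Data Ω M μ ν) {ε : ℝ} (hε : 0 < ε) (x z : E3) :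
    ∫ w in Ω, inner ℝ (Rigid_K ε (w - x)) (Rigid_K ε (w - z)) =
      (∫ w in Ω, (sr ε (w - x))⁻¹ * rho ε (w - z)) -
      ∫ y : M, (sr ε ((y : E3) - x))⁻¹ *
        (inner ℝ ((y : E3) - z) (ν y) / sr ε ((y : E3) - z) ^ 3) ∂μ := by
  have h1 := D.green_one hε (fun w => (sr ε (w - x))⁻¹)
    ((contDiff_inv_sr hε x).of_le (by norm_num)) z
  have h2 : ∀ w : E3, fderiv ℝ (fun w : E3 => (sr ε (w - x))⁻¹) w (w - z) / sr ε (w - z) ^ 3 =
      - inner ℝ (Rigid_K ε (w - x)) (Rigid_K ε (w - z)) := fun w => by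
    rw [(hasFDerivAt_inv_sr hε x w).fderiv, Rigid_K, Rigid_K, inner_smul_left, inner_smul_right]
    simp only [smul_apply, innerSL_apply_apply, smul_eq_mul, conj_trivial]
    ring
  simp only [h2, integral_neg] at h1
  linarith

/-- the limit of the Dirichlet energy -/
lemma Data.Rigid_energy (D : Data Ω M μ ν)
    (h : ∀ (j : Fin 3) (x : M), 1 / (4 * π) * ∫ y : M, kk ν x y * ν y j ∂μ = 1 / 6 * ν x j)
    (j : Fin 3) :
    (∀ ε : ℝ, 0 < ε → IntegrableOn (fun w => ‖Rigid_G μ ν ε j w‖ ^ 2) Ω) ∧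
    Tendsto (fun ε : ℝ => ∫ w in Ω, ‖Rigid_G μ ν ε j w‖ ^ 2) (𝓝[>] 0)
      (𝓝 (4 * π / 3 * ∫ x : M, ν x j * UU μ ν j x ∂μ)) := by
  have := D.fin
  have := D.Rigid_vol
  have key : ∀ ε : ℝ, 0 < ε → IntegrableOn (fun w => ‖Rigid_G μ ν ε j w‖ ^ 2) Ω ∧
      Integrable (fun p : M × M => ν p.1 j * ν p.2 j *
        ∫ w in Ω, (sr ε (w - p.1))⁻¹ * rho ε (w - p.2)) (μ.prod μ) ∧
      ∫ w in Ω, ‖Rigid_G μ ν ε j w‖ ^ 2 = (∫ p : M × M, ν p.1 j * ν p.2 j *
        (∫ w in Ω, (sr ε (w - p.1))⁻¹ * rho ε (w - p.2)) ∂(μ.prod μ)) -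
        ∫ y : M, (∫ x : M, ν x j * (sr ε ((y : E3) - x))⁻¹ ∂μ) *
          (∫ z : M, ν z j * (inner ℝ ((y : E3) - z) (ν y) / sr ε ((y : E3) - z) ^ 3) ∂μ) ∂μ := by
    intro ε hε
    obtain ⟨q1, q2, q3⟩ := Rigid_sep (volume.restrict Ω) μ
      (fun (w : E3) (y : M) => ν y j • Rigid_K ε (w - y))
      (fun (w : E3) (y : M) => ν y j • Rigid_K ε (w - y)) (D.Rigid_meas ε j) (D.Rigid_meas ε j)
      (ε ^ 2)⁻¹ (fun w y => D.Rigid_bd hε j w y (Rigid_le_sr _ _))
      (fun w y => D.Rigid_bd hε j w y (Rigid_le_sr _ _))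
    obtain ⟨r1, -, r3⟩ := Rigid_sep (E := ℝ) μ μ
      (fun (y x : M) => ν x j * (sr ε ((y : E3) - x))⁻¹)
      (fun (y z : M) => ν z j * (inner ℝ ((y : E3) - z) (ν y) / sr ε ((y : E3) - z) ^ 3))
      (D.Rigid_m1 ε j).stronglyMeasurable (D.Rigid_m2 ε j).stronglyMeasurable
      (ε⁻¹ + (ε ^ 2)⁻¹) (fun y x => by
        rw [Real.norm_eq_abs, abs_mul, abs_of_nonneg (inv_nonneg.mpr (Rigid_sr_nonneg _ _))]
        have e1 : (sr ε ((y : E3) - x))⁻¹ ≤ ε⁻¹ := inv_anti₀ hε (Rigid_le_sr _ _)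
        have e2 : |ν x j| * (sr ε ((y : E3) - x))⁻¹ ≤ 1 * ε⁻¹ :=
          mul_le_mul (D.Rigid_nu_le _ _) e1 (inv_nonneg.mpr (Rigid_sr_nonneg _ _)) zero_le_one
        have e3 : 0 ≤ (ε ^ 2)⁻¹ := by positivity
        linarith)
      (fun y z => by
        have e1 : inner ℝ ((y : E3) - z) (ν y) / sr ε ((y : E3) - z) ^ 3 =
            inner ℝ (Rigid_K ε ((y : E3) - z)) (ν y) := by
          rw [Rigid_K, inner_smul_left, conj_trivial]; ring
        have e2 := abs_real_inner_le_norm (Rigid_K ε ((y : E3) - z)) (ν y)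
        rw [D.unit, mul_one] at e2
        have e3 := e2.trans (Rigid_K_le hε _ (Rigid_le_sr _ _))
        rw [Real.norm_eq_abs, abs_mul, e1]
        have e4 := mul_le_mul (D.Rigid_nu_le z j) e3 (abs_nonneg _) zero_le_one
        have e5 : 0 ≤ ε⁻¹ := by positivity
        linarith)
    simp only [RCLike.inner_apply', conj_trivial] at r1 r3
    have hG : ∀ w, inner ℝ (∫ y : M, ν y j • Rigid_K ε (w - y) ∂μ)
        (∫ y : M, ν y j • Rigid_K ε (w - y) ∂μ) = ‖Rigid_G μ ν ε j w‖ ^ 2 := fun w =>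
      real_inner_self_eq_norm_sq _
    simp only [hG] at q2 q3
    have hpt : ∀ p : M × M, ν p.1 j * ν p.2 j *
        (∫ w in Ω, (sr ε (w - p.1))⁻¹ * rho ε (w - p.2)) =
        (∫ w in Ω, inner ℝ (ν p.1 j • Rigid_K ε (w - p.1)) (ν p.2 j • Rigid_K ε (w - p.2))) +
        ∫ y : M, (ν p.1 j * (sr ε ((y : E3) - p.1))⁻¹) *
          (ν p.2 j * (inner ℝ ((y : E3) - p.2) (ν y) / sr ε ((y : E3) - p.2) ^ 3)) ∂μ := by
      intro p
      have e1 : ∀ w : E3, inner ℝ (ν p.1 j • Rigid_K ε (w - p.1)) (ν p.2 j • Rigid_K ε (w - p.2)) =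
          ν p.1 j * ν p.2 j * inner ℝ (Rigid_K ε (w - p.1)) (Rigid_K ε (w - p.2)) := fun w => by
        rw [inner_smul_left, inner_smul_right, conj_trivial]; ring
      have e2 : ∀ y : M, (ν p.1 j * (sr ε ((y : E3) - p.1))⁻¹) *
          (ν p.2 j * (inner ℝ ((y : E3) - p.2) (ν y) / sr ε ((y : E3) - p.2) ^ 3)) =
          ν p.1 j * ν p.2 j * ((sr ε ((y : E3) - p.1))⁻¹ *
            (inner ℝ ((y : E3) - p.2) (ν y) / sr ε ((y : E3) - p.2) ^ 3)) := fun y => by ring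
      simp only [e1, e2, integral_const_mul]
      rw [D.Rigid_green hε]
      ring
    simp only [hpt]
    refine ⟨q2, q1.add r1, ?_⟩
    rw [integral_add q1 r1, q3, r3]
    ring
  refine ⟨fun ε hε => (key ε hε).1, ?_⟩
  have h1 := (D.Rigid_A j fun ε hε => (key ε hε).2.1.aestronglyMeasurable).sub (D.Rigid_B h j)
  have h2 : 2 * π * ∫ x : M, ν x j * UU μ ν j x ∂μ - 2 * π / 3 * ∫ x : M, ν x j * UU μ ν j x ∂μ =
      4 * π / 3 * ∫ x : M, ν x j * UU μ ν j x ∂μ := by ring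
  rw [h2] at h1
  exact h1.congr' (eventually_mem_nhdsWithin.mono fun ε hε => (key ε hε).2.2.symm)

lemma Data.Rigid_int (D : Data Ω M μ ν) {ε r : ℝ} (hr : 0 < r) (j : Fin 3) (w : E3)
    (h : ∀ y : M, r ≤ sr ε (w - y)) : Integrable (fun y : M => ν y j • Rigid_K ε (w - y)) μ := by
  have := D.fin
  exact Integrable.of_bound (D.Rigid_meas ε j).of_uncurry_left.aestronglyMeasurable (r ^ 2)⁻¹
    (ae_of_all _ fun y => D.Rigid_bd hr j w y (h y))

/-- the trace -/
lemma Data.Rigid_trace (D : Data Ω M μ ν) {ε : ℝ} (hε : 0 < ε) (w : E3) :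
    ∑ j : Fin 3, Rigid_G μ ν ε j w j = - ∫ v in Ω, 1 * rho ε (v - w) := by
  have h1 := D.green_one hε (fun _ => (1 : ℝ)) contDiff_const w
  simp only [fderiv_fun_const, Pi.zero_apply, zero_apply, zero_div,
    integral_zero, zero_add] at h1
  rw [h1, ← integral_neg]
  have h2 : ∀ j : Fin 3, Integrable (fun y : M => ν y j • Rigid_K ε (w - y)) μ := fun j =>
    D.Rigid_int hε j w fun y => Rigid_le_sr _ _
  have h3 : ∀ j : Fin 3, Rigid_G μ ν ε j w j = ∫ y : M, (ν y j • Rigid_K ε (w - y)) j ∂μ :=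
    fun j => ((EuclideanSpace.proj j : E3 →L[ℝ] ℝ).integral_comp_comm (h2 j)).symm
  have h4 : ∀ j : Fin 3, Integrable (fun y : M => (ν y j • Rigid_K ε (w - y)) j) μ :=
    fun j => (EuclideanSpace.proj j : E3 →L[ℝ] ℝ).integrable_comp (h2 j)
  simp only [h3]
  rw [← integral_finsetSum _ fun j _ => h4 j]
  congr 1
  ext y
  rw [Rigid_sr_sub ε y w]
  simp only [Rigid_K, PiLp.smul_apply, smul_eq_mul, PiLp.sub_apply, PiLp.inner_apply,
    RCLike.inner_apply', conj_trivial, Fin.sum_univ_three]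
  ring

lemma Data.Rigid_G_meas (D : Data Ω M μ ν) (ε : ℝ) (j : Fin 3) :
    StronglyMeasurable (Rigid_G μ ν ε j) := by
  have := D.fin
  exact (D.Rigid_meas ε j).integral_prod_right

lemma Data.Rigid_G_int (D : Data Ω M μ ν) {ε : ℝ} (hε : 0 < ε) (j : Fin 3) :
    IntegrableOn (Rigid_G μ ν ε j) Ω := by
  have := D.fin
  have := D.Rigid_vol
  refine Integrable.of_bound (D.Rigid_G_meas ε j).aestronglyMeasurable
    ((ε ^ 2)⁻¹ * μ.real univ) (ae_of_all _ fun w => ?_)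
  exact norm_integral_le_of_norm_le_const
    (ae_of_all _ fun y => D.Rigid_bd hε j w y (Rigid_le_sr _ _))

lemma Data.Rigid_trace_lim (D : Data Ω M μ ν) :
    Tendsto (fun ε : ℝ => ∫ w in Ω, ∑ j : Fin 3, Rigid_G μ ν ε j w j) (𝓝[>] 0)
      (𝓝 (-(4 * π) * volume.real Ω)) := by
  have := D.Rigid_vol
  have h1 := tendsto_integral_filter_of_dominated_convergence (μ := volume.restrict Ω)
    (l := 𝓝[>] (0 : ℝ)) (F := fun (ε : ℝ) (w : E3) => ∑ j : Fin 3, Rigid_G μ ν ε j w j)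
    (f := fun _ => -(4 * π)) (fun _ => 4 * π)
    (eventually_mem_nhdsWithin.mono fun ε hε =>
      (integrable_finsetSum _ fun j _ =>
        ((EuclideanSpace.proj j : E3 →L[ℝ] ℝ).integrable_comp (D.Rigid_G_int hε j) :
          Integrable (fun w => Rigid_G μ ν ε j w j) (volume.restrict Ω))).aestronglyMeasurable)
    (eventually_mem_nhdsWithin.mono fun ε hε => ae_of_all _ fun w => by
      have hε' : 0 < ε := hε
      have hn : ∀ v : E3, 0 ≤ rho ε (v - w) := fun v =>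
        div_nonneg (by positivity) (pow_nonneg (Rigid_sr_nonneg _ _) 5)
      rw [D.Rigid_trace hε', norm_neg]
      simp only [one_mul]
      rw [Real.norm_of_nonneg (integral_nonneg hn), ← integral_rho hε',
        ← integral_sub_right_eq_self (rho ε) w]
      exact setIntegral_le_integral ((integrable_rho hε').comp_sub_right w) (ae_of_all _ hn))
    (integrable_const _)
    ((ae_restrict_mem D.op.measurableSet).mono fun w hw => by
      have h2 := (D.lim_cont_int (fun _ => (1 : ℝ)) continuous_const hw).neg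
      rw [mul_one] at h2
      exact h2.congr' (eventually_mem_nhdsWithin.mono fun ε hε => (D.Rigid_trace hε w).symm))
  simpa [mul_comm] using h1

lemma Rigid_expand (v : E3) (c : ℝ) (j : Fin 3) :
    ‖v + c • EuclideanSpace.single j (1 : ℝ)‖ ^ 2 = ‖v‖ ^ 2 + 2 * c * v j + c ^ 2 := by
  rw [norm_add_sq_real, inner_smul_right, EuclideanSpace.inner_single_right, norm_smul]
  simp only [conj_trivial, one_mul, PiLp.norm_single, norm_one, mul_one, Real.norm_eq_abs, sq_abs]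
  ring

/-- the defect tends to zero in mean square -/
lemma Data.Rigid_defect (D : Data Ω M μ ν)
    (h : ∀ (j : Fin 3) (x : M), 1 / (4 * π) * ∫ y : M, kk ν x y * ν y j ∂μ = 1 / 6 * ν x j) :
    (∀ ε : ℝ, 0 < ε → IntegrableOn (fun w => ∑ j : Fin 3,
      ‖Rigid_G μ ν ε j w + (4 * π / 3) • EuclideanSpace.single j (1 : ℝ)‖ ^ 2) Ω) ∧
    Tendsto (fun ε : ℝ => ∫ w in Ω, ∑ j : Fin 3,
      ‖Rigid_G μ ν ε j w + (4 * π / 3) • EuclideanSpace.single j (1 : ℝ)‖ ^ 2) (𝓝[>] 0) (𝓝 0) := by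
  have := D.Rigid_vol
  have e1 : ∀ (ε : ℝ) (w : E3), ∑ j : Fin 3,
      ‖Rigid_G μ ν ε j w + (4 * π / 3) • EuclideanSpace.single j (1 : ℝ)‖ ^ 2 =
      ∑ j : Fin 3, ‖Rigid_G μ ν ε j w‖ ^ 2 + 2 * (4 * π / 3) * ∑ j : Fin 3, Rigid_G μ ν ε j w j +
        3 * (4 * π / 3) ^ 2 := fun ε w => by
    simp only [Rigid_expand, Fin.sum_univ_three]
    ring
  have i1 : ∀ ε : ℝ, 0 < ε → Integrable (fun w => ∑ j : Fin 3, ‖Rigid_G μ ν ε j w‖ ^ 2)
      (volume.restrict Ω) := fun ε hε =>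
    integrable_finsetSum _ fun j _ => (D.Rigid_energy h j).1 ε hε
  have i2 : ∀ ε : ℝ, 0 < ε → Integrable
      (fun w => 2 * (4 * π / 3) * ∑ j : Fin 3, Rigid_G μ ν ε j w j) (volume.restrict Ω) :=
    fun ε hε => (integrable_finsetSum _ fun j _ =>
      ((EuclideanSpace.proj j : E3 →L[ℝ] ℝ).integrable_comp (D.Rigid_G_int hε j) :
        Integrable (fun w => Rigid_G μ ν ε j w j) (volume.restrict Ω))).const_mul _
  simp only [e1]
  refine ⟨fun ε hε => ((i1 ε hε).add (i2 ε hε)).add (integrable_const _), ?_⟩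
  have h1 := ((tendsto_finsetSum Finset.univ fun j _ => (D.Rigid_energy h j).2).add
    (D.Rigid_trace_lim.const_mul (2 * (4 * π / 3)))).add_const
    (volume.real Ω * (3 * (4 * π / 3) ^ 2))
  rw [← Finset.mul_sum, D.green_vol] at h1
  have h2 : 4 * π / 3 * (4 * π * volume.real Ω) + 2 * (4 * π / 3) * (-(4 * π) * volume.real Ω) +
      volume.real Ω * (3 * (4 * π / 3) ^ 2) = 0 := by ring
  rw [h2] at h1
  refine h1.congr' (eventually_mem_nhdsWithin.mono fun ε hε => ?_)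
  have i3 : Integrable (fun w => ∑ j : Fin 3, ‖Rigid_G μ ν ε j w‖ ^ 2 +
      2 * (4 * π / 3) * ∑ j : Fin 3, Rigid_G μ ν ε j w j) (volume.restrict Ω) :=
    (i1 ε hε).add (i2 ε hε)
  beta_reduce
  rw [integral_add i3 (integrable_const _), integral_add (i1 ε hε) (i2 ε hε),
    integral_finsetSum _ fun j _ => (D.Rigid_energy h j).1 ε hε, integral_const_mul,
    setIntegral_const, smul_eq_mul]

lemma Data.Rigid_far (D : Data Ω M μ ν) {w : E3} (hw : w ∈ Ω) :
    ∃ r : ℝ, 0 < r ∧ Metric.ball w r ⊆ Ω ∧ ∀ v ∈ Metric.ball w r, ∀ y : M, r ≤ ‖v - y‖ := by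
  obtain ⟨δ, hδ, hb⟩ := Metric.isOpen_iff.mp D.op w hw
  refine ⟨δ / 2, half_pos hδ, (Metric.ball_subset_ball (half_le_self hδ.le)).trans hb,
    fun v hv y => ?_⟩
  have h1 : δ ≤ dist (y : E3) w := not_lt.mp fun h => D.dis y (hb h)
  have h2 := dist_triangle (y : E3) v w
  rw [Metric.mem_ball] at hv
  rw [← dist_eq_norm, dist_comm]
  linarith

lemma Data.Rigid_G_cont (D : Data Ω M μ ν) (j : Fin 3) {w : E3} (hw : w ∈ Ω) :
    ContinuousAt (fun p : ℝ × E3 => Rigid_G μ ν p.1 j p.2) (0, w) := by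
  have := D.fin
  obtain ⟨r, hr, -, hf⟩ := D.Rigid_far hw
  have hnb : ∀ᶠ p : ℝ × E3 in 𝓝 (0, w), p.2 ∈ Metric.ball w r :=
    continuousAt_snd.eventually (Metric.ball_mem_nhds w hr)
  refine continuousAt_of_dominated (bound := fun _ => (r ^ 2)⁻¹)
    (Eventually.of_forall fun p => (D.Rigid_meas p.1 j).of_uncurry_left.aestronglyMeasurable)
    (hnb.mono fun p hp => ae_of_all _ fun y =>
      D.Rigid_bd hr j _ y ((hf _ hp y).trans (norm_le_sr _ _)))
    (integrable_const _) (ae_of_all _ fun y => ?_)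
  have h0 : w - y ≠ 0 := norm_pos_iff.mp (hr.trans_le (hf w (Metric.mem_ball_self hr) y))
  have h1 : ContinuousAt (fun p : ℝ × E3 => (p.1, p.2 - (y : E3))) (0, w) := by fun_prop
  have h2 : ContinuousAt (fun p : ℝ × E3 => Rigid_K p.1 (p.2 - y)) (0, w) :=
    ContinuousAt.comp (f := fun p : ℝ × E3 => (p.1, p.2 - (y : E3))) (Rigid_K_contAt h0) h1
  exact h2.const_smul (ν y j)

lemma Data.Rigid_G_zero (D : Data Ω M μ ν)
    (h : ∀ (j : Fin 3) (x : M), 1 / (4 * π) * ∫ y : M, kk ν x y * ν y j ∂μ = 1 / 6 * ν x j)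
    (j : Fin 3) {w : E3} (hw : w ∈ Ω) :
    Rigid_G μ ν 0 j w = -((4 * π / 3) • EuclideanSpace.single j (1 : ℝ)) := by
  obtain ⟨hi, hl⟩ := D.Rigid_defect h
  set Φ : ℝ × E3 → ℝ := fun p => ∑ j : Fin 3,
    ‖Rigid_G μ ν p.1 j p.2 + (4 * π / 3) • EuclideanSpace.single j (1 : ℝ)‖ ^ 2 with hΦ
  have hn : ∀ p, 0 ≤ Φ p := fun p => Finset.sum_nonneg fun j _ => sq_nonneg _
  have hc : ContinuousAt Φ (0, w) :=
    tendsto_finsetSum _ fun j _ => (((D.Rigid_G_cont j hw).add continuousAt_const).norm.pow 2)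
  have h0 : Φ (0, w) = 0 := by
    by_contra hne
    have hpos : 0 < Φ (0, w) := (hn _).lt_of_ne' hne
    have h1 : ∀ᶠ p in 𝓝 ((0 : ℝ), w), Φ (0, w) / 2 < Φ p ∧ p.2 ∈ Ω :=
      (hc.eventually (lt_mem_nhds (half_lt_self hpos))).and
        (continuousAt_snd.eventually (D.op.mem_nhds hw))
    rw [nhds_prod_eq, eventually_prod_iff] at h1
    obtain ⟨pa, hpa, pb, hpb, hab⟩ := h1
    obtain ⟨δ, hδ, hball⟩ := Metric.eventually_nhds_iff_ball.mp hpb
    have hsub : Metric.ball w δ ⊆ Ω := fun v hv => (hab hpa.self_of_nhds (hball v hv)).2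
    have hV : 0 < volume.real (Metric.ball w δ) :=
      ENNReal.toReal_pos (Metric.measure_ball_pos volume w hδ).ne' measure_ball_lt_top.ne
    have h2 : ∀ᶠ ε in 𝓝[>] (0 : ℝ),
        Φ (0, w) / 2 * volume.real (Metric.ball w δ) ≤ ∫ v in Ω, Φ (ε, v) := by
      filter_upwards [eventually_mem_nhdsWithin, hpa.filter_mono nhdsWithin_le_nhds] with ε hε ha
      calc _ ≤ ∫ v in Metric.ball w δ, Φ (ε, v) :=
            setIntegral_ge_of_const_le_real measurableSet_ball measure_ball_lt_top.ne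
              (fun v hv => (hab ha (hball v hv)).1.le) ((hi ε hε).mono_set hsub)
        _ ≤ _ := setIntegral_mono_set (hi ε hε) (ae_of_all _ fun v => hn (ε, v))
              hsub.eventuallyLE
    have h3 := ge_of_tendsto hl h2
    have h4 : 0 < Φ (0, w) / 2 * volume.real (Metric.ball w δ) := by positivity
    linarith
  have h5 := (Finset.sum_eq_zero_iff_of_nonneg fun j _ => sq_nonneg _).mp h0 j (Finset.mem_univ _)
  exact eq_neg_of_add_eq_zero_left (norm_eq_zero.mp (pow_eq_zero_iff two_ne_zero |>.mp h5))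

lemma Rigid_deriv_inv {z w : E3} (h : w - z ≠ 0) :
    HasFDerivAt (fun w : E3 => ‖w - z‖⁻¹) (-innerSL ℝ (Rigid_K 0 (w - z))) w := by
  have h0 : ‖w - z‖ ≠ 0 := norm_ne_zero_iff.mpr h
  have h1 := ((hasFDerivAt_id w).sub_const z).norm_sq
  have h2 := h1.sqrt (pow_ne_zero 2 h0)
  simp only [id, Real.sqrt_sq (norm_nonneg _)] at h2
  have h3 := (hasDerivAt_inv h0).comp_hasFDerivAt w h2
  refine HasFDerivAt.congr_fderiv h3 ?_
  ext v
  simp only [Rigid_K, Rigid_sr_zero, neg_apply, innerSL_apply_apply, inner_smul_left,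
    conj_trivial, smul_apply, ContinuousLinearMap.comp_apply, ContinuousLinearMap.id_apply,
    smul_eq_mul, nsmul_eq_mul]
  field_simp
  push_cast
  ring

theorem Data.rigid_deriv (D : Data Ω M μ ν)
    (h : ∀ (j : Fin 3) (x : M), 1 / (4 * π) * ∫ y : M, kk ν x y * ν y j ∂μ = 1 / 6 * ν x j)
    (j : Fin 3) {w : E3} (hw : w ∈ Ω) :
    HasFDerivAt (fun w : E3 => UU μ ν j w - 4 * π / 3 * w j) (0 : E3 →L[ℝ] ℝ) w := by
  have := D.fin
  obtain ⟨r, hr, -, hf⟩ := D.Rigid_far hw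
  have hm : ∀ v : E3, AEStronglyMeasurable (fun y : M => ν y j / ‖v - y‖) μ := fun v =>
    ((D.Rigid_nu_cont j).measurable.div
      (continuous_const.sub continuous_subtype_val).norm.measurable).aestronglyMeasurable
  have hI : Integrable (fun y : M => ν y j • Rigid_K 0 (w - y)) μ :=
    D.Rigid_int hr j w fun y => (hf w (Metric.mem_ball_self hr) y).trans (norm_le_sr _ _)
  let L : E3 →L[ℝ] (E3 →L[ℝ] ℝ) := -(innerSL ℝ : E3 →L[ℝ] E3 →L[ℝ] ℝ)
  have hL : ∀ u v : E3, L u v = -inner ℝ u v := fun u v => rfl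
  have h1 := hasFDerivAt_integral_of_dominated_of_fderiv_le (μ := μ)
    (F := fun (v : E3) (y : M) => ν y j / ‖v - y‖)
    (F' := fun (v : E3) (y : M) => L (ν y j • Rigid_K 0 (v - y)))
    (bound := fun _ => ‖L‖ * (r ^ 2)⁻¹) (Metric.ball_mem_nhds w hr) (Eventually.of_forall hm)
    (Integrable.of_bound (hm w) r⁻¹ (ae_of_all _ fun y => by
      rw [norm_div, norm_norm, Real.norm_eq_abs, ← one_div]
      have := hf w (Metric.mem_ball_self hr) y
      have := D.Rigid_nu_le y j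
      gcongr))
    (L.integrable_comp hI).aestronglyMeasurable
    (ae_of_all _ fun y v hv => (L.le_opNorm _).trans (mul_le_mul_of_nonneg_left
      (D.Rigid_bd hr j v y ((hf v hv y).trans (norm_le_sr _ _))) (norm_nonneg _)))
    (integrable_const _)
    (ae_of_all _ fun y v hv => by
      have h0 : v - y ≠ 0 := norm_pos_iff.mp (hr.trans_le (hf v hv y))
      have h2 := (Rigid_deriv_inv h0).const_mul (ν y j)
      simp only [div_eq_mul_inv]
      refine HasFDerivAt.congr_fderiv h2 ?_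
      ext u
      simp only [hL, inner_smul_left, conj_trivial, smul_apply, neg_apply, innerSL_apply_apply,
        smul_eq_mul]
      ring)
  rw [L.integral_comp_comm hI] at h1
  have h2 := D.Rigid_G_zero h j hw
  rw [Rigid_G] at h2
  rw [h2] at h1
  have h3 := ((EuclideanSpace.proj j : E3 →L[ℝ] ℝ).hasFDerivAt (x := w)).const_mul (4 * π / 3)
  refine HasFDerivAt.congr_fderiv (h1.sub h3) ?_
  ext u
  simp only [zero_apply, sub_apply, hL, inner_neg_left, inner_smul_left,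
    EuclideanSpace.inner_single_left, conj_trivial, smul_apply, smul_eq_mul, map_one]
  simp

end Pool.Agent.H24Z.NP
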