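import Pool.Agent.H24Z.NP.Weak

set_option autoImplicit false

/-! The Newton kernel is positive definite on the surface. -/

namespace Pool.Agent.H24Z.NP

open MeasureTheory Filter Topology Set

variable {Ω M : Set E3} {μ : Measure M} {ν : M → E3}

theorem PD_gauss_int : Integrable (fun v : E3 => Real.exp (-‖v‖ ^ 2)) := by
  have h := (GaussianFourier.integrable_cexp_neg_mul_sq_norm_add (V := E3) (b := 1)
    (by simp) 0 0).norm
  refine h.congr (Eventually.of_forall fun v => ?_)
  simp only [Complex.norm_exp]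
  congr 1
  simp [← Complex.ofReal_pow]

theorem PD_gauss : ∃ c : ℝ, 0 < c ∧ ∀ w : E3,
    ∫ v : E3, Real.exp (-‖v‖ ^ 2) * Real.cos (inner ℝ w v) = c * Real.exp (-‖w‖ ^ 2 / 4) := by
  refine ⟨Real.pi ^ ((3 : ℝ) / 2), Real.rpow_pos_of_pos Real.pi_pos _, fun w => ?_⟩
  have h1 := GaussianFourier.integral_cexp_neg_mul_sq_norm_add (V := E3) (b := 1)
    (by simp) Complex.I w
  have h2 := GaussianFourier.integrable_cexp_neg_mul_sq_norm_add (V := E3) (b := 1)
    (by simp) Complex.I w
  have h3 := integral_re h2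
  rw [h1] at h3
  have h4 : ∀ v : E3, RCLike.re (Complex.exp (-1 * (‖v‖ : ℂ) ^ 2 + Complex.I * (inner ℝ w v : ℝ)))
      = Real.exp (-‖v‖ ^ 2) * Real.cos (inner ℝ w v) := by
    intro v
    rw [RCLike.re_to_complex, Complex.exp_re]
    simp [← Complex.ofReal_pow]
  simp only [h4] at h3
  rw [h3]
  have h5 : ((Real.pi : ℂ) / 1) ^ ((Module.finrank ℝ E3 : ℂ) / 2) *
      Complex.exp (Complex.I ^ 2 * (‖w‖ : ℂ) ^ 2 / (4 * 1)) =
      ((Real.pi ^ ((3 : ℝ) / 2) * Real.exp (-‖w‖ ^ 2 / 4) : ℝ) : ℂ) := by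
    rw [Complex.ofReal_mul, Complex.ofReal_cpow Real.pi_pos.le, Complex.ofReal_exp]
    simp
  rw [h5]
  simp only [RCLike.re_to_complex, Complex.ofReal_re]

/-- cosine transform -/
noncomputable def PD_A (μ : Measure M) (φ : M → ℝ) (v : E3) : ℝ :=
  ∫ x : M, φ x * Real.cos (inner ℝ (x : E3) v) ∂μ

/-- sine transform -/
noncomputable def PD_B (μ : Measure M) (φ : M → ℝ) (v : E3) : ℝ :=
  ∫ x : M, φ x * Real.sin (inner ℝ (x : E3) v) ∂μ

theorem PD_int [IsFiniteMeasure μ] [CompactSpace M] {φ : M → ℝ} (hφ : Continuous φ) :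
    Integrable φ μ :=
  hφ.integrable_of_hasCompactSupport (HasCompactSupport.of_compactSpace φ)

theorem PD_A_cont [IsFiniteMeasure μ] [CompactSpace M] {φ : M → ℝ} (hφ : Continuous φ) :
    Continuous (PD_A μ φ) := by
  unfold PD_A
  refine continuous_of_dominated (bound := fun x => ‖φ x‖) (fun v => ?_) (fun v => ?_)
    (PD_int hφ).norm ?_
  · exact (by fun_prop : Continuous fun x : M =>
      φ x * Real.cos (inner ℝ (x : E3) v)).aestronglyMeasurable
  · refine Eventually.of_forall fun x => ?_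
    rw [norm_mul]
    exact mul_le_of_le_one_right (norm_nonneg _) (Real.abs_cos_le_one _)
  · exact Eventually.of_forall fun x => by fun_prop

theorem PD_B_cont [IsFiniteMeasure μ] [CompactSpace M] {φ : M → ℝ} (hφ : Continuous φ) :
    Continuous (PD_B μ φ) := by
  unfold PD_B
  refine continuous_of_dominated (bound := fun x => ‖φ x‖) (fun v => ?_) (fun v => ?_)
    (PD_int hφ).norm ?_
  · exact (by fun_prop : Continuous fun x : M =>
      φ x * Real.sin (inner ℝ (x : E3) v)).aestronglyMeasurable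
  · refine Eventually.of_forall fun x => ?_
    rw [norm_mul]
    exact mul_le_of_le_one_right (norm_nonneg _) (Real.abs_sin_le_one _)
  · exact Eventually.of_forall fun x => by fun_prop

theorem PD_sq [IsFiniteMeasure μ] [CompactSpace M] {φ : M → ℝ} (hφ : Continuous φ) (v : E3) :
    ∫ p : M × M, φ p.1 * φ p.2 * Real.cos (inner ℝ ((p.1 : E3) - p.2) v) ∂(μ.prod μ) =
      PD_A μ φ v ^ 2 + PD_B μ φ v ^ 2 := by
  have hA : Integrable (fun x : M => φ x * Real.cos (inner ℝ (x : E3) v)) μ :=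
    PD_int (by fun_prop)
  have hB : Integrable (fun x : M => φ x * Real.sin (inner ℝ (x : E3) v)) μ :=
    PD_int (by fun_prop)
  have h : ∀ p : M × M, φ p.1 * φ p.2 * Real.cos (inner ℝ ((p.1 : E3) - p.2) v) =
      (φ p.1 * Real.cos (inner ℝ (p.1 : E3) v)) * (φ p.2 * Real.cos (inner ℝ (p.2 : E3) v)) +
      (φ p.1 * Real.sin (inner ℝ (p.1 : E3) v)) * (φ p.2 * Real.sin (inner ℝ (p.2 : E3) v)) := by
    intro p
    rw [inner_sub_left, Real.cos_sub]
    ring
  simp only [h]
  rw [integral_add (hA.mul_prod hA) (hB.mul_prod hB),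
    integral_prod_mul (fun x : M => φ x * Real.cos (inner ℝ (x : E3) v))
      (fun x : M => φ x * Real.cos (inner ℝ (x : E3) v)),
    integral_prod_mul (fun x : M => φ x * Real.sin (inner ℝ (x : E3) v))
      (fun x : M => φ x * Real.sin (inner ℝ (x : E3) v))]
  simp only [PD_A, PD_B, sq]

/-- the Gaussian quadratic form -/
noncomputable def PD_G (μ : Measure M) (φ : M → ℝ) (s : ℝ) : ℝ :=
  ∫ p : M × M, φ p.1 * φ p.2 * Real.exp (-‖(p.1 : E3) - p.2‖ ^ 2 * s ^ 2) ∂(μ.prod μ)

theorem PD_G_eq [IsFiniteMeasure μ] [CompactSpace M] {φ : M → ℝ} (hφ : Continuous φ) :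
    ∃ c : ℝ, 0 < c ∧ ∀ s : ℝ,
      Integrable (fun v : E3 => Real.exp (-‖v‖ ^ 2) *
        (PD_A μ φ ((2 * s) • v) ^ 2 + PD_B μ φ ((2 * s) • v) ^ 2)) ∧
      c * PD_G μ φ s = ∫ v : E3, Real.exp (-‖v‖ ^ 2) *
        (PD_A μ φ ((2 * s) • v) ^ 2 + PD_B μ φ ((2 * s) • v) ^ 2) := by
  obtain ⟨c, hc, hg⟩ := PD_gauss
  refine ⟨c, hc, fun s => ?_⟩
  set f : M × M → E3 → ℝ := fun p v => Real.exp (-‖v‖ ^ 2) *
    (φ p.1 * φ p.2 * Real.cos (inner ℝ ((p.1 : E3) - p.2) ((2 * s) • v))) with hf
  have hφφ : Integrable (fun p : M × M => φ p.1 * φ p.2) (μ.prod μ) :=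
    (PD_int hφ).mul_prod (PD_int hφ)
  have hint : Integrable (Function.uncurry f) ((μ.prod μ).prod volume) := by
    refine (hφφ.mul_prod PD_gauss_int).norm.mono' ?_ (Eventually.of_forall fun q => ?_)
    · exact (by
        simp only [hf]
        fun_prop : Continuous (Function.uncurry f)).aestronglyMeasurable
    · simp only [hf, Function.uncurry, norm_mul]
      have h1 : ‖Real.cos (inner ℝ ((q.1.1 : E3) - q.1.2) ((2 * s) • q.2))‖ ≤ 1 :=
        Real.abs_cos_le_one _
      have h2 : 0 ≤ ‖φ q.1.1‖ * ‖φ q.1.2‖ * ‖Real.exp (-‖q.2‖ ^ 2)‖ := by positivity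
      nlinarith [mul_le_mul_of_nonneg_left h1 h2]
  have hsw := integral_integral_swap hint
  have hr : ∀ v : E3, ∫ p, f p v ∂(μ.prod μ) = Real.exp (-‖v‖ ^ 2) *
      (PD_A μ φ ((2 * s) • v) ^ 2 + PD_B μ φ ((2 * s) • v) ^ 2) := by
    intro v
    simp only [hf]
    rw [integral_const_mul, PD_sq hφ]
  have hl : ∀ p : M × M, ∫ v, f p v =
      c * (φ p.1 * φ p.2 * Real.exp (-‖(p.1 : E3) - p.2‖ ^ 2 * s ^ 2)) := by
    intro p
    have h1 : ∀ v : E3, f p v = φ p.1 * φ p.2 * (Real.exp (-‖v‖ ^ 2) *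
        Real.cos (inner ℝ ((2 * s) • ((p.1 : E3) - p.2)) v)) := by
      intro v
      simp only [hf, inner_smul_left, inner_smul_right, conj_trivial]
      ring
    simp only [h1]
    rw [integral_const_mul, hg, norm_smul, mul_pow, Real.norm_eq_abs, sq_abs]
    have h2 : -((2 * s) ^ 2 * ‖(p.1 : E3) - p.2‖ ^ 2) / 4 = -‖(p.1 : E3) - p.2‖ ^ 2 * s ^ 2 := by
      ring
    rw [h2]
    ring
  constructor
  · have h := hint.integral_prod_right
    simp only [Function.uncurry, hr] at h
    exact h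
  · simp only [hr, hl] at hsw
    rw [← hsw, integral_const_mul]
    rfl

theorem PD_G_nonneg [IsFiniteMeasure μ] [CompactSpace M] {φ : M → ℝ} (hφ : Continuous φ)
    (s : ℝ) : 0 ≤ PD_G μ φ s := by
  obtain ⟨c, hc, h⟩ := PD_G_eq (μ := μ) hφ
  have h1 : 0 ≤ c * PD_G μ φ s := by
    rw [(h s).2]
    exact integral_nonneg fun v => by positivity
  exact (mul_nonneg_iff_of_pos_left hc).mp h1

theorem PD_fourier_zero [IsFiniteMeasure μ] [μ.IsOpenPosMeasure] [CompactSpace M]
    (hM : MeasurableSet M) {φ : M → ℝ} (hφ : Continuous φ)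
    (hA : ∀ v, PD_A μ φ v = 0) (hB : ∀ v, PD_B μ φ v = 0) : φ = 0 := by
  have hme : MeasurableEmbedding (Subtype.val : M → E3) := MeasurableEmbedding.subtype_coe hM
  have hp : Continuous fun x => (φ x).toNNReal := continuous_real_toNNReal.comp hφ
  have hn : Continuous fun x => (-φ x).toNNReal := continuous_real_toNNReal.comp hφ.neg
  have hfin : ∀ {g : M → NNReal}, Continuous g →
      IsFiniteMeasure (μ.withDensity fun x => (g x : ENNReal)) := by
    intro g hg
    refine isFiniteMeasure_withDensity ?_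
    have : Integrable (fun x => (g x : ℝ)) μ := PD_int (NNReal.continuous_coe.comp hg)
    have h2 := (lintegral_coe_eq_integral g this)
    rw [h2]
    exact ENNReal.ofReal_ne_top
  have := hfin hp
  have := hfin hn
  have hchar : ∀ {g : M → NNReal}, Continuous g → ∀ t : E3,
      charFun ((μ.withDensity fun x => (g x : ENNReal)).map (Subtype.val : M → E3)) t =
        ∫ x : M, ((g x : ℝ) : ℂ) * Complex.exp ((inner ℝ (x : E3) t : ℝ) * Complex.I) ∂μ := by
    intro g hg t
    rw [charFun_apply, hme.integral_map, integral_withDensity_eq_integral_smul hg.measurable]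
    refine integral_congr_ae (Eventually.of_forall fun x => ?_)
    simp only [NNReal.smul_def, Complex.real_smul]
  have hic : ∀ {g : M → ℂ}, Continuous g → Integrable g μ := fun {g} hg =>
    hg.integrable_of_hasCompactSupport (HasCompactSupport.of_compactSpace g)
  have heq : (μ.withDensity fun x => ((φ x).toNNReal : ENNReal)).map (Subtype.val : M → E3) =
      (μ.withDensity fun x => ((-φ x).toNNReal : ENNReal)).map (Subtype.val : M → E3) := by
    apply Measure.ext_of_charFun
    ext t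
    rw [hchar hp, hchar hn, ← sub_eq_zero, ← integral_sub (hic (by fun_prop)) (hic (by fun_prop))]
    have h1 : ∀ x : M, (((φ x).toNNReal : ℝ) : ℂ) *
          Complex.exp ((inner ℝ (x : E3) t : ℝ) * Complex.I) -
        (((-φ x).toNNReal : ℝ) : ℂ) * Complex.exp ((inner ℝ (x : E3) t : ℝ) * Complex.I) =
        ((φ x * Real.cos (inner ℝ (x : E3) t) : ℝ) : ℂ) +
          ((φ x * Real.sin (inner ℝ (x : E3) t) : ℝ) : ℂ) * Complex.I := by
      intro x
      have h2 : (((φ x).toNNReal : ℝ) : ℂ) - (((-φ x).toNNReal : ℝ) : ℂ) = (φ x : ℂ) := by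
        rw [← Complex.ofReal_sub]
        congr 1
        simp only [Real.coe_toNNReal']
        rcases le_total (φ x) 0 with h | h
        · rw [max_eq_right h, max_eq_left (by linarith)]; ring
        · rw [max_eq_left h, max_eq_right (by linarith)]; ring
      rw [← sub_mul, h2, Complex.exp_mul_I]
      push_cast
      ring
    simp only [h1]
    rw [integral_add (hic (by fun_prop)) (hic (by fun_prop)), integral_mul_const,
      integral_complex_ofReal, integral_complex_ofReal]
    have hA' := hA t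
    have hB' := hB t
    simp only [PD_A, PD_B] at hA' hB'
    rw [hA', hB']
    simp
  have heq2 := hme.map_injective heq
  rw [withDensity_eq_iff_of_sigmaFinite
    (hp.measurable.coe_nnreal_ennreal.aemeasurable)
    (hn.measurable.coe_nnreal_ennreal.aemeasurable)] at heq2
  have hae : φ =ᵐ[μ] 0 := by
    filter_upwards [heq2] with x hx
    have h3 : (φ x).toNNReal = (-φ x).toNNReal := ENNReal.coe_inj.mp hx
    have h4 : max (φ x) 0 = max (-φ x) 0 := by
      have := congrArg (fun r : NNReal => (r : ℝ)) h3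
      simpa only [Real.coe_toNNReal'] using this
    rcases le_total (φ x) 0 with h | h
    · rw [max_eq_right h, max_eq_left (by linarith)] at h4
      simp only [Pi.zero_apply]; linarith
    · rw [max_eq_left h, max_eq_right (by linarith)] at h4
      simpa using h4
  exact (hφ.ae_eq_iff_eq μ continuous_const).mp hae

theorem PD_G_zero [IsFiniteMeasure μ] [μ.IsOpenPosMeasure] [CompactSpace M]
    (hM : MeasurableSet M) {φ : M → ℝ} (hφ : Continuous φ) {s : ℝ} (hs : 0 < s)
    (h0 : PD_G μ φ s = 0) : φ = 0 := by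
  obtain ⟨c, hc, h⟩ := PD_G_eq (μ := μ) hφ
  obtain ⟨hi, he⟩ := h s
  rw [h0, mul_zero] at he
  have hAc := PD_A_cont (μ := μ) hφ
  have hBc := PD_B_cont (μ := μ) hφ
  have hz := (integral_eq_zero_iff_of_nonneg (fun v => by positivity) hi).mp he.symm
  have hcont : Continuous fun v : E3 => Real.exp (-‖v‖ ^ 2) *
      (PD_A μ φ ((2 * s) • v) ^ 2 + PD_B μ φ ((2 * s) • v) ^ 2) := by fun_prop
  have hz2 := (hcont.ae_eq_iff_eq volume continuous_const).mp hz
  have key : ∀ w : E3, PD_A μ φ w ^ 2 + PD_B μ φ w ^ 2 = 0 := by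
    intro w
    have h1 := congrFun hz2 ((2 * s)⁻¹ • w)
    simp only [smul_smul] at h1
    rw [mul_inv_cancel₀ (by positivity), one_smul] at h1
    exact (mul_eq_zero.mp h1).resolve_left (Real.exp_pos _).ne'
  refine PD_fourier_zero (μ := μ) hM hφ (fun v => ?_) (fun v => ?_)
  · nlinarith [key v, sq_nonneg (PD_A μ φ v), sq_nonneg (PD_B μ φ v)]
  · nlinarith [key v, sq_nonneg (PD_A μ φ v), sq_nonneg (PD_B μ φ v)]

theorem PD_radial (r : ℝ) (hr : 0 ≤ r) :
    ∫ s in Ioi (0 : ℝ), Real.exp (-r ^ 2 * s ^ 2) = Real.sqrt Real.pi / 2 * r⁻¹ := by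
  rw [integral_gaussian_Ioi, Real.sqrt_div Real.pi_pos.le, Real.sqrt_sq hr]
  ring

theorem Data.PD_newton (D : Data Ω M μ ν) (φ : M → ℝ) (hφ : Continuous φ) :
    IntegrableOn (PD_G μ φ) (Ioi 0) ∧
      Real.sqrt Real.pi / 2 * ∫ x : M, φ x * ∫ y : M, ‖(x : E3) - y‖⁻¹ * φ y ∂μ ∂μ =
        ∫ s in Ioi (0 : ℝ), PD_G μ φ s := by
  have := D.fin
  have : CompactSpace M := isCompact_iff_compactSpace.mp D.cp
  set f : M × M → ℝ → ℝ := fun p s =>
    φ p.1 * φ p.2 * Real.exp (-‖(p.1 : E3) - p.2‖ ^ 2 * s ^ 2) with hf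
  obtain ⟨C, hC⟩ : ∃ C : ℝ, ∀ x, ‖φ x‖ ≤ C := by
    obtain ⟨C, hC⟩ := (isCompact_range hφ).isBounded.exists_norm_le
    exact ⟨C, fun x => hC _ ⟨x, rfl⟩⟩
  have hw : Integrable (fun p : M × M => φ p.1 * φ p.2 * ‖(p.1 : E3) - p.2‖⁻¹) (μ.prod μ) := by
    refine D.ws_prod.bdd_mul (c := C * C)
      (by fun_prop : Continuous fun p : M × M => φ p.1 * φ p.2).aestronglyMeasurable
      (Eventually.of_forall fun p => ?_)
    rw [norm_mul]
    exact mul_le_mul (hC _) (hC _) (norm_nonneg _) ((norm_nonneg _).trans (hC p.1))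
  have hne : ∀ᵐ p : M × M ∂(μ.prod μ), (p.2 : E3) ≠ p.1 := by
    have hms : MeasurableSet {p : M × M | (p.2 : E3) ≠ p.1} := by
      refine (isClosed_eq ?_ ?_).measurableSet.compl <;> fun_prop
    exact (Measure.ae_prod_mem_iff_ae_ae_mem hms).mpr
      (Eventually.of_forall fun x => D.ae_ne x)
  have hin : ∀ p : M × M, ∫ s in Ioi (0 : ℝ), f p s =
      Real.sqrt Real.pi / 2 * (φ p.1 * φ p.2 * ‖(p.1 : E3) - p.2‖⁻¹) := by
    intro p
    simp only [hf]
    rw [integral_const_mul, PD_radial _ (norm_nonneg _)]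
    ring
  have hint : Integrable (Function.uncurry f) ((μ.prod μ).prod (volume.restrict (Ioi 0))) := by
    rw [integrable_prod_iff (by
        simp only [hf]
        exact (by fun_prop : Continuous _).aestronglyMeasurable)]
    constructor
    · filter_upwards [hne] with p hp
      simp only [Function.uncurry, hf]
      have hpos : 0 < ‖(p.1 : E3) - p.2‖ ^ 2 := by
        have : 0 < ‖(p.1 : E3) - p.2‖ := norm_pos_iff.mpr (sub_ne_zero.mpr hp.symm)
        positivity
      exact ((integrable_exp_neg_mul_sq hpos).const_mul _).integrableOn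
    · refine ((hw.norm).const_mul (Real.sqrt Real.pi / 2)).congr
        (Eventually.of_forall fun p => ?_)
      simp only [Function.uncurry, hf, norm_mul, Real.norm_eq_abs, Real.abs_exp]
      rw [integral_const_mul, PD_radial _ (norm_nonneg _), abs_inv, abs_norm]
      ring
  have hsw := integral_integral_swap hint
  constructor
  · exact hint.integral_prod_right
  · simp only [hin] at hsw
    rw [integral_const_mul, integral_prod _ hw] at hsw
    rw [show (∫ s in Ioi (0 : ℝ), PD_G μ φ s) = ∫ s in Ioi (0 : ℝ), ∫ p, f p s ∂(μ.prod μ) from rfl,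
      ← hsw]
    congr 1
    refine integral_congr_ae (Eventually.of_forall fun x => ?_)
    simp only
    rw [← integral_const_mul]
    refine integral_congr_ae (Eventually.of_forall fun y => ?_)
    simp only
    ring

theorem Data.newton_psd (D : Data Ω M μ ν) (φ : M → ℝ) (hφ : Continuous φ) :
    0 ≤ ∫ x : M, φ x * ∫ y : M, ‖(x : E3) - y‖⁻¹ * φ y ∂μ ∂μ := by
  have := D.fin
  have : CompactSpace M := isCompact_iff_compactSpace.mp D.cp
  have h := (D.PD_newton φ hφ).2
  have h1 : 0 ≤ ∫ s in Ioi (0 : ℝ), PD_G μ φ s := integral_nonneg fun s => PD_G_nonneg hφ s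
  rw [← h] at h1
  have h2 : 0 < Real.sqrt Real.pi / 2 := by
    have := Real.sqrt_pos.mpr Real.pi_pos
    positivity
  exact (mul_nonneg_iff_of_pos_left h2).mp h1

theorem Data.newton_pd (D : Data Ω M μ ν) (φ : M → ℝ) (hφ : Continuous φ)
    (h : ∫ x : M, φ x * ∫ y : M, ‖(x : E3) - y‖⁻¹ * φ y ∂μ ∂μ = 0) : φ = 0 := by
  have := D.fin
  have := D.pos
  have : CompactSpace M := isCompact_iff_compactSpace.mp D.cp
  obtain ⟨hi, he⟩ := D.PD_newton φ hφ
  rw [h, mul_zero] at he
  have hz := (integral_eq_zero_iff_of_nonneg (fun s => PD_G_nonneg hφ s) hi).mp he.symm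
  have hz2 : ∀ᵐ s ∂(volume.restrict (Ioi (0 : ℝ))), 0 < s ∧ PD_G μ φ s = 0 := by
    filter_upwards [hz, ae_restrict_mem measurableSet_Ioi] with s h1 h2
    exact ⟨h2, h1⟩
  have : (ae (volume.restrict (Ioi (0 : ℝ)))).NeBot := by
    rw [ae_neBot]
    intro h0
    have := congrArg (fun m : Measure ℝ => m univ) h0
    simp at this
  obtain ⟨s, hs, h0⟩ := hz2.exists
  exact PD_G_zero D.cp.isClosed.measurableSet hφ hs h0

end Pool.Agent.H24Z.NP
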