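import Pool.Agent.H24Z.NP.GreenB
import Pool.Agent.H24Z.NP.PD

set_option autoImplicit false

/-! From the constant Hessian to a radial normal. -/

namespace Pool.Agent.H24Z.NP

open MeasureTheory Filter Topology Set Real

variable {Ω M : Set E3} {μ : Measure M} {ν : M → E3}

theorem Data.const_of_deriv (D : Data Ω M μ ν) [PreconnectedSpace M] (F : E3 → ℝ)
    (hF : Continuous F) (h : ∀ w ∈ Ω, HasFDerivAt F (0 : E3 →L[ℝ] ℝ) w) :
    ∃ b : ℝ, ∀ y : M, F y = b := by
  have hloc : IsLocallyConstant (fun y : M => F y) := by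
    rw [IsLocallyConstant.iff_eventually_eq]
    intro p
    obtain ⟨e, δ, hδ, hb, hseg⟩ := D.collar p
    have key : ∀ y : M, ‖(y : E3) - p‖ < δ → F y = F ((p : E3) - e) := by
      intro y hy
      have h1 : F ((y : E3) - e) = F ((p : E3) - e) := by
        refine Metric.isOpen_ball.is_const_of_fderiv_eq_zero (𝕜 := ℝ)
          (convex_ball ((p : E3) - e) δ).isPreconnected
          (fun w hw => (h w (hb hw)).differentiableAt.differentiableWithinAt)
          (fun w hw => (h w (hb hw)).fderiv) ?_ (Metric.mem_ball_self hδ)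
        rw [mem_ball_iff_norm]
        simpa using hy
      have h2 : ∀ t ∈ Ioo (0 : ℝ) 1, HasDerivAt (fun t : ℝ => F ((y : E3) - t • e)) 0 t := by
        intro t ht
        have h3 : HasDerivAt (fun t : ℝ => (y : E3) - t • e) (-e) t := by
          simpa using ((hasDerivAt_id t).smul_const e).const_sub (y : E3)
        exact (h _ (hseg y hy t ht.1 ht.2.le)).comp_hasDerivAt t h3
      obtain ⟨c, -, hc⟩ := exists_hasDerivAt_eq_slope (fun t : ℝ => F ((y : E3) - t • e))
        (fun _ => 0) zero_lt_one (Continuous.continuousOn (by fun_prop)) h2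
      simp only [one_smul, zero_smul, sub_zero, div_one] at hc
      linarith
    have hp : F p = F ((p : E3) - e) := key p (by simpa using hδ)
    have hop : IsOpen {y : M | ‖(y : E3) - p‖ < δ} := isOpen_lt (by fun_prop) continuous_const
    filter_upwards [hop.mem_nhds (show p ∈ {y : M | ‖(y : E3) - p‖ < δ} by simpa using hδ)]
      with y hy
    rw [key y hy, hp]
  rcases isEmpty_or_nonempty M with hM | ⟨⟨p⟩⟩
  · exact ⟨0, fun y => hM.elim y⟩
  · exact ⟨F p, fun y => hloc.apply_eq_of_preconnectedSpace y p⟩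

theorem Data.radial_normal (D : Data Ω M μ ν) [PreconnectedSpace M]
    (h : ∀ (j : Fin 3), ∀ w ∈ Ω,
      HasFDerivAt (fun w : E3 => UU μ ν j w - 4 * π / 3 * w j) (0 : E3 →L[ℝ] ℝ) w) :
    ∃ c : E3, ∀ (y : M) (i j : Fin 3), ((y : E3) - c) i * ν y j = ((y : E3) - c) j * ν y i := by
  have hb : ∀ j : Fin 3, ∃ b : ℝ, ∀ y : M, UU μ ν j y - 4 * π / 3 * (y : E3) j = b := fun j =>
    D.const_of_deriv _ ((D.UU_cont j).sub (by fun_prop)) (h j)
  choose b hb using hb
  let c : E3 := WithLp.toLp 2 (fun j => -(3 / (4 * π)) * b j)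
  have hU : ∀ (j : Fin 3) (y : M), UU μ ν j y = 4 * π / 3 * ((y : E3) - c) j := by
    intro j y
    have := hb j y
    have hc : c j = -(3 / (4 * π)) * b j := rfl
    simp only [PiLp.sub_apply]
    rw [hc, ← this]
    have := Real.pi_pos
    field_simp
    ring
  refine ⟨c, fun y i j => ?_⟩
  have hc : ∀ (x : E3) (i j : Fin 3), Continuous (fun y : M => ((y : E3) - x) i * ν y j) :=
    fun x i j => Continuous.mul (by fun_prop) (GreenB_cont_nu D j)
  have hf : Continuous (fun y : M => ((y : E3) - c) i * ν y j - ((y : E3) - c) j * ν y i) :=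
    (hc c i j).sub (hc c j i)
  have hz : ∀ x : M, ∫ y : M, ‖(x : E3) - y‖⁻¹ *
      (((y : E3) - c) i * ν y j - ((y : E3) - c) j * ν y i) ∂μ = 0 := by
    intro x
    have e1 : ∀ y : M, ‖(x : E3) - y‖⁻¹ *
        (((y : E3) - c) i * ν y j - ((y : E3) - c) j * ν y i) =
        ‖(x : E3) - y‖⁻¹ * (((y : E3) - x) i * ν y j - ((y : E3) - x) j * ν y i) +
          (((x : E3) - c) i * (‖(x : E3) - y‖⁻¹ * ν y j) -
            ((x : E3) - c) j * (‖(x : E3) - y‖⁻¹ * ν y i)) := by
      intro y
      simp only [PiLp.sub_apply]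
      ring
    have i1 := GreenB_int_single D _ ((hc x i j).sub (hc x j i)) x
    have i2 := (GreenB_int_single D _ (GreenB_cont_nu D j) x).const_mul (((x : E3) - c) i)
    have i3 := (GreenB_int_single D _ (GreenB_cont_nu D i) x).const_mul (((x : E3) - c) j)
    have a1 := integral_add i1 (i2.sub i3)
    simp only [Pi.sub_apply] at a1
    simp_rw [e1]
    rw [a1, integral_sub i2 i3, D.green_curl, integral_const_mul,
      integral_const_mul, ← GreenB_UU, ← GreenB_UU, hU, hU]
    ring
  have := D.newton_pd _ hf (by simp_rw [hz]; simp)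
  exact sub_eq_zero.1 (congrFun this y)

end Pool.Agent.H24Z.NP
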