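import Pool.Agent.H24Z.NP.Abstract
import Pool.Agent.H24Z.NP.Rigid
import Pool.Agent.H24Z.NP.RigidB

set_option autoImplicit false

/-! The operators on the continuous functions of the surface and the sum rule. -/

namespace Pool.Agent.H24Z.NP

open MeasureTheory Filter Topology Set Real

variable {Ω M : Set E3} {μ : Measure M} {ν : M → E3}

lemma Data.kk_bound (D : Data Ω M μ ν) : ∃ C : ℝ, 0 ≤ C ∧ ∀ x y : M,
    |kk ν x y| ≤ C * ‖(x : E3) - y‖⁻¹ := by
  obtain ⟨C, hC⟩ := D.curv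
  refine ⟨max C 0, le_max_right _ _, fun x y => ?_⟩
  rcases (norm_nonneg ((x : E3) - y)).lt_or_eq with h | h
  · rw [kk, abs_div, abs_of_pos (pow_pos h 3), div_le_iff₀ (pow_pos h 3)]
    refine (hC x y).trans ?_
    have : max C 0 * ‖(x : E3) - y‖⁻¹ * ‖(x : E3) - y‖ ^ 3 = max C 0 * ‖(x : E3) - y‖ ^ 2 := by
      field_simp
    rw [this]
    gcongr
    exact le_max_left _ _
  · simp [kk, ← h]

lemma Data.kk_meas (D : Data Ω M μ ν) : Measurable fun p : M × M => kk ν p.1 p.2 := by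
  have := D.cont
  unfold kk
  exact Measurable.div (Continuous.measurable (by fun_prop)) (Continuous.measurable (by fun_prop))

lemma meas_inv_norm : Measurable fun p : M × M => ‖(p.1 : E3) - p.2‖⁻¹ :=
  Measurable.inv (Continuous.measurable (by fun_prop))

lemma Data.ae_offdiag (D : Data Ω M μ ν) : ∀ᵐ p : M × M ∂μ.prod μ, p.1 ≠ p.2 := by
  have := D.fin
  rw [Measure.ae_prod_iff_ae_ae (isOpen_ne_fun continuous_fst continuous_snd).measurableSet]
  exact Eventually.of_forall fun x => (D.ae_ne x).mono fun y hy h =>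
    hy (congrArg Subtype.val h).symm

lemma Data.int_prod (D : Data Ω M μ ν) [CompactSpace M] (κ : M × M → ℝ) (hm : Measurable κ) (C : ℝ)
    (hb : ∀ x y : M, x ≠ y → |κ (x, y)| ≤ C * ‖(x : E3) - y‖⁻¹) (φ ψ : C(M, ℝ)) :
    Integrable (fun p : M × M => φ p.1 * (κ p * ψ p.2)) (μ.prod μ) := by
  refine Integrable.mono' (D.ws_prod.const_mul (‖φ‖ * C * ‖ψ‖))
    (Measurable.aestronglyMeasurable ?_) (D.ae_offdiag.mono fun p hp => ?_)
  · exact (φ.continuous.measurable.comp measurable_fst).mul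
      (hm.mul (ψ.continuous.measurable.comp measurable_snd))
  · rw [norm_mul, norm_mul]
    have h1 := hb p.1 p.2 hp
    have h2 := φ.norm_coe_le_norm p.1
    have h3 := ψ.norm_coe_le_norm p.2
    calc _ ≤ ‖φ‖ * ((C * ‖(p.1 : E3) - p.2‖⁻¹) * ‖ψ‖) := by
          gcongr
          · exact (abs_nonneg _).trans h1
          · exact h1
      _ = _ := by ring

lemma Data.swap (D : Data Ω M μ ν) [CompactSpace M] (κ : M × M → ℝ) (hm : Measurable κ) (C : ℝ)
    (hb : ∀ x y : M, x ≠ y → |κ (x, y)| ≤ C * ‖(x : E3) - y‖⁻¹) (φ ψ : C(M, ℝ)) :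
    ∫ x, φ x * ∫ y, κ (x, y) * ψ y ∂μ ∂μ = ∫ y, ψ y * ∫ x, κ (x, y) * φ x ∂μ ∂μ := by
  have := D.fin
  simp_rw [← integral_const_mul]
  rw [integral_integral_swap (f := fun x y => φ x * (κ (x, y) * ψ y)) (D.int_prod κ hm C hb φ ψ)]
  congr 1; ext1 y; congr 1; ext1 x; ring

/-- the kernel of the composition of the single and double layer operators -/
noncomputable def JJ (μ : Measure M) (ν : M → E3) (p : M × M) : ℝ :=
  ∫ y : M, ‖(y : E3) - p.1‖⁻¹ * kk ν y p.2 ∂μ

lemma Data.JJ_meas (D : Data Ω M μ ν) : Measurable (JJ μ ν) := by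
  have := D.fin
  have hν := D.cont
  have h1 : Measurable fun q : (M × M) × M => ‖(q.2 : E3) - q.1.1‖⁻¹ :=
    Measurable.inv (Continuous.measurable (by fun_prop))
  have h2 : Measurable fun q : (M × M) × M => kk ν q.2 q.1.2 := by
    unfold kk
    exact Measurable.div (Continuous.measurable (by fun_prop)) (Continuous.measurable (by fun_prop))
  have h := h1.mul h2
  exact (h.stronglyMeasurable.integral_prod_right' (ν := μ)).measurable

lemma Data.JJ_bound (D : Data Ω M μ ν) : ∃ C : ℝ, ∀ x z : M, x ≠ z →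
    |JJ μ ν (x, z)| ≤ C * ‖(x : E3) - z‖⁻¹ := by
  obtain ⟨C, hC⟩ := D.surf_bound
  refine ⟨C, fun x z h => ?_⟩
  have h' : (x : E3) ≠ z := fun h0 => h (Subtype.ext h0)
  exact le_of_tendsto (D.lim_surf z h').abs
    (eventually_mem_nhdsWithin.mono fun ε hε => hC ε hε z x h')

lemma Data.comp_kernel (D : Data Ω M μ ν) [CompactSpace M] (φ : C(M, ℝ)) (x : M) :
    ∫ y : M, ‖(x : E3) - y‖⁻¹ * ∫ z : M, kk ν y z * φ z ∂μ ∂μ = ∫ z, JJ μ ν (x, z) * φ z ∂μ := by
  have := D.fin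
  obtain ⟨C, hC0, hC⟩ := D.kk_bound
  obtain ⟨C', hC'⟩ := D.ws_bound
  have hm : Measurable fun p : M × M => ‖(x : E3) - p.1‖⁻¹ * (kk ν p.1 p.2 * φ p.2) :=
    (meas_inv_norm.comp (measurable_const.prodMk measurable_fst)).mul
      (D.kk_meas.mul (φ.continuous.measurable.comp measurable_snd))
  have hb : ∀ y z : M, ‖‖(x : E3) - y‖⁻¹ * (kk ν y z * φ z)‖ ≤
      ‖(x : E3) - y‖⁻¹ * (C * ‖φ‖) * ‖(y : E3) - z‖⁻¹ := fun y z => by
    rw [norm_mul, norm_mul, norm_inv, norm_norm]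
    have h1 := hC y z
    have h3 := φ.norm_coe_le_norm z
    calc _ ≤ ‖(x : E3) - y‖⁻¹ * ((C * ‖(y : E3) - z‖⁻¹) * ‖φ‖) := by
          gcongr
          exact h1
      _ = _ := by ring
  have hi : ∀ y : M, Integrable (fun z : M => ‖(x : E3) - y‖⁻¹ * (kk ν y z * φ z)) μ := fun y =>
    Integrable.mono' ((D.ws_int y).const_mul _)
      (hm.comp (measurable_const.prodMk measurable_id)).aestronglyMeasurable
      (Eventually.of_forall (hb y))
  have hint : Integrable (fun p : M × M => ‖(x : E3) - p.1‖⁻¹ * (kk ν p.1 p.2 * φ p.2))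
      (μ.prod μ) := by
    rw [integrable_prod_iff hm.aestronglyMeasurable]
    refine ⟨Eventually.of_forall hi, ?_⟩
    refine Integrable.mono' ((D.ws_int x).mul_const (C * ‖φ‖ * C'))
      (hm.norm.stronglyMeasurable.integral_prod_right' (ν := μ)).aestronglyMeasurable
      (Eventually.of_forall fun y => ?_)
    rw [Real.norm_of_nonneg (integral_nonneg fun _ => norm_nonneg _)]
    refine (integral_mono (hi y).norm ((D.ws_int y).const_mul _) (hb y)).trans ?_
    rw [integral_const_mul, ← mul_assoc ‖(x : E3) - y‖⁻¹ (C * ‖φ‖) C']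
    gcongr
    exact hC' y
  simp_rw [← integral_const_mul]
  rw [integral_integral_swap (f := fun y z : M => ‖(x : E3) - y‖⁻¹ * (kk ν y z * φ z)) hint]
  congr 1
  ext1 z
  rw [JJ, ← integral_mul_const]
  congr 1
  ext1 y
  rw [norm_sub_rev]
  ring

theorem Data.main (D : Data Ω M μ ν) [PreconnectedSpace M] (hM : M.Nonempty) :
    (∃ t : ℝ, t ≠ 1 / 2 ∧ 1 / 6 ≤ t ∧ ∃ φ : C(M, ℝ), φ ≠ 0 ∧
      ∀ x : M, 1 / (4 * π) * ∫ y : M, kk ν x y * φ y ∂μ = t * φ x) ∧
    ((∀ t : ℝ, ∀ φ : C(M, ℝ), φ ≠ 0 →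
      (∀ x : M, 1 / (4 * π) * ∫ y : M, kk ν x y * φ y ∂μ = t * φ x) → t ≠ 1 / 2 → t ≤ 1 / 6) →
      ∃ c : E3, ∀ (y : M) (i j : Fin 3),
        ((y : E3) - c) i * ν y j = ((y : E3) - c) j * ν y i) := by
  have := D.fin
  have hcp : CompactSpace M := isCompact_iff_compactSpace.mp D.cp
  have hν := D.cont
  obtain ⟨C, hC0, hC⟩ := D.kk_bound
  obtain ⟨S, -, hS⟩ := D.exists_op (fun x y => ‖(x : E3) - y‖⁻¹)
    (fun x => (meas_inv_norm.comp (measurable_const.prodMk measurable_id)).aestronglyMeasurable) 1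
    (fun x y => by simp) (fun x y h => by
      have : ‖(x : E3) - y‖ ≠ 0 := norm_ne_zero_iff.mpr (sub_ne_zero.mpr fun h0 =>
        h (Subtype.ext h0.symm))
      exact ContinuousAt.inv₀ (by fun_prop) this)
  obtain ⟨K, hKc, hK⟩ := D.exists_op (fun x y => kk ν x y)
    (fun x => (D.kk_meas.comp (measurable_const.prodMk measurable_id)).aestronglyMeasurable) C hC
    (fun x y h => by
      have : ‖(x : E3) - y‖ ≠ 0 := norm_ne_zero_iff.mpr (sub_ne_zero.mpr fun h0 =>
        h (Subtype.ext h0.symm))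
      unfold kk
      exact ContinuousAt.div (by fun_prop) (by fun_prop) (pow_ne_zero 3 this))
  have hint : ∀ φ : C(M, ℝ), Integrable φ μ := fun φ =>
    φ.continuous.integrable_of_hasCompactSupport (HasCompactSupport.of_compactSpace _)
  let I : C(M, ℝ) →L[ℝ] ℝ := LinearMap.mkContinuous
    { toFun := fun φ => ∫ x, φ x ∂μ
      map_add' := fun φ ψ => integral_add (hint φ) (hint ψ)
      map_smul' := fun c φ => integral_const_mul c φ } (μ.real univ) (fun φ => by
        rw [mul_comm]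
        exact norm_integral_le_of_norm_le_const
          (Eventually.of_forall fun x => φ.norm_coe_le_norm x))
  set a : ℝ := 1 / (4 * π) with ha
  have ha0 : 0 < a := by positivity
  let B : C(M, ℝ) →L[ℝ] C(M, ℝ) →L[ℝ] ℝ :=
    a • (ContinuousLinearMap.compL ℝ C(M, ℝ) C(M, ℝ) ℝ I).comp
      ((ContinuousLinearMap.mul ℝ C(M, ℝ)).bilinearComp (ContinuousLinearMap.id ℝ _) S)
  have hB : ∀ φ ψ, B φ ψ = a * ∫ x : M, φ x * ∫ y : M, ‖(x : E3) - y‖⁻¹ * ψ y ∂μ ∂μ := by
    intro φ ψ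
    simp_rw [← hS]
    rfl
  let T : C(M, ℝ) →L[ℝ] C(M, ℝ) := a • K
  have hT : ∀ φ x, T φ x = a * ∫ y : M, kk ν x y * φ y ∂μ := fun φ x => by
    rw [← hK]; rfl
  have hs : ∀ φ ψ, B φ ψ = B ψ φ := fun φ ψ => by
    rw [hB, hB, D.swap (fun p => ‖(p.1 : E3) - p.2‖⁻¹) meas_inv_norm 1 (fun x y _ => by simp)]
    simp_rw [norm_sub_rev]
  have hBK : ∀ φ ψ, B ψ (T φ) = a * a * ∫ x, ψ x * ∫ z, JJ μ ν (x, z) * φ z ∂μ ∂μ := by
    intro φ ψ
    rw [hB, mul_assoc, ← integral_const_mul a (fun x => ψ x * ∫ z, JJ μ ν (x, z) * φ z ∂μ)]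
    congr 2
    ext1 x
    rw [← D.comp_kernel, mul_left_comm, ← integral_const_mul a]
    congr 2
    ext1 y
    rw [hT]
    ring
  obtain ⟨CJ, hCJ⟩ := D.JJ_bound
  have hTs : ∀ φ ψ, B (T φ) ψ = B φ (T ψ) := fun φ ψ => by
    rw [hs, hBK, hBK, D.swap _ D.JJ_meas CJ hCJ]
    congr 2
    ext1 z
    congr 1
    apply integral_congr_ae
    filter_upwards [D.ae_ne z] with x hx
    rw [JJ, JJ, D.green_sym x z fun h => hx (by rw [h])]
  let n : Fin 3 → C(M, ℝ) := fun j => ⟨fun y => ν y j, by fun_prop⟩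
  let xc : Fin 3 → C(M, ℝ) := fun j => ⟨fun y => (y : E3) j, by fun_prop⟩
  have hU : ∀ (j : Fin 3) (x : M), ∫ y : M, ‖(x : E3) - y‖⁻¹ * n j y ∂μ = UU μ ν j x := by
    intro j x
    rw [UU]
    congr 1
    ext1 y
    rw [div_eq_inv_mul]
    rfl
  have hmain := abstract_main B hs
    (fun φ => by rw [hB]; exact mul_nonneg ha0.le (D.newton_psd φ φ.continuous))
    (fun φ h => by
      rw [hB] at h
      exact ContinuousMap.coe_injective
        (D.newton_pd φ φ.continuous ((mul_eq_zero.mp h).resolve_left ha0.ne')))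
    T hTs (hKc.smul a) n (fun j φ => I (xc j * φ)) (fun j => by simp)
    (fun j φ => by
      rw [mul_sub, map_sub, mul_smul_comm, map_smul, hB]
      simp_rw [hU]
      have h1 : I (xc j * T φ) = a * ∫ z, φ z * (2 * π * (z : E3) j - UU μ ν j z) ∂μ := by
        change ∫ x, xc j x * T φ x ∂μ = _
        simp_rw [hT, mul_left_comm _ a]
        rw [integral_const_mul, D.swap _ D.kk_meas C (fun x y _ => hC x y)]
        congr 2
        ext1 z
        rw [← D.green_lin]
        congr 2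
        ext1 y
        rw [mul_comm]
        rfl
      have h2 : Integrable (fun z : M => φ z * UU μ ν j z) μ :=
        hint (φ * ⟨fun z => UU μ ν j z, (D.UU_cont j).comp continuous_subtype_val⟩)
      have h3 : ∫ z, φ z * (2 * π * (z : E3) j - UU μ ν j z) ∂μ =
          2 * π * I (xc j * φ) - ∫ z, φ z * UU μ ν j z ∂μ := by
        change _ = 2 * π * ∫ x, (xc j * φ) x ∂μ - _
        rw [← integral_const_mul, ← integral_sub ((hint (xc j * φ)).const_mul _) h2]
        congr 1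
        ext1 z
        change _ = 2 * π * ((z : E3) j * φ z) - _
        ring
      rw [h1, h3, smul_eq_mul, ha]
      field_simp
      ring)
    (volume.real Ω) (D.vol_pos hM)
    (by
      have : ∀ j, I (xc j * n j) = volume.real Ω := fun j => D.green_pos j
      simp [this])
    (by
      simp_rw [hB, hU]
      rw [← Finset.mul_sum]
      have := D.green_vol
      change a * ∑ j : Fin 3, ∫ x : M, ν x j * UU μ ν j x ∂μ = _
      rw [this, ha]
      field_simp)
  obtain ⟨⟨t, ht1, ht2, φ, hφ, hφ'⟩, h2⟩ := hmain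
  refine ⟨⟨t, ht1, ht2, φ, hφ, fun x => by rw [← hT, hφ']; rfl⟩, fun h => ?_⟩
  have h3 := h2 fun t φ hφ hφ' => h t φ hφ fun x => by rw [← hT, hφ']; rfl
  apply D.radial_normal
  intro j w hw
  refine D.rigid_deriv (fun j x => ?_) j hw
  have := hT (n j) x
  rw [h3] at this
  exact this.symm

end Pool.Agent.H24Z.NP
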