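import Pool.Agent.H24Z.NP.Abstract

set_option autoImplicit false

/-! Sums of eigenvalues of symmetrisable compact operators, and a trace averaging lemma. -/

namespace Pool.Agent.H24Z.NP

open Module

lemma SAbs_expand {X : Type*} [NormedAddCommGroup X] [NormedSpace ℝ X]
    (Q : X →L[ℝ] X →L[ℝ] ℝ) {m : ℕ} (e : Fin m → X)
    (he : ∀ i k, Q (e i) (e k) = if i = k then 1 else 0) (x y : X) (s t : Fin m → ℝ) :
    Q (x - ∑ i, s i • e i) (y - ∑ i, t i • e i) =
      Q x y - ∑ i, t i * Q x (e i) - ∑ i, s i * Q (e i) y + ∑ i, s i * t i := by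
  have h1 : Q (∑ i, s i • e i) (∑ i, t i • e i) = ∑ i, s i * t i := by
    simp only [map_sum, map_smul, ContinuousLinearMap.sum_apply, ContinuousLinearMap.smul_apply,
      smul_eq_mul, he]
    refine Finset.sum_congr rfl fun k _ => ?_
    simp [mul_comm]
  have h2 : Q x (∑ i, t i • e i) = ∑ i, t i * Q x (e i) := by
    simp only [map_sum, map_smul, smul_eq_mul]
  have h3 : Q (∑ i, s i • e i) y = ∑ i, s i * Q (e i) y := by
    simp only [map_sum, map_smul, ContinuousLinearMap.sum_apply, ContinuousLinearMap.smul_apply,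
      smul_eq_mul]
  rw [map_sub, map_sub, ContinuousLinearMap.sub_apply, ContinuousLinearMap.sub_apply, h1, h2, h3]
  ring

lemma SAbs_eig {X : Type*} [NormedAddCommGroup X] [NormedSpace ℝ X] [CompleteSpace X]
    (B : X →L[ℝ] X →L[ℝ] ℝ) (hs : ∀ x y, B x y = B y x) (hp : ∀ x, 0 ≤ B x x)
    (hd : ∀ x, B x x = 0 → x = 0)
    (T : X →L[ℝ] X) (hT : ∀ x y, B (T x) y = B x (T y)) (hc : IsCompactOperator T)
    (hA : ∀ x, B (T x) x ≤ 1 / 2 * B x x) (N : ℕ) :
    ∃ m : ℕ, m ≤ N ∧ ∃ (e : Fin m → X) (lam : Fin m → ℝ) (mu : ℝ),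
      (∀ i k, B (e i) (e k) = if i = k then 1 else 0) ∧ (∀ i, T (e i) = lam i • e i) ∧
      (∀ i, 0 < lam i) ∧ (∀ i, mu ≤ lam i) ∧ mu ≤ 1 / 2 ∧ (m = N ∨ mu = 0) ∧
      ∀ x, (∀ i, B (e i) x = 0) → B (T x) x ≤ mu * B x x := by
  induction N with
  | zero =>
    exact ⟨0, le_rfl, Fin.elim0, Fin.elim0, 1 / 2, fun i => i.elim0, fun i => i.elim0,
      fun i => i.elim0, fun i => i.elim0, le_rfl, Or.inl rfl, fun x _ => hA x⟩
  | succ N ih =>
    obtain ⟨m, hm, e, lam, mu, h1, h2, h3, h4, h5, h6, h7⟩ := ih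
    rcases h6 with h6 | h6
    swap
    · exact ⟨m, by omega, e, lam, mu, h1, h2, h3, h4, h5, Or.inr h6, h7⟩
    let Y : Submodule ℝ X :=
      { carrier := {x | ∀ i, B (e i) x = 0}
        add_mem' := fun {a b} ha hb i => by rw [map_add, ha i, hb i, add_zero]
        zero_mem' := fun i => by simp
        smul_mem' := fun c a ha i => by rw [map_smul, ha i, smul_zero] }
    have hYcl : IsClosed (Y : Set X) := by
      have : (Y : Set X) = ⋂ i, {x | B (e i) x = 0} := by
        ext x; simp only [Set.mem_iInter]; rfl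
      rw [this]
      exact isClosed_iInter fun i => isClosed_eq (B (e i)).continuous continuous_const
    have : CompleteSpace Y := hYcl.completeSpace_coe
    have hTY : ∀ x ∈ Y, T x ∈ Y := fun x hx i => by
      rw [← hT, h2, map_smul, ContinuousLinearMap.smul_apply, hx i, smul_zero]
    let T' : Y →L[ℝ] Y := (T.comp Y.subtypeL).codRestrict Y (fun x => hTY x x.2)
    let B' : Y →L[ℝ] Y →L[ℝ] ℝ := B.bilinearComp Y.subtypeL Y.subtypeL
    have hc' : IsCompactOperator T' :=
      (hc.comp_clm Y.subtypeL).codRestrict (fun x => hTY x x.2) hYcl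
    obtain ⟨nu, hnu, hnu'⟩ := rayleigh B' (fun x y => hs x y) (fun x => hp x) T'
      (fun x y => hT x y) hc'
    have hnu2 : ∀ x, (∀ i, B (e i) x = 0) → B (T x) x ≤ nu * B x x := fun x hx => hnu ⟨x, hx⟩
    by_cases h0 : nu ≤ 0
    · refine ⟨m, by omega, e, lam, 0, h1, h2, h3, fun i => (h3 i).le, by norm_num, Or.inr rfl,
        fun x hx => ?_⟩
      have := hnu2 x hx
      have := hp x
      nlinarith
    obtain ⟨v, hv⟩ := (hnu'.resolve_left h0).exists_hasEigenvector
    have hTv : T v = nu • (v : X) := congrArg Subtype.val hv.apply_eq_smul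
    have hv0 : (v : X) ≠ 0 := fun h => hv.2 (Subtype.ext h)
    have hvv : 0 < B v v := lt_of_le_of_ne (hp _) fun h => hv0 (hd _ h.symm)
    have hle : nu ≤ mu := by
      have := h7 v v.2
      rw [hTv, map_smul, ContinuousLinearMap.smul_apply, smul_eq_mul] at this
      exact le_of_mul_le_mul_right this hvv
    set w : X := (Real.sqrt (B v v))⁻¹ • (v : X) with hw
    have hww : B w w = 1 := by
      have hsq : Real.sqrt (B v v) * Real.sqrt (B v v) = B v v := Real.mul_self_sqrt hvv.le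
      have hne : Real.sqrt (B v v) ≠ 0 := (Real.sqrt_pos.mpr hvv).ne'
      simp only [hw, map_smul, ContinuousLinearMap.smul_apply, smul_eq_mul]
      field_simp
      rw [sq, hsq]
    have hew : ∀ i, B (e i) w = 0 := fun i => by
      rw [hw, map_smul, v.2 i, smul_zero]
    have hTw : T w = nu • w := by
      rw [hw, map_smul, hTv, smul_comm]
    refine ⟨m + 1, by omega, Fin.cons w e, Fin.cons nu lam, nu, ?_, ?_, ?_, ?_, hle.trans h5,
      Or.inl (by omega), fun x hx => hnu2 x fun i => hx i.succ⟩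
    · intro i k
      refine Fin.cases ?_ (fun i => ?_) i <;> refine Fin.cases ?_ (fun k => ?_) k
      · simpa using hww
      · simp only [Fin.cons_zero, Fin.cons_succ]
        rw [hs, hew, if_neg (Fin.succ_ne_zero k).symm]
      · simp only [Fin.cons_zero, Fin.cons_succ]
        rw [hew, if_neg (Fin.succ_ne_zero i)]
      · simp only [Fin.cons_succ, h1, Fin.succ_inj]
    · intro i
      refine Fin.cases ?_ (fun i => ?_) i
      · simpa using hTw
      · simpa using h2 i
    · intro i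
      refine Fin.cases ?_ (fun i => ?_) i
      · simpa using not_le.mp h0
      · simpa using h3 i
    · intro i
      refine Fin.cases ?_ (fun i => ?_) i
      · simp
      · simpa using hle.trans (h4 i)

lemma SAbs_core {X : Type*} [NormedAddCommGroup X] [NormedSpace ℝ X] [CompleteSpace X]
    (B : X →L[ℝ] X →L[ℝ] ℝ) (hs : ∀ x y, B x y = B y x) (hp : ∀ x, 0 ≤ B x x)
    (hd : ∀ x, B x x = 0 → x = 0)
    (T : X →L[ℝ] X) (hT : ∀ x y, B (T x) y = B x (T y)) (hc : IsCompactOperator T)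
    (hA : ∀ x, B (T x) x ≤ 1 / 2 * B x x)
    (hhalf : ∀ x, T x = (1 / 2 : ℝ) • x → x = 0)
    (N : ℕ) (n : Fin N → X) (l : Fin N → X → ℝ)
    (hl : ∀ j x, l j ((1 / 2 : ℝ) • x - T x) = B x (n j))
    (hD : ∀ j k, l j (n k) = if j = k then 1 else 0) :
    ∃ m : ℕ, m ≤ N ∧ ∃ (e : Fin m → X) (lam : Fin m → ℝ),
      (∀ i k, B (e i) (e k) = if i = k then 1 else 0) ∧
      (∀ i, T (e i) = lam i • e i) ∧ (∀ i, lam i ≠ 1 / 2) ∧
      (N : ℝ) / 2 - ∑ j, B (n j) (n j) ≤ ∑ i, lam i := by
  obtain ⟨m, hm, e, lam, mu, h1, h2, h3, h4, h5, h6, h7⟩ := SAbs_eig B hs hp hd T hT hc hA N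
  have hee : ∀ i, B (e i) (e i) = 1 := fun i => by rw [h1, if_pos rfl]
  have hne : ∀ i, lam i ≠ 1 / 2 := fun i h => by
    have := hhalf (e i) (by rw [h2, h])
    have h' := hee i
    rw [this] at h'
    simp at h'
  have hlt : ∀ i, lam i < 1 / 2 := fun i => by
    have := hA (e i)
    rw [h2, map_smul, ContinuousLinearMap.smul_apply, hee, smul_eq_mul] at this
    exact lt_of_le_of_ne (by linarith) (hne i)
  refine ⟨m, hm, e, lam, h1, h2, hne, ?_⟩
  have hres := (hc.hasEigenvalue_or_mem_resolventSet (μ := (1 / 2 : ℝ)) (by norm_num)).resolve_left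
    (fun h => by
      obtain ⟨x, hx⟩ := h.exists_hasEigenvector
      exact hx.2 (hhalf x hx.apply_eq_smul))
  rw [spectrum.mem_resolventSet_iff, ContinuousLinearMap.isUnit_iff_bijective] at hres
  have hsurj : ∀ y, ∃ x, (1 / 2 : ℝ) • x - T x = y := fun y => by
    obtain ⟨x, hx⟩ := hres.2 y
    exact ⟨x, by simpa [Algebra.algebraMap_eq_smul_one] using hx⟩
  choose φ hφ using fun j => hsurj (n j)
  have hb : ∀ k j, B (φ k) (n j) = if j = k then 1 else 0 := fun k j => by rw [← hl, hφ, hD]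
  let A : X →L[ℝ] X := (1 / 2 : ℝ) • ContinuousLinearMap.id ℝ X - T
  have hAx : ∀ x, A x = (1 / 2 : ℝ) • x - T x := fun x => rfl
  have hAφ : ∀ j, A (φ j) = n j := fun j => hφ j
  have hAe : ∀ i, A (e i) = (1 / 2 - lam i) • e i := fun i => by
    rw [hAx, h2, sub_smul]
  have hAs : ∀ x y, B (A x) y = B x (A y) := fun x y => by
    simp only [hAx, map_sub, map_smul, ContinuousLinearMap.sub_apply,
      ContinuousLinearMap.smul_apply, hT]
  let d : Fin m → Fin N → ℝ := fun i j => B (φ j) (e i)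
  have hc1 : ∀ i j, B (n j) (e i) = (1 / 2 - lam i) * d i j := fun i j => by
    rw [← hAφ, hAs, hAe, map_smul, smul_eq_mul]
  -- Bessel
  have hbes : ∀ i, ∑ j, (1 / 2 - lam i) * d i j ^ 2 ≤ 1 := fun i => by
    have hai : 0 < 1 / 2 - lam i := by linarith [hlt i]
    have hQ : ∀ x, 0 ≤ (B.comp A) x x := fun x => by
      rw [ContinuousLinearMap.comp_apply, hAx]
      simp only [map_sub, map_smul, ContinuousLinearMap.sub_apply,
        ContinuousLinearMap.smul_apply, smul_eq_mul]
      linarith [hA x]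
    have h := hQ (e i - ∑ j, ((1 / 2 - lam i) * d i j) • φ j)
    rw [SAbs_expand (B.comp A) φ (fun j k => by
      rw [ContinuousLinearMap.comp_apply, hAφ, hs, hb])] at h
    simp only [ContinuousLinearMap.comp_apply, hAφ, hAe, hc1, map_smul,
      ContinuousLinearMap.smul_apply, smul_eq_mul, hee] at h
    have e1 : ∀ j, B (e i) (φ j) = d i j := fun j => hs _ _
    simp only [e1] at h
    have e2 : ∑ j, (1 / 2 - lam i) * d i j * ((1 / 2 - lam i) * d i j) =
        (1 / 2 - lam i) * ∑ j, (1 / 2 - lam i) * d i j ^ 2 := by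
      rw [Finset.mul_sum]; exact Finset.sum_congr rfl fun j _ => by ring
    rw [e2] at h
    have : (1 / 2 - lam i) * ∑ j, (1 / 2 - lam i) * d i j ^ 2 ≤ (1 / 2 - lam i) * 1 := by linarith
    exact le_of_mul_le_mul_left this hai
  have hj : ∀ j, (1 / 2 - mu) - ∑ i, (lam i - mu) * ((1 / 2 - lam i) * d i j ^ 2) ≤
      B (n j) (n j) := fun j => by
    set φ' := φ j - ∑ i, d i j • e i with hφ'
    set n' := n j - ∑ i, ((1 / 2 - lam i) * d i j) • e i with hn'
    have hAn : A φ' = n' := by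
      rw [hφ', hn', map_sub, hAφ, map_sum]
      congr 1
      refine Finset.sum_congr rfl fun i _ => ?_
      rw [map_smul, hAe, smul_smul, mul_comm]
    have hperp : ∀ i, B (e i) φ' = 0 := fun i => by
      rw [hφ', map_sub, map_sum]
      simp only [map_smul, smul_eq_mul, h1]
      rw [hs (e i) (φ j)]
      simp [d]
    have k1 : (1 / 2 - mu) * B φ' φ' ≤ B φ' n' := by
      rw [← hAn, hAx]
      simp only [map_sub, map_smul, smul_eq_mul]
      have := h7 φ' hperp
      rw [hT] at this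
      linarith
    have k2 : B n' n' = B (n j) (n j) - ∑ i, ((1 / 2 - lam i) * d i j) ^ 2 := by
      rw [hn', SAbs_expand B e h1]
      have e1 : ∀ i, B (e i) (n j) = (1 / 2 - lam i) * d i j := fun i => by rw [hs, hc1]
      simp only [hc1, e1, sq]
      ring
    have k3 : B φ' n' = 1 - ∑ i, (1 / 2 - lam i) * d i j ^ 2 := by
      rw [hφ', hn', SAbs_expand B e h1, hb, if_pos rfl]
      have e1 : ∀ i, B (e i) (n j) = (1 / 2 - lam i) * d i j := fun i => by rw [hs, hc1]
      simp only [e1]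
      have e2 : ∑ i, (1 / 2 - lam i) * d i j * B (φ j) (e i) =
          ∑ i, (1 / 2 - lam i) * d i j ^ 2 :=
        Finset.sum_congr rfl fun i _ => by simp only [d]; ring
      rw [e2]; ring
    have k4 := hp (n' - (1 / 2 - mu) • φ')
    simp only [map_sub, map_smul, ContinuousLinearMap.sub_apply, ContinuousLinearMap.smul_apply,
      smul_eq_mul] at k4
    rw [hs n' φ'] at k4
    have ha : 0 ≤ 1 / 2 - mu := by linarith
    have k5 : (1 / 2 - mu) * B φ' n' ≤ B n' n' := by
      nlinarith [mul_le_mul_of_nonneg_left k1 ha]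
    rw [k2, k3] at k5
    have e3 : ∑ i, (lam i - mu) * ((1 / 2 - lam i) * d i j ^ 2) =
        (1 / 2 - mu) * ∑ i, (1 / 2 - lam i) * d i j ^ 2 - ∑ i, ((1 / 2 - lam i) * d i j) ^ 2 := by
      rw [Finset.mul_sum, ← Finset.sum_sub_distrib]
      exact Finset.sum_congr rfl fun i _ => by ring
    rw [e3]
    linarith
  have hsum := Finset.sum_le_sum fun j (_ : j ∈ Finset.univ) => hj j
  rw [Finset.sum_sub_distrib, Finset.sum_comm] at hsum
  have hb2 : ∑ i, ∑ j, (lam i - mu) * ((1 / 2 - lam i) * d i j ^ 2) ≤ ∑ i, (lam i - mu) :=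
    Finset.sum_le_sum fun i _ => by
      rw [← Finset.mul_sum]
      have := mul_le_mul_of_nonneg_left (hbes i) (sub_nonneg.mpr (h4 i))
      linarith
  simp only [Finset.sum_const, Finset.card_univ, Fintype.card_fin, nsmul_eq_mul,
    Finset.sum_sub_distrib] at hsum hb2
  rcases h6 with h6 | h6
  · subst h6; linarith
  · subst h6; linarith

theorem abstract_sum {X : Type*} [NormedAddCommGroup X] [NormedSpace ℝ X] [CompleteSpace X]
    (B : X →L[ℝ] X →L[ℝ] ℝ) (hs : ∀ x y, B x y = B y x) (hp : ∀ x, 0 ≤ B x x)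
    (hd : ∀ x, B x x = 0 → x = 0)
    (T : X →L[ℝ] X) (hT : ∀ x y, B (T x) y = B x (T y)) (hc : IsCompactOperator T)
    (hA : ∀ x, B (T x) x ≤ 1 / 2 * B x x)
    (N : ℕ) (n : Fin N → X) (l : Fin N → X → ℝ) (hl0 : ∀ j, l j 0 = 0)
    (hl : ∀ j x, l j ((1 / 2 : ℝ) • x - T x) = B x (n j))
    (hD : ∀ j k, l j (n k) = if j = k then 1 else 0) :
    ∃ m : ℕ, m ≤ N ∧ ∃ (e : Fin m → X) (lam : Fin m → ℝ), LinearIndependent ℝ e ∧
      (∀ i, T (e i) = lam i • e i) ∧ (∀ i, lam i ≠ 1 / 2) ∧
      (N : ℝ) / 2 - ∑ j, B (n j) (n j) ≤ ∑ i, lam i := by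
  let Y : Submodule ℝ X :=
    { carrier := {x | ∀ e, T e = (1 / 2 : ℝ) • e → B e x = 0}
      add_mem' := fun {a b} ha hb e he => by rw [map_add, ha e he, hb e he, add_zero]
      zero_mem' := fun e _ => by simp
      smul_mem' := fun c a ha e he => by rw [map_smul, ha e he, smul_zero] }
  have hYcl : IsClosed (Y : Set X) := by
    have : (Y : Set X) = ⋂ e, ⋂ (_ : T e = (1 / 2 : ℝ) • e), {x | B e x = 0} := by
      ext x; simp only [Set.mem_iInter]; rfl
    rw [this]
    exact isClosed_iInter fun e => isClosed_iInter fun _ =>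
      isClosed_eq (B e).continuous continuous_const
  have : CompleteSpace Y := hYcl.completeSpace_coe
  have hTY : ∀ x ∈ Y, T x ∈ Y := fun x hx e he => by
    rw [← hT, he, map_smul, ContinuousLinearMap.smul_apply, hx e he, smul_zero]
  have hnY : ∀ j, n j ∈ Y := fun j e he => by rw [← hl, he, sub_self, hl0]
  let T' : Y →L[ℝ] Y := (T.comp Y.subtypeL).codRestrict Y (fun x => hTY x x.2)
  let B' : Y →L[ℝ] Y →L[ℝ] ℝ := B.bilinearComp Y.subtypeL Y.subtypeL
  have hc' : IsCompactOperator T' := (hc.comp_clm Y.subtypeL).codRestrict (fun x => hTY x x.2) hYcl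
  obtain ⟨m, hm, e, lam, h1, h2, h3, h4⟩ := SAbs_core B' (fun x y => hs x y) (fun x => hp x)
    (fun x hx => Subtype.ext (hd x hx)) T' (fun x y => hT x y) hc' (fun x => hA x)
    (fun x hx => Subtype.ext (hd _ (x.2 x (congrArg Subtype.val hx))))
    N (fun j => ⟨n j, hnY j⟩) (fun j x => l j x) (fun j x => hl j x) (fun j k => hD j k)
  have h1' : ∀ i k, B (e i : X) (e k : X) = if i = k then 1 else 0 := h1
  refine ⟨m, hm, fun i => e i, lam, ?_, fun i => congrArg Subtype.val (h2 i), h3, h4⟩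
  rw [Fintype.linearIndependent_iff]
  intro g hg k
  have := congrArg (fun x => B (e k : X) x) hg
  simpa [map_sum, h1'] using this

end Pool.Agent.H24Z.NP
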