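import Pool.Agent.H24Z.NP.SPoly

set_option autoImplicit false

/-! Dimension counts for harmonic and monogenic polynomials. -/

namespace Pool.Agent.H24Z.NP

open MvPolynomial Module

theorem SAlg_ev_C (c : E3) (a : ℝ) : ev c (C a) = fun _ => a := by
  funext x; simp [ev]

theorem SAlg_ev_add (c : E3) (p q : P3) : ev c (p + q) = fun x => ev c p x + ev c q x := by
  funext x; simp [ev]

theorem SAlg_ev_mulX (c : E3) (p : P3) (i : Fin 3) :
    ev c (p * X i) = fun x => ev c p x * (x i - c i) := by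
  funext x; simp [ev]

theorem SAlg_contDiff (c : E3) (p : P3) (n : WithTop ℕ∞) : ContDiff ℝ n (ev c p) := by
  induction p using MvPolynomial.induction_on with
  | C a => rw [SAlg_ev_C]; exact contDiff_const
  | add p q hp hq => rw [SAlg_ev_add]; exact hp.add hq
  | mul_X p i hp =>
    rw [SAlg_ev_mulX]
    refine hp.mul (ContDiff.sub ?_ contDiff_const)
    exact (EuclideanSpace.proj i : E3 →L[ℝ] ℝ).contDiff

theorem ev_contDiff (c : E3) (p : P3) : ContDiff ℝ 2 (ev c p) := SAlg_contDiff c p 2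

theorem ev_fderiv (c : E3) (p : P3) (x v : E3) :
    fderiv ℝ (ev c p) x v = ∑ i : Fin 3, v i * ev c (pderiv i p) x := by
  induction p using MvPolynomial.induction_on with
  | C a =>
    rw [SAlg_ev_C]
    simp [ev]
  | add p q hp hq =>
    have h1 := ((SAlg_contDiff c p 1).differentiable (by norm_num) x)
    have h2 := ((SAlg_contDiff c q 1).differentiable (by norm_num) x)
    rw [SAlg_ev_add, fderiv_fun_add h1 h2]
    simp only [add_apply, hp, hq, map_add, SAlg_ev_add, mul_add,
      Finset.sum_add_distrib]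
  | mul_X p i hp =>
    have h1 := ((SAlg_contDiff c p 1).differentiable (by norm_num) x)
    have h2 : HasFDerivAt (fun y : E3 => y i - c i)
        (EuclideanSpace.proj i : E3 →L[ℝ] ℝ) x :=
      ((EuclideanSpace.proj i : E3 →L[ℝ] ℝ).hasFDerivAt (x := x)).sub_const _
    have h3 := (h1.hasFDerivAt.mul h2).fderiv
    rw [SAlg_ev_mulX]
    have h4 : (fun x => ev c p x * (x i - c i)) = (ev c p * fun y : E3 => y i - c i) := rfl
    rw [h4, h3]
    simp only [add_apply, smul_apply, smul_eq_mul, hp]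
    have h5 : ∀ j : Fin 3, ev c (pderiv j (p * X i)) x =
        ev c (pderiv j p) x * (x i - c i) + (if i = j then ev c p x else 0) := by
      intro j
      rw [Derivation.leibniz]
      by_cases hij : i = j
      · subst hij
        simp [ev, mul_comm, add_comm]
      · simp [ev, pderiv_X, Pi.single_apply, hij, mul_comm]
    simp only [h5, mul_add, Finset.sum_add_distrib, mul_ite, mul_zero, Finset.sum_ite_eq,
      Finset.mem_univ, if_true, Finset.mul_sum]
    have h6 : (EuclideanSpace.proj i : E3 →L[ℝ] ℝ) v = v i := rfl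
    rw [h6, add_comm]
    congr 1
    · exact Finset.sum_congr rfl fun j _ => by ring
    · ring

theorem ev_eq_zero (c : E3) (p : P3) {U : Set E3} (hU : IsOpen U) (hne : U.Nonempty)
    (h : ∀ x ∈ U, ev c p x = 0) : p = 0 := by
  have ha : AnalyticOnNhd ℝ (ev c p) Set.univ :=
    (SAlg_contDiff c p ⊤).analyticOnNhd
  obtain ⟨z, hz⟩ := hne
  have h0 : ev c p =ᶠ[nhds z] 0 := by
    filter_upwards [hU.mem_nhds hz] with x hx using h x hx
  have h1 := ha.eqOn_zero_of_preconnected_of_eventuallyEq_zero isPreconnected_univ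
    (Set.mem_univ z) h0
  apply MvPolynomial.funext
  intro y
  have h2 := h1 (Set.mem_univ (WithLp.toLp 2 (fun i => y i + c i) : E3))
  simp only [ev, Pi.zero_apply] at h2
  simpa using h2

theorem SAlg_coeff_lap (p : P3) (d : Fin 3 →₀ ℕ) :
    coeff d (lapP p) = ∑ i : Fin 3, coeff (d + Finsupp.single i 1 + Finsupp.single i 1) p *
      (((d i : ℝ) + 2) * ((d i : ℝ) + 1)) := by
  unfold lapP
  rw [coeff_sum]
  refine Finset.sum_congr rfl fun i _ => ?_
  rw [coeff_pderiv, coeff_pderiv]
  simp only [Finsupp.coe_add, Pi.add_apply, Finsupp.single_eq_same]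
  push_cast
  ring

theorem SAlg_lap_add (p q : P3) : lapP (p + q) = lapP p + lapP q := by
  simp [lapP, Finset.sum_add_distrib]

theorem SAlg_lap_sub (p q : P3) : lapP (p - q) = lapP p - lapP q := by
  simp [lapP, Finset.sum_sub_distrib]

theorem SAlg_lap_smul (a : ℝ) (p : P3) : lapP (a • p) = a • lapP p := by
  simp [lapP, Finset.smul_sum]

theorem SAlg_degree (d : Fin 3 →₀ ℕ) : d.degree = d 0 + d 1 + d 2 := by
  rw [Finsupp.degree_eq_sum, Fin.sum_univ_three]

/-- the exponent `(a, b, c)` -/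
noncomputable def SAlg_mk (a b c : ℕ) : Fin 3 →₀ ℕ := Finsupp.equivFunOnFinite.symm ![a, b, c]

theorem SAlg_mk_eq (d : Fin 3 →₀ ℕ) : d = SAlg_mk (d 0) (d 1) (d 2) := by
  ext i; fin_cases i <;> simp [SAlg_mk]

theorem SAlg_mk_0 (a b c : ℕ) :
    SAlg_mk a b c + Finsupp.single 0 1 + Finsupp.single 0 1 = SAlg_mk (a + 2) b c := by
  ext i; fin_cases i <;> simp [SAlg_mk, Matrix.vecHead, Matrix.vecTail]

theorem SAlg_mk_1 (a b c : ℕ) :
    SAlg_mk a b c + Finsupp.single 1 1 + Finsupp.single 1 1 = SAlg_mk a (b + 2) c := by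
  ext i; fin_cases i <;> simp [SAlg_mk, Matrix.vecHead, Matrix.vecTail]

theorem SAlg_mk_2 (a b c : ℕ) :
    SAlg_mk a b c + Finsupp.single 2 1 + Finsupp.single 2 1 = SAlg_mk a b (c + 2) := by
  ext i; fin_cases i <;> simp [SAlg_mk, Matrix.vecHead, Matrix.vecTail]

theorem SAlg_vanish (p : P3) (hp : lapP p = 0) (h0 : ∀ a b, coeff (SAlg_mk a b 0) p = 0)
    (h1 : ∀ a b, coeff (SAlg_mk a b 1) p = 0) : p = 0 := by
  have key : ∀ c, (∀ a b, coeff (SAlg_mk a b c) p = 0) ∧
      (∀ a b, coeff (SAlg_mk a b (c + 1)) p = 0) := by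
    intro c
    induction c with
    | zero => exact ⟨h0, h1⟩
    | succ c ih =>
      refine ⟨ih.2, fun a b => ?_⟩
      have h := SAlg_coeff_lap p (SAlg_mk a b c)
      rw [hp, Fin.sum_univ_three, SAlg_mk_0, SAlg_mk_1, SAlg_mk_2, ih.1, ih.1] at h
      simp only [coeff_zero, zero_mul, zero_add] at h
      have hpos : (0 : ℝ) < (((SAlg_mk a b c) 2 : ℝ) + 2) * (((SAlg_mk a b c) 2 : ℝ) + 1) := by
        positivity
      rcases mul_eq_zero.1 h.symm with h' | h'
      · exact h'
      · exact absurd h' hpos.ne'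
  ext d
  rw [SAlg_mk_eq d, (key _).1]
  simp

/-- harmonic polynomials of degree less than `n` -/
noncomputable def SAlg_H (n : ℕ) : Submodule ℝ P3 where
  carrier := {p | (∀ d : Fin 3 →₀ ℕ, n ≤ d.degree → coeff d p = 0) ∧ lapP p = 0}
  add_mem' := by
    intro p q hp hq
    refine ⟨fun d hd => ?_, ?_⟩
    · rw [coeff_add, hp.1 d hd, hq.1 d hd, add_zero]
    · rw [SAlg_lap_add, hp.2, hq.2, add_zero]
  zero_mem' := ⟨fun d _ => coeff_zero d, by simp [lapP]⟩
  smul_mem' := by
    intro a p hp
    refine ⟨fun d hd => ?_, ?_⟩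
    · rw [coeff_smul, hp.1 d hd, smul_zero]
    · rw [SAlg_lap_smul, hp.2, smul_zero]

/-- the coefficients of order at most one in the last variable -/
noncomputable def SAlg_Phi (n : ℕ) : SAlg_H n →ₗ[ℝ] (Fin n × Fin n → ℝ) where
  toFun p := fun ij => if (ij.1 : ℕ) ≤ ij.2 then coeff (SAlg_mk ij.1 (ij.2 - ij.1) 0) (p : P3)
    else coeff (SAlg_mk ij.2 (ij.1 - ij.2 - 1) 1) (p : P3)
  map_add' p q := by
    funext ij
    by_cases h : (ij.1 : ℕ) ≤ ij.2 <;> simp [h, -Fin.val_fin_le]
  map_smul' a p := by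
    funext ij
    by_cases h : (ij.1 : ℕ) ≤ ij.2 <;> simp [h, -Fin.val_fin_le]

theorem SAlg_Phi_inj (n : ℕ) : Function.Injective (SAlg_Phi n) := by
  rw [injective_iff_map_eq_zero]
  intro p hp
  apply Subtype.ext
  apply SAlg_vanish _ p.2.2
  · intro a b
    by_cases h : a + b < n
    · have := congrFun hp (⟨a, by omega⟩, ⟨a + b, h⟩)
      simpa [SAlg_Phi, -Fin.val_fin_le] using this
    · apply p.2.1
      rw [SAlg_degree]
      simp [SAlg_mk]
      omega
  · intro a b
    by_cases h : a + b + 1 < n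
    · have := congrFun hp (⟨a + b + 1, h⟩, ⟨a, by omega⟩)
      have h3 : ¬ (a + b + 1 ≤ a) := by omega
      have h4 : a + b + 1 - a - 1 = b := by omega
      simpa [SAlg_Phi, -Fin.val_fin_le, h3, h4] using this
    · apply p.2.1
      rw [SAlg_degree]
      simp [SAlg_mk]
      omega

theorem harm_dim (n : ℕ) : ∃ H : Submodule ℝ P3, FiniteDimensional ℝ H ∧ finrank ℝ H ≤ n ^ 2 ∧
    ∀ k < n, ∀ p : P3, p.IsHomogeneous k → lapP p = 0 → p ∈ H := by
  refine ⟨SAlg_H n, Module.Finite.of_injective (SAlg_Phi n) (SAlg_Phi_inj n), ?_, ?_⟩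
  · have := LinearMap.finrank_le_finrank_of_injective (SAlg_Phi_inj n)
    simpa [sq] using this
  · intro k hk p hp hl
    exact ⟨fun d hd => hp.coeff_eq_zero (by omega), hl⟩

theorem harm_component (p : P3) (hp : lapP p = 0) (k : ℕ) :
    lapP (homogeneousComponent k p) = 0 := by
  ext d
  have h := SAlg_coeff_lap p d
  rw [hp, coeff_zero] at h
  rw [SAlg_coeff_lap, coeff_zero]
  simp only [coeff_homogeneousComponent, map_add, Finsupp.degree_single]
  by_cases hd : d.degree + 1 + 1 = k
  · simp only [hd, if_true]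
    exact h.symm
  · simp [hd]

theorem SAlg_lap_degree (p : P3) (d : ℕ) (hp : p.totalDegree ≤ d + 2) :
    (lapP p).totalDegree ≤ d := by
  rw [totalDegree, Finset.sup_le_iff]
  intro m hm
  by_contra hlt
  rw [MvPolynomial.mem_support_iff] at hm
  apply hm
  rw [SAlg_coeff_lap]
  refine Finset.sum_eq_zero fun i _ => ?_
  have h : coeff (m + Finsupp.single i 1 + Finsupp.single i 1) p = 0 := by
    by_contra hne
    have h1 := le_totalDegree (MvPolynomial.mem_support_iff.2 hne)
    have h2 : ∀ s : Fin 3 →₀ ℕ, (s.sum fun _ e => e) = s.degree := fun s => rfl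
    rw [h2] at h1 hlt
    simp only [map_add, Finsupp.degree_single] at h1
    omega
  rw [h, zero_mul]

/-- if no nonzero multiple of `u` is harmonic, every polynomial is harmonic modulo `u` -/
theorem harm_mod (u : P3) (hu : u.totalDegree ≤ 2) (hinj : ∀ q : P3, lapP (u * q) = 0 → q = 0)
    (p : P3) : ∃ q : P3, lapP (p - u * q) = 0 := by
  set d := p.totalDegree with hd
  let V := restrictTotalDegree (Fin 3) ℝ d
  let T : V →ₗ[ℝ] V :=
    { toFun := fun q => ⟨lapP (u * q), by
        rw [mem_restrictTotalDegree]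
        apply SAlg_lap_degree
        have h1 := totalDegree_mul u (q : P3)
        have h2 := (mem_restrictTotalDegree _ _ _).1 q.2
        omega⟩
      map_add' := fun q r => by
        apply Subtype.ext
        simp [mul_add, SAlg_lap_add]
      map_smul' := fun a q => by
        apply Subtype.ext
        simp [SAlg_lap_smul] }
  have hT : Function.Injective T := by
    rw [injective_iff_map_eq_zero]
    intro q hq
    apply Subtype.ext
    exact hinj _ (congrArg Subtype.val hq)
  have hS := LinearMap.injective_iff_surjective.1 hT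
  obtain ⟨q, hq⟩ := hS ⟨lapP p, by
    rw [mem_restrictTotalDegree]
    apply SAlg_lap_degree
    omega⟩
  refine ⟨q, ?_⟩
  have h : lapP (u * q) = lapP p := congrArg Subtype.val hq
  rw [SAlg_lap_sub, h, sub_self]

end Pool.Agent.H24Z.NP
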