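import Pool.Agent.H24Z.NP.SPoly

set_option autoImplicit false

/-! Dimension counts for monogenic polynomials and gradients of harmonic polynomials. -/

namespace Pool.Agent.H24Z.NP

open MvPolynomial Module

lemma SAlgB_comm (i j : Fin 3) (p : P3) : pderiv i (pderiv j p) = pderiv j (pderiv i p) := by
  ext m
  simp only [coeff_pderiv]
  rw [add_right_comm m (Finsupp.single i 1) (Finsupp.single j 1)]
  by_cases h : i = j
  · subst h; rfl
  · have h1 : (m + Finsupp.single i 1 : Fin 3 →₀ ℕ) j = m j := by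
      simp [Finsupp.single_apply, h]
    have h2 : (m + Finsupp.single j 1 : Fin 3 →₀ ℕ) i = m i := by
      simp [Finsupp.single_apply, Ne.symm h]
    rw [h1, h2]; ring

lemma SAlgB_mono_iff (f : Fin 4 → P3) : Mono f ↔
    (pderiv 0 (f 1) + pderiv 1 (f 2) + pderiv 2 (f 3) = 0) ∧
    (pderiv 0 (f 0) + pderiv 1 (f 3) - pderiv 2 (f 2) = 0) ∧
    (-pderiv 0 (f 3) + pderiv 1 (f 0) + pderiv 2 (f 1) = 0) ∧
    (pderiv 0 (f 2) - pderiv 1 (f 1) + pderiv 2 (f 0) = 0) := by
  unfold Mono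
  rw [Fin.forall_fin_succ, Fin.forall_fin_succ, Fin.forall_fin_succ, Fin.forall_fin_one]
  simp only [Fin.sum_univ_three]
  have e0 : (pderiv 0 (rq 0 f (Fin.succ 0)) + pderiv 1 (rq 0 f (Fin.succ 1))
      + pderiv 2 (rq 0 f (Fin.succ 2)) : P3) = pderiv 0 (f 1) + pderiv 1 (f 2) + pderiv 2 (f 3) := rfl
  have e1 : (pderiv 0 (rq (Fin.succ 0) f (Fin.succ 0)) + pderiv 1 (rq (Fin.succ 0) f (Fin.succ 1))
      + pderiv 2 (rq (Fin.succ 0) f (Fin.succ 2)) : P3)
      = pderiv 0 (f 0) + pderiv 1 (f 3) + pderiv 2 (-f 2) := rfl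
  have e2 : (pderiv 0 (rq (Fin.succ 0).succ f (Fin.succ 0))
      + pderiv 1 (rq (Fin.succ 0).succ f (Fin.succ 1))
      + pderiv 2 (rq (Fin.succ 0).succ f (Fin.succ 2)) : P3)
      = pderiv 0 (-f 3) + pderiv 1 (f 0) + pderiv 2 (f 1) := rfl
  have e3 : (pderiv 0 (rq (Fin.succ 0).succ.succ f (Fin.succ 0))
      + pderiv 1 (rq (Fin.succ 0).succ.succ f (Fin.succ 1))
      + pderiv 2 (rq (Fin.succ 0).succ.succ f (Fin.succ 2)) : P3)
      = pderiv 0 (f 2) + pderiv 1 (-f 1) + pderiv 2 (f 0) := rfl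
  rw [e0, e1, e2, e3]
  simp only [map_neg, sub_eq_add_neg]

/-- monomials of degree below `d` -/
def SAlgB_A (d : ℕ) : Finset (Fin 3 →₀ ℕ) :=
  (Finset.range d).biUnion fun k => Finset.finsuppAntidiag Finset.univ k

lemma SAlgB_mem_A (d : ℕ) (m : Fin 3 →₀ ℕ) : m ∈ SAlgB_A d ↔ m 0 + m 1 + m 2 < d := by
  simp only [SAlgB_A, Finset.mem_biUnion, Finset.mem_range, Finset.mem_finsuppAntidiag,
    Fin.sum_univ_three, Finset.subset_univ, and_true]
  constructor
  · rintro ⟨k, hk, h⟩; omega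
  · intro h; exact ⟨_, h, rfl⟩

lemma SAlgB_card_A (d : ℕ) :
    (SAlgB_A d).card = ∑ k ∈ Finset.range d, (k + 2).choose 2 := by
  unfold SAlgB_A
  rw [Finset.card_biUnion]
  · refine Finset.sum_congr rfl fun k _ => ?_
    rw [Finset.card_finsuppAntidiag_nat_eq_choose, Finset.card_univ, Fintype.card_fin]
    rw [show 3 + k - 1 = k + 2 by omega, Nat.choose_symm_add]
  · intro n _ n' _ hnn
    rw [Function.onFun, Finset.disjoint_left]
    intro a h2 h3
    rw [Finset.mem_finsuppAntidiag] at h2 h3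
    exact hnn (h2.1.symm.trans h3.1)

/-- polynomials of degree below `d` -/
noncomputable def SAlgB_Pl (d : ℕ) : Submodule ℝ P3 :=
  restrictSupport ℝ (SAlgB_A d : Set (Fin 3 →₀ ℕ))

lemma SAlgB_mem_Pl (d : ℕ) (p : P3) :
    p ∈ SAlgB_Pl d ↔ ∀ m : Fin 3 →₀ ℕ, d ≤ m 0 + m 1 + m 2 → coeff m p = 0 := by
  unfold SAlgB_Pl
  rw [mem_restrictSupport_iff]
  constructor
  · intro h m hm
    by_contra hne
    have := h (Finset.mem_coe.2 (mem_support_iff.2 hne))
    rw [Finset.mem_coe, SAlgB_mem_A] at this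
    omega
  · intro h m hm
    rw [Finset.mem_coe, SAlgB_mem_A]
    by_contra hlt
    exact mem_support_iff.1 (Finset.mem_coe.1 hm) (h m (by omega))

instance SAlgB_fin (d : ℕ) : Module.Finite ℝ (SAlgB_Pl d) :=
  Module.Finite.of_basis (basisRestrictSupport ℝ (SAlgB_A d : Set (Fin 3 →₀ ℕ)))

lemma SAlgB_finrank (d : ℕ) :
    finrank ℝ (SAlgB_Pl d) = ∑ k ∈ Finset.range d, (k + 2).choose 2 := by
  rw [← SAlgB_card_A]
  have := finrank_eq_card_basis (basisRestrictSupport ℝ (SAlgB_A d : Set (Fin 3 →₀ ℕ)))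
  rw [SAlgB_Pl, this]
  simp

lemma SAlgB_pderiv_mem (d : ℕ) (i : Fin 3) (p : P3) (hp : p ∈ SAlgB_Pl (d + 1)) :
    pderiv i p ∈ SAlgB_Pl d := by
  rw [SAlgB_mem_Pl] at hp ⊢
  intro m hm
  rw [coeff_pderiv, hp, zero_mul]
  fin_cases i <;> simp <;> omega

lemma SAlgB_pderiv_mem' (d : ℕ) (i : Fin 3) (p : P3) (hp : p ∈ SAlgB_Pl d) :
    pderiv i p ∈ SAlgB_Pl (d - 1) := by
  rw [SAlgB_mem_Pl] at hp ⊢
  intro m hm
  rw [coeff_pderiv, hp, zero_mul]
  fin_cases i <;> simp <;> omega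

lemma SAlgB_count (n : ℕ) : ∑ k ∈ Finset.range (n + 1), (k + 2).choose 2 =
    ∑ k ∈ Finset.range (n - 1), (k + 2).choose 2 + (n + 1) ^ 2 := by
  have h : ∀ k : ℕ, 2 * (k + 2).choose 2 = (k + 2) * (k + 1) := by
    intro k
    induction k with
    | zero => rfl
    | succ k ih =>
      rw [show k + 1 + 2 = (k + 2) + 1 by ring, Nat.choose_succ_succ', Nat.choose_one_right]
      nlinarith
  rcases n with _ | n
  · simp
  · rw [Finset.sum_range_succ, Finset.sum_range_succ, Nat.add_sub_cancel]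
    have h1 := h n
    have h2 := h (n + 1)
    nlinarith

/-- monogenic polynomials of degree below `n` -/
noncomputable def SAlgB_V (n : ℕ) : Submodule ℝ (Fin 4 → P3) where
  carrier := {f | Mono f ∧ ∀ t, f t ∈ SAlgB_Pl n}
  add_mem' := by
    rintro f g ⟨hf, hf'⟩ ⟨hg, hg'⟩
    refine ⟨?_, fun t => Submodule.add_mem _ (hf' t) (hg' t)⟩
    rw [SAlgB_mono_iff] at hf hg ⊢
    simp only [Pi.add_apply, map_add]
    obtain ⟨a1, a2, a3, a4⟩ := hf
    obtain ⟨b1, b2, b3, b4⟩ := hg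
    exact ⟨by linear_combination a1 + b1, by linear_combination a2 + b2,
      by linear_combination a3 + b3, by linear_combination a4 + b4⟩
  zero_mem' := by
    refine ⟨?_, fun t => Submodule.zero_mem _⟩
    rw [SAlgB_mono_iff]
    simp
  smul_mem' := by
    rintro c f ⟨hf, hf'⟩
    refine ⟨?_, fun t => Submodule.smul_mem _ c (hf' t)⟩
    rw [SAlgB_mono_iff] at hf ⊢
    simp only [Pi.smul_apply, Derivation.map_smul]
    simp only [smul_eq_C_mul]
    obtain ⟨a1, a2, a3, a4⟩ := hf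
    exact ⟨by linear_combination C c * a1, by linear_combination C c * a2,
      by linear_combination C c * a3, by linear_combination C c * a4⟩

/-- the monomial with exponents `a, b, 0` -/
noncomputable def SAlgB_mon (a b : ℕ) : Fin 3 →₀ ℕ := Finsupp.single 0 a + Finsupp.single 1 b

/-- Cauchy data -/
noncomputable def SAlgB_Psi (n : ℕ) :
    (Fin 4 → P3) →ₗ[ℝ] (Fin 4 × (Σ k : Fin n, Fin (k + 1)) → ℝ) :=
  LinearMap.pi fun x => (lcoeff ℝ (SAlgB_mon x.2.2 (x.2.1 - x.2.2))).comp (LinearMap.proj x.1)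

lemma SAlgB_uniq (f : Fin 4 → P3) (hf : Mono f)
    (h0 : ∀ m : Fin 3 →₀ ℕ, m 2 = 0 → ∀ t, coeff m (f t) = 0) : f = 0 := by
  rw [SAlgB_mono_iff] at hf
  obtain ⟨a1, a2, a3, a4⟩ := hf
  have key : ∀ c : ℕ, ∀ m : Fin 3 →₀ ℕ, m 2 = c → ∀ t, coeff m (f t) = 0 := by
    intro c
    induction c with
    | zero => exact h0
    | succ c ih =>
      intro m hm t
      set m' : Fin 3 →₀ ℕ := m - Finsupp.single 2 1 with hm'
      have e : m' + Finsupp.single 2 1 = m := by
        ext i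
        fin_cases i <;> simp [hm']
        omega
      have e2 : m' 2 = c := by simp [hm', hm]
      have z0 : ∀ s, coeff m' (pderiv 0 (f s)) = 0 := by
        intro s
        rw [coeff_pderiv, ih _ (by simp [e2]), zero_mul]
      have z1 : ∀ s, coeff m' (pderiv 1 (f s)) = 0 := by
        intro s
        rw [coeff_pderiv, ih _ (by simp [e2]), zero_mul]
      have z2 : coeff m' (pderiv 2 (f t)) = 0 := by
        have b1 := congrArg (coeff m') a1
        have b2 := congrArg (coeff m') a2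
        have b3 := congrArg (coeff m') a3
        have b4 := congrArg (coeff m') a4
        simp only [coeff_add, coeff_sub, coeff_neg, z0, z1, coeff_zero, zero_add, neg_zero,
          sub_zero, zero_sub, neg_eq_zero] at b1 b2 b3 b4
        fin_cases t
        · exact b4
        · exact b3
        · exact b2
        · exact b1
      rw [coeff_pderiv, e] at z2
      have : ((m' 2 : ℕ) : ℝ) + 1 ≠ 0 := by positivity
      exact (mul_eq_zero.1 z2).resolve_right this
  funext t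
  ext m
  exact key _ m rfl t

lemma SAlgB_inj (n : ℕ) : Function.Injective ((SAlgB_Psi n).comp (SAlgB_V n).subtype) := by
  rw [← LinearMap.ker_eq_bot, LinearMap.ker_eq_bot']
  rintro ⟨f, hf, hf'⟩ h
  apply Subtype.ext
  refine SAlgB_uniq f hf ?_
  intro m hm t
  by_cases hd : n ≤ m 0 + m 1 + m 2
  · exact (SAlgB_mem_Pl n _).1 (hf' t) m hd
  · have := congrFun h (t, ⟨⟨m 0 + m 1, by omega⟩, ⟨m 0, by simp only; omega⟩⟩)
    simp only [SAlgB_Psi, LinearMap.comp_apply, Submodule.subtype_apply, LinearMap.pi_apply,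
      LinearMap.proj_apply, lcoeff_apply, Pi.zero_apply] at this
    have e : SAlgB_mon (m 0) (m 0 + m 1 - m 0) = m := by
      ext i
      fin_cases i <;> simp [SAlgB_mon, hm]
    rwa [e] at this

lemma SAlgB_cardI (n : ℕ) :
    Fintype.card (Fin 4 × (Σ k : Fin n, Fin (k + 1))) = 2 * n * (n + 1) := by
  rw [Fintype.card_prod, Fintype.card_sigma, Fintype.card_fin]
  simp only [Fintype.card_fin]
  rw [Fin.sum_univ_eq_sum_range (fun k => k + 1) n]
  induction n with
  | zero => simp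
  | succ n ih => rw [Finset.sum_range_succ]; nlinarith

/-- the gradient as a pure quaternion -/
noncomputable def SAlgB_G : P3 →ₗ[ℝ] (Fin 4 → P3) :=
  LinearMap.pi ![0, (pderiv 0 : Derivation ℝ P3 P3).toLinearMap,
    (pderiv 1 : Derivation ℝ P3 P3).toLinearMap, (pderiv 2 : Derivation ℝ P3 P3).toLinearMap]

lemma SAlgB_G0 (h : P3) : SAlgB_G h 0 = 0 := rfl
lemma SAlgB_G1 (h : P3) : SAlgB_G h 1 = pderiv 0 h := rfl
lemma SAlgB_G2 (h : P3) : SAlgB_G h 2 = pderiv 1 h := rfl
lemma SAlgB_G3 (h : P3) : SAlgB_G h 3 = pderiv 2 h := rfl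

/-- the Laplacian as a linear map -/
noncomputable def SAlgB_L : P3 →ₗ[ℝ] P3 :=
  (pderiv 0 : Derivation ℝ P3 P3).toLinearMap ∘ₗ (pderiv 0 : Derivation ℝ P3 P3).toLinearMap +
  (pderiv 1 : Derivation ℝ P3 P3).toLinearMap ∘ₗ (pderiv 1 : Derivation ℝ P3 P3).toLinearMap +
  (pderiv 2 : Derivation ℝ P3 P3).toLinearMap ∘ₗ (pderiv 2 : Derivation ℝ P3 P3).toLinearMap

lemma SAlgB_L_apply (h : P3) : SAlgB_L h =
    pderiv 0 (pderiv 0 h) + pderiv 1 (pderiv 1 h) + pderiv 2 (pderiv 2 h) := rfl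

lemma SAlgB_L_mem (n : ℕ) (h : SAlgB_Pl (n + 1)) :
    (SAlgB_L ∘ₗ (SAlgB_Pl (n + 1)).subtype) h ∈ SAlgB_Pl (n - 1) := by
  rw [LinearMap.comp_apply, SAlgB_L_apply]
  have := fun i => SAlgB_pderiv_mem' n i _ (SAlgB_pderiv_mem n i _ h.2)
  exact Submodule.add_mem _ (Submodule.add_mem _ (this 0) (this 1)) (this 2)

/-- Laplacian and constant term -/
noncomputable def SAlgB_Phi (n : ℕ) : SAlgB_Pl (n + 1) →ₗ[ℝ] SAlgB_Pl (n - 1) × ℝ :=
  LinearMap.prod
    ((SAlgB_L ∘ₗ (SAlgB_Pl (n + 1)).subtype).codRestrict _ (SAlgB_L_mem n))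
    (lcoeff ℝ 0 ∘ₗ (SAlgB_Pl (n + 1)).subtype)

lemma SAlgB_ker (n : ℕ) (h : SAlgB_Pl (n + 1)) (hh : h ∈ LinearMap.ker (SAlgB_Phi n)) :
    SAlgB_L h = 0 ∧ coeff 0 (h : P3) = 0 := by
  rw [LinearMap.mem_ker] at hh
  exact ⟨congrArg (fun x => (x.1 : P3)) hh, congrArg Prod.snd hh⟩

lemma SAlgB_const (h : P3) (h0 : coeff 0 h = 0) (hd : ∀ i, pderiv i h = 0) : h = 0 := by
  ext m
  by_cases hm : m = 0
  · subst hm; exact h0
  · obtain ⟨i, hi⟩ : ∃ i, m i ≠ 0 := by
      by_contra hc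
      push Not at hc
      exact hm (Finsupp.ext hc)
    have e : (m - Finsupp.single i 1) + Finsupp.single i 1 = m := by
      ext j
      by_cases hj : i = j
      · subst hj; simp; omega
      · simp [Finsupp.single_apply, hj]
    have z := congrArg (coeff (m - Finsupp.single i 1)) (hd i)
    rw [coeff_pderiv, e, coeff_zero] at z
    have : (((m - Finsupp.single i 1 : Fin 3 →₀ ℕ) i : ℕ) : ℝ) + 1 ≠ 0 := by positivity
    exact (mul_eq_zero.1 z).resolve_right this

theorem alg_spaces (n : ℕ) : ∃ V : Submodule ℝ (Fin 4 → P3), FiniteDimensional ℝ V ∧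
    finrank ℝ V ≤ 2 * n * (n + 1) ∧ (∀ f ∈ V, Mono f) ∧ (∀ q, ∀ f ∈ V, rq q f ∈ V) ∧
    ∃ W : Submodule ℝ (Fin 4 → P3), W ≤ V ∧ n ^ 2 + 2 * n ≤ finrank ℝ W ∧
      ∀ f ∈ W, f 0 = 0 ∧ ∃ h : P3, ∀ i : Fin 3, f i.succ = pderiv i h := by
  refine ⟨SAlgB_V n, Module.Finite.of_injective _ (SAlgB_inj n), ?_, fun f hf => hf.1, ?_, ?_⟩
  · have := LinearMap.finrank_le_finrank_of_injective (SAlgB_inj n)
    rwa [finrank_fintype_fun_eq_card, SAlgB_cardI] at this
  · rintro q f ⟨hf, hf'⟩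
    rw [SAlgB_mono_iff] at hf
    obtain ⟨a1, a2, a3, a4⟩ := hf
    have hn : ∀ t, -f t ∈ SAlgB_Pl n := fun t => Submodule.neg_mem _ (hf' t)
    fin_cases q
    · exact ⟨(SAlgB_mono_iff f).2 ⟨a1, a2, a3, a4⟩, hf'⟩
    · refine ⟨(SAlgB_mono_iff ![-f 1, f 0, f 3, -f 2]).2 ?_, ?_⟩
      · simp only [Matrix.cons_val_zero, Matrix.cons_val_one, Matrix.cons_val, map_neg]
        exact ⟨by linear_combination a2, by linear_combination -a1, by linear_combination a4,
          by linear_combination -a3⟩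
      · intro t
        fin_cases t
        · exact hn 1
        · exact hf' 0
        · exact hf' 3
        · exact hn 2
    · refine ⟨(SAlgB_mono_iff ![-f 2, -f 3, f 0, f 1]).2 ?_, ?_⟩
      · simp only [Matrix.cons_val_zero, Matrix.cons_val_one, Matrix.cons_val, map_neg]
        exact ⟨by linear_combination a3, by linear_combination -a4, by linear_combination -a1,
          by linear_combination a2⟩
      · intro t
        fin_cases t
        · exact hn 2
        · exact hn 3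
        · exact hf' 0
        · exact hf' 1
    · refine ⟨(SAlgB_mono_iff ![-f 3, f 2, -f 1, f 0]).2 ?_, ?_⟩
      · simp only [Matrix.cons_val_zero, Matrix.cons_val_one, Matrix.cons_val, map_neg]
        exact ⟨by linear_combination a4, by linear_combination a3, by linear_combination -a2,
          by linear_combination -a1⟩
      · intro t
        fin_cases t
        · exact hn 3
        · exact hf' 2
        · exact hn 1
        · exact hf' 0
  · let K := LinearMap.ker (SAlgB_Phi n)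
    let g : K →ₗ[ℝ] (Fin 4 → P3) := SAlgB_G ∘ₗ (SAlgB_Pl (n + 1)).subtype ∘ₗ K.subtype
    have hg : Function.Injective g := by
      rintro ⟨h, hh⟩ ⟨h', hh'⟩ hz
      apply Subtype.ext
      apply Subtype.ext
      change (h : P3) = (h' : P3)
      rw [← sub_eq_zero]
      refine SAlgB_const _ ?_ ?_
      · rw [coeff_sub, (SAlgB_ker n h hh).2, (SAlgB_ker n h' hh').2, sub_zero]
      · intro i
        rw [map_sub, sub_eq_zero]
        fin_cases i
        · exact congrFun hz 1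
        · exact congrFun hz 2
        · exact congrFun hz 3
    refine ⟨LinearMap.range g, ?_, ?_, ?_⟩
    · rintro _ ⟨⟨h, hh⟩, rfl⟩
      have hL := (SAlgB_ker n h hh).1
      rw [SAlgB_L_apply] at hL
      change SAlgB_G h ∈ _
      refine ⟨(SAlgB_mono_iff _).2 ?_, ?_⟩
      · simp only [SAlgB_G0, SAlgB_G1, SAlgB_G2, SAlgB_G3, map_zero]
        refine ⟨hL, ?_, ?_, ?_⟩
        · rw [SAlgB_comm 1 2]; ring
        · rw [SAlgB_comm 0 2]; ring
        · rw [SAlgB_comm 0 1]; ring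
      · intro t
        fin_cases t
        · exact Submodule.zero_mem _
        · exact SAlgB_pderiv_mem n 0 _ h.2
        · exact SAlgB_pderiv_mem n 1 _ h.2
        · exact SAlgB_pderiv_mem n 2 _ h.2
    · rw [LinearMap.finrank_range_of_inj hg]
      have h1 := LinearMap.finrank_range_add_finrank_ker (SAlgB_Phi n)
      have h2 := Submodule.finrank_le (LinearMap.range (SAlgB_Phi n))
      rw [finrank_prod, finrank_self, SAlgB_finrank] at h2
      rw [SAlgB_finrank, SAlgB_count] at h1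
      have h3 : (n + 1) ^ 2 = n ^ 2 + 2 * n + 1 := by ring
      change _ ≤ finrank ℝ (LinearMap.ker (SAlgB_Phi n))
      omega
    · rintro _ ⟨⟨h, hh⟩, rfl⟩
      refine ⟨rfl, h, ?_⟩
      intro i
      fin_cases i <;> rfl

end Pool.Agent.H24Z.NP
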