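import Pool.Agent.H24Z.NP.Defs

set_option autoImplicit false

/-! Singular values, Schatten sums and the Neumann-Poincare operator on `L²`. -/

namespace Pool.Agent.H24Z.NP

open MeasureTheory
open scoped ENNReal

/-- The singular values `s_0 ≥ s_1 ≥ …` of an operator on a Hilbert space, as approximation
numbers: `s_j` is the distance in operator norm to the operators of rank at most `j`. -/
noncomputable def sv {H : Type*} [NormedAddCommGroup H] [InnerProductSpace ℝ H]
    (K : H →L[ℝ] H) (j : ℕ) : ℝ :=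
  sInf {a : ℝ | ∃ F : H →L[ℝ] H, LinearMap.rank (F : H →ₗ[ℝ] H) ≤ j ∧ a = ‖K - F‖}

/-- `∑ s_j ^ p`, the trace of `(K* K) ^ (p / 2)`. -/
noncomputable def schatten {H : Type*} [NormedAddCommGroup H] [InnerProductSpace ℝ H]
    (K : H →L[ℝ] H) (p : ℝ) : ℝ≥0∞ :=
  ∑' j : ℕ, ENNReal.ofReal (sv K j ^ p)

/-- The value on a round sphere, `∑ (2 k + 1) (1 / (2 (2 k + 1))) ^ p`. -/
noncomputable def sphereVal (p : ℝ) : ℝ≥0∞ :=
  ∑' k : ℕ, ENNReal.ofReal ((2 * k + 1) * (1 / (2 * (2 * k + 1))) ^ p)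

/-- `K` is the Neumann-Poincare operator on `L²(M, μ)` for the normal field `ν`. -/
def IsNP {M : Set E3} (μ : Measure M) (ν : M → E3) (K : Lp ℝ 2 μ →L[ℝ] Lp ℝ 2 μ) : Prop :=
  ∀ φ : Lp ℝ 2 μ, (K φ : M → ℝ) =ᵐ[μ] fun x : M =>
    1 / (4 * Real.pi) * ∫ y : M, kk ν y x * φ y ∂μ

/-- The surface measure on the zero set of `g`: two dimensional Hausdorff measure, normalised
to agree with area on planes. -/
noncomputable def surf (g : E3 → ℝ) : Measure {x | g x = 0} :=
  Measure.comap Subtype.val (μHE[2] : Measure E3)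

end Pool.Agent.H24Z.NP
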