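import Pool.Agent.H24Z.NP.SDefs

set_option autoImplicit false

/-! Short names for the real space `L²` and the Neumann-Poincare operator on it. -/

namespace Pool.Agent.H24Z.NP

open MeasureTheory
open scoped ENNReal

/-- The real Hilbert space `L²(μ)`. -/
def L2 {α : Type} [MeasurableSpace α] (μ : Measure α) : Type := Lp ℝ 2 μ

noncomputable instance L2.group {α : Type} [MeasurableSpace α] (μ : Measure α) :
    NormedAddCommGroup (L2 μ) := Lp.instNormedAddCommGroup

noncomputable instance L2.space {α : Type} [MeasurableSpace α] (μ : Measure α) :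
    InnerProductSpace ℝ (L2 μ) := MeasureTheory.L2.innerProductSpace

/-- A function representing an element of `L²(μ)`. -/
noncomputable def L2.fn {α : Type} [MeasurableSpace α] {μ : Measure α} (φ : L2 μ) : α → ℝ :=
  AEEqFun.cast (Subtype.val φ)

/-- `K` is the integral operator on `L²(μ)` with kernel `κ`. -/
def HasKernel {α : Type} [MeasurableSpace α] (μ : Measure α) (κ : α → α → ℝ)
    (K : L2 μ → L2 μ) : Prop :=
  ∀ φ : L2 μ, ∀ᵐ x ∂μ, (K φ).fn x = ∫ y, κ x y * φ.fn y ∂μ

/-- `s` is the sum of the `p`-th powers of the singular values of a bounded operator on `L²(μ)`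
with kernel `κ`. -/
def IsSchatten {α : Type} [MeasurableSpace α] (μ : Measure α) (κ : α → α → ℝ) (p : ℝ)
    (s : ℝ≥0∞) : Prop :=
  ∃ K : L2 μ →L[ℝ] L2 μ, HasKernel μ κ K ∧ schatten K p = s

/-- The kernel `⟨y - x, ν y⟩ / (4 π |x - y|³)` of the Neumann-Poincare operator. -/
noncomputable def npKernel (g : E3 → ℝ) (x y : {x | g x = 0}) : ℝ :=
  1 / (4 * Real.pi) * (inner ℝ ((y : E3) - x) (nu g y) / ‖(y : E3) - x‖ ^ 3)

end Pool.Agent.H24Z.NP
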