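import Pool.Agent.H24Z.NP.SMain
import Pool.Agent.H24Z.NP.SDefs2

set_option autoImplicit false

/-! The final form of the statement. -/

namespace Pool.Agent.H24Z.NP

open MeasureTheory

lemma hasKernel_iff (g : E3 → ℝ) (K : Lp ℝ 2 (surf g) →L[ℝ] Lp ℝ 2 (surf g)) :
    HasKernel (surf g) (npKernel g) K ↔ IsNP (surf g) (fun y => nu g y) K := by
  unfold HasKernel IsNP
  refine forall_congr' fun φ => ?_
  simp_rw [npKernel, mul_assoc, integral_const_mul]
  rfl

theorem schatten_final (g : E3 → ℝ) (h : Dom g) (hne : Set.Nonempty {x | g x = 0})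
    [PreconnectedSpace {x | g x = 0}] {p : ℝ} (hp : 2 < p) :
    (∃ s, IsSchatten (surf g) (npKernel g) p s) ∧
      ∀ s, IsSchatten (surf g) (npKernel g) p s → sphereVal p ≤ s ∧
        (s = sphereVal p ↔ ∃ c : E3, ∃ r : ℝ, 0 < r ∧ {x | g x = 0} = Metric.sphere c r) := by
  obtain ⟨⟨K, hK⟩, h2⟩ := schatten_main g h hne hp
  refine ⟨⟨_, K, (hasKernel_iff g K).mpr hK, rfl⟩, ?_⟩
  rintro s ⟨K, hK, rfl⟩
  exact h2 K ((hasKernel_iff g K).mp hK)

end Pool.Agent.H24Z.NP
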