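import Pool.Agent.H24Z.NP.Main
import Pool.Agent.H24Z.NP.SAlg

set_option autoImplicit false

/-! Green identities for harmonic polynomials and the energy inequality. -/

namespace Pool.Agent.H24Z.NP

open MeasureTheory Filter Topology Set Real MvPolynomial

variable {Ω M : Set E3} {μ : Measure M} {ν : M → E3}

theorem SGreen_cont (c : E3) (p : P3) : Continuous (ev c p) := (ev_contDiff c p).continuous

theorem SGreen_cd1 (c : E3) (p : P3) : ContDiff ℝ 1 (ev c p) :=
  (ev_contDiff c p).of_le (by norm_num)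

theorem SGreen_fd_single (c : E3) (p : P3) (w : E3) (i : Fin 3) :
    fderiv ℝ (ev c p) w (EuclideanSpace.single i 1) = ev c (pderiv i p) w := by
  rw [ev_fderiv, Finset.sum_eq_single i]
  · simp
  · intro j _ hj
    simp [hj]
  · simp

theorem SGreen_lap (c : E3) (q : P3) (hq : lapP q = 0) (w : E3) :
    ∑ i : Fin 3, ev c (pderiv i (pderiv i q)) w = 0 := by
  have h : ev c (lapP q) w = 0 := by
    rw [hq]
    simp [ev]
  rw [← h]
  simp only [ev, lapP, map_sum]

theorem SGreen_dn_cont (D : Data Ω M μ ν) (c : E3) (q : P3) : Continuous (dn ν c q) := by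
  unfold dn
  exact continuous_finsetSum _ fun i _ =>
    (GreenB_cont_nu D i).mul ((SGreen_cont c _).comp continuous_subtype_val)

theorem SGreen_div (D : Data Ω M μ ν) (a : E3 → ℝ) (ha : ContDiff ℝ 1 a) (c : E3) (q : P3)
    (hq : lapP q = 0) :
    ∫ y : M, a y * dn ν c q y ∂μ =
      ∫ w in Ω, ∑ i : Fin 3, fderiv ℝ a w (EuclideanSpace.single i 1) * ev c (pderiv i q) w := by
  have hfa : Continuous (fderiv ℝ a) := ha.continuous_fderiv (by norm_num)
  have h1 : ∀ i : Fin 3,
      ∫ w in Ω, (fderiv ℝ a w (EuclideanSpace.single i 1) * ev c (pderiv i q) w +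
        a w * ev c (pderiv i (pderiv i q)) w) =
      ∫ y : M, a y * (ν y i * ev c (pderiv i q) y) ∂μ := by
    intro i
    have h := D.div (fun w => a w * ev c (pderiv i q) w) (ha.mul (SGreen_cd1 c _))
      (EuclideanSpace.single i 1)
    simp only [GreenB_inner_single_left] at h
    convert h using 2
    · funext w
      have h2 := (ha.differentiable (by norm_num) w).hasFDerivAt.mul
        ((SGreen_cd1 c (pderiv i q)).differentiable (by norm_num) w).hasFDerivAt
      have h3 : (fun w => a w * ev c (pderiv i q) w) = a * ev c (pderiv i q) := rfl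
      rw [h3, h2.fderiv]
      simp only [ContinuousLinearMap.add_apply, ContinuousLinearMap.smul_apply, smul_eq_mul,
        SGreen_fd_single]
      ring
    · funext y
      ring
  have i1 : ∀ i : Fin 3, IntegrableOn (fun w =>
      fderiv ℝ a w (EuclideanSpace.single i 1) * ev c (pderiv i q) w +
        a w * ev c (pderiv i (pderiv i q)) w) Ω := fun i =>
    GreenA_intOn D (((hfa.clm_apply continuous_const).mul (SGreen_cont c _)).add
      (ha.continuous.mul (SGreen_cont c _)))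
  have i2 : ∀ i : Fin 3, Integrable (fun y : M => a y * (ν y i * ev c (pderiv i q) y)) μ :=
    fun i => GreenB_integrable D _ ((ha.continuous.comp continuous_subtype_val).mul
      ((GreenB_cont_nu D i).mul ((SGreen_cont c _).comp continuous_subtype_val)))
  have h2 := Finset.sum_congr (rfl : (Finset.univ : Finset (Fin 3)) = Finset.univ)
    (fun i _ => h1 i)
  rw [← integral_finsetSum _ (fun i _ => i1 i), ← integral_finsetSum _ (fun i _ => i2 i)] at h2
  simp only [dn, Finset.mul_sum]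
  rw [← h2]
  congr 1
  funext w
  rw [Finset.sum_add_distrib, ← Finset.mul_sum, SGreen_lap c q hq, mul_zero, add_zero]

theorem Data.green_harm (D : Data Ω M μ ν) (c : E3) (p : P3) (hp : lapP p = 0) (z : M) :
    ∫ y : M, ev c p y * kk ν y z ∂μ =
      2 * π * ev c p z - ∫ y : M, ‖(z : E3) - y‖⁻¹ * dn ν c p y ∂μ := by
  have hc : Continuous (fun y : M => ev c p y) := (SGreen_cont c p).comp continuous_subtype_val
  have h1 := (D.lim_cont_bdry (ev c p) (SGreen_cont c p) z).sub
    (GreenB_lim_single D (dn ν c p) (SGreen_dn_cont D c p) z)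
  have h2 : Tendsto (fun ε : ℝ => ∫ y : M, ev c p y *
      (inner ℝ ((y : E3) - z) (ν y) / sr ε ((y : E3) - z) ^ 3) ∂μ) (𝓝[>] 0)
      (𝓝 (∫ y : M, ev c p y * kk ν y z ∂μ)) := by
    obtain ⟨C, hC0, hC⟩ := GreenB_curv D
    obtain ⟨B, hB0, hB⟩ := GreenB_bdd D _ hc
    refine tendsto_integral_filter_of_dominated_convergence
      (fun y : M => B * (C * ‖(z : E3) - y‖⁻¹)) ?_ ?_ ?_ ?_
    · filter_upwards [self_mem_nhdsWithin] with ε hε
      exact (hc.mul (GreenB_cont_ker D hε z)).aestronglyMeasurable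
    · filter_upwards [self_mem_nhdsWithin] with ε hε
      filter_upwards [D.ae_ne z] with y hyz
      rw [Real.norm_eq_abs, abs_mul, norm_sub_rev (z : E3) y]
      exact mul_le_mul (hB y) (hC ε y z hyz) (abs_nonneg _) hB0
    · exact ((D.ws_int z).const_mul _).const_mul _
    · filter_upwards [D.ae_ne z] with y hyz
      exact tendsto_const_nhds.mul (GreenB_ker_tendsto y z hyz)
  have h3 := tendsto_nhds_unique_of_eventuallyEq h1 h2 (by
    filter_upwards [self_mem_nhdsWithin] with ε hε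
    have e1 := D.green_one hε (ev c p) (SGreen_cd1 c p) z
    have e2 := SGreen_div D (fun w => (sr ε (w - z))⁻¹)
      ((contDiff_inv_sr hε z).of_le (by norm_num)) c p hp
    have e3 : (∫ w in Ω, ∑ i : Fin 3, fderiv ℝ (fun w => (sr ε (w - (z : E3)))⁻¹) w
        (EuclideanSpace.single i 1) * ev c (pderiv i p) w) =
        -∫ w in Ω, fderiv ℝ (ev c p) w (w - z) / sr ε (w - z) ^ 3 := by
      rw [← integral_neg]
      congr 1
      funext w
      rw [(hasFDerivAt_inv_sr hε z w).fderiv, ev_fderiv]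
      simp only [ContinuousLinearMap.smul_apply, innerSL_apply_apply, smul_eq_mul,
        GreenB_inner_single_right, Fin.sum_univ_three]
      ring
    linarith)
  exact h3.symm

theorem Data.dirichlet (D : Data Ω M μ ν) (c : E3) (p q : P3) (hq : lapP q = 0) :
    ∫ y : M, ev c p y * dn ν c q y ∂μ =
      ∫ w in Ω, ∑ i : Fin 3, ev c (pderiv i p) w * ev c (pderiv i q) w := by
  rw [SGreen_div D (ev c p) (SGreen_cd1 c p) c q hq]
  simp only [SGreen_fd_single]

theorem Data.energy (D : Data Ω M μ ν) (φ : M → ℝ) (hφ : Continuous φ) :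
    ∫ x : M, φ x * ∫ z : M, JJ μ ν (x, z) * φ z ∂μ ∂μ ≤
      2 * π * ∫ x : M, φ x * ∫ y : M, ‖(x : E3) - y‖⁻¹ * φ y ∂μ ∂μ := by
  have := D.fin
  have := D.Rigid_vol
  have : CompactSpace M := isCompact_iff_compactSpace.1 D.cp
  obtain ⟨B, hB0, hB⟩ := GreenB_bdd D φ hφ
  obtain ⟨C1, hC1⟩ := sing_bound Ω
  obtain ⟨C2, hC2⟩ := D.surf_bound
  obtain ⟨C3, hC3⟩ := D.JJ_bound
  have hm : ∀ ε : ℝ, StronglyMeasurable
      (Function.uncurry fun (w : E3) (y : M) => φ y • Rigid_K ε (w - y)) := fun ε => by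
    have h1 : Measurable (fun p : E3 × M => φ p.2) := hφ.measurable.comp measurable_snd
    have h2 : Measurable (fun p : E3 × M => p.1 - (p.2 : E3)) :=
      (continuous_fst.sub (continuous_subtype_val.comp continuous_snd)).measurable
    have h3 : Measurable (fun p : E3 × M => Rigid_K ε (p.1 - (p.2 : E3))) :=
      (Rigid_K_meas ε).comp h2
    exact (h1.smul h3).stronglyMeasurable
  have hb : ∀ ε : ℝ, 0 < ε → ∀ (w : E3) (y : M),
      ‖φ y • Rigid_K ε (w - y)‖ ≤ B * (ε ^ 2)⁻¹ := fun ε hε w y => by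
    rw [norm_smul, Real.norm_eq_abs]
    exact mul_le_mul (hB y) (Rigid_K_le hε _ (Rigid_le_sr _ _)) (norm_nonneg _) hB0
  let F : ℝ → M × M → ℝ := fun ε p => φ p.1 * φ p.2 *
    ((∫ w in Ω, (sr ε (w - p.1))⁻¹ * rho ε (w - p.2)) -
      ∫ y : M, (sr ε ((y : E3) - p.1))⁻¹ *
        (inner ℝ ((y : E3) - p.2) (ν y) / sr ε ((y : E3) - p.2) ^ 3) ∂μ)
  have key : ∀ ε : ℝ, 0 < ε → Integrable (F ε) (μ.prod μ) ∧ 0 ≤ ∫ p, F ε p ∂(μ.prod μ) := by
    intro ε hε
    obtain ⟨q1, -, q3⟩ := Rigid_sep (volume.restrict Ω) μ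
      (fun (w : E3) (y : M) => φ y • Rigid_K ε (w - y))
      (fun (w : E3) (y : M) => φ y • Rigid_K ε (w - y)) (hm ε) (hm ε)
      (B * (ε ^ 2)⁻¹) (hb ε hε) (hb ε hε)
    have e : (fun p : M × M => ∫ w in Ω,
        inner ℝ (φ p.1 • Rigid_K ε (w - p.1)) (φ p.2 • Rigid_K ε (w - p.2))) = F ε := by
      funext p
      simp only [F]
      rw [← D.Rigid_green hε, ← integral_const_mul]
      congr 1
      funext w
      rw [inner_smul_left, inner_smul_right, conj_trivial]
      ring
    rw [e] at q1 q3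
    refine ⟨q1, ?_⟩
    rw [← q3]
    exact integral_nonneg fun w => real_inner_self_nonneg
  have hne : ∀ᵐ p : M × M ∂(μ.prod μ), (p.1 : E3) ≠ p.2 :=
    D.ae_offdiag.mono fun p hp h => hp (Subtype.ext h)
  have h1 := tendsto_integral_filter_of_dominated_convergence (μ := μ.prod μ) (l := 𝓝[>] (0 : ℝ))
    (F := F)
    (f := fun p : M × M => φ p.1 * φ p.2 * (2 * π * ‖(p.1 : E3) - p.2‖⁻¹ - JJ μ ν p))
    (fun p : M × M => B * B * (C1 + C2) * ‖(p.1 : E3) - p.2‖⁻¹)
    (eventually_mem_nhdsWithin.mono fun ε hε => (key ε hε).1.aestronglyMeasurable)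
    (eventually_mem_nhdsWithin.mono fun ε hε => hne.mono fun p hp => by
      simp only [F]
      rw [Real.norm_eq_abs, abs_mul, abs_mul]
      have h2 := hC1 ε hε p.1 p.2 hp
      have h3 := hC2 ε hε p.2 p.1 hp
      have h4 := (abs_sub _ _).trans (add_le_add h2 h3)
      calc _ ≤ B * B * (C1 * ‖(p.1 : E3) - p.2‖⁻¹ + C2 * ‖(p.1 : E3) - p.2‖⁻¹) :=
            mul_le_mul (mul_le_mul (hB _) (hB _) (abs_nonneg _) hB0) h4 (abs_nonneg _)
              (mul_nonneg hB0 hB0)
        _ = _ := by ring)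
    (D.ws_prod.const_mul _)
    (hne.mono fun p hp => ((D.lim_sing_bdry p.2 hp).sub (D.lim_surf p.2 hp)).const_mul _)
  have h2 := ge_of_tendsto h1 (eventually_mem_nhdsWithin.mono fun ε hε => (key ε hε).2)
  let ψ : C(M, ℝ) := ⟨φ, hφ⟩
  have i1 := D.int_prod (fun p : M × M => ‖(p.1 : E3) - p.2‖⁻¹) meas_inv_norm 1
    (fun x y _ => by rw [one_mul, abs_of_nonneg (by positivity)]) ψ ψ
  have i2 := D.int_prod (JJ μ ν) D.JJ_meas C3 hC3 ψ ψ
  have e : (fun p : M × M => φ p.1 * φ p.2 * (2 * π * ‖(p.1 : E3) - p.2‖⁻¹ - JJ μ ν p)) =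
      fun p : M × M => 2 * π * (ψ p.1 * (‖(p.1 : E3) - p.2‖⁻¹ * ψ p.2)) -
        ψ p.1 * (JJ μ ν p * ψ p.2) := by
    funext p
    simp only [ψ, ContinuousMap.coe_mk]
    ring
  rw [e, integral_sub (i1.const_mul _) i2, integral_const_mul, integral_prod _ i1,
    integral_prod _ i2] at h2
  simp only [integral_const_mul, ψ, ContinuousMap.coe_mk] at h2
  linarith

end Pool.Agent.H24Z.NP
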