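import Pool.Agent.H24Z.NP.Main
import Pool.Agent.H24Z.NP.SDefs

set_option autoImplicit false

/-! Weakly singular kernels are bounded on `L²` (Schur test). -/

namespace Pool.Agent.H24Z.NP

open MeasureTheory Filter Topology Set Real
open scoped ENNReal

/-- Cauchy-Schwarz with a weight -/
lemma SL2_cs {X : Type*} [MeasurableSpace X] (m : Measure X) (k f : X → ℝ≥0∞)
    (hk : AEMeasurable k m) (hf : AEMeasurable f m) :
    (∫⁻ y, k y * f y ∂m) ^ (2 : ℝ) ≤ (∫⁻ y, k y ∂m) * ∫⁻ y, k y * f y ^ (2 : ℝ) ∂m := by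
  have h := ENNReal.lintegral_mul_le_Lp_mul_Lq m Real.HolderConjugate.two_two
    (f := fun y => k y ^ (1 / 2 : ℝ)) (g := fun y => k y ^ (1 / 2 : ℝ) * f y)
    (hk.pow_const _) ((hk.pow_const _).mul hf)
  have e0 : ∀ a : ℝ≥0∞, (a ^ (1 / 2 : ℝ)) ^ (2 : ℝ) = a := fun a => by
    rw [← ENNReal.rpow_mul]; norm_num
  have e1 : ∀ y, ((fun y => k y ^ (1 / 2 : ℝ)) * fun y => k y ^ (1 / 2 : ℝ) * f y) y =
      k y * f y := fun y => by
    simp only [Pi.mul_apply]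
    rw [← mul_assoc, ← sq, ← ENNReal.rpow_two, e0]
  have e2 : ∀ y, (k y ^ (1 / 2 : ℝ) * f y) ^ (2 : ℝ) = k y * f y ^ (2 : ℝ) := fun y => by
    rw [ENNReal.mul_rpow_of_nonneg _ _ (by norm_num), e0]
  simp only [e0, e1, e2] at h
  refine (ENNReal.rpow_le_rpow h (by norm_num : (0 : ℝ) ≤ 2)).trans (le_of_eq ?_)
  rw [ENNReal.mul_rpow_of_nonneg _ _ (by norm_num), e0, e0]

/-- the Schur test -/
lemma SL2_schur {X : Type*} [MeasurableSpace X] (m : Measure X) [SFinite m] (k : X × X → ℝ≥0∞)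
    (hk : Measurable k) (A : ℝ≥0∞) (hA : A ≠ ∞) (h1 : ∀ x, ∫⁻ y, k (x, y) ∂m ≤ A)
    (h2 : ∀ y, ∫⁻ x, k (x, y) ∂m ≤ A) (f : X → ℝ≥0∞) (hf : Measurable f) :
    ∫⁻ x, (∫⁻ y, k (x, y) * f y ∂m) ^ (2 : ℝ) ∂m ≤ A ^ (2 : ℝ) * ∫⁻ y, f y ^ (2 : ℝ) ∂m := by
  have hm : Measurable fun p : X × X => k p * f p.2 ^ (2 : ℝ) :=
    hk.mul ((hf.comp measurable_snd).pow_const _)
  calc ∫⁻ x, (∫⁻ y, k (x, y) * f y ∂m) ^ (2 : ℝ) ∂m
      ≤ ∫⁻ x, A * ∫⁻ y, k (x, y) * f y ^ (2 : ℝ) ∂m ∂m := by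
        refine lintegral_mono fun x => ?_
        refine (SL2_cs m (fun y => k (x, y)) f
          (hk.comp measurable_prodMk_left).aemeasurable hf.aemeasurable).trans ?_
        gcongr
        exact h1 x
    _ = A * ∫⁻ y, ∫⁻ x, k (x, y) * f y ^ (2 : ℝ) ∂m ∂m := by
        rw [lintegral_const_mul' _ _ hA,
          lintegral_lintegral_swap (f := fun x y => k (x, y) * f y ^ (2 : ℝ)) hm.aemeasurable]
    _ ≤ A * ∫⁻ y, A * f y ^ (2 : ℝ) ∂m := by
        gcongr with y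
        rw [lintegral_mul_const (f := fun x => k (x, y)) _ (hk.comp measurable_prodMk_right)]
        gcongr
        exact h2 y
    _ = _ := by
        rw [lintegral_const_mul' _ _ hA, ← mul_assoc, ENNReal.rpow_two, sq]

lemma SL2_op {X : Type*} [MeasurableSpace X] (m : Measure X) [SFinite m] (κ : X × X → ℝ)
    (hm : Measurable κ) (A : ℝ) (hA : 0 ≤ A)
    (h1 : ∀ x, ∫⁻ y, ‖κ (x, y)‖ₑ ∂m ≤ ENNReal.ofReal A)
    (h2 : ∀ y, ∫⁻ x, ‖κ (x, y)‖ₑ ∂m ≤ ENNReal.ofReal A) :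
    ∃ K : Lp ℝ 2 m →L[ℝ] Lp ℝ 2 m, ∀ φ : Lp ℝ 2 m,
      (K φ : X → ℝ) =ᵐ[m] fun x : X => ∫ y : X, κ (x, y) * φ y ∂m := by
  have hφm : ∀ φ : Lp ℝ 2 m, Measurable (φ : X → ℝ) := fun φ =>
    (Lp.stronglyMeasurable φ).measurable
  have hpm : ∀ φ : Lp ℝ 2 m, Measurable fun p : X × X => κ p * φ p.2 := fun φ =>
    hm.mul ((hφm φ).comp measurable_snd)
  have hs : ∀ φ : Lp ℝ 2 m, ∫⁻ x, (∫⁻ y, ‖κ (x, y) * φ y‖ₑ ∂m) ^ (2 : ℝ) ∂m ≤
      ENNReal.ofReal A ^ (2 : ℝ) * ∫⁻ y, ‖φ y‖ₑ ^ (2 : ℝ) ∂m := fun φ => by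
    simp only [enorm_mul]
    exact SL2_schur m (fun p => ‖κ p‖ₑ) hm.enorm _ ENNReal.ofReal_ne_top h1 h2 _ (hφm φ).enorm
  have hn : ∀ f : X → ℝ, eLpNorm f 2 m = (∫⁻ y, ‖f y‖ₑ ^ (2 : ℝ) ∂m) ^ (1 / 2 : ℝ) := fun f => by
    rw [eLpNorm_eq_lintegral_rpow_enorm_toReal (by norm_num) (by norm_num)]
    norm_num
  have hfin : ∀ φ : Lp ℝ 2 m, ∫⁻ y, ‖φ y‖ₑ ^ (2 : ℝ) ∂m ≠ ∞ := fun φ h => by
    have := (Lp.memLp φ).2
    rw [hn, h, ENNReal.top_rpow_of_pos (by norm_num)] at this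
    exact lt_irrefl _ this
  have hint : ∀ φ : Lp ℝ 2 m, ∀ᵐ x ∂m, Integrable (fun y => κ (x, y) * φ y) m := fun φ => by
    have hme : Measurable fun x => (∫⁻ y, ‖κ (x, y) * φ y‖ₑ ∂m) ^ (2 : ℝ) :=
      ((hpm φ).enorm.lintegral_prod_right').pow_const _
    have hlt := ae_lt_top hme (ne_top_of_le_ne_top (ENNReal.mul_ne_top
      (ENNReal.rpow_ne_top_of_nonneg (by norm_num) ENNReal.ofReal_ne_top) (hfin φ)) (hs φ))
    filter_upwards [hlt] with x hx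
    refine ⟨((hpm φ).comp measurable_prodMk_left).aestronglyMeasurable, ?_⟩
    rw [HasFiniteIntegral, lt_top_iff_ne_top]
    intro h
    rw [h, ENNReal.top_rpow_of_pos (by norm_num)] at hx
    exact lt_irrefl _ hx
  have hbd : ∀ φ : Lp ℝ 2 m, eLpNorm (fun x : X => ∫ y : X, κ (x, y) * φ y ∂m) 2 m ≤
      ENNReal.ofReal A * eLpNorm φ 2 m := fun φ => by
    rw [hn, hn]
    calc _ ≤ (ENNReal.ofReal A ^ (2 : ℝ) * ∫⁻ y, ‖φ y‖ₑ ^ (2 : ℝ) ∂m) ^ (1 / 2 : ℝ) := by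
          refine ENNReal.rpow_le_rpow (le_trans (lintegral_mono fun x => ?_) (hs φ)) (by norm_num)
          exact ENNReal.rpow_le_rpow (enorm_integral_le_lintegral_enorm _) (by norm_num)
      _ = _ := by
          rw [ENNReal.mul_rpow_of_nonneg _ _ (by norm_num), ← ENNReal.rpow_mul]
          norm_num
  have hmem : ∀ φ : Lp ℝ 2 m, MemLp (fun x : X => ∫ y : X, κ (x, y) * φ y ∂m) 2 m := fun φ =>
    ⟨((hpm φ).stronglyMeasurable.integral_prod_right' (ν := m)).aestronglyMeasurable,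
      (hbd φ).trans_lt (ENNReal.mul_lt_top ENNReal.ofReal_lt_top (Lp.memLp φ).2)⟩
  let L : Lp ℝ 2 m →ₗ[ℝ] Lp ℝ 2 m :=
    { toFun := fun φ => (hmem φ).toLp _
      map_add' := fun φ ψ => by
        apply Lp.ext
        filter_upwards [(hmem (φ + ψ)).coeFn_toLp, (hmem φ).coeFn_toLp, (hmem ψ).coeFn_toLp,
          Lp.coeFn_add ((hmem φ).toLp _) ((hmem ψ).toLp _), hint φ, hint ψ] with x a b c d e f
        rw [a, d, Pi.add_apply, b, c, ← integral_add e f]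
        apply integral_congr_ae
        filter_upwards [Lp.coeFn_add φ ψ] with y hy
        rw [hy, Pi.add_apply, mul_add]
      map_smul' := fun t φ => by
        apply Lp.ext
        filter_upwards [(hmem (t • φ)).coeFn_toLp, (hmem φ).coeFn_toLp,
          Lp.coeFn_smul t ((hmem φ).toLp _)] with x a b d
        rw [RingHom.id_apply, a, d, Pi.smul_apply, b, smul_eq_mul, ← integral_const_mul]
        apply integral_congr_ae
        filter_upwards [Lp.coeFn_smul t φ] with y hy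
        rw [hy, Pi.smul_apply, smul_eq_mul]
        ring }
  have hL : ∀ φ, ‖L φ‖ ≤ A * ‖φ‖ := fun φ => by
    change ‖(hmem φ).toLp _‖ ≤ _
    rw [Lp.norm_toLp, Lp.norm_def, ← ENNReal.toReal_ofReal hA, ← ENNReal.toReal_mul]
    exact ENNReal.toReal_mono (ENNReal.mul_ne_top ENNReal.ofReal_ne_top (Lp.memLp φ).2.ne)
      (hbd φ)
  exact ⟨L.mkContinuous A hL, fun φ => (hmem φ).coeFn_toLp⟩

variable {Ω M : Set E3} {μ : Measure M} {ν : M → E3}

theorem Data.exists_L2 (D : Data Ω M μ ν) (κ : M × M → ℝ) (hm : Measurable κ) (C : ℝ)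
    (hb : ∀ x y : M, |κ (x, y)| ≤ C * ‖(x : E3) - y‖⁻¹) :
    ∃ K : Lp ℝ 2 μ →L[ℝ] Lp ℝ 2 μ, ∀ φ : Lp ℝ 2 μ,
      (K φ : M → ℝ) =ᵐ[μ] fun x : M => ∫ y : M, κ (x, y) * φ y ∂μ := by
  have := D.fin
  obtain ⟨C', hC'⟩ := D.Weak_lb
  have hb' : ∀ x y : M, ‖κ (x, y)‖ₑ ≤
      ENNReal.ofReal (max C 0) * ENNReal.ofReal ‖(x : E3) - y‖⁻¹ := fun x y => by
    rw [← ofReal_norm, ← ENNReal.ofReal_mul (le_max_right _ _)]
    refine ENNReal.ofReal_le_ofReal ((hb x y).trans ?_)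
    gcongr
    exact le_max_left _ _
  have hfin : ∀ x : M, ∫⁻ y : M, ENNReal.ofReal (max C 0) * ENNReal.ofReal ‖(x : E3) - y‖⁻¹ ∂μ ≤
      ENNReal.ofReal (max C 0 * max C' 0) := fun x => by
    rw [lintegral_const_mul' _ _ ENNReal.ofReal_ne_top, ENNReal.ofReal_mul (le_max_right _ _)]
    gcongr
    exact (hC' x).trans (ENNReal.ofReal_le_ofReal (le_max_left _ _))
  refine SL2_op μ κ hm (max C 0 * max C' 0) (by positivity) (fun x => ?_) (fun y => ?_)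
  · exact (lintegral_mono fun y => hb' x y).trans (hfin x)
  · refine (lintegral_mono fun x => ?_).trans (hfin y)
    rw [norm_sub_rev]
    exact hb' x y

theorem Data.exists_NP (D : Data Ω M μ ν) : ∃ K : Lp ℝ 2 μ →L[ℝ] Lp ℝ 2 μ, IsNP μ ν K := by
  obtain ⟨C, hC0, hC⟩ := D.kk_bound
  have hν := D.cont
  have hm0 : Measurable fun p : M × M => kk ν p.2 p.1 := by
    unfold kk
    exact Measurable.div (Continuous.measurable (by fun_prop)) (Continuous.measurable (by fun_prop))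
  have hm : Measurable fun p : M × M => 1 / (4 * π) * kk ν p.2 p.1 := hm0.const_mul _
  obtain ⟨K, hK⟩ := D.exists_L2 (fun p => 1 / (4 * π) * kk ν p.2 p.1) hm
    (1 / (4 * π) * C) (fun x y => by
      have := Real.pi_pos
      rw [abs_mul, abs_of_pos (by positivity : (0 : ℝ) < 1 / (4 * π)), mul_assoc, norm_sub_rev]
      gcongr
      exact hC y x)
  refine ⟨K, fun φ => (hK φ).trans (Eventually.of_forall fun x => ?_)⟩
  simp only
  rw [← integral_const_mul]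
  congr 1
  ext1 y
  ring

/-- continuous eigenfunctions give eigenvectors in `L²` -/
theorem IsNP.eigen [CompactSpace M] [IsFiniteMeasure μ] {K : Lp ℝ 2 μ →L[ℝ] Lp ℝ 2 μ}
    (hK : IsNP μ ν K) (ψ : C(M, ℝ)) (t : ℝ)
    (h : ∀ x : M, 1 / (4 * π) * ∫ y : M, kk ν y x * ψ y ∂μ = t * ψ x) :
    K (ContinuousMap.toLp 2 μ ℝ ψ) = t • ContinuousMap.toLp 2 μ ℝ ψ := by
  apply Lp.ext
  have h1 := ContinuousMap.coeFn_toLp (p := 2) μ (𝕜 := ℝ) ψ
  filter_upwards [hK (ContinuousMap.toLp 2 μ ℝ ψ), h1,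
    Lp.coeFn_smul t (ContinuousMap.toLp 2 μ ℝ ψ)] with x a b c
  rw [a, c, Pi.smul_apply, b, smul_eq_mul, ← h x]
  congr 1
  apply integral_congr_ae
  filter_upwards [h1] with y hy
  rw [hy]

/-- the kernel form of `K S = S K*` -/
theorem Data.plemelj (D : Data Ω M μ ν) [CompactSpace M] (φ : C(M, ℝ)) (x : M) :
    ∫ y : M, kk ν y x * ∫ z : M, ‖(y : E3) - z‖⁻¹ * φ z ∂μ ∂μ =
      ∫ y : M, ‖(x : E3) - y‖⁻¹ * ∫ z : M, kk ν y z * φ z ∂μ ∂μ := by
  have := D.fin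
  obtain ⟨C, hC0, hC⟩ := D.kk_bound
  obtain ⟨C', hC'⟩ := D.ws_bound
  have hm : Measurable fun p : M × M => kk ν p.1 x * (‖(p.1 : E3) - p.2‖⁻¹ * φ p.2) :=
    (D.kk_meas.comp (measurable_fst.prodMk measurable_const)).mul
      (meas_inv_norm.mul (φ.continuous.measurable.comp measurable_snd))
  have hb : ∀ y z : M, ‖kk ν y x * (‖(y : E3) - z‖⁻¹ * φ z)‖ ≤
      ‖(x : E3) - y‖⁻¹ * (C * ‖φ‖) * ‖(y : E3) - z‖⁻¹ := fun y z => by
    rw [norm_mul, norm_mul, norm_inv, norm_norm, norm_sub_rev (x : E3)]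
    have h1 := hC y x
    have h3 := φ.norm_coe_le_norm z
    calc _ ≤ (C * ‖(y : E3) - x‖⁻¹) * (‖(y : E3) - z‖⁻¹ * ‖φ‖) := by
          gcongr
          exact h1
      _ = _ := by ring
  have hi : ∀ y : M, Integrable (fun z : M => kk ν y x * (‖(y : E3) - z‖⁻¹ * φ z)) μ := fun y =>
    Integrable.mono' ((D.ws_int y).const_mul _)
      (hm.comp (measurable_const.prodMk measurable_id)).aestronglyMeasurable
      (Eventually.of_forall (hb y))
  have hint : Integrable (fun p : M × M => kk ν p.1 x * (‖(p.1 : E3) - p.2‖⁻¹ * φ p.2))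
      (μ.prod μ) := by
    rw [integrable_prod_iff hm.aestronglyMeasurable]
    refine ⟨Eventually.of_forall hi, ?_⟩
    refine Integrable.mono' ((D.ws_int x).mul_const (C * ‖φ‖ * C'))
      (hm.norm.stronglyMeasurable.integral_prod_right' (ν := μ)).aestronglyMeasurable
      (Eventually.of_forall fun y => ?_)
    rw [Real.norm_of_nonneg (integral_nonneg fun _ => norm_nonneg _)]
    refine (integral_mono (hi y).norm ((D.ws_int y).const_mul _) (hb y)).trans ?_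
    rw [integral_const_mul, ← mul_assoc ‖(x : E3) - y‖⁻¹ (C * ‖φ‖) C']
    gcongr
    exact hC' y
  rw [D.comp_kernel]
  simp_rw [← integral_const_mul]
  rw [integral_integral_swap (f := fun y z : M => kk ν y x * (‖(y : E3) - z‖⁻¹ * φ z)) hint]
  apply integral_congr_ae
  filter_upwards [D.ae_ne x] with z hz
  rw [JJ, D.green_sym x z fun h => hz (by rw [h]), ← integral_mul_const]
  congr 1
  ext1 y
  ring

end Pool.Agent.H24Z.NP
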