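import Pool.Agent.H24Z.NP.SDefs

set_option autoImplicit false

/-! Majorisation against the singular values of the sphere. -/

namespace Pool.Agent.H24Z.NP

open scoped ENNReal

/-- the singular value of the sphere on the `k`-th block -/
noncomputable def SMaj_t (k : ℕ) : ℝ := 1 / (2 * (2 * (k : ℝ) + 1))

theorem SMaj_t_pos (k : ℕ) : 0 < SMaj_t k := by
  unfold SMaj_t; positivity

theorem SMaj_t_mul (k : ℕ) : (2 * (k : ℝ) + 1) * SMaj_t k = 1 / 2 := by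
  unfold SMaj_t; field_simp

theorem SMaj_t_anti (k : ℕ) : SMaj_t (k + 1) ≤ SMaj_t k := by
  unfold SMaj_t
  apply one_div_le_one_div_of_le
  · positivity
  · push_cast; linarith

theorem SMaj_term_nonneg (p : ℝ) (k : ℕ) : 0 ≤ (2 * (k : ℝ) + 1) * SMaj_t k ^ p :=
  mul_nonneg (by positivity) (Real.rpow_nonneg (SMaj_t_pos k).le p)

theorem SMaj_sphereVal (p : ℝ) :
    sphereVal p = ∑' k : ℕ, ENNReal.ofReal ((2 * (k : ℝ) + 1) * SMaj_t k ^ p) := rfl

theorem SMaj_rpow_split {t : ℝ} (ht : 0 < t) (p : ℝ) : t ^ p = t ^ (p - 1) * t := by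
  rw [Real.rpow_sub_one ht.ne']; field_simp

theorem sphereVal_ne_top {p : ℝ} (hp : 2 < p) : sphereVal p ≠ ⊤ := by
  have hs : Summable (fun k : ℕ => (2 * (k : ℝ) + 1) * SMaj_t k ^ p) := by
    have h0 : Summable (fun k : ℕ => (((k + 1 : ℕ) : ℝ) ^ (p - 1))⁻¹) :=
      (summable_nat_add_iff 1).2 (Real.summable_nat_rpow_inv.2 (by linarith))
    refine Summable.of_nonneg_of_le (SMaj_term_nonneg p) (fun k => ?_) h0
    have hk : (0 : ℝ) < ((k + 1 : ℕ) : ℝ) := by positivity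
    have h1 : SMaj_t k ≤ (((k + 1 : ℕ) : ℝ))⁻¹ := by
      unfold SMaj_t
      rw [← one_div]
      apply one_div_le_one_div_of_le hk
      push_cast
      have : (0 : ℝ) ≤ k := Nat.cast_nonneg k
      linarith
    have h2 : SMaj_t k ^ (p - 1) ≤ (((k + 1 : ℕ) : ℝ) ^ (p - 1))⁻¹ := by
      rw [← Real.inv_rpow hk.le]
      exact Real.rpow_le_rpow (SMaj_t_pos k).le h1 (by linarith)
    have h3 : 0 ≤ SMaj_t k ^ (p - 1) := Real.rpow_nonneg (SMaj_t_pos k).le _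
    rw [SMaj_rpow_split (SMaj_t_pos k) p]
    have e : (2 * (k : ℝ) + 1) * (SMaj_t k ^ (p - 1) * SMaj_t k)
        = SMaj_t k ^ (p - 1) * ((2 * (k : ℝ) + 1) * SMaj_t k) := by ring
    rw [e, SMaj_t_mul]
    linarith
  rw [SMaj_sphereVal, ← ENNReal.ofReal_tsum_of_nonneg (SMaj_term_nonneg p) hs]
  exact ENNReal.ofReal_ne_top

/-- the convexity gap -/
noncomputable def SMaj_gap (p s t : ℝ) : ℝ := s ^ p - t ^ p - p * t ^ (p - 1) * (s - t)

theorem SMaj_gap_eq {p s t : ℝ} (hs : 0 ≤ s) (ht : 0 < t) :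
    SMaj_gap p s t = t ^ p * ((1 + (s / t - 1)) ^ p - (1 + p * (s / t - 1))) := by
  have e : 1 + (s / t - 1) = s / t := by ring
  have htp : 0 < t ^ p := Real.rpow_pos_of_pos ht p
  rw [e, Real.div_rpow hs ht.le, SMaj_gap, Real.rpow_sub_one ht.ne']
  field_simp
  ring

theorem SMaj_gap_nonneg {p s t : ℝ} (hp : 1 < p) (hs : 0 ≤ s) (ht : 0 < t) :
    0 ≤ SMaj_gap p s t := by
  rw [SMaj_gap_eq hs ht]
  have h1 : -1 ≤ s / t - 1 := by
    have : 0 ≤ s / t := div_nonneg hs ht.le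
    linarith
  have := one_add_mul_self_le_rpow_one_add h1 hp.le
  exact mul_nonneg (Real.rpow_pos_of_pos ht p).le (by linarith)

theorem SMaj_gap_zero {p s t : ℝ} (hp : 1 < p) (hs : 0 ≤ s) (ht : 0 < t)
    (h : SMaj_gap p s t ≤ 0) : s = t := by
  by_contra hne
  have h1 : -1 ≤ s / t - 1 := by
    have : 0 ≤ s / t := div_nonneg hs ht.le
    linarith
  have h2 : s / t - 1 ≠ 0 := by
    intro h0
    apply hne
    have : s / t = 1 := by linarith
    exact (div_eq_one_iff_eq ht.ne').1 this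
  have h3 := one_add_mul_self_lt_rpow_one_add h1 h2 hp
  have h4 : 0 < SMaj_gap p s t := by
    rw [SMaj_gap_eq hs ht]
    exact mul_pos (Real.rpow_pos_of_pos ht p) (by linarith)
  linarith

theorem SMaj_block (f : ℕ → ℝ) (n : ℕ) :
    ∑ j ∈ Finset.range ((n + 1) ^ 2), f j
      = ∑ j ∈ Finset.range (n ^ 2), f j + ∑ x ∈ Finset.range (2 * n + 1), f (n ^ 2 + x) := by
  have e : (n + 1) ^ 2 = n ^ 2 + (2 * n + 1) := by ring
  rw [e, Finset.sum_range_add]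

theorem SMaj_block_gap (s : ℕ → ℝ) (p : ℝ) (n : ℕ) :
    ∑ x ∈ Finset.range (2 * n + 1),
        (s (n ^ 2 + x) ^ p - SMaj_gap p (s (n ^ 2 + x)) (SMaj_t (Nat.sqrt (n ^ 2 + x))))
      = (2 * (n : ℝ) + 1) * SMaj_t n ^ p + p * SMaj_t n ^ (p - 1) *
        (∑ x ∈ Finset.range (2 * n + 1), s (n ^ 2 + x) - 1 / 2) := by
  have e : ∀ x ∈ Finset.range (2 * n + 1),
      (s (n ^ 2 + x) ^ p - SMaj_gap p (s (n ^ 2 + x)) (SMaj_t (Nat.sqrt (n ^ 2 + x))))
        = SMaj_t n ^ p + p * SMaj_t n ^ (p - 1) * (s (n ^ 2 + x) - SMaj_t n) := by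
    intro x hx
    have hx' : x ≤ n + n := by
      have := Finset.mem_range.1 hx
      omega
    rw [Nat.sqrt_add_eq' n hx', SMaj_gap]
    ring
  rw [Finset.sum_congr rfl e, Finset.sum_add_distrib, ← Finset.mul_sum, Finset.sum_sub_distrib]
  simp only [Finset.sum_const, Finset.card_range, nsmul_eq_mul]
  push_cast
  rw [SMaj_t_mul]

theorem SMaj_abel (s : ℕ → ℝ)
    (h : ∀ n : ℕ, ((n : ℝ) + 1) / 2 ≤ ∑ j ∈ Finset.range ((n + 1) ^ 2), s j) {p : ℝ} (hp : 2 < p)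
    (n : ℕ) :
    ∑ k ∈ Finset.range (n + 1), (2 * (k : ℝ) + 1) * SMaj_t k ^ p
      + p * SMaj_t n ^ (p - 1) * (∑ j ∈ Finset.range ((n + 1) ^ 2), s j - ((n : ℝ) + 1) / 2)
      ≤ ∑ j ∈ Finset.range ((n + 1) ^ 2),
        (s j ^ p - SMaj_gap p (s j) (SMaj_t (Nat.sqrt j))) := by
  induction n with
  | zero =>
    have := SMaj_block_gap s p 0
    simp at this ⊢
    linarith
  | succ n ih =>
    rw [Finset.sum_range_succ, SMaj_block _ (n + 1), SMaj_block _ (n + 1), SMaj_block_gap]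
    have hD := h n
    have hm : SMaj_t (n + 1) ^ (p - 1) ≤ SMaj_t n ^ (p - 1) :=
      Real.rpow_le_rpow (SMaj_t_pos _).le (SMaj_t_anti n) (by linarith)
    have hp0 : 0 ≤ p := by linarith
    have hk : p * SMaj_t (n + 1) ^ (p - 1) *
          (∑ j ∈ Finset.range ((n + 1) ^ 2), s j - ((n : ℝ) + 1) / 2)
        ≤ p * SMaj_t n ^ (p - 1) *
          (∑ j ∈ Finset.range ((n + 1) ^ 2), s j - ((n : ℝ) + 1) / 2) :=
      mul_le_mul_of_nonneg_right (mul_le_mul_of_nonneg_left hm hp0) (by linarith)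
    push_cast at *
    nlinarith [hk, ih]

theorem SMaj_partial_le (f : ℕ → ℝ) (hf : ∀ j, 0 ≤ f j) (N : ℕ) :
    ENNReal.ofReal (∑ j ∈ Finset.range N, f j) ≤ ∑' j, ENNReal.ofReal (f j) := by
  rw [ENNReal.ofReal_sum_of_nonneg fun j _ => hf j]
  exact ENNReal.sum_le_tsum _

theorem major_lower (s : ℕ → ℝ) (hs : ∀ j, 0 ≤ s j)
    (h : ∀ n : ℕ, ((n : ℝ) + 1) / 2 ≤ ∑ j ∈ Finset.range ((n + 1) ^ 2), s j) {p : ℝ} (hp : 2 < p) :
    sphereVal p ≤ ∑' j, ENNReal.ofReal (s j ^ p) ∧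
      (∑' j, ENNReal.ofReal (s j ^ p) = sphereVal p → s 0 = 1 / 2 ∧ s 1 = 1 / 6) := by
  have hp1 : 1 < p := by linarith
  have hg : ∀ j, 0 ≤ SMaj_gap p (s j) (SMaj_t (Nat.sqrt j)) := fun j =>
    SMaj_gap_nonneg hp1 (hs j) (SMaj_t_pos _)
  set g : ℝ := ∑ j ∈ Finset.range 2, SMaj_gap p (s j) (SMaj_t (Nat.sqrt j)) with hgdef
  have hg0 : 0 ≤ g := Finset.sum_nonneg fun j _ => hg j
  have key : ∀ N : ℕ, ∑ k ∈ Finset.range N, (2 * (k : ℝ) + 1) * SMaj_t k ^ p + g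
      ≤ ∑ j ∈ Finset.range ((N + 1 + 1) ^ 2), s j ^ p := by
    intro N
    have h1 := SMaj_abel s h hp (N + 1)
    have h2 : 0 ≤ p * SMaj_t (N + 1) ^ (p - 1) *
        (∑ j ∈ Finset.range ((N + 1 + 1) ^ 2), s j - (((N + 1 : ℕ) : ℝ) + 1) / 2) :=
      mul_nonneg (mul_nonneg (by linarith) (Real.rpow_nonneg (SMaj_t_pos _).le _))
        (by linarith [h (N + 1)])
    have h3 : ∑ k ∈ Finset.range N, (2 * (k : ℝ) + 1) * SMaj_t k ^ p
        ≤ ∑ k ∈ Finset.range (N + 1 + 1), (2 * (k : ℝ) + 1) * SMaj_t k ^ p :=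
      Finset.sum_le_sum_of_subset_of_nonneg (Finset.range_mono (by omega))
        fun k _ _ => SMaj_term_nonneg p k
    have h4 : g ≤ ∑ j ∈ Finset.range ((N + 1 + 1) ^ 2), SMaj_gap p (s j) (SMaj_t (Nat.sqrt j)) :=
      Finset.sum_le_sum_of_subset_of_nonneg
        (Finset.range_mono (by nlinarith [Nat.zero_le N, Nat.zero_le (N * N)]))
        fun k _ _ => hg k
    rw [Finset.sum_sub_distrib] at h1
    linarith
  have main : sphereVal p + ENNReal.ofReal g ≤ ∑' j, ENNReal.ofReal (s j ^ p) := by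
    rw [SMaj_sphereVal, ENNReal.tsum_eq_iSup_nat, ENNReal.iSup_add]
    refine iSup_le fun N => ?_
    rw [← ENNReal.ofReal_sum_of_nonneg fun k _ => SMaj_term_nonneg p k,
      ← ENNReal.ofReal_add (Finset.sum_nonneg fun k _ => SMaj_term_nonneg p k) hg0]
    exact (ENNReal.ofReal_le_ofReal (key N)).trans
      (SMaj_partial_le (fun j => s j ^ p) (fun j => Real.rpow_nonneg (hs j) p) _)
  refine ⟨le_self_add.trans main, fun heq => ?_⟩
  rw [heq] at main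
  have h5 : ENNReal.ofReal g ≤ 0 := by
    have : sphereVal p + ENNReal.ofReal g ≤ sphereVal p + 0 := by simpa using main
    exact (ENNReal.add_le_add_iff_left (sphereVal_ne_top hp)).1 this
  have h6 : g ≤ 0 := ENNReal.ofReal_eq_zero.1 (le_antisymm h5 bot_le)
  have e : g = SMaj_gap p (s 0) (SMaj_t (Nat.sqrt 0)) + SMaj_gap p (s 1) (SMaj_t (Nat.sqrt 1)) := by
    rw [hgdef, Finset.sum_range_succ, Finset.sum_range_one]
  have a0 := SMaj_gap_zero hp1 (hs 0) (SMaj_t_pos (Nat.sqrt 0)) (by linarith [hg 0, hg 1])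
  have a1 := SMaj_gap_zero hp1 (hs 1) (SMaj_t_pos (Nat.sqrt 1)) (by linarith [hg 0, hg 1])
  constructor
  · rw [a0]; simp [SMaj_t]
  · rw [a1]; simp [SMaj_t]; norm_num

theorem major_upper (s : ℕ → ℝ) (hs : ∀ j, 0 ≤ s j)
    (h : ∀ k j : ℕ, k ^ 2 ≤ j → s j ≤ 1 / (2 * (2 * k + 1))) {p : ℝ} (hp : 2 < p) :
    ∑' j, ENNReal.ofReal (s j ^ p) ≤ sphereVal p := by
  have key : ∀ n : ℕ, ∑ j ∈ Finset.range (n ^ 2), s j ^ p
      ≤ ∑ k ∈ Finset.range n, (2 * (k : ℝ) + 1) * SMaj_t k ^ p := by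
    intro n
    induction n with
    | zero => simp
    | succ n ih =>
      rw [SMaj_block, Finset.sum_range_succ (fun k : ℕ => (2 * (k : ℝ) + 1) * SMaj_t k ^ p)]
      have : ∑ x ∈ Finset.range (2 * n + 1), s (n ^ 2 + x) ^ p
          ≤ ∑ _x ∈ Finset.range (2 * n + 1), SMaj_t n ^ p :=
        Finset.sum_le_sum fun x _ =>
          Real.rpow_le_rpow (hs _) (h n _ (Nat.le_add_right _ _)) (by linarith)
      simp only [Finset.sum_const, Finset.card_range, nsmul_eq_mul] at this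
      push_cast at this
      linarith
  rw [ENNReal.tsum_eq_iSup_nat]
  refine iSup_le fun N => ?_
  rw [← ENNReal.ofReal_sum_of_nonneg fun j _ => Real.rpow_nonneg (hs j) p]
  have h1 : ∑ j ∈ Finset.range N, s j ^ p ≤ ∑ j ∈ Finset.range (N ^ 2), s j ^ p :=
    Finset.sum_le_sum_of_subset_of_nonneg (Finset.range_mono (by nlinarith))
      fun j _ _ => Real.rpow_nonneg (hs j) p
  exact (ENNReal.ofReal_le_ofReal (h1.trans (key N))).trans
    (SMaj_partial_le _ (SMaj_term_nonneg p) N)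

end Pool.Agent.H24Z.NP
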