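import Pool.Agent.H24Z.NP.Main
import Pool.Agent.H24Z.NP.SAlg

set_option autoImplicit false

/-! The quaternion sum of the single layer energies of a monogenic polynomial. -/

namespace Pool.Agent.H24Z.NP

open MeasureTheory Filter Topology Set Real MvPolynomial

variable {Ω M : Set E3} {μ : Measure M} {ν : M → E3}

theorem SQuat_cont (c : E3) (p : P3) : Continuous (ev c p) := (ev_contDiff c p).continuous

theorem SQuat_cd1 (c : E3) (p : P3) : ContDiff ℝ 1 (ev c p) :=
  (ev_contDiff c p).of_le (by norm_num)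

theorem SQuat_fderiv_single (c : E3) (p : P3) (x : E3) (i : Fin 3) :
    fderiv ℝ (ev c p) x (EuclideanSpace.single i 1) = ev c (pderiv i p) x := by
  rw [ev_fderiv]
  simp [EuclideanSpace.single_apply]

/-- the divergence theorem for a divergence free polynomial field times a function -/
theorem SQuat_div (D : Data Ω M μ ν) (c : E3) (F : Fin 3 → P3)
    (hF : ∑ i : Fin 3, pderiv i (F i) = 0) (a : E3 → ℝ) (ha : ContDiff ℝ 1 a) :
    ∫ y : M, (∑ i : Fin 3, ν y i * ev c (F i) y) * a y ∂μ =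
      ∫ w in Ω, ∑ i : Fin 3, ev c (F i) w * fderiv ℝ a w (EuclideanSpace.single i 1) := by
  have hφ : ∀ i, ContDiff ℝ 1 (fun w => ev c (F i) w * a w) := fun i => (SQuat_cd1 c _).mul ha
  have hder : ∀ i w, fderiv ℝ (fun w => ev c (F i) w * a w) w (EuclideanSpace.single i 1) =
      ev c (F i) w * fderiv ℝ a w (EuclideanSpace.single i 1) + a w * ev c (pderiv i (F i)) w := by
    intro i w
    have h1 : HasFDerivAt a (fderiv ℝ a w) w := (ha.differentiable one_ne_zero w).hasFDerivAt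
    have h2 : HasFDerivAt (ev c (F i)) (fderiv ℝ (ev c (F i)) w) w :=
      ((SQuat_cd1 c _).differentiable one_ne_zero w).hasFDerivAt
    have h3 := (h2.mul h1).fderiv
    have e : (fun w => ev c (F i) w * a w) = ev c (F i) * a := rfl
    rw [e, h3]
    simp only [ContinuousLinearMap.add_apply, ContinuousLinearMap.smul_apply, smul_eq_mul,
      SQuat_fderiv_single]
  have hsum : ∀ w, ∑ i : Fin 3, ev c (F i) w * fderiv ℝ a w (EuclideanSpace.single i 1) =
      ∑ i : Fin 3, fderiv ℝ (fun w => ev c (F i) w * a w) w (EuclideanSpace.single i 1) := by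
    intro w
    simp only [hder]
    rw [Finset.sum_add_distrib, ← Finset.mul_sum]
    have : ∑ i : Fin 3, ev c (pderiv i (F i)) w = 0 := by
      unfold ev
      rw [← map_sum, hF, map_zero]
    rw [this, mul_zero, add_zero]
  simp only [hsum]
  rw [integral_finsetSum _ fun i _ => GreenA_intOn D
    (((hφ i).continuous_fderiv one_ne_zero).clm_apply continuous_const)]
  simp only [fun i => D.div _ (hφ i) (EuclideanSpace.single i 1), GreenB_inner_single_left]
  rw [← integral_finsetSum]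
  · congr 1
    funext y
    rw [Finset.sum_mul]
    exact Finset.sum_congr rfl fun i _ => by ring
  · intro i _
    exact GreenB_integrable D _
      (((hφ i).continuous.comp continuous_subtype_val).mul (GreenB_cont_nu D i))

theorem SQuat_cont_nc (D : Data Ω M μ ν) (c : E3) (F : Fin 3 → P3) :
    Continuous (fun y : M => ∑ i : Fin 3, ν y i * ev c (F i) y) :=
  continuous_finset_sum _ fun i _ =>
    (GreenB_cont_nu D i).mul ((SQuat_cont c _).comp continuous_subtype_val)

theorem SQuat_int_MO (D : Data Ω M μ ν) {G : M × E3 → ℝ} (hG : Continuous G) :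
    Integrable G (μ.prod (volume.restrict Ω)) := by
  have := D.fin
  have : CompactSpace M := isCompact_iff_compactSpace.mp D.cp
  have h1 : μ.prod (volume.restrict Ω) = (μ.prod volume).restrict (univ ×ˢ Ω) := by
    rw [← Measure.prod_restrict, Measure.restrict_univ]
  rw [h1]
  exact (hG.continuousOn.integrableOn_compact (isCompact_univ.prod D.bd.isCompact_closure)).mono_set
    (prod_mono subset_rfl subset_closure)

theorem SQuat_int_OO (D : Data Ω M μ ν) {G : E3 × E3 → ℝ} (hG : Continuous G) :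
    Integrable G ((volume.restrict Ω).prod (volume.restrict Ω)) := by
  rw [Measure.prod_restrict]
  exact (hG.continuousOn.integrableOn_compact
    (D.bd.isCompact_closure.prod D.bd.isCompact_closure)).mono_set
    (prod_mono subset_closure subset_closure)

/-- the kernel of the double volume integral -/
noncomputable def SQuat_H (c : E3) (ε : ℝ) (F : Fin 3 → P3) (w x : E3) : ℝ :=
  (∑ i : Fin 3, ev c (F i) x * ev c (F i) w) / sr ε (x - w) ^ 3 -
    3 * ((∑ i : Fin 3, ev c (F i) x * (x - w) i) * ∑ i : Fin 3, ev c (F i) w * (x - w) i) /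
      sr ε (x - w) ^ 5

theorem SQuat_cont_sr (ε : ℝ) : Continuous (fun p : E3 × E3 => sr ε (p.2 - p.1)) :=
  (GreenB_sr_cont' ε).comp (by fun_prop)

theorem SQuat_cont_H (c : E3) {ε : ℝ} (hε : 0 < ε) (F : Fin 3 → P3) :
    Continuous (fun p : E3 × E3 => SQuat_H c ε F p.1 p.2) := by
  have h1 := fun i => SQuat_cont c (F i)
  have h2 := SQuat_cont_sr ε
  unfold SQuat_H
  refine Continuous.sub (Continuous.div ?_ (h2.pow 3) fun p => (pow_pos (sr_pos hε _) 3).ne')
    (Continuous.div ?_ (h2.pow 5) fun p => (pow_pos (sr_pos hε _) 5).ne')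
  · fun_prop
  · fun_prop

theorem SQuat_step1 (D : Data Ω M μ ν) (c : E3) (F : Fin 3 → P3)
    (hF : ∑ i : Fin 3, pderiv i (F i) = 0) {ε : ℝ} (hε : 0 < ε) (x : E3) :
    ∫ y : M, (sr ε ((y : E3) - x))⁻¹ * (∑ i : Fin 3, ν y i * ev c (F i) y) ∂μ =
      ∫ w in Ω, (∑ i : Fin 3, ev c (F i) w * (x - w) i) * ((sr ε (x - w))⁻¹) ^ 3 := by
  have h := SQuat_div D c F hF (fun w => (sr ε (w - x))⁻¹)
    ((contDiff_inv_sr hε x).of_le (by norm_num))
  simp only [mul_comm (∑ i : Fin 3, ν _ i * ev c (F i) _)] at h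
  rw [h]
  congr 1
  funext w
  rw [(hasFDerivAt_inv_sr hε x w).fderiv, Finset.sum_mul]
  refine Finset.sum_congr rfl fun i _ => ?_
  simp only [ContinuousLinearMap.smul_apply, innerSL_apply_apply, smul_eq_mul,
    GreenB_inner_single_right, PiLp.sub_apply]
  rw [GreenB_sr_neg ε x w]
  ring

theorem SQuat_step3 (D : Data Ω M μ ν) (c : E3) (F : Fin 3 → P3)
    (hF : ∑ i : Fin 3, pderiv i (F i) = 0) {ε : ℝ} (hε : 0 < ε) (w : E3) :
    ∫ x : M, (∑ i : Fin 3, ν x i * ev c (F i) x) *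
        ((∑ i : Fin 3, ev c (F i) w * ((x : E3) - w) i) * ((sr ε ((x : E3) - w))⁻¹) ^ 3) ∂μ =
      ∫ x in Ω, SQuat_H c ε F w x := by
  have hinv : ContDiff ℝ 1 (fun x : E3 => (sr ε (x - w))⁻¹) :=
    (contDiff_inv_sr hε w).of_le (by norm_num)
  have hlin : ∀ i : Fin 3, ContDiff ℝ 1 (fun x : E3 => (x - w) i) := fun i =>
    (GreenB_contDiff_coord i).comp (contDiff_id.sub contDiff_const)
  have ha : ContDiff ℝ 1 (fun x : E3 =>
      (∑ i : Fin 3, ev c (F i) w * (x - w) i) * ((sr ε (x - w))⁻¹) ^ 3) :=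
    (ContDiff.sum fun i _ => contDiff_const.mul (hlin i)).mul (hinv.pow 3)
  rw [SQuat_div D c F hF _ ha]
  congr 1
  funext x
  have h1 : ∀ i : Fin 3, HasFDerivAt (fun x : E3 => (x - w) i)
      (EuclideanSpace.proj i : E3 →L[ℝ] ℝ) x := fun i => by
    have := ((EuclideanSpace.proj i : E3 →L[ℝ] ℝ).hasFDerivAt (x := x)).sub_const (w i)
    simpa using this
  have h2 : HasFDerivAt (fun x : E3 => ∑ i : Fin 3, ev c (F i) w * (x - w) i)
      (∑ i : Fin 3, ev c (F i) w • (EuclideanSpace.proj i : E3 →L[ℝ] ℝ)) x :=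
    HasFDerivAt.fun_sum fun i _ => (h1 i).const_mul _
  have h3 := (hasFDerivAt_inv_sr hε w x).pow 3
  have h4 := (h2.mul h3).fderiv
  have e : (fun x : E3 => (∑ i : Fin 3, ev c (F i) w * (x - w) i) * ((sr ε (x - w))⁻¹) ^ 3) =
      (fun x : E3 => ∑ i : Fin 3, ev c (F i) w * (x - w) i) *
        (fun x : E3 => (sr ε (x - w))⁻¹ ^ 3) := rfl
  rw [e, h4]
  have hs := sr_pos hε (x - w)
  unfold SQuat_H
  simp only [ContinuousLinearMap.add_apply, ContinuousLinearMap.smul_apply, smul_eq_mul,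
    innerSL_apply_apply, GreenB_inner_single_right, nsmul_eq_mul, Nat.cast_ofNat,
    show 3 - 1 = 2 from rfl, Fin.sum_univ_three]
  simp [EuclideanSpace.single_apply]
  field_simp
  ring

theorem SQuat_eps (D : Data Ω M μ ν) (c : E3) (F : Fin 3 → P3)
    (hF : ∑ i : Fin 3, pderiv i (F i) = 0) {ε : ℝ} (hε : 0 < ε) :
    ∫ x : M, (∑ i : Fin 3, ν x i * ev c (F i) x) *
        ∫ y : M, (sr ε ((y : E3) - x))⁻¹ * (∑ i : Fin 3, ν y i * ev c (F i) y) ∂μ ∂μ =
      ∫ p, SQuat_H c ε F p.1 p.2 ∂((volume.restrict Ω).prod (volume.restrict Ω)) := by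
  have := D.fin
  have := GreenB_vol_fin D
  simp only [SQuat_step1 D c F hF hε, ← integral_const_mul]
  rw [integral_prod _ (SQuat_int_OO D (SQuat_cont_H c hε F))]
  simp only [← SQuat_step3 D c F hF hε]
  refine integral_integral_swap (SQuat_int_MO D ?_)
  have h1 := fun i => SQuat_cont c (F i)
  have h2 : Continuous (fun p : M × E3 => (sr ε ((p.1 : E3) - p.2))⁻¹) :=
    Continuous.inv₀ ((GreenB_sr_cont' ε).comp (by fun_prop)) fun p => (sr_pos hε _).ne'
  have h3 := SQuat_cont_nc D c F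
  refine Continuous.mul (h3.comp continuous_fst) (Continuous.mul ?_ (h2.pow 3))
  fun_prop

theorem SQuat_alg (c : E3) {ε : ℝ} (hε : 0 < ε) (f : Fin 4 → P3) (w x : E3) :
    ∑ q : Fin 4, SQuat_H c ε (fun i => rq q f i.succ) w x =
      rho ε (x - w) * ∑ a : Fin 4, ev c (f a) x * ev c (f a) w := by
  have hs := sr_pos hε (x - w)
  have h3 := GreenA_sr_sq ε (x - w)
  have h2 : ‖x - w‖ ^ 2 = (x - w) 0 ^ 2 + (x - w) 1 ^ 2 + (x - w) 2 ^ 2 := by
    rw [EuclideanSpace.norm_sq_eq]
    simp [Fin.sum_univ_three]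
  have h4 : ε ^ 2 = sr ε (x - w) ^ 2 - ((x - w) 0 ^ 2 + (x - w) 1 ^ 2 + (x - w) 2 ^ 2) := by
    linarith
  have hn : ∀ (p : P3) (z : E3), ev c (-p) z = -ev c p z := fun p z => by
    unfold ev; rw [map_neg]
  unfold SQuat_H rho
  rw [h4]
  generalize sr ε (x - w) = s at *
  generalize x - w = v at *
  simp only [rq, Fin.sum_univ_four, Fin.sum_univ_three]
  simp [hn]
  field_simp
  ring

theorem SQuat_rho_le (D : Data Ω M μ ν) {ε : ℝ} (hε : 0 < ε) (w : E3) :
    ∫ v in Ω, rho ε (v - w) ≤ 4 * π :=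
  calc ∫ v in Ω, rho ε (v - w) ≤ ∫ v, rho ε (v - w) :=
        setIntegral_le_integral ((integrable_rho hε).comp_sub_right w)
          (Eventually.of_forall fun v => GreenB_rho_nonneg hε _)
    _ = 4 * π := by rw [integral_sub_right_eq_self, integral_rho hε]

theorem SQuat_bound (D : Data Ω M μ ν) {ε : ℝ} (hε : 0 < ε) (g : Fin 4 → E3 → ℝ)
    (hg : ∀ a, Continuous (g a)) :
    ∫ p : E3 × E3, rho ε (p.2 - p.1) * ∑ a : Fin 4, g a p.2 * g a p.1
        ∂((volume.restrict Ω).prod (volume.restrict Ω)) ≤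
      4 * π * ∫ w in Ω, ∑ a : Fin 4, g a w ^ 2 := by
  have := GreenB_vol_fin D
  have hr : Continuous (fun p : E3 × E3 => rho ε (p.2 - p.1)) :=
    (GreenA_cont_rho hε).comp (by fun_prop)
  set N : E3 → ℝ := fun w => ∑ a : Fin 4, g a w ^ 2 with hN
  have hNc : Continuous N := by rw [hN]; fun_prop
  have hN0 : ∀ w, 0 ≤ N w := fun w => Finset.sum_nonneg fun a _ => sq_nonneg _
  have i1 : Integrable (fun p : E3 × E3 => N p.1 * rho ε (p.2 - p.1))
      ((volume.restrict Ω).prod (volume.restrict Ω)) :=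
    SQuat_int_OO D ((hNc.comp continuous_fst).mul hr)
  have i2 : Integrable (fun p : E3 × E3 => N p.2 * rho ε (p.2 - p.1))
      ((volume.restrict Ω).prod (volume.restrict Ω)) :=
    SQuat_int_OO D ((hNc.comp continuous_snd).mul hr)
  have b : ∀ G : E3 → ℝ, (∀ w, G w ≤ 4 * π) → Integrable (fun w => N w * G w) (volume.restrict Ω) →
      ∫ w in Ω, N w * G w ≤ 4 * π * ∫ w in Ω, N w := by
    intro G hG hi
    rw [← integral_const_mul]
    refine integral_mono hi ((GreenA_intOn D hNc).const_mul _) fun w => ?_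
    simp only
    rw [mul_comm (4 * π)]
    exact mul_le_mul_of_nonneg_left (hG w) (hN0 w)
  have b1 : ∫ p : E3 × E3, N p.1 * rho ε (p.2 - p.1)
      ∂((volume.restrict Ω).prod (volume.restrict Ω)) ≤ 4 * π * ∫ w in Ω, N w := by
    rw [integral_prod _ i1]
    have hi := i1.integral_prod_left
    simp only [integral_const_mul] at hi ⊢
    exact b _ (fun w => SQuat_rho_le D hε w) hi
  have b2 : ∫ p : E3 × E3, N p.2 * rho ε (p.2 - p.1)
      ∂((volume.restrict Ω).prod (volume.restrict Ω)) ≤ 4 * π * ∫ w in Ω, N w := by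
    rw [integral_prod_symm _ i2]
    have hi := i2.integral_prod_right
    simp only [integral_const_mul] at hi ⊢
    refine b _ (fun w => ?_) hi
    have e : ∀ v, rho ε (w - v) = rho ε (v - w) := fun v => by
      unfold rho; rw [GreenB_sr_neg ε w v]
    simp only [e]
    exact SQuat_rho_le D hε w
  have h1 : ∫ p : E3 × E3, rho ε (p.2 - p.1) * ∑ a : Fin 4, g a p.2 * g a p.1
        ∂((volume.restrict Ω).prod (volume.restrict Ω)) ≤
      ∫ p : E3 × E3, (1 / 2) * (N p.1 * rho ε (p.2 - p.1) + N p.2 * rho ε (p.2 - p.1))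
        ∂((volume.restrict Ω).prod (volume.restrict Ω)) := by
    refine integral_mono (SQuat_int_OO D (hr.mul (by fun_prop))) ((i1.add i2).const_mul _)
      fun p => ?_
    have h0 := GreenB_rho_nonneg hε (p.2 - p.1)
    have h2 : ∑ a : Fin 4, g a p.2 * g a p.1 ≤ (1 / 2) * (N p.1 + N p.2) := by
      simp only [hN, Fin.sum_univ_four]
      nlinarith [sq_nonneg (g 0 p.2 - g 0 p.1), sq_nonneg (g 1 p.2 - g 1 p.1),
        sq_nonneg (g 2 p.2 - g 2 p.1), sq_nonneg (g 3 p.2 - g 3 p.1)]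
    have h3 := mul_le_mul_of_nonneg_left h2 h0
    simp only
    linarith
  rw [integral_const_mul, integral_add i1 i2] at h1
  linarith

theorem SQuat_lim (D : Data Ω M μ ν) (φ : M → ℝ) (hφ : Continuous φ) :
    Tendsto (fun ε : ℝ => ∫ x : M, φ x * ∫ y : M, (sr ε ((y : E3) - x))⁻¹ * φ y ∂μ ∂μ) (𝓝[>] 0)
      (𝓝 (∫ x : M, φ x * ∫ y : M, ‖(x : E3) - y‖⁻¹ * φ y ∂μ ∂μ)) := by
  have := D.fin
  obtain ⟨B, hB⟩ := D.ws_bound
  obtain ⟨A, hA0, hA⟩ := GreenB_bdd D φ hφ
  refine tendsto_integral_filter_of_dominated_convergence (fun _ => A * (B * A)) ?_ ?_ ?_ ?_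
  · filter_upwards [self_mem_nhdsWithin] with ε hε
    have hc : Continuous (fun p : M × M => (sr ε ((p.2 : E3) - p.1))⁻¹ * φ p.2) := by
      have h2 : Continuous (fun p : M × M => sr ε ((p.2 : E3) - p.1)) :=
        (GreenB_sr_cont' ε).comp (by fun_prop)
      exact (h2.inv₀ (fun y => (sr_pos hε _).ne')).mul (by fun_prop)
    exact hφ.aestronglyMeasurable.mul
      (hc.stronglyMeasurable.integral_prod_right' (ν := μ)).aestronglyMeasurable
  · filter_upwards [self_mem_nhdsWithin] with ε hε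
    refine Eventually.of_forall fun x => ?_
    rw [norm_mul]
    refine mul_le_mul (hA x) ?_ (norm_nonneg _) hA0
    refine (norm_integral_le_of_norm_le ((D.ws_int x).mul_const A) ?_).trans ?_
    · filter_upwards [D.ae_ne x] with y hyx
      rw [Real.norm_eq_abs, abs_mul, abs_of_pos (inv_pos.2 (sr_pos hε _)), norm_sub_rev (x : E3) y]
      exact mul_le_mul (GreenB_inv_sr_le (sub_ne_zero.2 hyx)) (hA y) (abs_nonneg _) (by positivity)
    · rw [integral_mul_const]
      exact mul_le_mul_of_nonneg_right (hB x) hA0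
  · exact integrable_const _
  · exact Eventually.of_forall fun x => (GreenB_lim_single D φ hφ x).const_mul _

theorem Data.quat (D : Data Ω M μ ν) (c : E3) (f : Fin 4 → P3) (hf : Mono f) :
    ∑ q : Fin 4, ∫ x : M, nc ν c (rq q f) x *
        ∫ y : M, ‖(x : E3) - y‖⁻¹ * nc ν c (rq q f) y ∂μ ∂μ ≤
      4 * π * ∫ w in Ω, ∑ a : Fin 4, ev c (f a) w ^ 2 := by
  have h1 := tendsto_finset_sum (Finset.univ : Finset (Fin 4)) fun q _ =>
    SQuat_lim D (nc ν c (rq q f)) (SQuat_cont_nc D c fun i => rq q f i.succ)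
  refine le_of_tendsto h1 ?_
  filter_upwards [self_mem_nhdsWithin] with ε hε
  have h2 := fun q : Fin 4 => SQuat_eps D c (fun i => rq q f i.succ) (hf q) hε
  unfold nc
  simp only [h2]
  rw [← integral_finsetSum _ fun q _ => SQuat_int_OO D (SQuat_cont_H c hε _)]
  simp only [SQuat_alg c hε]
  exact SQuat_bound D hε (fun a => ev c (f a)) fun a => SQuat_cont c _

end Pool.Agent.H24Z.NP
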