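import Pool.Agent.H24Z.NP.SDefs

set_option autoImplicit false

/-! Weyl type inequality for approximation numbers and majorisation. -/

namespace Pool.Agent.H24Z.NP

open Module
open scoped ENNReal

variable {H : Type*} [NormedAddCommGroup H] [InnerProductSpace ℝ H]

theorem SWeyl_le_sv (K : H →L[ℝ] H) (j : ℕ) (c : ℝ)
    (h : ∀ F : H →L[ℝ] H, LinearMap.rank (F : H →ₗ[ℝ] H) ≤ j → c ≤ ‖K - F‖) : c ≤ sv K j := by
  refine le_csInf ⟨‖K - 0‖, 0, by simp, rfl⟩ ?_
  rintro a ⟨F, hF, rfl⟩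
  exact h F hF

theorem sv_nonneg (K : H →L[ℝ] H) (j : ℕ) : 0 ≤ sv K j :=
  SWeyl_le_sv K j 0 fun _ _ => norm_nonneg _

theorem SWeyl_norm_sq_sum {n : ℕ} (w : Fin n → H) (c : Fin n → ℝ)
    (hw : ∀ i j, i ≠ j → inner ℝ (w i) (w j) = 0) :
    ‖∑ i, c i • w i‖ ^ 2 = ∑ i, c i ^ 2 * ‖w i‖ ^ 2 := by
  rw [← real_inner_self_eq_norm_sq, sum_inner]
  refine Finset.sum_congr rfl fun i _ => ?_
  rw [inner_sum, Finset.sum_eq_single i]
  · rw [real_inner_smul_left, real_inner_smul_right, real_inner_self_eq_norm_sq]; ring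
  · intro j _ hj
    rw [real_inner_smul_left, real_inner_smul_right, hw i j (Ne.symm hj)]; simp
  · simp

theorem SWeyl_key (K : H →L[ℝ] H) (j : ℕ) (v : Fin (j + 1) → H) (h1 : ∀ i, ‖v i‖ = 1)
    (h2 : ∀ i k, i ≠ k → inner ℝ (v i) (v k) = 0)
    (h3 : ∀ i k, i ≠ k → inner ℝ (K (v i)) (K (v k)) = 0) (s : ℝ) (hs : 0 ≤ s)
    (h4 : ∀ i, s ≤ ‖K (v i)‖) : s ≤ sv K j := by
  refine SWeyl_le_sv K j s fun F hF => ?_
  have hdep : ¬ LinearIndependent ℝ (fun i : Fin (j + 1) =>
      (⟨F (v i), ⟨v i, rfl⟩⟩ : LinearMap.range (F : H →ₗ[ℝ] H))) := by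
    intro hli
    have h5 := hli.cardinal_lift_le_rank
    have h6 : Cardinal.lift.{0} (Module.rank ℝ (LinearMap.range (F : H →ₗ[ℝ] H))) ≤
        Cardinal.lift.{0} (j : Cardinal) := Cardinal.lift_le.2 hF
    have h7 := h5.trans h6
    simp only [Cardinal.mk_fin, Cardinal.lift_natCast, Nat.cast_le] at h7
    omega
  rw [Fintype.not_linearIndependent_iff] at hdep
  obtain ⟨c, hc, i0, hi0⟩ := hdep
  have hFw : F (∑ i, c i • v i) = 0 := by
    have := congrArg Subtype.val hc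
    simpa [map_sum] using this
  have hw := SWeyl_norm_sq_sum v c h2
  have hKw := SWeyl_norm_sq_sum (fun i => K (v i)) c h3
  simp only [h1, one_pow, mul_one] at hw
  have hpos : 0 < ∑ i, c i ^ 2 :=
    Finset.sum_pos' (fun i _ => sq_nonneg _) ⟨i0, Finset.mem_univ _, by positivity⟩
  have hK : K (∑ i, c i • v i) = ∑ i, c i • K (v i) := by simp [map_sum]
  have h8 : s ^ 2 * ∑ i, c i ^ 2 ≤ ‖K (∑ i, c i • v i)‖ ^ 2 := by
    rw [hK, hKw, Finset.mul_sum]
    refine Finset.sum_le_sum fun i _ => ?_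
    rw [mul_comm]
    exact mul_le_mul_of_nonneg_left (pow_le_pow_left₀ hs (h4 i) 2) (sq_nonneg _)
  have h9 : ‖K (∑ i, c i • v i)‖ ≤ ‖K - F‖ * ‖∑ i, c i • v i‖ := by
    have := (K - F).le_opNorm (∑ i, c i • v i)
    rwa [ContinuousLinearMap.sub_apply, hFw, sub_zero] at this
  have h10 : s ^ 2 * ∑ i, c i ^ 2 ≤ ‖K - F‖ ^ 2 * ∑ i, c i ^ 2 := by
    refine h8.trans ?_
    rw [← hw, ← mul_pow]
    exact pow_le_pow_left₀ (norm_nonneg _) h9 2
  exact (pow_le_pow_iff_left₀ hs (norm_nonneg _) two_ne_zero).1 (le_of_mul_le_mul_right h10 hpos)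

theorem weyl (K : H →L[ℝ] H) (m : ℕ) (e : Fin m → H) (he : LinearIndependent ℝ e)
    (lam : Fin m → ℝ) (h : ∀ i, K (e i) = lam i • e i) :
    ∑ i, lam i ≤ ∑ j ∈ Finset.range m, sv K j := by
  classical
  set E : Submodule ℝ H := Submodule.span ℝ (Set.range e) with hE
  haveI : FiniteDimensional ℝ E := FiniteDimensional.span_of_finite ℝ (Set.finite_range e)
  have hdim : finrank ℝ E = m := by
    rw [hE, finrank_span_eq_card he, Fintype.card_fin]
  have hmap : ∀ x ∈ E, (K : H →ₗ[ℝ] H) x ∈ E := by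
    intro x hx
    have : E.map (K : H →ₗ[ℝ] H) ≤ E := by
      rw [hE, Submodule.map_span, Submodule.span_le]
      rintro _ ⟨_, ⟨i, rfl⟩, rfl⟩
      change K (e i) ∈ _
      rw [h i]
      exact Submodule.smul_mem _ _ (Submodule.subset_span ⟨i, rfl⟩)
    exact this ⟨x, hx, rfl⟩
  let KE : E →ₗ[ℝ] E := (K : H →ₗ[ℝ] H).restrict hmap
  have hKE : ∀ x : E, (KE x : H) = K x := fun x => rfl
  have htr : LinearMap.trace ℝ E KE = ∑ i, lam i := by
    let b : Basis (Fin m) ℝ E := Basis.span he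
    have hb : ∀ i, (b i : H) = e i := fun i => Basis.coe_span_apply he i
    rw [LinearMap.trace_eq_matrix_trace ℝ b, Matrix.trace]
    refine Finset.sum_congr rfl fun i _ => ?_
    have : KE (b i) = lam i • b i := by
      apply Subtype.ext
      rw [hKE, hb, h i, Submodule.coe_smul, hb]
    simp [Matrix.diag, LinearMap.toMatrix_apply, this]
  have hsym : (LinearMap.adjoint KE ∘ₗ KE).IsSymmetric := by
    intro x y
    simp only [LinearMap.comp_apply, LinearMap.adjoint_inner_left, LinearMap.adjoint_inner_right]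
  let v := hsym.eigenvectorBasis hdim
  have hin : ∀ i k, inner ℝ (KE (v i)) (KE (v k)) =
      hsym.eigenvalues hdim k * inner ℝ (v i) (v k) := by
    intro i k
    rw [← LinearMap.adjoint_inner_right]
    have := hsym.apply_eigenvectorBasis hdim k
    rw [LinearMap.comp_apply] at this
    rw [this, real_inner_smul_right]
    rfl
  have hnorm : ∀ i, ‖KE (v i)‖ ^ 2 = hsym.eigenvalues hdim i := by
    intro i
    rw [← real_inner_self_eq_norm_sq, hin, real_inner_self_eq_norm_sq, v.orthonormal.1 i]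
    simp
  have hsv : ∀ j : Fin m, ‖KE (v j)‖ ≤ sv K j := by
    intro j
    have hj : (j : ℕ) + 1 ≤ m := j.2
    refine SWeyl_key K j (fun i => (v (Fin.castLE hj i) : H)) (fun i => v.orthonormal.1 _)
      (fun i k hik => ?_) (fun i k hik => ?_) _ (norm_nonneg _) (fun i => ?_)
    · exact v.orthonormal.2 fun h' => hik (Fin.castLE_injective hj h')
    · have h1 := hin (Fin.castLE hj i) (Fin.castLE hj k)
      have h2 : inner ℝ (v (Fin.castLE hj i)) (v (Fin.castLE hj k)) = (0 : ℝ) :=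
        v.orthonormal.2 fun h' => hik (Fin.castLE_injective hj h')
      rw [h2, mul_zero] at h1
      exact h1
    · have h1 : hsym.eigenvalues hdim j ≤ hsym.eigenvalues hdim (Fin.castLE hj i) := by
        apply hsym.eigenvalues_antitone hdim
        change (i : ℕ) ≤ j
        have := i.2
        omega
      rw [← hnorm, ← hnorm] at h1
      exact (pow_le_pow_iff_left₀ (norm_nonneg _) (norm_nonneg _) two_ne_zero).1 h1
  rw [← htr, LinearMap.trace_eq_sum_inner KE v, ← Fin.sum_univ_eq_sum_range (fun j => sv K j) m]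
  refine Finset.sum_le_sum fun i _ => ?_
  refine (real_inner_le_norm _ _).trans ?_
  rw [v.orthonormal.1 i, one_mul]
  exact hsv i

theorem sv_le (K : H →L[ℝ] H) (V : Submodule ℝ H) [FiniteDimensional ℝ V] (j : ℕ)
    (hV : finrank ℝ V ≤ j) (c : ℝ) (hc : 0 ≤ c) (h : ∀ φ ∈ Vᗮ, ‖K φ‖ ≤ c * ‖φ‖) :
    sv K j ≤ c := by
  have hbdd : BddBelow {a : ℝ | ∃ F : H →L[ℝ] H,
      LinearMap.rank (F : H →ₗ[ℝ] H) ≤ j ∧ a = ‖K - F‖} := by
    refine ⟨0, ?_⟩
    rintro a ⟨F, _, rfl⟩
    exact norm_nonneg _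
  refine (csInf_le hbdd ⟨K.comp V.starProjection, ?_, rfl⟩).trans ?_
  · have h1 : LinearMap.rank ((K.comp V.starProjection : H →L[ℝ] H) : H →ₗ[ℝ] H) ≤
        LinearMap.rank (V.starProjection : H →ₗ[ℝ] H) :=
      LinearMap.rank_comp_le_right (V.starProjection : H →ₗ[ℝ] H) (K : H →ₗ[ℝ] H)
    refine h1.trans ?_
    have h2 : LinearMap.range (V.starProjection : H →ₗ[ℝ] H) ≤ V := by
      rintro _ ⟨x, rfl⟩
      exact V.starProjection_apply_mem x
    refine (Submodule.rank_mono h2).trans ?_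
    rw [← Module.finrank_eq_rank]
    exact_mod_cast hV
  · refine ContinuousLinearMap.opNorm_le_bound _ hc fun x => ?_
    have h1 : (K - K.comp V.starProjection) x = K (x - V.starProjection x) := by
      simp
    rw [h1]
    refine (h _ (V.sub_starProjection_mem_orthogonal x)).trans ?_
    refine mul_le_mul_of_nonneg_left ?_ hc
    have h2 : x - V.starProjection x = Vᗮ.starProjection x := by
      rw [Submodule.starProjection_orthogonal_val]
    rw [h2]
    exact Vᗮ.norm_starProjection_apply_le x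

end Pool.Agent.H24Z.NP
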