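import Pool.Agent.H24Z.NP.SGreen
import Pool.Agent.H24Z.NP.SL2
import Pool.Agent.H24Z.NP.SWeyl
import Pool.Agent.H24Z.NP.Sphere

set_option autoImplicit false

/-! The singular values on a round sphere. -/

namespace Pool.Agent.H24Z.NP

open MeasureTheory Filter Topology Set Real MvPolynomial

variable {Ω M : Set E3} {μ : Measure M} {ν : M → E3}

/-- restriction of polynomials to `M` -/
noncomputable def SSph_res (M : Set E3) (c : E3) : P3 →ₐ[ℝ] C(M, ℝ) :=
  MvPolynomial.aeval fun i => (⟨fun y : M => (y : E3) i - c i, by fun_prop⟩ : C(M, ℝ))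

theorem SSph_res_apply (c : E3) (p : P3) (y : M) : SSph_res M c p y = ev c p y := by
  unfold SSph_res ev
  induction p using MvPolynomial.induction_on with
  | C a => simp
  | add p q hp hq => simp only [map_add, ContinuousMap.add_apply, hp, hq]
  | mul_X p i hp =>
    simp only [map_mul, ContinuousMap.mul_apply, hp, aeval_X, eval_X, ContinuousMap.coe_mk]

theorem SSph_res_dense [CompactSpace M] (c : E3) : DenseRange (SSph_res M c) := by
  have h := ContinuousMap.subalgebra_topologicalClosure_eq_top_of_separatesPoints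
    (SSph_res M c).range (by
      intro x y hxy
      have : ∃ i, (x : E3) i ≠ (y : E3) i := by
        by_contra hc
        push Not at hc
        exact hxy (Subtype.ext (PiLp.ext hc))
      obtain ⟨i, hi⟩ := this
      refine ⟨_, ⟨SSph_res M c (X i), ⟨X i, rfl⟩, rfl⟩, ?_⟩
      simp only [SSph_res_apply, ev, eval_X]
      intro h
      exact hi (by linarith))
  have h2 := congrArg (fun A : Subalgebra ℝ C(M, ℝ) => (A : Set C(M, ℝ))) h
  simp only [Subalgebra.topologicalClosure_coe, Algebra.coe_top, AlgHom.coe_range] at h2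
  exact dense_iff_closure_eq.2 h2

theorem SSph_dn (c : E3) (r : ℝ) (hν : ∀ y : M, ν y = r⁻¹ • ((y : E3) - c)) {p : P3} {m : ℕ}
    (hp : p.IsHomogeneous m) (y : M) : dn ν c p y = r⁻¹ * m * ev c p y := by
  have h := congrArg (MvPolynomial.eval fun i => (y : E3) i - c i) hp.sum_X_mul_pderiv
  simp only [map_sum, map_mul, eval_X, nsmul_eq_mul, map_natCast] at h
  unfold dn ev
  rw [mul_assoc, ← h, Finset.mul_sum]
  refine Finset.sum_congr rfl fun i _ => ?_
  rw [hν]
  simp only [PiLp.smul_apply, PiLp.sub_apply, smul_eq_mul]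
  ring

theorem Data.SSph_eig (D : Data Ω M μ ν) (c : E3) (r : ℝ) (hr : 0 < r)
    (hM : ∀ y : M, ‖(y : E3) - c‖ = r) (hν : ∀ y : M, ν y = r⁻¹ • ((y : E3) - c))
    {p : P3} {m : ℕ} (hp : p.IsHomogeneous m) (hl : lapP p = 0) (x : M) :
    1 / (4 * π) * ∫ y : M, kk ν y x * ev c p y ∂μ = 1 / (2 * (2 * m + 1)) * ev c p x := by
  have h := D.green_harm c p hl x
  set S := ∫ y : M, ‖(x : E3) - y‖⁻¹ * ev c p y ∂μ with hS
  have e1 : ∫ y : M, kk ν y x * ev c p y ∂μ = (2 * r)⁻¹ * S := by
    rw [hS, ← integral_const_mul]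
    congr 1
    funext y
    rw [sphere_kk_bdry c r hr hM hν, norm_sub_rev, mul_assoc]
  have e2 : ∫ y : M, ev c p y * kk ν y x ∂μ = (2 * r)⁻¹ * S := by
    rw [← e1]
    simp only [mul_comm]
  have e3 : ∫ y : M, ‖(x : E3) - y‖⁻¹ * dn ν c p y ∂μ = r⁻¹ * m * S := by
    rw [hS, ← integral_const_mul]
    congr 1
    funext y
    rw [SSph_dn c r hν hp]
    ring
  rw [e2, e3] at h
  rw [e1]
  have hπ := Real.pi_pos
  have e4 : ev c p x = ((2 * r)⁻¹ * S + r⁻¹ * m * S) / (2 * π) := by
    field_simp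
    field_simp at h
    linarith
  rw [e4]
  field_simp
  ring

theorem Data.SSph_orth (D : Data Ω M μ ν) (c : E3) (r : ℝ) (hr : 0 < r)
    (hν : ∀ y : M, ν y = r⁻¹ • ((y : E3) - c)) {p q : P3} {m n : ℕ} (hp : p.IsHomogeneous m)
    (hq : q.IsHomogeneous n) (hlp : lapP p = 0) (hlq : lapP q = 0) (hmn : m ≠ n) :
    ∫ y : M, ev c p y * ev c q y ∂μ = 0 := by
  have h1 := D.dirichlet c p q hlq
  have h2 := D.dirichlet c q p hlp
  set I := ∫ y : M, ev c p y * ev c q y ∂μ with hI
  have e1 : ∫ y : M, ev c p y * dn ν c q y ∂μ = r⁻¹ * n * I := by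
    rw [hI, ← integral_const_mul]
    congr 1
    funext y
    rw [SSph_dn c r hν hq]
    ring
  have e2 : ∫ y : M, ev c q y * dn ν c p y ∂μ = r⁻¹ * m * I := by
    rw [hI, ← integral_const_mul]
    congr 1
    funext y
    rw [SSph_dn c r hν hp]
    ring
  have e3 : r⁻¹ * n * I = r⁻¹ * m * I := by
    rw [← e1, ← e2, h1, h2]
    simp only [mul_comm]
  have e4 : r⁻¹ * ((n : ℝ) - m) * I = 0 := by linarith
  have e5 : (n : ℝ) - m ≠ 0 := sub_ne_zero.2 (by exact_mod_cast hmn.symm)
  simpa [hr.ne', e5] using e4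

theorem Data.SSph_zero (D : Data Ω M μ ν) (hne : M.Nonempty) (c : E3) {p : P3}
    (hl : lapP p = 0) (h0 : ∀ y : M, ev c p y = 0) : p = 0 := by
  obtain ⟨y0, hy0⟩ := hne
  have hΩ : Ω.Nonempty := by
    obtain ⟨e, δ, hδ, hb, -⟩ := D.collar ⟨y0, hy0⟩
    exact ⟨_, hb (Metric.mem_ball_self hδ)⟩
  have h := D.dirichlet c p p hl
  simp only [h0, zero_mul, integral_zero] at h
  have hc : Continuous fun w : E3 =>
      ∑ i : Fin 3, ev c (pderiv i p) w * ev c (pderiv i p) w :=
    continuous_finsetSum _ fun i _ =>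
      (ev_contDiff c _).continuous.mul (ev_contDiff c _).continuous
  have hi : IntegrableOn (fun w : E3 =>
      ∑ i : Fin 3, ev c (pderiv i p) w * ev c (pderiv i p) w) Ω :=
    (hc.continuousOn.integrableOn_compact D.bd.isCompact_closure).mono_set subset_closure
  have hae := (setIntegral_eq_zero_iff_of_nonneg_ae (Eventually.of_forall fun w =>
    Finset.sum_nonneg fun i _ => mul_self_nonneg _) hi).1 h.symm
  have hz := Measure.eqOn_open_of_ae_eq hae D.op hc.continuousOn continuousOn_const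
  have hd : ∀ i, pderiv i p = 0 := fun i => ev_eq_zero c _ D.op hΩ fun x hx =>
    mul_self_eq_zero.1 ((Finset.sum_eq_zero_iff_of_nonneg fun i _ => mul_self_nonneg _).1 (hz hx) i
      (Finset.mem_univ i))
  have hf : ∀ x, fderiv ℝ (ev c p) x = 0 := fun x => by
    ext v
    rw [ev_fderiv]
    simp [hd, ev]
  refine ev_eq_zero c p isOpen_univ univ_nonempty fun x _ => ?_
  rw [is_const_of_fderiv_eq_zero ((ev_contDiff c p).differentiable (by norm_num)) hf x y0]
  exact h0 ⟨y0, hy0⟩

theorem Data.SSph_harm (D : Data Ω M μ ν) (hne : M.Nonempty) (c : E3) (r : ℝ) (hr : 0 < r)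
    (hM : ∀ y : M, ‖(y : E3) - c‖ = r) (p : P3) :
    ∃ q : P3, lapP q = 0 ∧ SSph_res M c q = SSph_res M c p := by
  set u : P3 := ∑ i : Fin 3, X i ^ 2 - C (r ^ 2) with hu
  have hu0 : ∀ y : M, ev c u y = 0 := fun y => by
    have := EuclideanSpace.real_norm_sq_eq ((y : E3) - c)
    rw [hM] at this
    simp only [hu, ev, map_sub, map_sum, map_pow, eval_X, eval_C]
    rw [this]
    simp
  have hu1 : u ≠ 0 := by
    intro h
    have : ev c u c = 0 := by rw [h]; simp [ev]
    simp only [hu, ev, map_sub, map_sum, map_pow, eval_X, eval_C, sub_self] at this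
    have h2 : 0 < r ^ 2 := by positivity
    simp at this
    exact hr.ne' this
  have hdeg : u.totalDegree ≤ 2 := by
    refine (totalDegree_sub _ _).trans (max_le ?_ (by rw [totalDegree_C]; omega))
    refine totalDegree_finsetSum_le fun i _ => (totalDegree_pow _ _).trans ?_
    simp [totalDegree_X]
  obtain ⟨q, hq⟩ := harm_mod u hdeg (fun q hq => by
    have := D.SSph_zero hne c hq fun y => by
      have := hu0 y
      unfold ev at this ⊢
      rw [map_mul, this, zero_mul]
    exact (mul_eq_zero.1 this).resolve_left hu1) p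
  refine ⟨p - u * q, hq, ?_⟩
  have : SSph_res M c u = 0 := by
    ext y
    rw [SSph_res_apply, hu0]
    rfl
  rw [map_sub, map_mul, this, zero_mul, sub_zero]

theorem SSph_norm_sq {H : Type*} [NormedAddCommGroup H] [InnerProductSpace ℝ H] (b : ℕ → H)
    (hb : ∀ m n, m ≠ n → inner ℝ (b m) (b n) = 0) (t : ℕ → ℝ) (s : Finset ℕ) :
    ‖∑ m ∈ s, t m • b m‖ ^ 2 = ∑ m ∈ s, t m ^ 2 * ‖b m‖ ^ 2 := by
  rw [← real_inner_self_eq_norm_sq, sum_inner]
  refine Finset.sum_congr rfl fun m hm => ?_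
  rw [inner_sum, Finset.sum_eq_single m]
  · rw [inner_smul_left, inner_smul_right, real_inner_self_eq_norm_sq]
    simp only [conj_trivial]
    ring
  · intro n _ hn
    rw [inner_smul_left, inner_smul_right, hb m n hn.symm]
    simp
  · intro h
    exact absurd hm h

theorem SSph_norm_le {H : Type*} [NormedAddCommGroup H] [InnerProductSpace ℝ H] (b : ℕ → H)
    (hb : ∀ m n, m ≠ n → inner ℝ (b m) (b n) = 0) (t : ℕ → ℝ) (s : Finset ℕ) (τ : ℝ)
    (hτ : 0 ≤ τ) (ht : ∀ m ∈ s, 0 ≤ t m ∧ t m ≤ τ) :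
    ‖∑ m ∈ s, t m • b m‖ ≤ τ * ‖∑ m ∈ s, b m‖ := by
  have h1 := SSph_norm_sq b hb t s
  have h2 := SSph_norm_sq b hb (fun _ => 1) s
  simp only [one_smul, one_pow, one_mul] at h2
  refine le_of_sq_le_sq ?_ (by positivity)
  rw [mul_pow, h1, h2, Finset.mul_sum]
  refine Finset.sum_le_sum fun m hm => ?_
  exact mul_le_mul_of_nonneg_right (pow_le_pow_left₀ (ht m hm).1 (ht m hm).2 2) (by positivity)

theorem Data.sphere_sv (D : Data Ω M μ ν) (hne : M.Nonempty) (c : E3) (r : ℝ) (hr : 0 < r)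
    (hM : ∀ y : M, ‖(y : E3) - c‖ = r) (hν : ∀ y : M, ν y = r⁻¹ • ((y : E3) - c))
    (K : Lp ℝ 2 μ →L[ℝ] Lp ℝ 2 μ) (hK : IsNP μ ν K) (k j : ℕ) (hkj : k ^ 2 ≤ j) :
    sv K j ≤ 1 / (2 * (2 * k + 1)) := by
  have := D.fin
  have : CompactSpace M := isCompact_iff_compactSpace.mp D.cp
  set T : P3 →ₗ[ℝ] Lp ℝ 2 μ := (ContinuousMap.toLp (E := ℝ) 2 μ ℝ).toLinearMap ∘ₗ
    (SSph_res M c).toLinearMap with hT
  have hTa : ∀ p, T p = ContinuousMap.toLp (E := ℝ) 2 μ ℝ (SSph_res M c p) := fun _ => rfl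
  have hdense : DenseRange T :=
    (ContinuousMap.toLp_denseRange ℝ μ ℝ (p := 2) (by simp)).comp (SSph_res_dense c)
      (ContinuousMap.toLp (E := ℝ) 2 μ ℝ).continuous
  have heig : ∀ (p : P3) (m : ℕ), p.IsHomogeneous m → lapP p = 0 →
      K (T p) = (1 / (2 * (2 * m + 1)) : ℝ) • T p := fun p m hp hl => by
    rw [hTa]
    refine hK.eigen _ _ fun x => ?_
    simp only [SSph_res_apply]
    exact D.SSph_eig c r hr hM hν hp hl x
  have horth : ∀ (p q : P3) (m n : ℕ), p.IsHomogeneous m → q.IsHomogeneous n → lapP p = 0 →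
      lapP q = 0 → m ≠ n → inner ℝ (T p) (T q) = 0 := fun p q m n hp hq hlp hlq hmn => by
    rw [hTa, hTa, ContinuousMap.inner_toLp]
    simp only [SSph_res_apply, conj_trivial]
    exact D.SSph_orth c r hr hν hq hp hlq hlp hmn.symm
  obtain ⟨H, hH1, hH2, hH3⟩ := harm_dim k
  set V : Submodule ℝ (Lp ℝ 2 μ) :=
    Submodule.span ℝ {x | ∃ m < k, ∃ p : P3, p.IsHomogeneous m ∧ lapP p = 0 ∧ x = T p} with hV
  have hVH : V ≤ H.map T := by
    refine Submodule.span_le.2 ?_
    rintro x ⟨m, hm, p, hp, hl, rfl⟩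
    exact ⟨p, hH3 m hm p hp hl, rfl⟩
  have : FiniteDimensional ℝ V := Submodule.finiteDimensional_of_le hVH
  have hdim : Module.finrank ℝ V ≤ j :=
    ((Submodule.finrank_mono hVH).trans (Submodule.finrank_map_le T H)).trans (hH2.trans hkj)
  have hτ : (0 : ℝ) ≤ 1 / (2 * (2 * k + 1)) := by positivity
  have key : ∀ x : Lp ℝ 2 μ, ‖K (x - V.starProjection x)‖ ≤
      1 / (2 * (2 * k + 1)) * ‖x - V.starProjection x‖ := by
    intro x
    refine hdense.induction_on (p := fun x => ‖K (x - V.starProjection x)‖ ≤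
      1 / (2 * (2 * k + 1)) * ‖x - V.starProjection x‖) x
      (isClosed_le (by fun_prop) (by fun_prop)) fun p0 => ?_
    obtain ⟨p, hl, hp⟩ := D.SSph_harm hne c r hr hM p0
    have e0 : T p0 = T p := by rw [hTa, hTa, hp]
    set b : ℕ → Lp ℝ 2 μ := fun m => T (homogeneousComponent m p) with hb
    have hbo : ∀ m n, m ≠ n → inner ℝ (b m) (b n) = 0 := fun m n hmn =>
      horth _ _ m n (homogeneousComponent_isHomogeneous m p)
        (homogeneousComponent_isHomogeneous n p) (harm_component p hl m) (harm_component p hl n)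
        hmn
    set s := Finset.range (p.totalDegree + 1) with hs
    have e1 : T p = ∑ m ∈ s.filter (fun m => m < k), b m +
        ∑ m ∈ s.filter (fun m => ¬ m < k), b m := by
      rw [Finset.sum_filter_add_sum_filter_not, ← map_sum, sum_homogeneousComponent]
    have h1 : ∑ m ∈ s.filter (fun m => m < k), b m ∈ V :=
      Submodule.sum_mem _ fun m hm => Submodule.subset_span
        ⟨m, (Finset.mem_filter.1 hm).2, _, homogeneousComponent_isHomogeneous m p,
          harm_component p hl m, rfl⟩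
    have h2 : ∑ m ∈ s.filter (fun m => ¬ m < k), b m ∈ Vᗮ := by
      refine Submodule.sum_mem _ fun m hm => ?_
      rw [Submodule.mem_orthogonal]
      intro v hv
      induction hv using Submodule.span_induction with
      | mem x hx =>
        obtain ⟨n, hn, q, hq, hlq, rfl⟩ := hx
        exact horth _ _ n m hq (homogeneousComponent_isHomogeneous m p) hlq
          (harm_component p hl m) (by
            have := (Finset.mem_filter.1 hm).2
            omega)
      | zero => exact inner_zero_left _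
      | add x y _ _ hx hy => rw [inner_add_left, hx, hy, add_zero]
      | smul a x _ hx => rw [inner_smul_left, hx, mul_zero]
    have e2 : T p - V.starProjection (T p) = ∑ m ∈ s.filter (fun m => ¬ m < k), b m := by
      rw [Submodule.eq_starProjection_of_mem_orthogonal' h1 h2 e1]
      rw [sub_eq_iff_eq_add']
      exact e1
    rw [e0, e2, map_sum]
    rw [Finset.sum_congr rfl fun m _ => heig _ m (homogeneousComponent_isHomogeneous m p)
      (harm_component p hl m)]
    refine SSph_norm_le b hbo (fun m => 1 / (2 * (2 * m + 1))) _ _ hτ fun m hm => ⟨by positivity, ?_⟩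
    have : (k : ℝ) ≤ m := by exact_mod_cast not_lt.1 (Finset.mem_filter.1 hm).2
    exact one_div_le_one_div_of_le (by positivity) (by linarith)
  refine sv_le K V j hdim _ hτ fun φ hφ => ?_
  have := key φ
  rwa [(Submodule.starProjection_apply_eq_zero_iff V).2 hφ, sub_zero] at this

end Pool.Agent.H24Z.NP
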