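import Mathlib

set_option autoImplicit false

/-! A trace averaging lemma. -/

namespace Pool.Agent.H24Z.NP

open Module

theorem STrace_indep {V : Type*} [NormedAddCommGroup V] [InnerProductSpace ℝ V]
    {ι κ : Type*} [Fintype ι] [Fintype κ] (P : V →ₗ[ℝ] V →ₗ[ℝ] ℝ)
    (b : OrthonormalBasis ι ℝ V) (c : OrthonormalBasis κ ℝ V) :
    ∑ i, P (b i) (b i) = ∑ k, P (c k) (c k) := by
  have h1 : ∀ i, P (b i) (b i) = ∑ k, inner ℝ (c k) (b i) * P (c k) (b i) := by
    intro i
    have e : P (b i) (b i) = P (∑ k, inner ℝ (c k) (b i) • c k) (b i) := by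
      rw [c.sum_repr' (b i)]
    rw [e, map_sum, LinearMap.sum_apply]
    refine Finset.sum_congr rfl fun k _ => ?_
    rw [map_smul, LinearMap.smul_apply, smul_eq_mul]
  have h2 : ∀ k, P (c k) (c k) = ∑ i, inner ℝ (c k) (b i) * P (c k) (b i) := by
    intro k
    have e : P (c k) (c k) = P (c k) (∑ i, inner ℝ (b i) (c k) • b i) := by
      rw [b.sum_repr' (c k)]
    rw [e, map_sum]
    refine Finset.sum_congr rfl fun i _ => ?_
    rw [map_smul, smul_eq_mul, real_inner_comm]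
  simp_rw [h1, h2]
  exact Finset.sum_comm

theorem STrace_aux {V : Type*} [NormedAddCommGroup V] [InnerProductSpace ℝ V]
    [FiniteDimensional ℝ V] (P : V →ₗ[ℝ] V →ₗ[ℝ] ℝ)
    (hPp : ∀ x, 0 ≤ P x x) (R : Fin 4 → V →ₗ[ℝ] V)
    (hR : ∀ q x y, inner ℝ (R q x) (R q y) = inner ℝ x y)
    (hsum : ∀ x, ∑ q, P (R q x) (R q x) ≤ inner ℝ x x)
    (W : Submodule ℝ V) (N : ℕ) (hN : N ≤ finrank ℝ W) :
    ∃ w : Fin N → V, (∀ j, w j ∈ W) ∧ (∀ j k, inner ℝ (w j) (w k) = if j = k then (1 : ℝ) else 0) ∧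
      ∑ j, P (w j) (w j) ≤ (finrank ℝ V : ℝ) / 4 := by
  classical
  let c := stdOrthonormalBasis ℝ W
  let w : Fin N → V := fun j => (c (Fin.castLE hN j) : V)
  have hw : Orthonormal ℝ w := by
    have h1 : Orthonormal ℝ (fun j : Fin N => c (Fin.castLE hN j)) :=
      c.orthonormal.comp _ (Fin.castLE_injective hN)
    exact h1.comp_linearIsometry W.subtypeₗᵢ
  have hNV : N ≤ finrank ℝ V := hN.trans (Submodule.finrank_le W)
  let v : Fin (finrank ℝ V) → V := fun i => if h : (i : ℕ) < N then w ⟨i, h⟩ else 0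
  let s : Set (Fin (finrank ℝ V)) := {i | (i : ℕ) < N}
  have hv : Orthonormal ℝ (s.domRestrict v) := by
    have e : s.domRestrict v = w ∘ (fun i : s => (⟨(i.1 : ℕ), i.2⟩ : Fin N)) := by
      funext i
      have hi : ((i.1 : ℕ)) < N := i.2
      show v i.1 = w ⟨(i.1 : ℕ), i.2⟩
      exact dif_pos hi
    rw [e]
    refine hw.comp _ ?_
    intro i j hij
    apply Subtype.ext
    apply Fin.ext
    simpa using hij
  obtain ⟨b, hb⟩ := hv.exists_orthonormalBasis_extension_of_card_eq (by simp)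
  have hbw : ∀ j : Fin N, b (Fin.castLE hNV j) = w j := by
    intro j
    have hj : Fin.castLE hNV j ∈ s := by simp [s]
    rw [hb _ hj]
    simp [v]
  refine ⟨w, fun j => (c (Fin.castLE hN j)).2, fun j k => orthonormal_iff_ite.1 hw j k, ?_⟩
  have hle : ∑ j, P (w j) (w j) ≤ ∑ i, P (b i) (b i) := by
    have e : ∑ j, P (w j) (w j)
        = ∑ i ∈ Finset.univ.map (Fin.castLEEmb hNV), P (b i) (b i) := by
      rw [Finset.sum_map]
      refine Finset.sum_congr rfl fun j _ => ?_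
      simp [hbw]
    rw [e]
    exact Finset.sum_le_sum_of_subset_of_nonneg (Finset.subset_univ _) fun i _ _ => hPp _
  have hq : ∀ q, ∑ i, P (b i) (b i) = ∑ i, P (R q (b i)) (R q (b i)) := by
    intro q
    let L : V ≃ₗᵢ[ℝ] V := ((R q).isometryOfInner (hR q)).toLinearIsometryEquiv rfl
    have := STrace_indep P b (b.map L)
    simpa [L] using this
  have h4 : 4 * ∑ i, P (b i) (b i) ≤ (finrank ℝ V : ℝ) := by
    have e1 : 4 * ∑ i, P (b i) (b i) = ∑ q : Fin 4, ∑ i, P (R q (b i)) (R q (b i)) := by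
      rw [← Finset.sum_congr rfl fun q _ => hq q]
      simp
    rw [e1, Finset.sum_comm]
    calc ∑ i, ∑ q : Fin 4, P (R q (b i)) (R q (b i)) ≤ ∑ i : Fin (finrank ℝ V), (1 : ℝ) := by
          refine Finset.sum_le_sum fun i _ => (hsum _).trans ?_
          simp
      _ = _ := by simp
  linarith

theorem trace_avg {V : Type*} [AddCommGroup V] [Module ℝ V] [FiniteDimensional ℝ V]
    (I P : V →ₗ[ℝ] V →ₗ[ℝ] ℝ) (hIs : ∀ x y, I x y = I y x) (hIp : ∀ x, x ≠ 0 → 0 < I x x)
    (hPp : ∀ x, 0 ≤ P x x) (R : Fin 4 → V →ₗ[ℝ] V)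
    (hR : ∀ q x y, I (R q x) (R q y) = I x y) (hsum : ∀ x, ∑ q, P (R q x) (R q x) ≤ I x x)
    (W : Submodule ℝ V) (N : ℕ) (hN : N ≤ finrank ℝ W) :
    ∃ w : Fin N → V, (∀ j, w j ∈ W) ∧ (∀ j k, I (w j) (w k) = if j = k then 1 else 0) ∧
      ∑ j, P (w j) (w j) ≤ (finrank ℝ V : ℝ) / 4 := by
  let core : InnerProductSpace.Core ℝ V :=
    { inner := fun x y => I x y
      conj_inner_symm := fun x y => by simpa using hIs y x
      re_inner_nonneg := fun x => by
        by_cases hx : x = 0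
        · simp [hx]
        · simpa using (hIp x hx).le
      add_left := fun x y z => by simp
      smul_left := fun x y r => by simp
      definite := fun x hx => by
        by_contra h
        exact (hIp x h).ne' hx }
  letI : NormedAddCommGroup V := core.toNormedAddCommGroup
  letI : InnerProductSpace ℝ V := InnerProductSpace.ofCore core.toCore
  exact STrace_aux P hPp R hR hsum W N hN

end Pool.Agent.H24Z.NP
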