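import Pool.Agent.H24Z.NP.SAbs
import Pool.Agent.H24Z.NP.STrace
import Pool.Agent.H24Z.NP.SAlgB
import Pool.Agent.H24Z.NP.SQuat
import Pool.Agent.H24Z.NP.SMaj
import Pool.Agent.H24Z.NP.SSph
import Pool.Agent.H24Z.NP.DivC

set_option autoImplicit false

/-! Partial sums of singular values of the Neumann-Poincare operator. -/

namespace Pool.Agent.H24Z.NP

open MeasureTheory Filter Topology Set Real MvPolynomial Module

variable {Ω M : Set E3} {μ : Measure M} {ν : M → E3}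

lemma Data.ops (D : Data Ω M μ ν) [CompactSpace M] :
    ∃ (S T : C(M, ℝ) →L[ℝ] C(M, ℝ)) (B : C(M, ℝ) →L[ℝ] C(M, ℝ) →L[ℝ] ℝ),
      (∀ φ x, S φ x = ∫ y : M, ‖(x : E3) - y‖⁻¹ * φ y ∂μ) ∧
      (∀ φ x, T φ x = 1 / (4 * π) * ∫ y : M, kk ν x y * φ y ∂μ) ∧ IsCompactOperator T ∧
      (∀ φ ψ, B φ ψ = 1 / (4 * π) * ∫ x : M, φ x * ∫ y : M, ‖(x : E3) - y‖⁻¹ * ψ y ∂μ ∂μ) ∧
      (∀ φ ψ, B φ ψ = B ψ φ) ∧ (∀ φ ψ, B (T φ) ψ = B φ (T ψ)) ∧
      (∀ φ, B (T φ) φ ≤ 1 / 2 * B φ φ) := by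
  have := D.fin
  have hν := D.cont
  obtain ⟨C, hC0, hC⟩ := D.kk_bound
  obtain ⟨S, -, hS⟩ := D.exists_op (fun x y => ‖(x : E3) - y‖⁻¹)
    (fun x => (meas_inv_norm.comp (measurable_const.prodMk measurable_id)).aestronglyMeasurable) 1
    (fun x y => by simp) (fun x y h => by
      have : ‖(x : E3) - y‖ ≠ 0 := norm_ne_zero_iff.mpr (sub_ne_zero.mpr fun h0 =>
        h (Subtype.ext h0.symm))
      exact ContinuousAt.inv₀ (by fun_prop) this)
  obtain ⟨K, hKc, hK⟩ := D.exists_op (fun x y => kk ν x y)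
    (fun x => (D.kk_meas.comp (measurable_const.prodMk measurable_id)).aestronglyMeasurable) C hC
    (fun x y h => by
      have : ‖(x : E3) - y‖ ≠ 0 := norm_ne_zero_iff.mpr (sub_ne_zero.mpr fun h0 =>
        h (Subtype.ext h0.symm))
      unfold kk
      exact ContinuousAt.div (by fun_prop) (by fun_prop) (pow_ne_zero 3 this))
  have hint : ∀ φ : C(M, ℝ), Integrable φ μ := fun φ =>
    φ.continuous.integrable_of_hasCompactSupport (HasCompactSupport.of_compactSpace _)
  let I : C(M, ℝ) →L[ℝ] ℝ := LinearMap.mkContinuous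
    { toFun := fun φ => ∫ x, φ x ∂μ
      map_add' := fun φ ψ => integral_add (hint φ) (hint ψ)
      map_smul' := fun c φ => integral_const_mul c φ } (μ.real univ) (fun φ => by
        rw [mul_comm]
        exact norm_integral_le_of_norm_le_const
          (Eventually.of_forall fun x => φ.norm_coe_le_norm x))
  set a : ℝ := 1 / (4 * π) with ha
  have ha0 : 0 < a := by positivity
  let B : C(M, ℝ) →L[ℝ] C(M, ℝ) →L[ℝ] ℝ :=
    a • (ContinuousLinearMap.compL ℝ C(M, ℝ) C(M, ℝ) ℝ I).comp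
      ((ContinuousLinearMap.mul ℝ C(M, ℝ)).bilinearComp (ContinuousLinearMap.id ℝ _) S)
  have hB : ∀ φ ψ, B φ ψ = a * ∫ x : M, φ x * ∫ y : M, ‖(x : E3) - y‖⁻¹ * ψ y ∂μ ∂μ := by
    intro φ ψ
    simp_rw [← hS]
    rfl
  let T : C(M, ℝ) →L[ℝ] C(M, ℝ) := a • K
  have hT : ∀ φ x, T φ x = a * ∫ y : M, kk ν x y * φ y ∂μ := fun φ x => by
    rw [← hK]; rfl
  have hs : ∀ φ ψ, B φ ψ = B ψ φ := fun φ ψ => by
    rw [hB, hB, D.swap (fun p => ‖(p.1 : E3) - p.2‖⁻¹) meas_inv_norm 1 (fun x y _ => by simp)]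
    simp_rw [norm_sub_rev]
  have hBK : ∀ φ ψ, B ψ (T φ) = a * a * ∫ x, ψ x * ∫ z, JJ μ ν (x, z) * φ z ∂μ ∂μ := by
    intro φ ψ
    rw [hB, mul_assoc, ← integral_const_mul a (fun x => ψ x * ∫ z, JJ μ ν (x, z) * φ z ∂μ)]
    congr 2
    ext1 x
    rw [← D.comp_kernel, mul_left_comm, ← integral_const_mul a]
    congr 2
    ext1 y
    rw [hT]
    ring
  obtain ⟨CJ, hCJ⟩ := D.JJ_bound
  have hTs : ∀ φ ψ, B (T φ) ψ = B φ (T ψ) := fun φ ψ => by
    rw [hs, hBK, hBK, D.swap _ D.JJ_meas CJ hCJ]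
    congr 2
    ext1 z
    congr 1
    apply integral_congr_ae
    filter_upwards [D.ae_ne z] with x hx
    rw [JJ, JJ, D.green_sym x z fun h => hx (by rw [h])]
  refine ⟨S, T, B, hS, hT, hKc.smul a, hB, hs, hTs, fun φ => ?_⟩
  rw [hTs, hBK, hB]
  refine (mul_le_mul_of_nonneg_left (D.energy φ φ.continuous) (by positivity)).trans (le_of_eq ?_)
  rw [ha]
  field_simp
  ring

lemma cons_indep {H : Type*} [AddCommGroup H] [Module ℝ H] (K : H →ₗ[ℝ] H) {m : ℕ}
    (e : Fin m → H) (he : LinearIndependent ℝ e) (lam : Fin m → ℝ)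
    (h : ∀ i, K (e i) = lam i • e i) (t : ℝ) (ht : ∀ i, lam i ≠ t) (v : H) (hv : v ≠ 0)
    (hv' : K v = t • v) : LinearIndependent ℝ (Fin.cons v e : Fin (m + 1) → H) := by
  rw [linearIndependent_finCons]
  refine ⟨he, fun hmem => hv ?_⟩
  obtain ⟨c, rfl⟩ := (Submodule.mem_span_range_iff_exists_fun ℝ).mp hmem
  have h1 : ∑ i, (c i * (lam i - t)) • e i = 0 := by
    rw [map_sum, Finset.smul_sum, ← sub_eq_zero, ← Finset.sum_sub_distrib] at hv'
    rw [← hv']
    refine Finset.sum_congr rfl fun i _ => ?_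
    rw [map_smul, h]
    module
  have h2 := Fintype.linearIndependent_iff.mp he _ h1
  refine Finset.sum_eq_zero fun i _ => ?_
  rw [(mul_eq_zero.mp (h2 i)).resolve_right (sub_ne_zero.mpr (ht i)), zero_smul]

/-- eigenfunctions of the adjoint operator bound sums of singular values from below -/
lemma Data.sum_le_sv (D : Data Ω M μ ν) [CompactSpace M] (hM : M.Nonempty)
    {K : Lp ℝ 2 μ →L[ℝ] Lp ℝ 2 μ} (hK : IsNP μ ν K) {m : ℕ} (e : Fin m → C(M, ℝ))
    (he : LinearIndependent ℝ e) (lam : Fin m → ℝ)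
    (h : ∀ i (x : M), 1 / (4 * π) * ∫ y : M, kk ν x y * e i y ∂μ = lam i * e i x)
    (hl : ∀ i, lam i ≠ 1 / 2) :
    1 / 2 + ∑ i, lam i ≤ ∑ j ∈ Finset.range (m + 1), sv K j := by
  have := D.fin
  have := D.pos
  obtain ⟨S, T, B, hS, hT, -, hB, -, -, -⟩ := D.ops
  have hSinj : LinearMap.ker (S : C(M, ℝ) →ₗ[ℝ] C(M, ℝ)) = ⊥ := by
    rw [LinearMap.ker_eq_bot']
    intro φ hφ
    apply ContinuousMap.coe_injective
    apply D.newton_pd φ φ.continuous
    simp_rw [← hS]
    change S φ = 0 at hφ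
    simp [hφ]
  have hLinj : LinearMap.ker (ContinuousMap.toLp 2 μ ℝ : C(M, ℝ) →L[ℝ] Lp ℝ 2 μ).toLinearMap = ⊥ :=
    LinearMap.ker_eq_bot.mpr (ContinuousMap.toLp_injective μ)
  have h1 := (he.map' _ hSinj).map' _ hLinj
  have h2 : ∀ i, K (ContinuousMap.toLp 2 μ ℝ (S (e i))) =
      lam i • ContinuousMap.toLp 2 μ ℝ (S (e i)) := fun i => by
    apply hK.eigen
    intro x
    simp_rw [hS]
    rw [D.plemelj, ← integral_const_mul, ← integral_const_mul]
    congr 1
    ext1 y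
    rw [mul_left_comm, h, mul_left_comm]
  have h3 : K (ContinuousMap.toLp 2 μ ℝ (1 : C(M, ℝ))) =
      (1 / 2 : ℝ) • ContinuousMap.toLp 2 μ ℝ (1 : C(M, ℝ)) := by
    apply hK.eigen
    intro x
    have := D.green_harm 0 1 (by simp [lapP]) x
    simp only [ev, dn, map_one, one_mul, mul_one, Derivation.map_one_eq_zero, map_zero, mul_zero,
      Finset.sum_const_zero, integral_zero, sub_zero] at this
    simp only [ContinuousMap.one_apply, mul_one, this]
    field_simp
    ring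
  have h4 : ContinuousMap.toLp 2 μ ℝ (1 : C(M, ℝ)) ≠ 0 := by
    intro h0
    have h5 : (1 : C(M, ℝ)) = 0 := ContinuousMap.toLp_injective μ (h0.trans (map_zero _).symm)
    obtain ⟨x, hx⟩ := hM
    simpa using congrArg (fun f : C(M, ℝ) => f ⟨x, hx⟩) h5
  have h6 := weyl K (m + 1) _ (cons_indep K.toLinearMap _ h1 lam h2 (1 / 2) hl _ h4 h3)
    (Fin.cons (1 / 2) lam) (fun i => by
      refine Fin.cases ?_ (fun i => ?_) i
      · exact h3
      · exact h2 i)
  rwa [Fin.sum_univ_succ] at h6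

lemma ev_add (c : E3) (p q : P3) (x : E3) : ev c (p + q) x = ev c p x + ev c q x := by simp [ev]

lemma ev_smul (c : E3) (a : ℝ) (p : P3) (x : E3) : ev c (a • p) x = a * ev c p x := by simp [ev]

lemma ev_neg (c : E3) (p : P3) (x : E3) : ev c (-p) x = -ev c p x := by simp [ev]

lemma ev_zero (c x : E3) : ev c 0 x = 0 := by simp [ev]

theorem Data.lower (D : Data Ω M μ ν) (hM : M.Nonempty)
    {K : Lp ℝ 2 μ →L[ℝ] Lp ℝ 2 μ} (hK : IsNP μ ν K) (n : ℕ) :
    ((n : ℝ) + 1) / 2 ≤ ∑ j ∈ Finset.range ((n + 1) ^ 2), sv K j := by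
  have := D.fin
  have hcp : CompactSpace M := isCompact_iff_compactSpace.mp D.cp
  have hν := D.cont
  obtain ⟨C, hC0, hC⟩ := D.kk_bound
  obtain ⟨S, T, B, hS, hT, hTc, hB, hs, hTs, hA⟩ := D.ops
  obtain ⟨V, hVf, hVd, hVm, hVr, W, hWV, hWd, hW⟩ := alg_spaces n
  have hev : ∀ p : P3, Continuous (ev 0 p) := fun p => (ev_contDiff 0 p).continuous
  have hint : ∀ φ : C(M, ℝ), Integrable φ μ := fun φ =>
    φ.continuous.integrable_of_hasCompactSupport (HasCompactSupport.of_compactSpace _)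
  have ha0 : 0 < 1 / (4 * π) := by positivity
  have hpsd : ∀ φ, 0 ≤ B φ φ := fun φ => by
    rw [hB]; exact mul_nonneg ha0.le (D.newton_psd φ φ.continuous)
  let Nc : (Fin 4 → P3) →ₗ[ℝ] C(M, ℝ) :=
    { toFun := fun f => ⟨nc ν 0 f, by unfold nc; fun_prop⟩
      map_add' := fun f g => by
        ext y
        simp [nc, ev_add, mul_add, Finset.sum_add_distrib]
      map_smul' := fun a f => by
        ext y
        simp [nc, ev_smul, Finset.mul_sum, mul_left_comm] }
  have hIi : ∀ f g : Fin 4 → P3,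
      IntegrableOn (fun w => ∑ a : Fin 4, ev 0 (f a) w * ev 0 (g a) w) Ω := fun f g =>
    GreenA_intOn D (by fun_prop)
  let I0 : (Fin 4 → P3) →ₗ[ℝ] (Fin 4 → P3) →ₗ[ℝ] ℝ := LinearMap.mk₂ ℝ
    (fun f g => ∫ w in Ω, ∑ a : Fin 4, ev 0 (f a) w * ev 0 (g a) w)
    (fun f f' g => by
      rw [← integral_add (hIi f g) (hIi f' g)]
      simp [ev_add, add_mul, Finset.sum_add_distrib])
    (fun a f g => by
      rw [smul_eq_mul, ← integral_const_mul]
      simp [ev_smul, Finset.mul_sum, mul_assoc])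
    (fun f g g' => by
      rw [← integral_add (hIi f g) (hIi f g')]
      simp [ev_add, mul_add, Finset.sum_add_distrib])
    (fun a f g => by
      rw [smul_eq_mul, ← integral_const_mul]
      simp [ev_smul, Finset.mul_sum, mul_left_comm])
  have hI0 : ∀ f g, I0 f g = ∫ w in Ω, ∑ a : Fin 4, ev 0 (f a) w * ev 0 (g a) w := fun _ _ => rfl
  let P0 : (Fin 4 → P3) →ₗ[ℝ] (Fin 4 → P3) →ₗ[ℝ] ℝ := LinearMap.mk₂ ℝ
    (fun f g => B (Nc f) (Nc g)) (fun f f' g => by simp) (fun a f g => by simp)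
    (fun f g g' => by simp) (fun a f g => by simp)
  let R : Fin 4 → V →ₗ[ℝ] V := fun q =>
    { toFun := fun f => ⟨rq q f, hVr q f f.2⟩
      map_add' := fun f g => by
        apply Subtype.ext
        ext1 a
        fin_cases q <;> fin_cases a <;> simp [rq, add_comm]
      map_smul' := fun c f => by
        apply Subtype.ext
        ext1 a
        fin_cases q <;> fin_cases a <;> simp [rq] }
  have hΩ : Ω.Nonempty := by
    obtain ⟨x, hx⟩ := hM
    obtain ⟨ε, hε⟩ := (D.halfIn ⟨x, hx⟩ (-ν ⟨x, hx⟩) (by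
      rw [inner_neg_left, real_inner_self_eq_norm_sq, D.unit]; norm_num)).exists
    exact ⟨_, hε⟩
  obtain ⟨w, hwW, hwI, hwP⟩ := trace_avg (I0.compl₁₂ V.subtype V.subtype)
    (P0.compl₁₂ V.subtype V.subtype)
    (fun f g => by
      change I0 f g = I0 g f
      simp_rw [hI0, mul_comm])
    (fun f hf => by
      change 0 < I0 f f
      rw [hI0]
      have h0 : ∀ w, 0 ≤ ∑ a : Fin 4, ev 0 (f.1 a) w * ev 0 (f.1 a) w := fun w =>
        Finset.sum_nonneg fun a _ => mul_self_nonneg _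
      refine (integral_nonneg h0).lt_of_ne fun h1 => hf ?_
      have h2 := (setIntegral_eq_zero_iff_of_nonneg_ae (Eventually.of_forall h0) (hIi _ _)).mp
        h1.symm
      have h3 := Measure.eqOn_open_of_ae_eq h2 D.op (Continuous.continuousOn (by fun_prop))
        continuousOn_const
      apply Subtype.ext
      ext1 a
      refine ev_eq_zero 0 _ D.op hΩ fun x hx => ?_
      exact mul_self_eq_zero.mp ((Finset.sum_eq_zero_iff_of_nonneg
        fun a _ => mul_self_nonneg _).mp (h3 hx) a (Finset.mem_univ _)))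
    (fun f => hpsd _) R
    (fun q f g => by
      change I0 (rq q f) (rq q g) = I0 f g
      rw [hI0, hI0]
      congr 1
      ext1 w
      fin_cases q <;> simp [rq, Fin.sum_univ_succ, ev_neg] <;> ring)
    (fun f => by
      change ∑ q, B (Nc (rq q f)) (Nc (rq q f)) ≤ I0 f f
      simp_rw [hB, hI0, ← sq]
      rw [← Finset.mul_sum]
      refine (mul_le_mul_of_nonneg_left (D.quat 0 f (hVm f f.2)) ha0.le).trans (le_of_eq ?_)
      field_simp)
    (W.comap V.subtype) (n ^ 2 + 2 * n)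
    (hWd.trans (Submodule.comapSubtypeEquivOfLe hWV).finrank_eq.ge)
  choose hw0 h hh using fun j => hW (w j) (hwW j)
  have hlap : ∀ j, lapP (h j) = 0 := fun j => by
    have := hVm _ (w j).2 0
    simpa [rq, hh, lapP] using this
  have hdn : ∀ j (y : M), Nc (w j) y = dn ν 0 (h j) y := fun j y => by
    change nc ν 0 (w j) y = _
    simp [nc, dn, hh]
  let xc : Fin (n ^ 2 + 2 * n) → C(M, ℝ) := fun j =>
    ⟨fun y => ev 0 (h j) y, (hev _).comp continuous_subtype_val⟩
  obtain ⟨m, hm, e, lam, he, heig, hlam, hsum⟩ := abstract_sum B hs hpsd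
    (fun φ h => by
      rw [hB] at h
      exact ContinuousMap.coe_injective
        (D.newton_pd φ φ.continuous ((mul_eq_zero.mp h).resolve_left ha0.ne')))
    T hTs hTc hA (n ^ 2 + 2 * n) (fun j => Nc (w j)) (fun j φ => ∫ x, (xc j * φ) x ∂μ)
    (fun j => by simp)
    (fun j φ => by
      have h0 : ∫ x, (xc j * ((1 / 2 : ℝ) • φ - T φ)) x ∂μ =
          1 / 2 * ∫ x, (xc j * φ) x ∂μ - ∫ x, (xc j * T φ) x ∂μ := by
        rw [← integral_const_mul, ← integral_sub ((hint _).const_mul _) (hint _)]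
        congr 1
        ext1 x
        simp
        ring
      have h1 : ∫ x, (xc j * T φ) x ∂μ =
          1 / (4 * π) * ∫ z, φ z * (2 * π * xc j z - S (Nc (w j)) z) ∂μ := by
        change ∫ x, xc j x * T φ x ∂μ = _
        simp_rw [hT, mul_left_comm _ (1 / (4 * π))]
        rw [integral_const_mul, D.swap _ D.kk_meas C (fun x y _ => hC x y)]
        congr 2
        ext1 z
        rw [hS]
        simp_rw [hdn]
        change _ = φ z * (2 * π * ev 0 (h j) z - _)
        rw [← D.green_harm 0 (h j) (hlap j)]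
        congr 2
        ext1 y
        rw [mul_comm]
        rfl
      have h3 : ∫ z, φ z * (2 * π * xc j z - S (Nc (w j)) z) ∂μ =
          2 * π * ∫ x, (xc j * φ) x ∂μ - ∫ z, (φ * S (Nc (w j))) z ∂μ := by
        rw [← integral_const_mul, ← integral_sub ((hint _).const_mul _) (hint _)]
        congr 1
        ext1 z
        simp
        ring
      rw [h0, h1, h3, hB]
      simp_rw [← hS]
      change _ = 1 / (4 * π) * ∫ z, (φ * S (Nc (w j))) z ∂μ
      field_simp
      ring)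
    (fun j k => by
      rw [← hwI j k]
      change ∫ x, xc j x * Nc (w k) x ∂μ = I0 (w j) (w k)
      simp_rw [hdn]
      rw [hI0]
      simp_rw [Fin.sum_univ_succ (n := 3), hw0, hh, ev_zero, zero_mul, zero_add]
      exact D.dirichlet 0 (h j) (h k) (hlap k))
  have h5 := D.sum_le_sv hM hK e he lam (fun i x => by rw [← hT, heig]; rfl) hlam
  have h6 : ∑ j ∈ Finset.range (m + 1), sv K j ≤ ∑ j ∈ Finset.range ((n + 1) ^ 2), sv K j :=
    Finset.sum_le_sum_of_subset_of_nonneg (Finset.range_mono (by nlinarith))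
      fun j _ _ => sv_nonneg K j
  have h7 : (finrank ℝ V : ℝ) ≤ 2 * n * (n + 1) := by exact_mod_cast hVd
  change ∑ j, B (Nc (w j)) (Nc (w j)) ≤ _ at hwP
  push_cast at hsum
  nlinarith

theorem schatten_main (g : E3 → ℝ) (h : Dom g) (hne : Set.Nonempty {x | g x = 0})
    [PreconnectedSpace {x | g x = 0}] {p : ℝ} (hp : 2 < p) :
    (∃ K, IsNP (surf g) (fun y => nu g y) K) ∧
      ∀ K, IsNP (surf g) (fun y => nu g y) K → sphereVal p ≤ schatten K p ∧
        (schatten K p = sphereVal p ↔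
          ∃ c : E3, ∃ r : ℝ, 0 < r ∧ {x | g x = 0} = Metric.sphere c r) := by
  have D : Data {x | g x < 0} {x | g x = 0} (surf g) (fun y => nu g y) := h.data
  have hcp : CompactSpace {x | g x = 0} := isCompact_iff_compactSpace.mp D.cp
  refine ⟨D.exists_NP, fun K hK => ?_⟩
  obtain ⟨h1, h2⟩ := major_lower (sv K) (sv_nonneg K) (D.lower hne hK) hp
  refine ⟨h1, fun h3 => ?_, ?_⟩
  · obtain ⟨h4, h5⟩ := h2 h3
    obtain ⟨c, hc⟩ := (D.main hne).2 fun t φ hφ hφ' ht => by
      have := D.sum_le_sv hne hK (m := 1) (fun _ => φ) (linearIndependent_unique_iff.mpr hφ)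
        (fun _ => t) (fun _ => hφ') (fun _ => ht)
      simp only [Finset.univ_unique, Finset.sum_singleton, Finset.sum_range_succ,
        Finset.range_one, h4, h5] at this
      linarith
    exact ⟨c, h.sphere_of_radial hne (isPreconnected_iff_preconnectedSpace.mpr inferInstance) c
      fun y hy => hc ⟨y, hy⟩⟩
  · rintro ⟨c, r, hr, hs⟩
    obtain ⟨h4, -⟩ := h.nu_sphere c r hr hs
    exact le_antisymm (major_upper (sv K) (sv_nonneg K) (D.sphere_sv hne c r hr
      (fun y => mem_sphere_iff_norm.mp (hs ▸ y.2)) (fun y => h4 y y.2) K hK) hp) h1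

end Pool.Agent.H24Z.NP
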