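import Pool.Agent.H24Z.NP.Defs

set_option autoImplicit false

/-! Polynomials on three dimensional space, harmonic and quaternion monogenic ones. -/

namespace Pool.Agent.H24Z.NP

open MvPolynomial

abbrev P3 := MvPolynomial (Fin 3) ℝ

/-- a polynomial as a function, centred at `c` -/
noncomputable def ev (c : E3) (p : P3) (x : E3) : ℝ := MvPolynomial.eval (fun i => x i - c i) p

/-- the Laplacian of a polynomial -/
noncomputable def lapP (p : P3) : P3 := ∑ i : Fin 3, pderiv i (pderiv i p)

/-- right multiplication of `f 0 + f 1 i + f 2 j + f 3 k` by `1, i, j, k` -/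
def rq {A : Type*} [Neg A] (q : Fin 4) (f : Fin 4 → A) : Fin 4 → A :=
  ![f, ![-f 1, f 0, f 3, -f 2], ![-f 2, -f 3, f 0, f 1], ![-f 3, f 2, -f 1, f 0]] q

/-- quaternion valued polynomials killed by the Dirac operator -/
def Mono (f : Fin 4 → P3) : Prop := ∀ q : Fin 4, ∑ i : Fin 3, pderiv i (rq q f i.succ) = 0

/-- normal component of the vector part -/
noncomputable def nc {M : Set E3} (ν : M → E3) (c : E3) (f : Fin 4 → P3) (y : M) : ℝ :=
  ∑ i : Fin 3, ν y i * ev c (f i.succ) y

/-- normal derivative -/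
noncomputable def dn {M : Set E3} (ν : M → E3) (c : E3) (p : P3) (y : M) : ℝ :=
  ∑ i : Fin 3, ν y i * ev c (pderiv i p) y

end Pool.Agent.H24Z.NP
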