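import Pool.Agent.H24Z.NP.Defs

set_option autoImplicit false

/-! Weakly singular integrals on the surface. -/

namespace Pool.Agent.H24Z.NP

open MeasureTheory Filter Topology Set

variable {Ω M : Set E3} {μ : Measure M} {ν : M → E3}

theorem Weak_meas (x : E3) (r : ℝ) : MeasurableSet {y : M | ‖x - y‖ < r} :=
  (isOpen_lt (by fun_prop) continuous_const).measurableSet

theorem Weak_meas2 (x : E3) : Measurable fun y : M => ‖x - y‖⁻¹ :=
  (by fun_prop : Continuous fun y : M => ‖x - (y : E3)‖).measurable.inv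

theorem Data.ws_small (D : Data Ω M μ ν) : ∃ C : ℝ, ∀ (x : E3) (δ : ℝ), 0 < δ →
    ∫⁻ y in {y : M | ‖x - y‖ < δ}, ENNReal.ofReal ‖x - y‖⁻¹ ∂μ ≤ ENNReal.ofReal (C * δ) := by
  obtain ⟨C₀, hC₀⟩ := D.grow
  set C := max C₀ 0 with hC
  have hC0 : 0 ≤ C := le_max_right _ _
  have hg : ∀ (x : E3) (r : ℝ), 0 < r → μ {y : M | ‖x - y‖ < r} ≤ ENNReal.ofReal (C * r ^ 2) :=
    fun x r hr => (hC₀ x r hr).trans (ENNReal.ofReal_le_ofReal
      (mul_le_mul_of_nonneg_right (le_max_left _ _) (by positivity)))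
  refine ⟨16 * C, fun x δ hδ => ?_⟩
  set S : ℕ → Set M := fun k => {y : M | ‖x - y‖ < 2 * δ * (1 / 2) ^ k} with hS
  have hSm : ∀ k, MeasurableSet (S k) := fun k => Weak_meas x _
  have h1 : ∀ y : M, ({y : M | ‖x - y‖ < δ}).indicator (fun y : M => ENNReal.ofReal ‖x - y‖⁻¹) y ≤
      ∑' k, (S k).indicator (fun _ => ENNReal.ofReal (2 ^ (k + 1) / δ)) y := by
    intro y
    by_cases hy : ‖x - y‖ < δ
    · rw [indicator_of_mem (by exact hy)]
      rcases (norm_nonneg (x - y)).eq_or_lt with h0 | h0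
      · rw [← h0]; simp
      · obtain ⟨k, a, b⟩ := exists_nat_pow_near_of_lt_one (x := ‖x - y‖ / δ) (y := (1 / 2 : ℝ))
          (by positivity) (by rw [div_le_one hδ]; exact hy.le) (by norm_num) (by norm_num)
        refine le_trans ?_ (ENNReal.le_tsum k)
        rw [div_le_iff₀ hδ] at b
        rw [lt_div_iff₀ hδ] at a
        have hk : y ∈ S k := by
          show ‖x - y‖ < 2 * δ * (1 / 2) ^ k
          have : 0 < (1 / 2 : ℝ) ^ k * δ := by positivity
          linarith
        rw [indicator_of_mem hk]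
        apply ENNReal.ofReal_le_ofReal
        rw [inv_le_comm₀ h0 (by positivity)]
        refine le_trans (le_of_eq ?_) a.le
        rw [inv_div, one_div, inv_pow]; field_simp
    · rw [indicator_of_notMem (by exact hy)]; exact zero_le
  rw [← lintegral_indicator (Weak_meas x δ)]
  refine (lintegral_mono h1).trans ?_
  rw [lintegral_tsum fun k => (measurable_const.indicator (hSm k)).aemeasurable]
  have h2 : ∀ k, ∫⁻ y, (S k).indicator (fun _ => ENNReal.ofReal (2 ^ (k + 1) / δ)) y ∂μ ≤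
      ENNReal.ofReal (8 * C * δ * (1 / 2) ^ k) := by
    intro k
    rw [lintegral_indicator_const (hSm k)]
    refine (mul_le_mul_right (hg x _ (by positivity)) _).trans (le_of_eq ?_)
    rw [← ENNReal.ofReal_mul (by positivity)]
    congr 1
    have : (1 / 2 : ℝ) ^ k = (2 ^ k)⁻¹ := by rw [one_div, inv_pow]
    rw [this]; field_simp; ring
  refine (ENNReal.tsum_le_tsum h2).trans (le_of_eq ?_)
  rw [← ENNReal.ofReal_tsum_of_nonneg (fun k => by positivity)
    (summable_geometric_two.mul_left _), tsum_mul_left, tsum_geometric_two]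
  congr 1; ring

theorem Data.Weak_lb (D : Data Ω M μ ν) : ∃ C : ℝ, ∀ x : E3,
    ∫⁻ y : M, ENNReal.ofReal ‖x - y‖⁻¹ ∂μ ≤ ENNReal.ofReal C := by
  have := D.fin
  obtain ⟨C, hC⟩ := D.ws_small
  refine ⟨max C 0 + μ.real univ, fun x => ?_⟩
  rw [← lintegral_add_compl _ (Weak_meas x 1),
    ENNReal.ofReal_add (le_max_right _ _) measureReal_nonneg]
  refine add_le_add ((hC x 1 one_pos).trans (ENNReal.ofReal_le_ofReal (by simp))) ?_
  rw [ofReal_measureReal]
  calc _ ≤ ∫⁻ _ in {y : M | ‖x - y‖ < 1}ᶜ, 1 ∂μ := by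
        refine setLIntegral_mono' (Weak_meas x 1).compl fun y hy => ?_
        have : 1 ≤ ‖x - y‖ := not_lt.1 hy
        exact ENNReal.ofReal_le_one.2 (inv_le_one_of_one_le₀ this)
    _ ≤ μ univ := by
        rw [setLIntegral_one]; exact measure_mono (subset_univ _)

theorem Data.ws_int (D : Data Ω M μ ν) (x : E3) :
    Integrable (fun y : M => ‖x - y‖⁻¹) μ := by
  obtain ⟨C, hC⟩ := D.Weak_lb
  refine ⟨(Weak_meas2 x).aestronglyMeasurable, ?_⟩
  rw [hasFiniteIntegral_iff_ofReal (ae_of_all _ fun y => by positivity)]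
  exact (hC x).trans_lt ENNReal.ofReal_lt_top

theorem Data.ws_bound (D : Data Ω M μ ν) : ∃ C : ℝ, ∀ x : E3, ∫ y : M, ‖x - y‖⁻¹ ∂μ ≤ C := by
  obtain ⟨C, hC⟩ := D.Weak_lb
  refine ⟨max C 0, fun x => ?_⟩
  rw [integral_eq_lintegral_of_nonneg_ae (ae_of_all _ fun y => by positivity)
    (Weak_meas2 x).aestronglyMeasurable]
  refine (ENNReal.toReal_mono ENNReal.ofReal_ne_top (hC x)).trans ?_
  rw [ENNReal.toReal_ofReal']

theorem Data.ae_ne (D : Data Ω M μ ν) (x : E3) : ∀ᵐ y : M ∂μ, (y : E3) ≠ x := by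
  obtain ⟨C, hC⟩ := D.grow
  rw [ae_iff]
  have h1 : ∀ r : ℝ, 0 < r → μ {y : M | ¬ (y : E3) ≠ x} ≤ ENNReal.ofReal (C * r ^ 2) := by
    intro r hr
    refine le_trans (measure_mono fun y hy => ?_) (hC x r hr)
    have : (y : E3) = x := not_not.1 hy
    show ‖x - y‖ < r
    rw [this]; simpa using hr
  have h2 : Tendsto (fun r : ℝ => ENNReal.ofReal (C * r ^ 2)) (𝓝[>] 0) (𝓝 0) := by
    have : Continuous fun r : ℝ => ENNReal.ofReal (C * r ^ 2) :=
      ENNReal.continuous_ofReal.comp (by fun_prop)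
    have h3 := (this.tendsto 0).mono_left (nhdsWithin_le_nhds (s := Ioi 0))
    simpa using h3
  exact le_antisymm (ge_of_tendsto h2 (eventually_nhdsWithin_of_forall h1)) zero_le

theorem Data.ws_prod (D : Data Ω M μ ν) :
    Integrable (fun p : M × M => ‖(p.1 : E3) - p.2‖⁻¹) (μ.prod μ) := by
  obtain ⟨C, hC⟩ := D.Weak_lb
  have := D.fin
  have hm : Measurable fun p : M × M => ‖(p.1 : E3) - p.2‖⁻¹ :=
    (by fun_prop : Continuous fun p : M × M => ‖(p.1 : E3) - p.2‖).measurable.inv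
  refine ⟨hm.aestronglyMeasurable, ?_⟩
  rw [hasFiniteIntegral_iff_ofReal (ae_of_all _ fun y => by positivity),
    lintegral_prod _ hm.ennreal_ofReal.aemeasurable]
  refine (lintegral_mono (g := fun _ => ENNReal.ofReal C) fun x : M => hC x).trans_lt ?_
  rw [lintegral_const]
  exact ENNReal.mul_lt_top ENNReal.ofReal_lt_top (measure_lt_top _ _)

theorem Data.Weak_small (D : Data Ω M μ ν) : ∃ C : ℝ, 0 ≤ C ∧ ∀ (x : E3) (δ : ℝ), 0 < δ →
    ∫ y in {y : M | ‖x - y‖ < δ}, ‖x - y‖⁻¹ ∂μ ≤ C * δ := by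
  obtain ⟨C, hC⟩ := D.ws_small
  refine ⟨max C 0, le_max_right _ _, fun x δ hδ => ?_⟩
  rw [integral_eq_lintegral_of_nonneg_ae (ae_of_all _ fun y => by positivity)
    (Weak_meas2 x).aestronglyMeasurable]
  refine (ENNReal.toReal_mono ENNReal.ofReal_ne_top (hC x δ hδ)).trans ?_
  rw [ENNReal.toReal_ofReal']
  exact max_le (mul_le_mul_of_nonneg_right (le_max_left _ _) hδ.le) (by positivity)

/-- continuity in `L¹` of weakly singular kernels -/
theorem Data.ws_cont (D : Data Ω M μ ν) {α : Type*} [TopologicalSpace α]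
    [FirstCountableTopology α] (p : α → E3) (hp : Continuous p) (κ : α → M → ℝ)
    (hm : ∀ a, AEStronglyMeasurable (κ a) μ) (C : ℝ)
    (hb : ∀ a (y : M), |κ a y| ≤ C * ‖p a - y‖⁻¹)
    (hc : ∀ a₀ (y : M), (y : E3) ≠ p a₀ → ContinuousAt (fun a => κ a y) a₀) (a₀ : α) :
    Tendsto (fun a => ∫ y, |κ a y - κ a₀ y| ∂μ) (𝓝 a₀) (𝓝 0) := by
  have := D.fin
  obtain ⟨K, hK0, hK⟩ := D.Weak_small
  set C' := max C 0 with hC'
  have hC0 : 0 ≤ C' := le_max_right _ _
  have hb' : ∀ a (y : M), |κ a y| ≤ C' * ‖p a - y‖⁻¹ := fun a y =>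
    (hb a y).trans (mul_le_mul_of_nonneg_right (le_max_left _ _) (by positivity))
  have hi : ∀ a, Integrable (κ a) μ := fun a =>
    ((D.ws_int (p a)).const_mul C').mono' (hm a) (ae_of_all _ (hb' a))
  rw [Metric.tendsto_nhds]
  intro ε hε
  set δ := ε / (2 * (3 * C' * K + 1)) with hδ
  have hδ0 : 0 < δ := by positivity
  set B : Set M := {y : M | ‖p a₀ - y‖ < δ} with hB
  have hBm : MeasurableSet B := Weak_meas _ _
  have hnear : ∀ᶠ a in 𝓝 a₀, ‖p a - p a₀‖ < δ / 2 := by
    have := Metric.tendsto_nhds.1 (hp.tendsto a₀) (δ / 2) (by positivity)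
    simpa [dist_eq_norm] using this
  have hfar : Tendsto (fun a => ∫ y in Bᶜ, |κ a y - κ a₀ y| ∂μ) (𝓝 a₀) (𝓝 0) := by
    have := tendsto_integral_filter_of_dominated_convergence (μ := μ.restrict Bᶜ) (l := 𝓝 a₀)
      (F := fun a y => |κ a y - κ a₀ y|) (f := fun _ => (0 : ℝ))
      (fun _ => C' * (δ / 2)⁻¹ + C' * δ⁻¹)
      (Eventually.of_forall fun a => (((hi a).sub (hi a₀)).abs.aestronglyMeasurable).restrict)
      (hnear.mono fun a ha => (ae_restrict_iff' hBm.compl).2 (ae_of_all _ fun y hy => by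
        have h1 : δ ≤ ‖p a₀ - y‖ := not_lt.1 hy
        have h2 : δ / 2 ≤ ‖p a - y‖ := by
          have := norm_sub_le_norm_sub_add_norm_sub (p a₀) (p a) y
          rw [norm_sub_rev (p a₀) (p a)] at this
          linarith
        rw [Real.norm_eq_abs, abs_abs]
        refine (abs_sub _ _).trans (add_le_add ((hb' a y).trans ?_) ((hb' a₀ y).trans ?_))
        · exact mul_le_mul_of_nonneg_left (inv_anti₀ (by positivity) h2) hC0
        · exact mul_le_mul_of_nonneg_left (inv_anti₀ hδ0 h1) hC0))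
      (integrable_const _)
      ((ae_restrict_iff' hBm.compl).2 (ae_of_all _ fun y hy => by
        have h1 : δ ≤ ‖p a₀ - y‖ := not_lt.1 hy
        have h2 : (y : E3) ≠ p a₀ := by
          intro e; rw [e, sub_self, norm_zero] at h1; linarith
        have h3 := ((hc a₀ y h2).tendsto.sub_const (κ a₀ y)).abs
        simpa using h3))
    simpa using this
  filter_upwards [hnear, Metric.tendsto_nhds.1 hfar (ε / 2) (by positivity)] with a ha hf
  rw [Real.dist_eq, sub_zero] at hf ⊢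
  have hia : Integrable (fun y => |κ a y - κ a₀ y|) μ := ((hi a).sub (hi a₀)).abs
  rw [abs_of_nonneg (integral_nonneg fun y => abs_nonneg _),
    ← integral_add_compl hBm hia]
  have h1 : ∫ y in B, |κ a y - κ a₀ y| ∂μ ≤
      ∫ y in B, (C' * ‖p a - y‖⁻¹ + C' * ‖p a₀ - y‖⁻¹) ∂μ :=
    integral_mono hia.integrableOn
      (((D.ws_int _).const_mul C').add ((D.ws_int _).const_mul C')).integrableOn
      fun y => (abs_sub _ _).trans (add_le_add (hb' a y) (hb' a₀ y))
  rw [integral_add ((D.ws_int _).const_mul C').integrableOn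
    ((D.ws_int _).const_mul C').integrableOn, integral_const_mul, integral_const_mul] at h1
  have h2 : ∫ y in B, ‖p a - y‖⁻¹ ∂μ ≤ K * (2 * δ) := by
    refine le_trans (setIntegral_mono_set (D.ws_int _).integrableOn
      (ae_of_all _ fun y => by positivity) (LE.le.eventuallyLE fun y hy => ?_))
      (hK (p a) (2 * δ) (by positivity))
    have := norm_sub_le_norm_sub_add_norm_sub (p a) (p a₀) y
    have h3 : ‖p a₀ - y‖ < δ := hy
    show ‖p a - y‖ < 2 * δ
    linarith
  have h3 : ∫ y in B, ‖p a₀ - y‖⁻¹ ∂μ ≤ K * δ := hK (p a₀) δ hδ0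
  have h4 := mul_le_mul_of_nonneg_left h2 hC0
  have h5 := mul_le_mul_of_nonneg_left h3 hC0
  have h6 : (3 * C' * K + 1) * δ = ε / 2 := by rw [hδ]; field_simp
  have h7 := le_abs_self (∫ y in Bᶜ, |κ a y - κ a₀ y| ∂μ)
  nlinarith

/-- weakly singular kernels define compact operators on the continuous functions -/
theorem Data.exists_op (D : Data Ω M μ ν) [CompactSpace M] (κ : M → M → ℝ)
    (hm : ∀ x, AEStronglyMeasurable (κ x) μ) (C : ℝ)
    (hb : ∀ x y : M, |κ x y| ≤ C * ‖(x : E3) - y‖⁻¹)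
    (hc : ∀ x₀ y : M, y ≠ x₀ → ContinuousAt (fun x => κ x y) x₀) :
    ∃ T : C(M, ℝ) →L[ℝ] C(M, ℝ), IsCompactOperator T ∧
      ∀ (φ : C(M, ℝ)) (x : M), T φ x = ∫ y, κ x y * φ y ∂μ := by
  have := D.fin
  obtain ⟨K, hK⟩ := D.ws_bound
  set C' := max C 0 with hC'
  have hC0 : 0 ≤ C' := le_max_right _ _
  have hb' : ∀ a (y : M), |κ a y| ≤ C' * ‖(a : E3) - y‖⁻¹ := fun a y =>
    (hb a y).trans (mul_le_mul_of_nonneg_right (le_max_left _ _) (by positivity))
  have hi : ∀ a, Integrable (κ a) μ := fun a =>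
    ((D.ws_int (a : E3)).const_mul C').mono' (hm a) (ae_of_all _ (hb' a))
  have hi2 : ∀ (φ : C(M, ℝ)) a, Integrable (fun y => κ a y * φ y) μ := fun φ a =>
    (hi a).mul_bdd φ.continuous.aestronglyMeasurable (ae_of_all _ fun y => φ.norm_coe_le_norm y)
  have hw := D.ws_cont (fun x : M => (x : E3)) continuous_subtype_val κ hm C hb
    (fun a₀ y h => hc a₀ y fun e => h (congrArg Subtype.val e))
  have hest : ∀ (φ : C(M, ℝ)) (x x₀ : M),
      dist (∫ y, κ x y * φ y ∂μ) (∫ y, κ x₀ y * φ y ∂μ) ≤ ‖φ‖ * ∫ y, |κ x y - κ x₀ y| ∂μ := by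
    intro φ x x₀
    rw [Real.dist_eq, ← integral_sub (hi2 φ x) (hi2 φ x₀), ← integral_const_mul]
    refine abs_integral_le_integral_abs.trans (integral_mono ((hi2 φ x).sub (hi2 φ x₀)).abs
      (((hi x).sub (hi x₀)).abs.const_mul _) fun y => ?_)
    simp only
    rw [← sub_mul, abs_mul, mul_comm]
    exact mul_le_mul_of_nonneg_right (φ.norm_coe_le_norm y) (abs_nonneg _)
  have hcont : ∀ φ : C(M, ℝ), Continuous fun x => ∫ y, κ x y * φ y ∂μ := by
    intro φ
    rw [continuous_iff_continuousAt]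
    intro x₀
    rw [ContinuousAt, tendsto_iff_dist_tendsto_zero]
    refine squeeze_zero (fun _ => dist_nonneg) (fun x => hest φ x x₀) ?_
    simpa using (hw x₀).const_mul ‖φ‖
  have hbd : ∀ (φ : C(M, ℝ)) (x : M), |∫ y, κ x y * φ y ∂μ| ≤ C' * max K 0 * ‖φ‖ := by
    intro φ x
    refine abs_integral_le_integral_abs.trans ((integral_mono (hi2 φ x).abs
      (((D.ws_int (x : E3)).const_mul C').mul_const ‖φ‖) fun y => ?_).trans ?_)
    · simp only
      rw [abs_mul]
      exact mul_le_mul (hb' x y) (φ.norm_coe_le_norm y) (abs_nonneg _) (by positivity)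
    · rw [integral_mul_const, integral_const_mul]
      exact mul_le_mul_of_nonneg_right
        (mul_le_mul_of_nonneg_left ((hK x).trans (le_max_left _ _)) hC0) (norm_nonneg _)
  let L : C(M, ℝ) →ₗ[ℝ] C(M, ℝ) :=
    { toFun := fun φ => ⟨fun x => ∫ y, κ x y * φ y ∂μ, hcont φ⟩
      map_add' := fun φ ψ => by
        ext x
        simp only [ContinuousMap.coe_mk, ContinuousMap.add_apply, mul_add]
        exact integral_add (hi2 φ x) (hi2 ψ x)
      map_smul' := fun c φ => by
        ext x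
        simp only [ContinuousMap.coe_mk, ContinuousMap.smul_apply, smul_eq_mul, RingHom.id_apply]
        rw [← integral_const_mul]
        congr 1; ext y; ring }
  have hL : ∀ φ, ‖L φ‖ ≤ C' * max K 0 * ‖φ‖ := fun φ =>
    (ContinuousMap.norm_le _ (by positivity)).2 fun x => hbd φ x
  refine ⟨L.mkContinuous _ hL, ?_, fun φ x => rfl⟩
  set e := ContinuousMap.isometryEquivBoundedOfCompact M ℝ
  set A : Set (BoundedContinuousFunction M ℝ) := (fun φ => e (L φ)) '' Metric.closedBall 0 1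
    with hA
  have hA1 : IsCompact (closure A) := by
    refine BoundedContinuousFunction.arzela_ascoli
      (Icc (-(C' * max K 0)) (C' * max K 0)) isCompact_Icc A ?_ ?_
    · rintro f x ⟨φ, hφ, rfl⟩
      have h1 : ‖φ‖ ≤ 1 := by simpa using hφ
      have h2 : |∫ y, κ x y * φ y ∂μ| ≤ C' * max K 0 :=
        (hbd φ x).trans (mul_le_of_le_one_right (by positivity) h1)
      exact abs_le.1 h2
    · intro x₀
      rw [Metric.equicontinuousAt_iff_right]
      intro ε hε
      filter_upwards [(hw x₀).eventually (gt_mem_nhds hε)] with x hx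
      rintro ⟨f, φ, hφ, rfl⟩
      have h1 : ‖φ‖ ≤ 1 := by simpa using hφ
      rw [dist_comm]
      exact ((hest φ x x₀).trans (mul_le_of_le_one_left
        (integral_nonneg fun y => abs_nonneg _) h1)).trans_lt hx
  refine ⟨e.symm '' closure A, hA1.image e.symm.continuous, ?_⟩
  filter_upwards [Metric.closedBall_mem_nhds (0 : C(M, ℝ)) one_pos] with φ hφ
  exact ⟨e (L φ), subset_closure ⟨φ, hφ, rfl⟩, e.symm_apply_apply _⟩

theorem Data.UU_cont (D : Data Ω M μ ν) (j : Fin 3) : Continuous (UU μ ν j) := by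
  have hν : Continuous fun y : M => ν y j := by have := D.cont; fun_prop
  have hm : ∀ w : E3, AEStronglyMeasurable (fun y : M => ν y j / ‖w - y‖) μ := fun w =>
    (hν.measurable.div
      (by fun_prop : Continuous fun y : M => ‖w - (y : E3)‖).measurable).aestronglyMeasurable
  have hb : ∀ (w : E3) (y : M), |ν y j / ‖w - y‖| ≤ 1 * ‖w - y‖⁻¹ := by
    intro w y
    rw [div_eq_mul_inv, abs_mul, abs_of_nonneg (by positivity : 0 ≤ ‖w - (y : E3)‖⁻¹)]
    refine mul_le_mul_of_nonneg_right ?_ (by positivity)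
    rw [← D.unit y]
    exact PiLp.norm_apply_le (ν y) j
  have hi : ∀ w : E3, Integrable (fun y : M => ν y j / ‖w - y‖) μ := fun w =>
    ((D.ws_int w).const_mul 1).mono' (hm w) (ae_of_all _ (hb w))
  have hw := D.ws_cont (fun w : E3 => w) continuous_id (fun w y => ν y j / ‖w - y‖) hm 1 hb
    (fun a₀ y h => ContinuousAt.div continuousAt_const (by fun_prop)
      (norm_ne_zero_iff.2 (sub_ne_zero.2 h.symm)))
  rw [continuous_iff_continuousAt]
  intro x₀
  rw [ContinuousAt, tendsto_iff_dist_tendsto_zero]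
  refine squeeze_zero (fun _ => dist_nonneg) (fun x => ?_) (hw x₀)
  unfold UU
  rw [Real.dist_eq, ← integral_sub (hi x) (hi x₀)]
  exact abs_integral_le_integral_abs

end Pool.Agent.H24Z.NP
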